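import Mathlib

set_option autoImplicit false

/-!
Number of alternations in a list of Booleans, read after a starting symbol.
-/

namespace Pool.Agent.H41.Kc

/-- Number of changes in the sequence `a, l₀, l₁, …`. -/
def alt : Bool → List Bool → ℕ
  | _, [] => 0
  | a, b :: l => (if a = b then 0 else 1) + alt b l

@[simp] lemma alt_nil (a : Bool) : alt a [] = 0 := rfl

lemma alt_cons (a b : Bool) (l : List Bool) :
    alt a (b :: l) = (if a = b then 0 else 1) + alt b l := rfl

lemma alt_le_alt (a b : Bool) (l : List Bool) :
    alt a l ≤ (if a = b then 0 else 1) + alt b l := by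
  cases l with
  | nil => simp
  | cons c l =>
    simp only [alt_cons]
    cases a <;> cases b <;> cases c <;> simp <;> omega

lemma alt_sublist {l₁ l₂ : List Bool} (h : l₁.Sublist l₂) : ∀ a, alt a l₁ ≤ alt a l₂ := by
  induction h with
  | slnil => intro a; simp
  | cons b h ih =>
    intro a
    rw [alt_cons]
    exact (alt_le_alt a b _).trans (Nat.add_le_add_left (ih b) _)
  | cons_cons b h ih =>
    intro a
    rw [alt_cons, alt_cons]
    exact Nat.add_le_add_left (ih b) _

lemma alt_append (a : Bool) (l₁ l₂ : List Bool) :
    alt a (l₁ ++ l₂) = alt a l₁ + alt (l₁.getLastD a) l₂ := by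
  induction l₁ generalizing a with
  | nil => simp
  | cons b l ih =>
    rw [List.cons_append, alt_cons, alt_cons, ih b, List.getLastD_cons]
    ring

lemma alt_not (a : Bool) (l : List Bool) : alt (!a) (l.map (!·)) = alt a l := by
  induction l generalizing a with
  | nil => simp
  | cons b l ih =>
    rw [List.map_cons, alt_cons, alt_cons, ih b]
    cases a <;> cases b <;> simp

lemma alt_const {a : Bool} {l : List Bool} (h : ∀ b ∈ l, b = a) : alt a l = 0 := by
  induction l with
  | nil => simp
  | cons b l ih =>
    have hb : b = a := h b (by simp)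
    subst hb
    rw [alt_cons, ih (fun c hc => h c (by simp [hc]))]
    simp

lemma getLastD_const {a : Bool} {l : List Bool} (h : ∀ b ∈ l, b = a) : l.getLastD a = a := by
  induction l with
  | nil => simp
  | cons b l ih =>
    have hb : b = a := h b (by simp)
    subst hb
    rw [List.getLastD_cons]
    exact ih (fun c hc => h c (by simp [hc]))

/-- a constant stretch at the start equal to the starting symbol may be dropped -/
lemma alt_const_append {a : Bool} {l₁ : List Bool} (l₂ : List Bool) (h : ∀ b ∈ l₁, b = a) :
    alt a (l₁ ++ l₂) = alt a l₂ := by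
  rw [alt_append, alt_const h, getLastD_const h, zero_add]

/-- a constant stretch `b…b` before `b` may be dropped -/
lemma alt_append_const {a b : Bool} (l₁ : List Bool) {l₂ : List Bool} (l₃ : List Bool)
    (h : ∀ c ∈ l₂, c = b) :
    alt a (l₁ ++ l₂ ++ b :: l₃) = alt a (l₁ ++ b :: l₃) := by
  rw [List.append_assoc, alt_append, alt_append a l₁ (b :: l₃)]
  congr 1
  cases l₂ with
  | nil => simp
  | cons c l =>
    have hc : c = b := h c (by simp)
    subst hc
    rw [List.cons_append, alt_cons, alt_const_append _ (fun d hd => h d (by simp [hd])), alt_cons]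
    rw [alt_cons]
    simp

/-- parity of the number of changes -/
lemma alt_mod_two (a : Bool) (l : List Bool) :
    alt a l % 2 = if l.getLastD a = a then 0 else 1 := by
  induction l generalizing a with
  | nil => simp
  | cons b l ih =>
    rw [alt_cons, List.getLastD_cons, Nat.add_mod, ih b]
    cases a <;> cases b <;> cases (l.getLastD _) <;> simp

lemma alt_concat_mod (a b : Bool) (l : List Bool) :
    alt a (l ++ [b]) % 2 = if b = a then 0 else 1 := by
  rw [alt_mod_two]
  simp

end Pool.Agent.H41.Kc
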