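import Mathlib
import Pool.Agent.H41.Kc.Alt

set_option autoImplicit false

/-!
First-entrance coding of a list of bit strings.
-/

namespace Pool.Agent.H41.Kc

/-- Side of the point coded by `q` with respect to a line through the point coded by `x`;
`τ v` says that the slope `v` is larger than the slope of the line. -/
def sd (τ : ℤ → Bool) : List ℤ → List Bool → List Bool → Bool
  | v :: l, c :: x, d :: q => if c = d then sd τ l x q else (d == τ v)
  | _, _, _ => false

/-- first bit -/
def hb : List Bool → Bool
  | [] => false
  | c :: _ => c

/-- first bit of the first string -/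
def hL : List (List Bool) → Bool
  | [] => false
  | y :: _ => hb y

@[simp] lemma hb_cons (c : Bool) (z : List Bool) : hb (c :: z) = c := rfl

@[simp] lemma hL_cons (y : List Bool) (L : List (List Bool)) : hL (y :: L) = hb y := rfl

/-- The tails of the strings of `L` that start with `c`. -/
def sub (c : Bool) (L : List (List Bool)) : List (List Bool) :=
  (L.filter (fun z => hb z == c)).map List.tail

/-- The levels at which the first element of the current cluster lies in the other half. -/
def sec : List ℤ → List (List Bool) → List Bool → List (ℤ × Bool)
  | v :: l, L, c :: x =>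
    if hL L = c then sec l (sub c L) x
    else (v, hL L) :: sec l (sub c L) x
  | _, _, _ => []

lemma sec_fst_sublist (l : List ℤ) : ∀ (L : List (List Bool)) (x : List Bool),
    ((sec l L x).map Prod.fst).Sublist l := by
  induction l with
  | nil => intro L x; simp [sec]
  | cons v l ih =>
    intro L x
    cases x with
    | nil => simp [sec]
    | cons c x =>
      unfold sec
      split_ifs
      · exact (ih _ _).cons v
      · simpa using (ih (sub c L) x)

lemma mem_sub {c : Bool} {L : List (List Bool)} {x : List Bool} (h : (c :: x) ∈ L) :
    x ∈ sub c L := by
  unfold sub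
  exact List.mem_map.mpr ⟨c :: x, List.mem_filter.mpr ⟨h, by simp⟩, rfl⟩

lemma exists_of_mem_sub {c : Bool} {L : List (List Bool)} {n : ℕ}
    (hL : ∀ z ∈ L, z.length = n + 1) {x : List Bool} (h : x ∈ sub c L) : (c :: x) ∈ L := by
  unfold sub at h
  obtain ⟨z, hz, rfl⟩ := List.mem_map.mp h
  obtain ⟨hz1, hz2⟩ := List.mem_filter.mp hz
  cases z with
  | nil => simpa using hL _ hz1
  | cons d y =>
    have : d = c := by simpa using hz2
    subst this
    simpa using hz1

lemma sub_length {c : Bool} {L : List (List Bool)} {n : ℕ}
    (hL : ∀ z ∈ L, z.length = n + 1) {x : List Bool} (h : x ∈ sub c L) : x.length = n := by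
  have := hL _ (exists_of_mem_sub hL h)
  simpa using this

lemma sub_nodup {c : Bool} {L : List (List Bool)} {n : ℕ}
    (hL : ∀ z ∈ L, z.length = n + 1) (h : L.Nodup) : (sub c L).Nodup := by
  unfold sub
  refine List.Nodup.map_on ?_ (h.filter _)
  intro x hx y hy hxy
  obtain ⟨hx1, hx2⟩ := List.mem_filter.mp hx
  obtain ⟨hy1, hy2⟩ := List.mem_filter.mp hy
  cases x with
  | nil => simpa using hL _ hx1
  | cons a x =>
    cases y with
    | nil => simpa using hL _ hy1
    | cons b y =>
      simp at hx2 hy2 hxy
      subst hx2 hy2 hxy
      rfl

lemma length_sub_add (L : List (List Bool)) :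
    L.length = (sub false L).length + (sub true L).length := by
  unfold sub
  rw [List.length_map, List.length_map]
  induction L with
  | nil => simp
  | cons z L ih =>
    rw [List.filter_cons, List.filter_cons, List.length_cons]
    cases hb z <;> simp at ih ⊢ <;> omega

/-- counting: few second steps force few elements -/
lemma length_le_of_sec (l : List ℤ) : ∀ (L : List (List Bool)) (M : ℕ), L.Nodup →
    (∀ z ∈ L, z.length = l.length) → (∀ x ∈ L, (sec l L x).length ≤ M) →
    L.length ≤ (l.length + 1) ^ M := by
  induction l with
  | nil =>
    intro L M hn hl _
    simp only [List.length_nil, zero_add, one_pow]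
    have h0 : ∀ z ∈ L, z = [] := fun z hz => List.length_eq_zero_iff.mp (hl z hz)
    rcases L with _ | ⟨a, _ | ⟨b, L⟩⟩
    · simp
    · simp
    · exfalso
      have ha := h0 a (by simp)
      have hb := h0 b (by simp)
      subst ha hb
      simp at hn
  | cons v l ih =>
    intro L M hn hl hs
    rcases L with _ | ⟨y, L'⟩
    · simp
    set L := y :: L' with hLdef
    have hl' : ∀ z ∈ L, z.length = l.length + 1 := by simpa using hl
    set d := hb y with hd
    -- the class of `y`
    have h1 : (sub d L).length ≤ (l.length + 1) ^ M := by
      refine ih _ M (sub_nodup hl' hn) (fun z hz => sub_length hl' hz) ?_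
      intro x hx
      have hx' := exists_of_mem_sub hl' hx
      have := hs _ hx'
      have he : sec (v :: l) L (d :: x) = sec l (sub d L) x := by
        simp [sec, hLdef, hd]
      rwa [he] at this
    -- the other class
    have h2 : (sub (!d) L).length ≤ (l.length + 1) ^ (M - 1) ∧ (M = 0 → (sub (!d) L).length = 0) := by
      have key : ∀ x ∈ sub (!d) L, (sec l (sub (!d) L) x).length + 1 ≤ M := by
        intro x hx
        have hx' := exists_of_mem_sub hl' hx
        have := hs _ hx'
        have he : sec (v :: l) L ((!d) :: x) = (v, d) :: sec l (sub (!d) L) x := by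
          simp [sec, hLdef, hd]
        rw [he] at this
        simpa using this
      constructor
      · refine ih _ (M - 1) (sub_nodup hl' hn) (fun z hz => sub_length hl' hz) ?_
        intro x hx
        have := key x hx
        omega
      · intro hM
        rcases h : sub (!d) L with _ | ⟨x, _⟩
        · simp
        · have := key x (by rw [h]; simp)
          omega
    have hlen : L.length = (sub d L).length + (sub (!d) L).length := by
      rw [length_sub_add L]
      cases d
      · rfl
      · exact Nat.add_comm _ _
    rcases Nat.eq_zero_or_pos M with hM | hM
    · subst hM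
      rw [hlen, h2.2 rfl]
      simpa using h1
    · obtain ⟨M', rfl⟩ : ∃ M', M = M' + 1 := ⟨M - 1, by omega⟩
      have h2' := h2.1
      simp only [Nat.add_sub_cancel] at h2'
      have h3 : (l.length + 1) ^ M' ≤ (l.length + 2) ^ M' := Nat.pow_le_pow_left (by omega) _
      calc L.length = (sub d L).length + (sub (!d) L).length := hlen
        _ ≤ (l.length + 1) ^ (M' + 1) + (l.length + 1) ^ M' := Nat.add_le_add h1 h2'
        _ = (l.length + 1) ^ M' * (l.length + 2) := by ring
        _ ≤ (l.length + 2) ^ M' * (l.length + 2) := Nat.mul_le_mul_right _ h3
        _ = ((v :: l).length + 1) ^ (M' + 1) := by simp [pow_succ]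

/-- the sides of the successive first entrances occur, in order, among the sides of `L` -/
lemma sec_map_sublist (τ : ℤ → Bool) (l : List ℤ) : ∀ (L : List (List Bool)) (x : List Bool),
    (∀ z ∈ L, z.length = l.length) → x ∈ L →
    ((sec l L x).map (fun p => (p.2 == τ p.1))).Sublist (L.map (sd τ l x)) := by
  induction l with
  | nil => intro L x _ _; simp [sec]
  | cons v l ih =>
    intro L x hl hx
    have hl' : ∀ z ∈ L, z.length = l.length + 1 := by simpa using hl
    cases x with
    | nil => simp [sec]
    | cons c x =>
      have hx' : x ∈ sub c L := mem_sub hx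
      have ih' := ih (sub c L) x (fun z hz => sub_length hl' hz) hx'
      -- the sides in the cluster are a sublist of the sides
      have hsub : ∀ L₀ : List (List Bool), (∀ z ∈ L₀, z.length = l.length + 1) →
          ((sub c L₀).map (sd τ l x)).Sublist (L₀.map (sd τ (v :: l) (c :: x))) := by
        intro L₀ hL₀
        have h1 : (sub c L₀).map (sd τ l x) =
            (L₀.filter (fun z => hb z == c)).map (sd τ (v :: l) (c :: x)) := by
          unfold sub
          rw [List.map_map]
          apply List.map_congr_left
          intro z hz
          obtain ⟨hz1, hz2⟩ := List.mem_filter.mp hz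
          cases z with
          | nil => simpa using hL₀ _ hz1
          | cons d q =>
            have : d = c := by simpa using hz2
            subst this
            simp [sd]
        rw [h1]
        exact List.filter_sublist.map _
      rcases L with _ | ⟨y, L'⟩
      · simp at hx
      unfold sec
      split_ifs with hc
      · exact ih'.trans (hsub _ hl')
      · simp only [hL_cons] at hc ⊢
        have hy : y.length = l.length + 1 := hl' y (by simp)
        rcases y with _ | ⟨d, q⟩
        · simp at hy
        · simp only [hb_cons] at hc ⊢
          have hsub' : sub c ((d :: q) :: L') = sub c L' := by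
            unfold sub
            simp [hc]
          rw [hsub'] at ih' ⊢
          have hL' : ∀ z ∈ L', z.length = l.length + 1 := fun z hz => hl' z (by simp [hz])
          have h3 := ih'.trans (hsub L' hL')
          have h4 : sd τ (v :: l) (c :: x) (d :: q) = (d == τ v) := by
            simp [sd, Ne.symm hc]
          rw [List.map_cons, List.map_cons, h4]
          exact h3.cons_cons _

end Pool.Agent.H41.Kc
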