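import Mathlib
import Pool.Agent.H41.Kc.Alt

set_option autoImplicit false

/-!
The recursive permutation of slopes.
-/

namespace Pool.Agent.H41.Kc

/-- The value `v` is at least the threshold `t`. -/
def thr (t v : ℤ) : Bool := decide (t ≤ v)

/-- the map placing a reversed copy into block `i` -/
def blk (m d i : ℕ) (v : ℤ) : ℤ := (i : ℤ) * (m : ℤ) ^ d + ((m : ℤ) ^ d - 1 - v)

/-- The list of slopes. -/
def Phi (m : ℕ) : ℕ → List ℤ
  | 0 => [0]
  | d + 1 => (List.range m).flatMap (fun i : ℕ => (Phi m d).map (blk m d i))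

lemma length_Phi (m d : ℕ) : (Phi m d).length = m ^ d := by
  induction d with
  | zero => simp [Phi]
  | succ d ih => simp [Phi, List.length_flatMap, ih, pow_succ, mul_comm]

lemma mem_Phi {m : ℕ} (hm : 1 ≤ m) : ∀ {d : ℕ} {v : ℤ}, v ∈ Phi m d → 0 ≤ v ∧ v < (m : ℤ) ^ d := by
  intro d
  induction d with
  | zero => intro v hv; simp [Phi] at hv; subst hv; simp
  | succ d ih =>
    intro v hv
    simp only [Phi, List.mem_flatMap, List.mem_range, List.mem_map] at hv
    obtain ⟨i, hi, u, hu, rfl⟩ := hv
    obtain ⟨h1, h2⟩ := ih hu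
    unfold blk
    have hi' : (i : ℤ) + 1 ≤ m := by exact_mod_cast hi
    have hpow : (0 : ℤ) < (m : ℤ) ^ d := by positivity
    constructor
    · have : 0 ≤ (i : ℤ) * (m : ℤ) ^ d := by positivity
      omega
    · have h3 : ((i : ℤ) + 1) * (m : ℤ) ^ d ≤ m * (m : ℤ) ^ d :=
        mul_le_mul_of_nonneg_right hi' hpow.le
      rw [pow_succ]
      nlinarith

lemma nodup_Phi {m : ℕ} (hm : 1 ≤ m) (d : ℕ) : (Phi m d).Nodup := by
  induction d with
  | zero => simp [Phi]
  | succ d ih =>
    rw [Phi, List.nodup_flatMap]
    constructor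
    · intro i _
      refine ih.map ?_
      intro a b hab
      simp only [blk] at hab
      omega
    · have hp := List.nodup_range (n := m)
      refine hp.imp_of_mem ?_
      intro i i' _ _ hne
      intro v hv hv'
      simp only [List.mem_map] at hv hv'
      obtain ⟨u, hu, rfl⟩ := hv
      obtain ⟨u', hu', he⟩ := hv'
      unfold blk at he
      obtain ⟨h1, h2⟩ := mem_Phi hm hu
      obtain ⟨h3, h4⟩ := mem_Phi hm hu'
      have hpow : (0 : ℤ) < (m : ℤ) ^ d := by positivity
      apply hne
      have : (i : ℤ) = i' := by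
        by_contra hcon
        rcases lt_or_gt_of_ne hcon with h | h
        · have h5 : (i : ℤ) + 1 ≤ i' := h
          have h6 : ((i : ℤ) + 1) * (m : ℤ) ^ d ≤ i' * (m : ℤ) ^ d :=
            mul_le_mul_of_nonneg_right h5 hpow.le
          nlinarith
        · have h5 : (i' : ℤ) + 1 ≤ i := h
          have h6 : ((i' : ℤ) + 1) * (m : ℤ) ^ d ≤ i * (m : ℤ) ^ d :=
            mul_le_mul_of_nonneg_right h5 hpow.le
          nlinarith
      exact_mod_cast this

lemma Phi_succ (m d : ℕ) :
    Phi m (d + 1) = (List.range m).flatMap (fun i => (Phi m d).map (blk m d i)) := rfl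

lemma thr_blk (m d i : ℕ) (t v : ℤ) :
    thr ((i : ℤ) * (m : ℤ) ^ d + ((m : ℤ) ^ d - t)) (blk m d i v) = !(thr t v) := by
  unfold thr blk
  by_cases h : t ≤ v
  · simp only [h, decide_true, Bool.not_true, decide_eq_false_iff_not]; omega
  · simp only [h, decide_false, Bool.not_false, decide_eq_true_eq]; omega

lemma sublist_flatMap_range {α : Type*} (f : ℕ → List α) : ∀ (n : ℕ) (L : List α),
    L.Sublist ((List.range n).flatMap f) →
    ∃ g : ℕ → List α, (∀ i, (g i).Sublist (f i)) ∧ L = (List.range n).flatMap g := by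
  intro n
  induction n with
  | zero =>
    intro L hL
    refine ⟨fun _ => [], fun i => List.nil_sublist _, ?_⟩
    simpa using hL
  | succ n ih =>
    intro L hL
    rw [List.range_succ, List.flatMap_append, List.sublist_append_iff] at hL
    obtain ⟨L₁, L₂, rfl, h1, h2⟩ := hL
    obtain ⟨g, hg, rfl⟩ := ih L₁ h1
    refine ⟨fun i => if i = n then L₂ else g i, ?_, ?_⟩
    · intro i
      by_cases hi : i = n
      · subst hi
        simpa using h2
      · simpa [hi] using hg i
    · rw [List.range_succ, List.flatMap_append]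
      congr 1
      · apply List.flatMap_congr
        intro i hi
        have : i ≠ n := by
          have := List.mem_range.mp hi
          omega
        simp [this]
      · simp

/-- splitting a concatenation over `range n` at `i` -/
lemma flatMap_range_split {α : Type*} (f : ℕ → List α) {n i : ℕ} (hi : i < n) :
    (List.range n).flatMap f = (List.range i).flatMap f ++ f i ++
      (List.range' (i + 1) (n - (i + 1))).flatMap f := by
  have h : List.range n = List.range i ++ [i] ++ List.range' (i + 1) (n - (i + 1)) := by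
    rw [List.range_eq_range', List.range_eq_range']
    have h1 : List.range' 0 i ++ [i] = List.range' 0 (i + 1) := by
      rw [List.range'_concat]; simp
    rw [h1]
    have h2 := List.range'_append (s := 0) (m := i + 1) (n := n - (i + 1)) (step := 1)
    simp only [Nat.one_mul, Nat.zero_add] at h2
    rw [h2]
    congr 1
    omega
  rw [h, List.flatMap_append, List.flatMap_append]
  simp

section

variable {m d : ℕ} (hm : 1 ≤ m) (g : ℕ → List ℤ) (hg : ∀ i, (g i).Sublist (Phi m d))

include hm hg

/-- thresholds of the reversed copy in block `i`: the Boolean list of the whole concatenation -/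
lemma map_thr_split {i : ℕ} (hi : i < m) {t : ℤ} (h0 : 0 ≤ t) (h1 : t ≤ (m : ℤ) ^ d) :
    ∃ F T : List Bool, (∀ b ∈ F, b = false) ∧ (∀ b ∈ T, b = true) ∧
      ((∃ i' < i, g i' ≠ []) → F ≠ []) ∧ ((∃ i', i < i' ∧ i' < m ∧ g i' ≠ []) → T ≠ []) ∧
      ((List.range m).flatMap (fun i => (g i).map (blk m d i))).map
        (thr ((i : ℤ) * (m : ℤ) ^ d + ((m : ℤ) ^ d - t))) =
      F ++ ((g i).map (thr t)).map (!·) ++ T := by
  have hpow : (0 : ℤ) < (m : ℤ) ^ d := by positivity
  refine ⟨((List.range i).flatMap (fun i => (g i).map (blk m d i))).map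
        (thr ((i : ℤ) * (m : ℤ) ^ d + ((m : ℤ) ^ d - t))),
    ((List.range' (i + 1) (m - (i + 1))).flatMap (fun i => (g i).map (blk m d i))).map
        (thr ((i : ℤ) * (m : ℤ) ^ d + ((m : ℤ) ^ d - t))), ?_, ?_, ?_, ?_, ?_⟩
  · intro b hb
    simp only [List.mem_map, List.mem_flatMap, List.mem_range] at hb
    obtain ⟨w, ⟨i', hi', v, hv, rfl⟩, rfl⟩ := hb
    obtain ⟨h3, h4⟩ := mem_Phi hm ((hg i').subset hv)
    have h5 : ((i' : ℤ) + 1) * (m : ℤ) ^ d ≤ i * (m : ℤ) ^ d :=
      mul_le_mul_of_nonneg_right (by exact_mod_cast hi') hpow.le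
    unfold thr blk
    simp only [decide_eq_false_iff_not, not_le]
    nlinarith
  · intro b hb
    simp only [List.mem_map, List.mem_flatMap, List.mem_range'_1] at hb
    obtain ⟨w, ⟨i', hi', v, hv, rfl⟩, rfl⟩ := hb
    obtain ⟨h3, h4⟩ := mem_Phi hm ((hg i').subset hv)
    have h5 : ((i : ℤ) + 1) * (m : ℤ) ^ d ≤ i' * (m : ℤ) ^ d :=
      mul_le_mul_of_nonneg_right (by exact_mod_cast hi'.1) hpow.le
    unfold thr blk
    simp only [decide_eq_true_eq]
    nlinarith
  · rintro ⟨i', hi', hne⟩ h
    obtain ⟨v, hv⟩ := List.exists_mem_of_ne_nil _ hne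
    have : thr ((i : ℤ) * (m : ℤ) ^ d + ((m : ℤ) ^ d - t)) (blk m d i' v) ∈
        (((List.range i).flatMap (fun i => (g i).map (blk m d i))).map
        (thr ((i : ℤ) * (m : ℤ) ^ d + ((m : ℤ) ^ d - t)))) := by
      apply List.mem_map_of_mem
      rw [List.mem_flatMap]
      exact ⟨i', List.mem_range.mpr hi', List.mem_map_of_mem hv⟩
    rw [h] at this
    simp at this
  · rintro ⟨i', hi', hi'm, hne⟩ h
    obtain ⟨v, hv⟩ := List.exists_mem_of_ne_nil _ hne
    have : thr ((i : ℤ) * (m : ℤ) ^ d + ((m : ℤ) ^ d - t)) (blk m d i' v) ∈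
        (((List.range' (i + 1) (m - (i + 1))).flatMap (fun i => (g i).map (blk m d i))).map
        (thr ((i : ℤ) * (m : ℤ) ^ d + ((m : ℤ) ^ d - t)))) := by
      apply List.mem_map_of_mem
      rw [List.mem_flatMap]
      refine ⟨i', ?_, List.mem_map_of_mem hv⟩
      rw [List.mem_range'_1]
      omega
    rw [h] at this
    simp at this
  · rw [flatMap_range_split _ hi, List.map_append, List.map_append]
    congr 2
    rw [List.map_map, List.map_map]
    apply List.map_congr_left
    intro v _
    exact thr_blk m d i t v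

end

/-- crossing numbers of the permutation -/
lemma crossing_Phi {m : ℕ} (hm : 1 ≤ m) : ∀ d : ℕ, ∀ t : ℤ,
    alt true ((Phi m d).map (thr t) ++ [false]) ≤ 2 * d + 1 := by
  intro d
  induction d with
  | zero =>
    intro t
    simp only [Phi, List.map_cons, List.map_nil, List.cons_append, List.nil_append, alt_cons,
      alt_nil]
    cases thr t 0 <;> simp
  | succ d ih =>
    intro t
    have hpow : (0 : ℤ) < (m : ℤ) ^ d := by positivity
    -- values are in `[0, m^(d+1))`
    by_cases h0 : t < 0
    · have : ∀ b ∈ (Phi m (d + 1)).map (thr t), b = true := by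
        intro b hb
        obtain ⟨v, hv, rfl⟩ := List.mem_map.mp hb
        have := mem_Phi hm hv
        unfold thr
        simp only [decide_eq_true_eq]
        omega
      rw [alt_const_append _ this]
      simp [alt_cons]
    by_cases h1 : (m : ℤ) ^ (d + 1) ≤ t
    · have : ∀ b ∈ (Phi m (d + 1)).map (thr t), b = false := by
        intro b hb
        obtain ⟨v, hv, rfl⟩ := List.mem_map.mp hb
        have := mem_Phi hm hv
        unfold thr
        simp only [decide_eq_false_iff_not]
        omega
      have h2 := alt_append_const (a := true) [] [] this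
      simp only [List.nil_append] at h2
      rw [h2]
      simp [alt_cons]
    -- the block containing `t`
    push Not at h0 h1
    set i : ℤ := t / (m : ℤ) ^ d with hi
    have hi0 : 0 ≤ i := Int.ediv_nonneg h0 hpow.le
    have hi1 : i < m := by
      rw [hi]
      apply Int.ediv_lt_of_lt_mul hpow
      rw [pow_succ, mul_comm] at h1
      exact h1
    obtain ⟨i', hi'⟩ := Int.eq_ofNat_of_zero_le hi0
    have hi'm : i' < m := by
      have : (i' : ℤ) < m := by rw [← hi']; exact hi1
      exact_mod_cast this
    set t' : ℤ := (m : ℤ) ^ d - t % (m : ℤ) ^ d with ht'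
    have hmod0 := Int.emod_nonneg t hpow.ne'
    have hmod1 := Int.emod_lt_of_pos t hpow
    have ht : t = (i' : ℤ) * (m : ℤ) ^ d + ((m : ℤ) ^ d - t') := by
      have := Int.mul_ediv_add_emod t ((m : ℤ) ^ d)
      rw [ht', ← hi', hi]
      linarith [mul_comm ((m : ℤ) ^ d) (t / (m : ℤ) ^ d)]
    obtain ⟨F, T, hF, hT, -, -, heq⟩ := map_thr_split hm (fun _ => Phi m d)
      (fun _ => List.Sublist.refl _) hi'm (t := t') (by omega) (by omega)
    rw [← ht, ← Phi_succ] at heq
    rw [heq]
    have h2 : (F ++ ((Phi m d).map (thr t')).map (!·) ++ T ++ [false]).Sublist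
        (F ++ [false] ++ ((Phi m d).map (thr t')).map (!·) ++ T ++ [true] ++ [false]) := by
      refine List.Sublist.append_right ?_ _
      refine (List.Sublist.append_right ?_ T).trans (List.sublist_append_left _ _)
      exact List.Sublist.append_right (List.sublist_append_left _ _) _
    refine (alt_sublist h2 true).trans ?_
    have h3 : alt true (F ++ [false] ++ ((Phi m d).map (thr t')).map (!·) ++ T ++ [true] ++ [false])
        = alt true ([false] ++ (((Phi m d).map (thr t')).map (!·) ++ [true] ++ [false])) := by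
      have e1 : F ++ [false] ++ ((Phi m d).map (thr t')).map (!·) ++ T ++ [true] ++ [false]
          = [] ++ F ++ false :: (((Phi m d).map (thr t')).map (!·) ++ T ++ [true] ++ [false]) := by
        simp
      rw [e1, alt_append_const [] _ hF, List.nil_append]
      have e2 : false :: (((Phi m d).map (thr t')).map (!·) ++ T ++ [true] ++ [false])
          = (false :: ((Phi m d).map (thr t')).map (!·)) ++ T ++ true :: [false] := by simp
      rw [e2, alt_append_const _ _ hT]
      simp
    rw [h3, List.singleton_append, alt_cons]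
    have h4 : alt false (((Phi m d).map (thr t')).map (!·) ++ [true] ++ [false]) =
        alt false (((Phi m d).map (thr t')).map (!·) ++ [true]) + 1 := by
      rw [alt_append]
      simp [alt_cons]
    rw [h4]
    have h5 : alt false (((Phi m d).map (thr t')).map (!·) ++ [true]) =
        alt true ((Phi m d).map (thr t') ++ [false]) := by
      have := alt_not true ((Phi m d).map (thr t') ++ [false])
      rw [List.map_append] at this
      exact this
    rw [h5]
    have := ih t'
    simp
    omega

end Pool.Agent.H41.Kc
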