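import Mathlib
import Pool.Agent.H41.Kc.Perm

set_option autoImplicit false

/-!
Subsequences of the slope permutation with few crossings are short.
-/

namespace Pool.Agent.H41.Kc

/-- `Λ` seen at every threshold, between `false` and `true`, changes at most `c` times -/
def UpLE (N : ℤ) (L : List ℤ) (c : ℕ) : Prop :=
  ∀ t, 0 ≤ t → t ≤ N → alt false (L.map (thr t) ++ [true]) ≤ c

/-- `Λ` seen at every threshold, between `true` and `false`, changes at most `c` times -/
def DownLE (N : ℤ) (L : List ℤ) (c : ℕ) : Prop :=
  ∀ t, 0 ≤ t → t ≤ N → alt true (L.map (thr t) ++ [false]) ≤ c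

lemma alt_not_up (t : ℤ) (L : List ℤ) :
    alt false ((L.map (thr t)).map (!·) ++ [true]) = alt true (L.map (thr t) ++ [false]) := by
  have := alt_not true (L.map (thr t) ++ [false])
  rw [List.map_append] at this
  exact this

lemma alt_not_down (t : ℤ) (L : List ℤ) :
    alt true ((L.map (thr t)).map (!·) ++ [false]) = alt false (L.map (thr t) ++ [true]) := by
  have := alt_not false (L.map (thr t) ++ [true])
  rw [List.map_append] at this
  exact this

section

variable {m d : ℕ} (hm : 1 ≤ m) (g : ℕ → List ℤ) (hg : ∀ i, (g i).Sublist (Phi m d))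

include hm hg

lemma block_up {c : ℕ}
    (h : UpLE ((m : ℤ) ^ (d + 1)) ((List.range m).flatMap (fun i => (g i).map (blk m d i))) c)
    {i : ℕ} (hi : i < m) : DownLE ((m : ℤ) ^ d) (g i) c := by
  intro t h0 h1
  have hpow : (0 : ℤ) < (m : ℤ) ^ d := by positivity
  obtain ⟨F, T, hF, hT, -, -, heq⟩ := map_thr_split hm g hg hi h0 h1
  have hle : (i : ℤ) * (m : ℤ) ^ d + ((m : ℤ) ^ d - t) ≤ (m : ℤ) ^ (d + 1) := by
    have h5 : ((i : ℤ) + 1) * (m : ℤ) ^ d ≤ m * (m : ℤ) ^ d :=
      mul_le_mul_of_nonneg_right (by exact_mod_cast hi) hpow.le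
    rw [pow_succ]
    nlinarith
  have hge : 0 ≤ (i : ℤ) * (m : ℤ) ^ d + ((m : ℤ) ^ d - t) := by
    have : 0 ≤ (i : ℤ) * (m : ℤ) ^ d := by positivity
    omega
  have := h _ hge hle
  rw [heq] at this
  rw [← alt_not_up]
  refine le_trans (alt_sublist ?_ false) this
  refine List.Sublist.append_right ?_ _
  exact (List.sublist_append_right _ _).trans (List.sublist_append_left _ _)

lemma block_down {c : ℕ}
    (h : DownLE ((m : ℤ) ^ (d + 1)) ((List.range m).flatMap (fun i => (g i).map (blk m d i))) c)
    {i : ℕ} (hi : i < m) : UpLE ((m : ℤ) ^ d) (g i) c ∧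
      ((∃ i' < i, g i' ≠ []) → (∃ i', i < i' ∧ i' < m ∧ g i' ≠ []) →
        2 ≤ c ∧ DownLE ((m : ℤ) ^ d) (g i) (c - 2)) := by
  have hpow : (0 : ℤ) < (m : ℤ) ^ d := by positivity
  have hle : ∀ t : ℤ, 0 ≤ t → (i : ℤ) * (m : ℤ) ^ d + ((m : ℤ) ^ d - t) ≤ (m : ℤ) ^ (d + 1) := by
    intro t h0
    have h5 : ((i : ℤ) + 1) * (m : ℤ) ^ d ≤ m * (m : ℤ) ^ d :=
      mul_le_mul_of_nonneg_right (by exact_mod_cast hi) hpow.le
    rw [pow_succ]
    nlinarith
  have hge : ∀ t : ℤ, t ≤ (m : ℤ) ^ d → 0 ≤ (i : ℤ) * (m : ℤ) ^ d + ((m : ℤ) ^ d - t) := by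
    intro t h1
    have : 0 ≤ (i : ℤ) * (m : ℤ) ^ d := by positivity
    omega
  constructor
  · intro t h0 h1
    obtain ⟨F, T, hF, hT, -, -, heq⟩ := map_thr_split hm g hg hi h0 h1
    have := h _ (hge t h1) (hle t h0)
    rw [heq] at this
    rw [← alt_not_down]
    refine le_trans (alt_sublist ?_ true) this
    refine List.Sublist.append_right ?_ _
    exact (List.sublist_append_right _ _).trans (List.sublist_append_left _ _)
  · intro hF0 hT0
    have key : ∀ t, 0 ≤ t → t ≤ (m : ℤ) ^ d →
        alt true ((g i).map (thr t) ++ [false]) + 2 ≤ c := by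
      intro t h0 h1
      obtain ⟨F, T, hF, hT, hFn, hTn, heq⟩ := map_thr_split hm g hg hi h0 h1
      have := h _ (hge t h1) (hle t h0)
      rw [heq] at this
      have hF1 := hFn hF0
      have hT1 := hTn hT0
      have hFs : [false].Sublist F := by
        rw [List.singleton_sublist]
        obtain ⟨b, hb⟩ := List.exists_mem_of_ne_nil _ hF1
        rw [hF b hb] at hb
        exact hb
      have hTs : [true].Sublist T := by
        rw [List.singleton_sublist]
        obtain ⟨b, hb⟩ := List.exists_mem_of_ne_nil _ hT1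
        rw [hT b hb] at hb
        exact hb
      have hs : ([false] ++ ((g i).map (thr t)).map (!·) ++ [true] ++ [false]).Sublist
          (F ++ ((g i).map (thr t)).map (!·) ++ T ++ [false]) :=
        ((hFs.append (List.Sublist.refl _)).append hTs).append (List.Sublist.refl _)
      have h3 := alt_sublist hs true
      have h4 : alt true ([false] ++ ((g i).map (thr t)).map (!·) ++ [true] ++ [false]) =
          alt false (((g i).map (thr t)).map (!·) ++ [true]) + 2 := by
        rw [List.append_assoc, List.append_assoc, List.singleton_append, alt_cons,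
          ← List.append_assoc, alt_append]
        simp [alt_cons]
        ring
      rw [h4, alt_not_up] at h3
      exact h3.trans this
    refine ⟨?_, fun t h0 h1 => ?_⟩
    · have := key 0 le_rfl hpow.le
      omega
    · have := key t h0 h1
      omega

end

lemma down_ge_one (N : ℤ) (hN : 0 ≤ N) (L : List ℤ) (c : ℕ) (h : DownLE N L c) : 1 ≤ c := by
  have h1 := h 0 le_rfl hN
  have h2 := alt_concat_mod true false (L.map (thr 0))
  simp only [Bool.false_eq_true, if_false] at h2
  omega

/-- The main bound on subsequences of the slope permutation. -/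
theorem sub_bound {u : ℕ} (hu : 1 ≤ u) : ∀ (d q : ℕ) (L : List ℤ), L.Sublist (Phi (u ^ 2) d) →
    (UpLE (((u ^ 2 : ℕ) : ℤ) ^ d) L (1 + 2 * q) → L.length ≤ 3 ^ d * u ^ (d + q + 2)) ∧
    (DownLE (((u ^ 2 : ℕ) : ℤ) ^ d) L (1 + 2 * q) → L.length ≤ 3 ^ d * u ^ (d + q + 1)) := by
  have hm : 1 ≤ u ^ 2 := Nat.one_le_pow _ _ hu
  intro d
  induction d with
  | zero =>
    intro q L hL
    have h1 : L.length ≤ 1 := by
      have := hL.length_le
      simpa [Phi] using this
    have h2 : 1 ≤ u ^ (0 + q + 2) := Nat.one_le_pow _ _ hu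
    have h3 : 1 ≤ u ^ (0 + q + 1) := Nat.one_le_pow _ _ hu
    constructor <;> intro _ <;> simp only [pow_zero, one_mul] <;> omega
  | succ d ih =>
    intro q L hL
    rw [Phi_succ] at hL
    obtain ⟨g', hg', rfl⟩ := sublist_flatMap_range _ _ _ hL
    have hex : ∀ i, ∃ l : List ℤ, l.Sublist (Phi (u ^ 2) d) ∧ g' i = l.map (blk (u ^ 2) d i) := by
      intro i
      have := hg' i
      rw [List.sublist_map_iff] at this
      exact this
    choose g hg hgg using hex
    have hLe : (List.range (u ^ 2)).flatMap g' =
        (List.range (u ^ 2)).flatMap (fun i => (g i).map (blk (u ^ 2) d i)) := by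
      apply List.flatMap_congr
      intro i _
      exact hgg i
    rw [hLe]
    have hlen : ((List.range (u ^ 2)).flatMap (fun i => (g i).map (blk (u ^ 2) d i))).length
        = ∑ i ∈ Finset.range (u ^ 2), (g i).length := by
      rw [List.length_flatMap]
      simp only [List.length_map]
      rw [Finset.sum_range, ← List.sum_ofFn]
      congr 1
      apply List.ext_getElem <;> simp
    rw [hlen]
    constructor
    · intro h
      have hb : ∀ i ∈ Finset.range (u ^ 2), (g i).length ≤ 3 ^ d * u ^ (d + q + 1) := by
        intro i hi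
        rw [Finset.mem_range] at hi
        exact (ih q (g i) (hg i)).2 (block_up hm g hg h hi)
      calc ∑ i ∈ Finset.range (u ^ 2), (g i).length
          ≤ ∑ i ∈ Finset.range (u ^ 2), 3 ^ d * u ^ (d + q + 1) := Finset.sum_le_sum hb
        _ = 3 ^ d * u ^ (d + 1 + q + 2) := by
            simp only [Finset.sum_const, Finset.card_range, smul_eq_mul]; ring
        _ ≤ 3 ^ (d + 1) * u ^ (d + 1 + q + 2) := by
            apply Nat.mul_le_mul_right
            exact Nat.pow_le_pow_right (by norm_num) (by omega)
    · intro h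
      by_cases hne : ∃ i, i < u ^ 2 ∧ g i ≠ []
      swap
      · push Not at hne
        have : ∑ i ∈ Finset.range (u ^ 2), (g i).length = 0 := by
          apply Finset.sum_eq_zero
          intro i hi
          rw [hne i (Finset.mem_range.mp hi)]
          rfl
        rw [this]
        exact Nat.zero_le _
      -- first and last used blocks
      classical
      set U := (Finset.range (u ^ 2)).filter (fun i => g i ≠ []) with hU
      have hUne : U.Nonempty := by
        obtain ⟨i, h1, h2⟩ := hne
        exact ⟨i, by simp [hU, h1, h2]⟩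
      set i0 := U.min' hUne with hi0
      set i1 := U.max' hUne with hi1
      have hi0U := U.min'_mem hUne
      have hi1U := U.max'_mem hUne
      have hA : ∀ i ∈ Finset.range (u ^ 2), (g i).length ≤ 3 ^ d * u ^ (d + q + 2) := by
        intro i hi
        rw [Finset.mem_range] at hi
        exact (ih q (g i) (hg i)).1 (block_down hm g hg h hi).1
      have hB : ∀ i ∈ Finset.range (u ^ 2), i ≠ i0 → i ≠ i1 →
          (g i).length ≤ 3 ^ d * u ^ (d + q) := by
        intro i hi h0 h1
        by_cases hgi : g i = []
        · rw [hgi]; exact Nat.zero_le _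
        have hiU : i ∈ U := by simp [hU, hgi, Finset.mem_range.mp hi]
        rw [Finset.mem_range] at hi
        have hlt0 : i0 < i := lt_of_le_of_ne (U.min'_le i hiU) (Ne.symm h0)
        have hlt1 : i < i1 := lt_of_le_of_ne (U.le_max' i hiU) h1
        have hmem0 : g i0 ≠ [] := (Finset.mem_filter.mp hi0U).2
        have hmem1 : g i1 ≠ [] := (Finset.mem_filter.mp hi1U).2
        have hi1m : i1 < u ^ 2 := Finset.mem_range.mp (Finset.mem_filter.mp hi1U).1
        obtain ⟨h2, h3⟩ := (block_down hm g hg h hi).2 ⟨i0, hlt0, hmem0⟩ ⟨i1, hlt1, hi1m, hmem1⟩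
        rcases q with _ | q
        · omega
        · have h4 : 1 + 2 * (q + 1) - 2 = 1 + 2 * q := by omega
          rw [h4] at h3
          have := (ih q (g i) (hg i)).2 h3
          simpa [add_assoc] using this
      have hsum : ∑ i ∈ Finset.range (u ^ 2), (g i).length ≤
          ∑ i ∈ Finset.range (u ^ 2), (3 ^ d * u ^ (d + q) +
            ((if i = i0 then 3 ^ d * u ^ (d + q + 2) else 0) +
              (if i = i1 then 3 ^ d * u ^ (d + q + 2) else 0))) := by
        apply Finset.sum_le_sum
        intro i hi
        by_cases h0 : i = i0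
        · have := hA i hi
          simp only [h0, if_true] at this ⊢
          omega
        · by_cases h1 : i = i1
          · have := hA i hi
            simp only [h1, if_true] at this ⊢
            omega
          · have := hB i hi h0 h1
            simp only [h0, h1, if_false]
            omega
      refine hsum.trans ?_
      rw [Finset.sum_add_distrib, Finset.sum_add_distrib, Finset.sum_ite_eq', Finset.sum_ite_eq']
      have hm0 : i0 ∈ Finset.range (u ^ 2) := (Finset.mem_filter.mp hi0U).1
      have hm1 : i1 ∈ Finset.range (u ^ 2) := (Finset.mem_filter.mp hi1U).1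
      rw [if_pos hm0, if_pos hm1]
      simp only [Finset.sum_const, Finset.card_range, smul_eq_mul]
      apply le_of_eq
      ring

end Pool.Agent.H41.Kc
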