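import Mathlib
import Pool.Agent.H41.Kc.Enc
import Pool.Agent.H41.Kc.Perm2

set_option autoImplicit false

/-!
Lists of bit strings all of whose side sequences change rarely are short.
-/

namespace Pool.Agent.H41.Kc

/-- number of changes inside a list -/
def altL : List Bool → ℕ
  | [] => 0
  | a :: l => alt a l

@[simp] lemma altL_nil : altL [] = 0 := rfl

lemma altL_cons (a : Bool) (l : List Bool) : altL (a :: l) = alt a l := rfl

lemma altL_le_alt (b : Bool) (l : List Bool) : altL l ≤ alt b l := by
  cases l with
  | nil => simp
  | cons c l => rw [altL_cons, alt_cons]; omega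

lemma alt_le_altL (b : Bool) (l : List Bool) : alt b l ≤ altL l + 1 := by
  cases l with
  | nil => simp
  | cons c l =>
    rw [altL_cons, alt_cons]
    split_ifs <;> omega

lemma altL_sublist {l₁ l₂ : List Bool} (h : l₁.Sublist l₂) : altL l₁ ≤ altL l₂ := by
  induction h with
  | slnil => simp
  | cons b h ih => exact ih.trans (altL_le_alt b _)
  | cons_cons b h ih => exact alt_sublist h b

lemma altL_not (l : List Bool) : altL (l.map (!·)) = altL l := by
  cases l with
  | nil => simp
  | cons a l => exact alt_not a l

lemma altL_append_single (l : List Bool) (b : Bool) : altL (l ++ [b]) ≤ altL l + 1 := by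
  cases l with
  | nil => simp [altL]
  | cons a l =>
    rw [List.cons_append, altL_cons, altL_cons, alt_append, alt_cons]
    split_ifs <;> simp

/-- a list is covered by its runs -/
lemma length_le_runs {α : Type*} (f : α → Bool) (B : ℕ) : ∀ (n : ℕ) (w : List α),
    altL (w.map f) ≤ n →
    (∀ w' : List α, w'.Sublist w → (∃ a, ∀ p ∈ w', f p = a) → w'.length ≤ B) →
    w.length ≤ (n + 1) * B := by
  intro n
  induction n with
  | zero =>
    intro w hw h
    rw [zero_add, one_mul]
    refine h w (List.Sublist.refl _) ?_
    cases w with
    | nil => exact ⟨true, by simp⟩
    | cons p w =>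
      refine ⟨f p, ?_⟩
      rw [List.map_cons, altL_cons] at hw
      have key : ∀ (l : List α) (a : Bool), alt a (l.map f) ≤ 0 → ∀ p ∈ l, f p = a := by
        intro l
        induction l with
        | nil => intro a _ p hp; simp at hp
        | cons q l ih =>
          intro a h q' hq'
          rw [List.map_cons, alt_cons] at h
          by_cases hq : a = f q
          · subst hq
            rcases List.mem_cons.mp hq' with rfl | hq'
            · rfl
            · exact ih _ (by simpa using h) _ hq'
          · simp [hq] at h
      intro q hq
      rcases List.mem_cons.mp hq with rfl | hq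
      · rfl
      · exact key w _ hw q hq
  | succ n ih =>
    intro w hw h
    cases w with
    | nil => simp
    | cons p w =>
      set a := f p with ha
      set w₀ := p :: w with hw₀
      have hsplit := List.takeWhile_append_dropWhile (p := fun q => f q == a) (l := w₀)
      set A := w₀.takeWhile (fun q => f q == a) with hA
      set R := w₀.dropWhile (fun q => f q == a) with hR
      have hAconst : ∀ q ∈ A, f q = a := by
        intro q hq
        have := List.mem_takeWhile_imp hq
        simpa using this
      have hA1 : A.length ≤ B := by
        refine h A ?_ ⟨a, hAconst⟩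
        rw [← hsplit]
        exact List.sublist_append_left _ _
      have hRsub : R.Sublist w₀ := by
        rw [← hsplit]
        exact List.sublist_append_right _ _
      have hR1 : altL (R.map f) ≤ n := by
        rcases hRe : R with _ | ⟨r, R'⟩
        · simp
        · have hr : f r ≠ a := by
            have h5 := List.head_dropWhile_not (fun q => f q == a) (l := w₀)
            have hne : R ≠ [] := by rw [hRe]; simp
            have h6 := h5 (by rw [← hR]; exact hne)
            have h7 : (List.dropWhile (fun q => f q == a) w₀).head (by rw [← hR]; exact hne) = r := by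
              simp only [← hR, hRe, List.head_cons]
            rw [h7] at h6
            simpa using h6
          have h8 : altL (w₀.map f) = alt a ((A.map f) ++ (R.map f)) := by
            have : w₀.map f = A.map f ++ R.map f := by rw [← List.map_append, hsplit]
            rw [this]
            -- A is nonempty with constant value a
            have hAne : A = p :: (w.takeWhile (fun q => f q == a)) := by
              rw [hA, hw₀, List.takeWhile_cons]
              simp [ha]
            rw [hAne, List.map_cons, List.cons_append, altL_cons, alt_cons]
            simp [ha]
          have h9 : alt a ((A.map f) ++ (R.map f)) = alt a (R.map f) := by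
            apply alt_const_append
            intro b hb
            obtain ⟨q, hq, rfl⟩ := List.mem_map.mp hb
            exact hAconst q hq
          rw [h8, h9, hRe, List.map_cons, alt_cons, if_neg (Ne.symm hr)] at hw
          rw [List.map_cons, altL_cons]
          omega
      have hR2 := ih R hR1 (fun w' hw' hc => h w' (hw'.trans hRsub) hc)
      have hlen : w₀.length = A.length + R.length := by
        rw [← hsplit, List.length_append]
      rw [hlen]
      calc A.length + R.length ≤ B + (n + 1) * B := Nat.add_le_add hA1 hR2
        _ = (n + 1 + 1) * B := by ring

/-- bound for the number of second steps -/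
lemma chain_length {u D j : ℕ} (hu : 1 ≤ u) (w : List (ℤ × Bool))
    (hw : (w.map Prod.fst).Sublist (Phi (u ^ 2) D))
    (h : ∀ t : ℤ, altL (w.map (fun p => (p.2 == thr t p.1))) ≤ 2 * j) :
    w.length ≤ (2 * j + 1) * (3 ^ D * u ^ (D + j + 1)) := by
  have hm : 1 ≤ u ^ 2 := Nat.one_le_pow _ _ hu
  refine length_le_runs Prod.snd _ (2 * j) w ?_ ?_
  · -- a threshold above all values
    have h1 := h (((u ^ 2 : ℕ) : ℤ) ^ D)
    have h2 : w.map (fun p => (p.2 == thr (((u ^ 2 : ℕ) : ℤ) ^ D) p.1)) =
        (w.map Prod.snd).map (!·) := by
      rw [List.map_map]
      apply List.map_congr_left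
      intro p hp
      have hp1 : p.1 ∈ Phi (u ^ 2) D := hw.subset (List.mem_map_of_mem hp)
      have := mem_Phi hm hp1
      have hthr : thr (((u ^ 2 : ℕ) : ℤ) ^ D) p.1 = false := by
        unfold thr
        simp only [decide_eq_false_iff_not, not_le]
        exact this.2
      rw [hthr]
      show (p.2 == false) = !p.2
      cases p.2 <;> rfl
    rw [h2, altL_not] at h1
    exact h1
  · rintro w' hw' ⟨a, ha⟩
    have hsub : (w'.map Prod.fst).Sublist (Phi (u ^ 2) D) := (hw'.map _).trans hw
    have hdown : DownLE (((u ^ 2 : ℕ) : ℤ) ^ D) (w'.map Prod.fst) (1 + 2 * j) := by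
      intro t _ _
      have h3 : altL ((w'.map Prod.fst).map (thr t)) ≤ 2 * j := by
        have h4 := (altL_sublist (hw'.map (fun p => (p.2 == thr t p.1)))).trans (h t)
        cases a
        · have h5 : w'.map (fun p => (p.2 == thr t p.1)) =
              ((w'.map Prod.fst).map (thr t)).map (!·) := by
            rw [List.map_map, List.map_map]
            apply List.map_congr_left
            intro p hp
            simp only [Function.comp_apply]
            rw [ha p hp]
            cases thr t p.1 <;> rfl
          rw [h5, altL_not] at h4
          exact h4
        · have h5 : w'.map (fun p => (p.2 == thr t p.1)) = (w'.map Prod.fst).map (thr t) := by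
            rw [List.map_map]
            apply List.map_congr_left
            intro p hp
            simp only [Function.comp_apply]
            rw [ha p hp]
            cases thr t p.1 <;> rfl
          rw [h5] at h4
          exact h4
      have h6 := alt_le_altL true ((w'.map Prod.fst).map (thr t) ++ [false])
      have h7 := altL_append_single ((w'.map Prod.fst).map (thr t)) false
      have h8 := alt_concat_mod true false ((w'.map Prod.fst).map (thr t))
      simp only [Bool.false_eq_true, if_false] at h8
      omega
    have := (sub_bound hu D j (w'.map Prod.fst) hsub).2 hdown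
    simpa using this

/-- Combinatorial core of the upper bound: a list of distinct bit strings (with the polygon order),
seen from each of its members through every slope with few changes of side, is short. -/
theorem core_bound {u D j : ℕ} (hu : 1 ≤ u) (L : List (List Bool)) (hn : L.Nodup)
    (hl : ∀ z ∈ L, z.length = (Phi (u ^ 2) D).length)
    (h : ∀ x ∈ L, ∀ t : ℤ, altL (L.map (sd (thr t) (Phi (u ^ 2) D) x)) ≤ 2 * j) :
    L.length ≤ ((u ^ 2) ^ D + 1) ^ ((2 * j + 1) * (3 ^ D * u ^ (D + j + 1))) := by
  have := length_le_of_sec (Phi (u ^ 2) D) L ((2 * j + 1) * (3 ^ D * u ^ (D + j + 1))) hn hl ?_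
  · rwa [length_Phi] at this
  · intro x hx
    refine chain_length hu _ (sec_fst_sublist _ _ _) ?_
    intro t
    exact (altL_sublist (sec_map_sublist (thr t) _ L x hl hx)).trans (h x hx t)

end Pool.Agent.H41.Kc
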