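import Mathlib

set_option autoImplicit false

/-!
Definitions for `k`-convex point sets in the plane.
-/

namespace Pool.Agent.H41.Kc

/-- A set of points of the plane `ℝ × ℝ` is a straight line. -/
def IsLine (l : Set (ℝ × ℝ)) : Prop :=
  ∃ a b c : ℝ, (a, b) ≠ (0, 0) ∧ l = {p : ℝ × ℝ | a * p.1 + b * p.2 = c}

/-- General position: no straight line contains three points of the set. -/
def GeneralPosition (P : Set (ℝ × ℝ)) : Prop :=
  ∀ l : Set (ℝ × ℝ), IsLine l → (P ∩ l).encard ≤ 2

/-- The number of connected components of a set of points. -/
noncomputable def componentCount (X : Set (ℝ × ℝ)) : ℕ∞ :=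
  ((fun x => connectedComponentIn X x) '' X).encard

/-- The edge of the closed polygon with cyclically ordered vertices `v` that starts at `v i`. -/
def edge {n : ℕ} (v : ZMod n → ℝ × ℝ) (i : ZMod n) : Set (ℝ × ℝ) :=
  segment ℝ (v i) (v (i + 1))

/-- The closed polygon with cyclically ordered vertices `v` is simple: it has at least three
vertices, they are distinct, and two different edges have no point in common, except that
consecutive edges have exactly their common vertex in common. -/
structure IsSimplePolygon {n : ℕ} (v : ZMod n → ℝ × ℝ) : Prop where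
  three_le : 3 ≤ n
  injective : Function.Injective v
  inter : ∀ i j : ZMod n, i ≠ j → ∀ p ∈ edge v i ∩ edge v j,
    (j = i + 1 ∧ p = v j) ∨ (i = j + 1 ∧ p = v i)

/-- `S` is the closed region bounded by the polygon `v`: it is compact, it is the closure of its
interior, and its boundary is the union of the edges. -/
structure IsRegionOf {n : ℕ} (v : ZMod n → ℝ × ℝ) (S : Set (ℝ × ℝ)) : Prop where
  compact : IsCompact S
  regular : closure (interior S) = S
  frontier_eq : frontier S = ⋃ i, edge v i

/-- `P` is a `k`-convex point set: it is in general position and it is the vertex set of a simple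
polygon whose closed region meets every straight line in at most `k` connected components. -/
def KConvexSet (k : ℕ) (P : Set (ℝ × ℝ)) : Prop :=
  GeneralPosition P ∧ ∃ (n : ℕ) (v : ZMod n → ℝ × ℝ) (S : Set (ℝ × ℝ)),
    IsSimplePolygon v ∧ Set.range v = P ∧ IsRegionOf v S ∧
      ∀ l : Set (ℝ × ℝ), IsLine l → componentCount (S ∩ l) ≤ k

end Pool.Agent.H41.Kc
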