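import Mathlib
import Pool.Agent.H41.Kc.Defs

set_option autoImplicit false

/-!
A line that avoids the vertices of a `k`-convex polygon crosses at most `2 k` edges.
-/

namespace Pool.Agent.H41.Kc

open Set Metric

/-- the affine function `a x + b y - c` -/
noncomputable def hf (a b c : ℝ) (p : ℝ × ℝ) : ℝ := a * p.1 + b * p.2 - c

lemma hf_line {a b c : ℝ} (p : ℝ × ℝ) : p ∈ {p : ℝ × ℝ | a * p.1 + b * p.2 = c} ↔
    hf a b c p = 0 := by
  simp only [mem_ofPred_eq, hf]
  constructor <;> intro h <;> linarith

lemma continuous_hf (a b c : ℝ) : Continuous (hf a b c) := by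
  unfold hf
  fun_prop

/-- orientation function of the line through `A` and `B` -/
noncomputable def mf (A B p : ℝ × ℝ) : ℝ := (B.1 - A.1) * (p.2 - A.2) - (B.2 - A.2) * (p.1 - A.1)

lemma continuous_mf (A B : ℝ × ℝ) : Continuous (mf A B) := by
  unfold mf
  fun_prop

lemma mf_add (A B p : ℝ × ℝ) (d : ℝ × ℝ) :
    mf A B (p + d) = mf A B p + ((B.1 - A.1) * d.2 - (B.2 - A.2) * d.1) := by
  simp only [mf, Prod.fst_add, Prod.snd_add]
  ring

lemma convex_mf_pos (A B : ℝ × ℝ) : Convex ℝ {p | 0 < mf A B p} := by
  intro x hx y hy s t hs ht hst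
  simp only [mem_ofPred_eq, mf, Prod.fst_add, Prod.snd_add, Prod.smul_fst, Prod.smul_snd,
    smul_eq_mul] at hx hy ⊢
  have : (B.1 - A.1) * (s * x.2 + t * y.2 - A.2) - (B.2 - A.2) * (s * x.1 + t * y.1 - A.1) =
      s * ((B.1 - A.1) * (x.2 - A.2) - (B.2 - A.2) * (x.1 - A.1)) +
      t * ((B.1 - A.1) * (y.2 - A.2) - (B.2 - A.2) * (y.1 - A.1)) +
      (1 - (s + t)) * (-(B.1 - A.1) * A.2 + (B.2 - A.2) * A.1) := by ring
  rw [this, hst, sub_self, zero_mul, add_zero]
  rcases eq_or_lt_of_le hs with h | h
  · have ht1 : t = 1 := by linarith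
    rw [← h, ht1]; linarith
  · have := mul_pos h hx
    have := mul_nonneg ht hy.le
    linarith

lemma convex_mf_neg (A B : ℝ × ℝ) : Convex ℝ {p | mf A B p < 0} := by
  have : {p | mf A B p < 0} = {p | 0 < mf B A p} := by
    ext p
    simp only [mem_ofPred_eq]
    have : mf B A p = - mf A B p := by simp only [mf]; ring
    rw [this]
    constructor <;> intro h <;> linarith
  rw [this]
  exact convex_mf_pos B A

/-- a preconnected set missing the frontier of `S` is inside or outside -/
lemma side_of_frontier {S H : Set (ℝ × ℝ)} (hH : IsPreconnected H)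
    (hd : ∀ p ∈ H, p ∉ frontier S) : H ⊆ interior S ∨ H ⊆ (closure S)ᶜ := by
  refine IsPreconnected.subset_or_subset isOpen_interior isClosed_closure.isOpen_compl ?_ ?_ hH
  · rw [Set.disjoint_left]
    intro p hp hp'
    exact hp' (subset_closure (interior_subset hp))
  · intro p hp
    by_cases h : p ∈ closure S
    · left
      by_contra hcon
      exact hd p hp ⟨h, hcon⟩
    · right; exact h

lemma isCompact_edge {n : ℕ} (v : ZMod n → ℝ × ℝ) (j : ZMod n) : IsCompact (edge v j) := by
  unfold edge
  rw [segment_eq_image']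
  exact isCompact_Icc.image (by fun_prop)

section

variable {n : ℕ} {v : ZMod n → ℝ × ℝ} {S : Set (ℝ × ℝ)}
  (hv : IsSimplePolygon v) (hS : IsRegionOf v S) {a b c : ℝ}
  (h0 : ∀ i, hf a b c (v i) ≠ 0)

include hv hS h0

/-- a crossing point in the relative interior of an edge, and the local picture there -/
lemma local_picture {i : ZMod n} (hi : hf a b c (v i) * hf a b c (v (i + 1)) < 0) :
    ∃ q : ℝ × ℝ, q ∈ edge v i ∧ hf a b c q = 0 ∧ ∃ δ : ℝ, 0 < δ ∧
      ((∀ s : ℝ, 0 < s → s < δ → q + s • (-b, a) ∈ S ∧ q - s • (-b, a) ∉ S) ∨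
      (∀ s : ℝ, 0 < s → s < δ → q + s • (-b, a) ∉ S ∧ q - s • (-b, a) ∈ S)) := by
  have hn : 3 ≤ n := hv.three_le
  have : NeZero n := ⟨by omega⟩
  set A := v i with hA
  set B := v (i + 1) with hB
  set hA' := hf a b c A with hhA
  set hB' := hf a b c B with hhB
  have hAB : hA' - hB' ≠ 0 := by
    intro h
    have : hA' = hB' := by linarith
    rw [this] at hi
    nlinarith [mul_self_nonneg hB']
  set lam := hA' / (hA' - hB') with hlam
  have hlam0 : 0 < lam ∧ lam < 1 := by
    rcases lt_or_gt_of_ne hAB with h | h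
    · have h1 : hA' < 0 := by
        by_contra hcon; push Not at hcon
        have : 0 < hB' := by linarith
        nlinarith
      have h2 : 0 < hB' := by
        by_contra hcon; push Not at hcon
        nlinarith
      constructor
      · exact div_pos_of_neg_of_neg h1 h
      · rw [hlam, div_lt_one_of_neg h]; linarith
    · have h1 : 0 < hA' := by
        by_contra hcon; push Not at hcon
        have : hB' < 0 := by linarith
        nlinarith
      have h2 : hB' < 0 := by
        by_contra hcon; push Not at hcon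
        nlinarith
      constructor
      · exact div_pos h1 h
      · rw [hlam, div_lt_one h]; linarith
  set q : ℝ × ℝ := A + lam • (B - A) with hq
  have hqe : q ∈ edge v i := by
    unfold edge
    rw [segment_eq_image']
    exact ⟨lam, ⟨hlam0.1.le, hlam0.2.le⟩, rfl⟩
  have hq0 : hf a b c q = 0 := by
    have h1 : hf a b c q = hA' + lam * (hB' - hA') := by
      simp only [hhA, hhB, hq, hf, Prod.fst_add, Prod.snd_add, Prod.smul_fst, Prod.smul_snd,
        Prod.fst_sub, Prod.snd_sub, smul_eq_mul]
      ring
    rw [h1, hlam]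
    field_simp
    ring
  have hABne : A ≠ B := by
    intro h
    apply hAB
    rw [hhA, hhB, h, sub_self]
  -- other edges stay away from `q`
  set F : Set (ℝ × ℝ) := ⋃ j ∈ (Finset.univ.erase i : Finset (ZMod n)), edge v j with hF
  have hFc : IsClosed F := by
    rw [hF]
    apply Set.Finite.isClosed_biUnion (Finset.finite_toSet _)
    intro j _
    exact (isCompact_edge v j).isClosed
  have hqF : q ∉ F := by
    intro h
    rw [hF] at h
    simp only [mem_iUnion] at h
    obtain ⟨j, hj, hqj⟩ := h
    have hji : i ≠ j := (Finset.ne_of_mem_erase hj).symm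
    rcases hv.inter i j hji q ⟨hqe, hqj⟩ with ⟨_, h⟩ | ⟨_, h⟩
    · rw [h] at hq0; exact h0 j hq0
    · rw [h] at hq0; exact h0 i hq0
  -- a ball around `q`
  set ε := min |hA'| |hB'| with hε
  have hεpos : 0 < ε := by
    rw [hε]
    exact lt_min (abs_pos.mpr (h0 i)) (abs_pos.mpr (h0 (i + 1)))
  have hopen : IsOpen (Fᶜ ∩ {p | |hf a b c p| < ε}) :=
    hFc.isOpen_compl.inter (isOpen_lt (continuous_hf a b c).abs continuous_const)
  have hqmem : q ∈ Fᶜ ∩ {p | |hf a b c p| < ε} := ⟨hqF, by simp [hq0, hεpos]⟩
  obtain ⟨ρ, hρ, hball⟩ := Metric.isOpen_iff.mp hopen q hqmem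
  -- points of the frontier in the ball are the points of the carrier line in the ball
  have hfront1 : ∀ p ∈ ball q ρ, p ∈ frontier S → mf A B p = 0 := by
    intro p hp hpf
    rw [hS.frontier_eq, mem_iUnion] at hpf
    obtain ⟨j, hj⟩ := hpf
    by_cases hji : j = i
    · subst hji
      unfold edge at hj
      rw [segment_eq_image'] at hj
      obtain ⟨s, _, rfl⟩ := hj
      simp only [mf, Prod.fst_add, Prod.snd_add, Prod.smul_fst, Prod.smul_snd,
        Prod.fst_sub, Prod.snd_sub, smul_eq_mul, ← hA, ← hB]
      ring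
    · exfalso
      apply (hball hp).1
      rw [hF]
      simp only [mem_iUnion]
      exact ⟨j, by simp [hji], hj⟩
  have hfront2 : ∀ p ∈ ball q ρ, mf A B p = 0 → p ∈ frontier S := by
    intro p hp hm
    rw [hS.frontier_eq, mem_iUnion]
    refine ⟨i, ?_⟩
    have hpε : |hf a b c p| < ε := (hball hp).2
    -- `p = A + s (B - A)`
    obtain ⟨s, hs⟩ : ∃ s : ℝ, p = A + s • (B - A) := by
      by_cases h1 : B.1 = A.1
      · have h2 : B.2 ≠ A.2 := fun h => hABne (Prod.ext h1.symm h.symm)
        refine ⟨(p.2 - A.2) / (B.2 - A.2), ?_⟩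
        have h3 : B.2 - A.2 ≠ 0 := sub_ne_zero.mpr h2
        have h4 : p.1 = A.1 := by
          simp only [mf, h1, sub_self, zero_mul, zero_sub, neg_eq_zero, mul_eq_zero] at hm
          rcases hm with h | h
          · exact absurd h h3
          · linarith
        apply Prod.ext
        · simp only [Prod.fst_add, Prod.smul_fst, Prod.fst_sub, smul_eq_mul, h1, sub_self,
            mul_zero, add_zero, h4]
        · simp only [Prod.snd_add, Prod.smul_snd, Prod.snd_sub, smul_eq_mul]
          field_simp
          ring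
      · have h3 : B.1 - A.1 ≠ 0 := sub_ne_zero.mpr h1
        refine ⟨(p.1 - A.1) / (B.1 - A.1), ?_⟩
        apply Prod.ext
        · simp only [Prod.fst_add, Prod.smul_fst, Prod.fst_sub, smul_eq_mul]
          field_simp
          ring
        · simp only [Prod.snd_add, Prod.smul_snd, Prod.snd_sub, smul_eq_mul]
          simp only [mf] at hm
          field_simp
          linarith
    have h5 : hf a b c p = hA' + s * (hB' - hA') := by
      rw [hs]
      simp only [hhA, hhB, hf, Prod.fst_add, Prod.snd_add, Prod.smul_fst, Prod.smul_snd,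
        Prod.fst_sub, Prod.snd_sub, smul_eq_mul]
      ring
    have h6 : |hf a b c p| < |hA'| := lt_of_lt_of_le hpε (min_le_left _ _)
    have h7 : |hf a b c p| < |hB'| := lt_of_lt_of_le hpε (min_le_right _ _)
    rw [h5] at h6 h7
    have h8 : 0 < s ∧ s < 1 := by
      rcases lt_or_gt_of_ne hAB with h | h
      · have h1 : hA' < 0 := by
          by_contra hcon; push Not at hcon
          have : 0 < hB' := by linarith
          nlinarith
        have h2 : 0 < hB' := by
          by_contra hcon; push Not at hcon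
          nlinarith
        rw [abs_of_neg h1, abs_lt] at h6
        rw [abs_of_pos h2, abs_lt] at h7
        constructor
        · by_contra hcon; push Not at hcon
          nlinarith [h6.1]
        · by_contra hcon; push Not at hcon
          nlinarith [h7.2]
      · have h1 : 0 < hA' := by
          by_contra hcon; push Not at hcon
          have : hB' < 0 := by linarith
          nlinarith
        have h2 : hB' < 0 := by
          by_contra hcon; push Not at hcon
          nlinarith
        rw [abs_of_pos h1, abs_lt] at h6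
        rw [abs_of_neg h2, abs_lt] at h7
        constructor
        · by_contra hcon; push Not at hcon
          nlinarith [h6.2]
        · by_contra hcon; push Not at hcon
          nlinarith [h7.1]
    unfold edge
    rw [segment_eq_image']
    exact ⟨s, ⟨h8.1.le, h8.2.le⟩, hs.symm⟩
  have hSc : IsClosed S := hS.compact.isClosed
  have hmq : mf A B q = 0 := by
    simp only [mf, hq, Prod.fst_add, Prod.snd_add, Prod.smul_fst, Prod.smul_snd,
      Prod.fst_sub, Prod.snd_sub, smul_eq_mul]
    ring
  have hqfr : q ∈ frontier S := hfront2 q (mem_ball_self hρ) hmq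
  set Hp := ball q ρ ∩ {p | 0 < mf A B p} with hHp
  set Hn := ball q ρ ∩ {p | mf A B p < 0} with hHn
  have hHp1 : Hp ⊆ interior S ∨ Hp ⊆ (closure S)ᶜ := by
    apply side_of_frontier ((convex_ball q ρ).inter (convex_mf_pos A B)).isPreconnected
    intro p hp hpf
    have := hfront1 p hp.1 hpf
    have h2 : 0 < mf A B p := hp.2
    linarith
  have hHn1 : Hn ⊆ interior S ∨ Hn ⊆ (closure S)ᶜ := by
    apply side_of_frontier ((convex_ball q ρ).inter (convex_mf_neg A B)).isPreconnected
    intro p hp hpf
    have := hfront1 p hp.1 hpf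
    have h2 : mf A B p < 0 := hp.2
    linarith
  -- not both inside
  have hnot1 : ¬ (Hp ⊆ interior S ∧ Hn ⊆ interior S) := by
    rintro ⟨h1, h2⟩
    have hb : ball q ρ ⊆ S := by
      intro p hp
      rcases lt_trichotomy (mf A B p) 0 with h | h | h
      · exact interior_subset (h2 ⟨hp, h⟩)
      · have := hfront2 p hp h
        rw [hSc.frontier_eq] at this
        exact this.1
      · exact interior_subset (h1 ⟨hp, h⟩)
    have : q ∈ interior S := mem_interior.mpr ⟨ball q ρ, hb, isOpen_ball, mem_ball_self hρ⟩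
    exact hqfr.2 this
  -- not both outside
  have hnot2 : ¬ (Hp ⊆ (closure S)ᶜ ∧ Hn ⊆ (closure S)ᶜ) := by
    rintro ⟨h1, h2⟩
    have hqS : q ∈ closure (interior S) := by
      rw [hS.regular]
      rw [hSc.frontier_eq] at hqfr
      exact hqfr.1
    obtain ⟨z, hz1, hz2⟩ := Metric.mem_closure_iff.mp hqS ρ hρ
    have hzball : z ∈ ball q ρ := by rw [mem_ball, dist_comm]; exact hz2
    -- near `z` there is a point off the carrier line
    have hopen2 : IsOpen (interior S ∩ ball q ρ) := isOpen_interior.inter isOpen_ball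
    obtain ⟨η, hη, hη2⟩ := Metric.isOpen_iff.mp hopen2 z ⟨hz1, hzball⟩
    have hmz : ∀ p ∈ ball z η, mf A B p = 0 := by
      intro p hp
      obtain ⟨h3, h4⟩ := hη2 hp
      rcases lt_trichotomy (mf A B p) 0 with h | h | h
      · exact absurd (subset_closure (interior_subset h3)) (h2 ⟨h4, h⟩)
      · exact h
      · exact absurd (subset_closure (interior_subset h3)) (h1 ⟨h4, h⟩)
    have h5 := hmz z (mem_ball_self hη)
    -- move by a small multiple of the normal
    set w : ℝ × ℝ := (-(B.2 - A.2), B.1 - A.1) with hw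
    have hw0 : w ≠ 0 := by
      intro h
      apply hABne
      have e1 : -(B.2 - A.2) = 0 := congrArg Prod.fst h
      have e2 : B.1 - A.1 = 0 := congrArg Prod.snd h
      exact Prod.ext (by linarith) (by linarith)
    have hwn : 0 < ‖w‖ := norm_pos_iff.mpr hw0
    set s := η / (2 * ‖w‖) with hs
    have hspos : 0 < s := by positivity
    have hmem : z + s • w ∈ ball z η := by
      rw [mem_ball, dist_eq_norm, add_sub_cancel_left, norm_smul, Real.norm_eq_abs,
        abs_of_pos hspos, hs]
      have : η / (2 * ‖w‖) * ‖w‖ = η / 2 := by field_simp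
      rw [this]; linarith
    have h6 := hmz _ hmem
    rw [mf_add, h5] at h6
    simp only [hw, Prod.smul_snd, Prod.smul_fst, smul_eq_mul, zero_add] at h6
    have h7 : s * ((B.1 - A.1) ^ 2 + (B.2 - A.2) ^ 2) = 0 := by linarith [h6]
    have h8 : (B.1 - A.1) ^ 2 + (B.2 - A.2) ^ 2 = 0 := by
      rcases mul_eq_zero.mp h7 with h | h
      · linarith
      · exact h
    apply hABne
    have e1 : B.1 - A.1 = 0 := by nlinarith [sq_nonneg (B.1 - A.1), sq_nonneg (B.2 - A.2)]
    have e2 : B.2 - A.2 = 0 := by nlinarith [sq_nonneg (B.1 - A.1), sq_nonneg (B.2 - A.2)]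
    exact Prod.ext (by linarith) (by linarith)
  -- the direction of the line
  set d : ℝ × ℝ := (-b, a) with hd
  have hmd : ∀ s : ℝ, mf A B (q + s • d) = s * (hB' - hA') := by
    intro s
    rw [mf_add, hmq]
    simp only [hd, Prod.smul_snd, Prod.smul_fst, smul_eq_mul, hhA, hhB, hf]
    ring
  refine ⟨q, hqe, hq0, ρ / (‖d‖ + 1), by positivity, ?_⟩
  have hin : ∀ s : ℝ, 0 < s → s < ρ / (‖d‖ + 1) → q + s • d ∈ ball q ρ ∧ q - s • d ∈ ball q ρ := by
    intro s hs0 hs1
    have h1 : s * ‖d‖ < ρ := by
      rw [lt_div_iff₀ (by positivity)] at hs1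
      nlinarith [norm_nonneg d]
    constructor
    · rw [mem_ball, dist_eq_norm, add_sub_cancel_left, norm_smul, Real.norm_eq_abs, abs_of_pos hs0]
      exact h1
    · rw [mem_ball, dist_eq_norm, sub_sub_cancel_left, norm_neg, norm_smul, Real.norm_eq_abs,
        abs_of_pos hs0]
      exact h1
  have hminus : ∀ s : ℝ, mf A B (q - s • d) = - s * (hB' - hA') := by
    intro s
    have := hmd (-s)
    rw [neg_smul, ← sub_eq_add_neg] at this
    exact this
  have hclos : ∀ p, p ∈ (closure S)ᶜ → p ∉ S := fun p hp h => hp (subset_closure h)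
  -- case distinction
  have hcase : (Hp ⊆ interior S ∧ Hn ⊆ (closure S)ᶜ) ∨ (Hp ⊆ (closure S)ᶜ ∧ Hn ⊆ interior S) := by
    rcases hHp1 with h1 | h1 <;> rcases hHn1 with h2 | h2
    · exact absurd ⟨h1, h2⟩ hnot1
    · exact Or.inl ⟨h1, h2⟩
    · exact Or.inr ⟨h1, h2⟩
    · exact absurd ⟨h1, h2⟩ hnot2
  rcases hcase with ⟨h1, h2⟩ | ⟨h1, h2⟩
  · rcases lt_or_gt_of_ne hAB with h | h
    · left
      intro s hs0 hs1
      obtain ⟨h3, h4⟩ := hin s hs0 hs1
      constructor
      · refine interior_subset (h1 ⟨h3, ?_⟩)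
        show 0 < mf A B (q + s • d)
        rw [hmd]
        exact mul_pos hs0 (by linarith)
      · refine hclos _ (h2 ⟨h4, ?_⟩)
        show mf A B (q - s • d) < 0
        rw [hminus]
        nlinarith
    · right
      intro s hs0 hs1
      obtain ⟨h3, h4⟩ := hin s hs0 hs1
      constructor
      · refine hclos _ (h2 ⟨h3, ?_⟩)
        show mf A B (q + s • d) < 0
        rw [hmd]
        nlinarith
      · refine interior_subset (h1 ⟨h4, ?_⟩)
        show 0 < mf A B (q - s • d)
        rw [hminus]
        nlinarith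
  · rcases lt_or_gt_of_ne hAB with h | h
    · right
      intro s hs0 hs1
      obtain ⟨h3, h4⟩ := hin s hs0 hs1
      constructor
      · refine hclos _ (h1 ⟨h3, ?_⟩)
        show 0 < mf A B (q + s • d)
        rw [hmd]
        exact mul_pos hs0 (by linarith)
      · refine interior_subset (h2 ⟨h4, ?_⟩)
        show mf A B (q - s • d) < 0
        rw [hminus]
        nlinarith
    · left
      intro s hs0 hs1
      obtain ⟨h3, h4⟩ := hin s hs0 hs1
      constructor
      · refine interior_subset (h2 ⟨h3, ?_⟩)
        show mf A B (q + s • d) < 0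
        rw [hmd]
        nlinarith
      · refine hclos _ (h1 ⟨h4, ?_⟩)
        show 0 < mf A B (q - s • d)
        rw [hminus]
        nlinarith

end

end Pool.Agent.H41.Kc
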