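import Mathlib
import Pool.Agent.H41.Kc.Enc
import Pool.Agent.H41.Kc.Perm

set_option autoImplicit false

/-!
The point set: points are coded by bit strings.
-/

namespace Pool.Agent.H41.Kc

/-- Weighted sum of the bits; level weights are powers of `Q`. -/
noncomputable def G (Q : ℝ) (w : ℤ → ℝ) : List ℤ → List Bool → ℝ
  | v :: l, c :: b => G Q w l b + (if c then Q ^ (l.length + 1) * w v else 0)
  | _, _ => 0

lemma G_cons (Q : ℝ) (w : ℤ → ℝ) (v : ℤ) (l : List ℤ) (c : Bool) (b : List Bool) :
    G Q w (v :: l) (c :: b) = G Q w l b + (if c then Q ^ (l.length + 1) * w v else 0) := rfl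

lemma G_nil (Q : ℝ) (w : ℤ → ℝ) (b : List Bool) : G Q w [] b = 0 := by
  simp [G]

/-- the point coded by a bit string -/
noncomputable def pt (Q : ℝ) (l : List ℤ) (b : List Bool) : ℝ × ℝ :=
  (G Q (fun _ => 1) l b, G Q (fun v => (v : ℝ)) l b)

lemma G_sub (Q θ : ℝ) (l : List ℤ) : ∀ b : List Bool,
    G Q (fun v => (v : ℝ) - θ) l b = (pt Q l b).2 - θ * (pt Q l b).1 := by
  induction l with
  | nil => intro b; simp [G, pt]
  | cons v l ih =>
    intro b
    cases b with
    | nil => simp [G, pt]
    | cons c b =>
      have := ih b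
      simp only [pt] at this ⊢
      rw [G_cons, G_cons, G_cons, this]
      split_ifs <;> ring

/-- all values of `G` over one list of levels are close -/
lemma G_spread {Q W : ℝ} (hQ : 1 ≤ Q) (w : ℤ → ℝ) : ∀ (l : List ℤ),
    (∀ v ∈ l, |w v| ≤ W) → 0 ≤ W → ∀ b b' : List Bool, b.length = l.length → b'.length = l.length →
    (Q - 1) * |G Q w l b - G Q w l b'| ≤ W * Q ^ (l.length + 1) := by
  intro l
  induction l with
  | nil =>
    intro _ hW b b' _ _
    rw [G_nil, G_nil]
    simp only [sub_self, abs_zero, mul_zero]
    positivity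
  | cons v l ih =>
    intro hl hW b b' hb hb'
    rcases b with _ | ⟨c, b⟩
    · simp at hb
    rcases b' with _ | ⟨c', b'⟩
    · simp at hb'
    have h1 := ih (fun v' hv' => hl v' (by simp [hv'])) hW b b' (by simpa using hb)
      (by simpa using hb')
    have h2 := hl v (by simp)
    rw [G_cons, G_cons]
    have hQp : 0 ≤ Q ^ (l.length + 1) := by positivity
    have h3 : |(if c then Q ^ (l.length + 1) * w v else 0) -
        (if c' then Q ^ (l.length + 1) * w v else 0)| ≤ W * Q ^ (l.length + 1) := by
      have h4 : |Q ^ (l.length + 1) * w v| ≤ W * Q ^ (l.length + 1) := by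
        rw [abs_mul, abs_of_nonneg hQp, mul_comm]
        exact mul_le_mul_of_nonneg_right h2 hQp
      have h5 : 0 ≤ W * Q ^ (l.length + 1) := by positivity
      cases c <;> cases c' <;> simp only [Bool.false_eq_true, if_false, if_true, sub_self, abs_zero,
        sub_zero, zero_sub, abs_neg] <;> assumption
    have h6 : |G Q w l b + (if c then Q ^ (l.length + 1) * w v else 0) -
        (G Q w l b' + (if c' then Q ^ (l.length + 1) * w v else 0))| ≤
        |G Q w l b - G Q w l b'| + W * Q ^ (l.length + 1) := by
      refine le_trans (le_of_eq ?_) ((abs_add_le _ _).trans (add_le_add_right h3 _))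
      congr 1
      ring
    have h7 : 0 ≤ Q - 1 := by linarith
    calc (Q - 1) * _ ≤ (Q - 1) * (|G Q w l b - G Q w l b'| + W * Q ^ (l.length + 1)) :=
          mul_le_mul_of_nonneg_left h6 h7
      _ = (Q - 1) * |G Q w l b - G Q w l b'| + (Q - 1) * (W * Q ^ (l.length + 1)) := by ring
      _ ≤ W * Q ^ (l.length + 1) + (Q - 1) * (W * Q ^ (l.length + 1)) := add_le_add_left h1 _
      _ = W * Q ^ ((v :: l).length + 1) := by rw [List.length_cons]; ring

section

variable {Q : ℝ} {N : ℕ} (hQ : 2 * (N : ℝ) + 3 ≤ Q)

include hQ

/-- the lower levels cannot compete with a level whose slope is at distance `≥ 1/2` of `θ` -/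
lemma lower_lt {θ : ℝ} {v : ℤ} {l : List ℤ} (hl : ∀ v' ∈ l, |(v' : ℝ) - v| ≤ N)
    (hv : 1 / 2 ≤ |(v : ℝ) - θ|) {b b' : List Bool} (hb : b.length = l.length)
    (hb' : b'.length = l.length) :
    |G Q (fun v => (v : ℝ) - θ) l b - G Q (fun v => (v : ℝ) - θ) l b'| <
      Q ^ (l.length + 1) * |(v : ℝ) - θ| := by
  have hN : (0 : ℝ) ≤ N := Nat.cast_nonneg N
  have hQ1 : 1 ≤ Q := by linarith
  have hW : ∀ v' ∈ l, |(fun v : ℤ => (v : ℝ) - θ) v'| ≤ |(v : ℝ) - θ| + N := by
    intro v' hv'
    have h1 := hl v' hv'
    have h2 : (v' : ℝ) - θ = ((v' : ℝ) - v) + ((v : ℝ) - θ) := by ring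
    show |(v' : ℝ) - θ| ≤ _
    rw [h2]
    refine (abs_add_le _ _).trans ?_
    linarith
  have h3 := G_spread hQ1 (fun v : ℤ => (v : ℝ) - θ) l hW (by positivity) b b' hb hb'
  have h4 : |(v : ℝ) - θ| + N ≤ (2 * N + 1) * |(v : ℝ) - θ| := by nlinarith
  have hQp : 0 < Q ^ (l.length + 1) := by positivity
  have h5 : 0 < |(v : ℝ) - θ| := by linarith
  have h6 : (Q - 1) * |G Q (fun v => (v : ℝ) - θ) l b - G Q (fun v => (v : ℝ) - θ) l b'| <
      (Q - 1) * (Q ^ (l.length + 1) * |(v : ℝ) - θ|) := by
    calc _ ≤ (|(v : ℝ) - θ| + N) * Q ^ (l.length + 1) := h3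
      _ ≤ ((2 * N + 1) * |(v : ℝ) - θ|) * Q ^ (l.length + 1) :=
          mul_le_mul_of_nonneg_right h4 hQp.le
      _ < (Q - 1) * (Q ^ (l.length + 1) * |(v : ℝ) - θ|) := by
          have : 0 < Q ^ (l.length + 1) * |(v : ℝ) - θ| := by positivity
          nlinarith
  exact lt_of_mul_lt_mul_left h6 (by linarith)

/-- x-coordinates: the lower levels cannot compete -/
lemma lower_x {l : List ℤ} {b b' : List Bool} (hb : b.length = l.length)
    (hb' : b'.length = l.length) :
    |G Q (fun _ => 1) l b - G Q (fun _ => 1) l b'| < Q ^ (l.length + 1) := by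
  have hN : (0 : ℝ) ≤ N := Nat.cast_nonneg N
  have hQ1 : 1 ≤ Q := by linarith
  have h3 := G_spread hQ1 (fun _ : ℤ => (1 : ℝ)) l (W := 1) (by simp) (by norm_num) b b' hb hb'
  have hQp : 0 < Q ^ (l.length + 1) := by positivity
  have h4 := abs_nonneg (G Q (fun _ => 1) l b - G Q (fun _ => 1) l b')
  nlinarith

/-- sides of points with respect to lines of half-integer slope -/
lemma side_sd {t : ℤ} : ∀ (l : List ℤ), (∀ v ∈ l, ∀ v' ∈ l, |(v' : ℝ) - v| ≤ N) →
    ∀ x q : List Bool, x.length = l.length → q.length = l.length → q ≠ x →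
    (sd (thr t) l x q = true → G Q (fun v => (v : ℝ) - (t - 1 / 2)) l x <
      G Q (fun v => (v : ℝ) - (t - 1 / 2)) l q) ∧
    (sd (thr t) l x q = false → G Q (fun v => (v : ℝ) - (t - 1 / 2)) l q <
      G Q (fun v => (v : ℝ) - (t - 1 / 2)) l x) := by
  intro l
  induction l with
  | nil =>
    intro _ x q hx hq hne
    exfalso
    apply hne
    rw [List.length_eq_zero_iff.mp hx, List.length_eq_zero_iff.mp hq]
  | cons v l ih =>
    intro hl x q hx hq hne
    rcases x with _ | ⟨c, x⟩
    · simp at hx
    rcases q with _ | ⟨d, q⟩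
    · simp at hq
    have hx' : x.length = l.length := by simpa using hx
    have hq' : q.length = l.length := by simpa using hq
    by_cases hcd : c = d
    · subst hcd
      have hne' : q ≠ x := fun h => hne (by rw [h])
      have := ih (fun v hv v' hv' => hl v (by simp [hv]) v' (by simp [hv'])) x q hx' hq' hne'
      have hsd : sd (thr t) (v :: l) (c :: x) (c :: q) = sd (thr t) l x q := by simp [sd]
      rw [hsd, G_cons, G_cons]
      constructor
      · intro h
        have := this.1 h
        linarith
      · intro h
        have := this.2 h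
        linarith
    · have hsd : sd (thr t) (v :: l) (c :: x) (d :: q) = (d == thr t v) := by simp [sd, hcd]
      have hQp : 0 < Q ^ (l.length + 1) := by
        have hN : (0 : ℝ) ≤ N := Nat.cast_nonneg N
        have : 0 < Q := by linarith
        positivity
      rw [hsd, G_cons, G_cons]
      by_cases htv : t ≤ v
      · have hthr : thr t v = true := by simp [thr, htv]
        have h1 : (1 : ℝ) / 2 ≤ (v : ℝ) - (t - 1 / 2) := by
          have : (t : ℝ) ≤ v := by exact_mod_cast htv
          linarith
        have h2 := lower_lt hQ (θ := (t : ℝ) - 1 / 2) (v := v) (l := l)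
          (fun v' hv' => hl v (by simp) v' (by simp [hv'])) (h1.trans (le_abs_self _)) hx' hq'
        rw [abs_of_nonneg (by linarith : 0 ≤ (v : ℝ) - (t - 1 / 2))] at h2
        rw [abs_lt] at h2
        rw [hthr]
        cases d
        · have hc : c = true := by cases c <;> simp_all
          subst hc
          constructor
          · intro h; simp at h
          · intro _
            simp only [Bool.false_eq_true, if_false, if_true]
            linarith [h2.1, h2.2]
        · have hc : c = false := by cases c <;> simp_all
          subst hc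
          constructor
          · intro _
            simp only [Bool.false_eq_true, if_false, if_true]
            linarith [h2.1, h2.2]
          · intro h; simp at h
      · have hthr : thr t v = false := by simp [thr, htv]
        have h1 : (v : ℝ) - (t - 1 / 2) ≤ -(1 / 2) := by
          have : (v : ℝ) + 1 ≤ t := by
            have : v + 1 ≤ t := by omega
            exact_mod_cast this
          linarith
        have h2 := lower_lt hQ (θ := (t : ℝ) - 1 / 2) (v := v) (l := l)
          (fun v' hv' => hl v (by simp) v' (by simp [hv']))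
          (by rw [abs_of_nonpos (by linarith)]; linarith) hx' hq'
        rw [abs_of_nonpos (by linarith : (v : ℝ) - (t - 1 / 2) ≤ 0)] at h2
        rw [abs_lt] at h2
        rw [hthr]
        cases d
        · have hc : c = true := by cases c <;> simp_all
          subst hc
          constructor
          · intro _
            simp only [Bool.false_eq_true, if_false, if_true]
            linarith [h2.1, h2.2]
          · intro h; simp at h
        · have hc : c = false := by cases c <;> simp_all
          subst hc
          constructor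
          · intro h; simp at h
          · intro _
            simp only [Bool.false_eq_true, if_false, if_true]
            linarith [h2.1, h2.2]

/-- two different points with the same height over a line of slope `θ` force a slope near `θ` -/
lemma exists_near {θ : ℝ} : ∀ (l : List ℤ), (∀ v ∈ l, ∀ v' ∈ l, |(v' : ℝ) - v| ≤ N) →
    ∀ x q : List Bool, x.length = l.length → q.length = l.length → q ≠ x →
    G Q (fun v => (v : ℝ) - θ) l x = G Q (fun v => (v : ℝ) - θ) l q →
    ∃ v ∈ l, |(v : ℝ) - θ| < 1 / 2 := by
  intro l
  induction l with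
  | nil =>
    intro _ x q hx hq hne _
    exfalso
    apply hne
    rw [List.length_eq_zero_iff.mp hx, List.length_eq_zero_iff.mp hq]
  | cons v l ih =>
    intro hl x q hx hq hne he
    rcases x with _ | ⟨c, x⟩
    · simp at hx
    rcases q with _ | ⟨d, q⟩
    · simp at hq
    have hx' : x.length = l.length := by simpa using hx
    have hq' : q.length = l.length := by simpa using hq
    rw [G_cons, G_cons] at he
    by_cases hcd : c = d
    · subst hcd
      obtain ⟨v', hv', h⟩ := ih (fun v hv v' hv' => hl v (by simp [hv]) v' (by simp [hv'])) x q hx'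
        hq' (fun h => hne (by rw [h])) (by linarith)
      exact ⟨v', by simp [hv'], h⟩
    · refine ⟨v, by simp, ?_⟩
      by_contra hcon
      push Not at hcon
      have h2 := lower_lt hQ (θ := θ) (v := v) (l := l)
        (fun v' hv' => hl v (by simp) v' (by simp [hv'])) hcon hx' hq'
      have hQp : 0 < Q ^ (l.length + 1) := by
        have hN : (0 : ℝ) ≤ N := Nat.cast_nonneg N
        have : 0 < Q := by linarith
        positivity
      have h3 : |Q ^ (l.length + 1) * ((v : ℝ) - θ)| = Q ^ (l.length + 1) * |(v : ℝ) - θ| := by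
        rw [abs_mul, abs_of_pos hQp]
      rw [← h3] at h2
      cases c <;> cases d <;> simp only [Bool.false_eq_true, if_false, if_true, not_true_eq_false,
        not_false_eq_true, add_zero] at hcd he
      · rw [he] at h2
        simp at h2
      · rw [← he] at h2
        rw [show G Q (fun v => (v : ℝ) - θ) l x -
          (G Q (fun v => (v : ℝ) - θ) l x + Q ^ (l.length + 1) * ((v : ℝ) - θ)) =
          -(Q ^ (l.length + 1) * ((v : ℝ) - θ)) by ring, abs_neg] at h2
        exact lt_irrefl _ h2

/-- three different points never have the same height over a line -/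
lemma no_three {θ : ℝ} : ∀ (l : List ℤ), l.Nodup → (∀ v ∈ l, ∀ v' ∈ l, |(v' : ℝ) - v| ≤ N) →
    ∀ x y z : List Bool, x.length = l.length → y.length = l.length → z.length = l.length →
    x ≠ y → y ≠ z → x ≠ z →
    G Q (fun v => (v : ℝ) - θ) l x = G Q (fun v => (v : ℝ) - θ) l y →
    G Q (fun v => (v : ℝ) - θ) l y = G Q (fun v => (v : ℝ) - θ) l z → False := by
  intro l
  induction l with
  | nil =>
    intro _ _ x y z hx hy hz hne _ _ _ _
    apply hne
    rw [List.length_eq_zero_iff.mp hx, List.length_eq_zero_iff.mp hy]
  | cons v l ih =>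
    intro hn hl x y z hx hy hz hxy hyz hxz he1 he2
    have hn' : l.Nodup := hn.of_cons
    have hvl : v ∉ l := (List.nodup_cons.mp hn).1
    have hl' : ∀ v ∈ l, ∀ v' ∈ l, |(v' : ℝ) - v| ≤ N :=
      fun v hv v' hv' => hl v (by simp [hv]) v' (by simp [hv'])
    -- two strings with the same head, and one with the other head
    have key : ∀ (c : Bool) (x y z : List Bool), x.length = l.length → y.length = l.length →
        z.length = l.length → x ≠ y →
        G Q (fun v => (v : ℝ) - θ) (v :: l) (c :: x) = G Q (fun v => (v : ℝ) - θ) (v :: l) (c :: y) →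
        G Q (fun v => (v : ℝ) - θ) (v :: l) (c :: y) =
          G Q (fun v => (v : ℝ) - θ) (v :: l) ((!c) :: z) → False := by
      intro c x y z hx hy hz hxy h1 h2
      have h3 : G Q (fun v => (v : ℝ) - θ) l x = G Q (fun v => (v : ℝ) - θ) l y := by
        rw [G_cons, G_cons] at h1
        linarith
      obtain ⟨v', hv', hv1⟩ := exists_near hQ l hl' x y hx hy (Ne.symm hxy) h3
      have hv2 : |(v : ℝ) - θ| < 1 / 2 := by
        by_contra hcon
        push Not at hcon
        have h4 := lower_lt hQ (θ := θ) (v := v) (l := l)
          (fun v' hv' => hl v (by simp) v' (by simp [hv'])) hcon hy hz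
        have hQp : 0 < Q ^ (l.length + 1) := by
          have hN : (0 : ℝ) ≤ N := Nat.cast_nonneg N
          have : 0 < Q := by linarith
          positivity
        have h5 : |Q ^ (l.length + 1) * ((v : ℝ) - θ)| = Q ^ (l.length + 1) * |(v : ℝ) - θ| := by
          rw [abs_mul, abs_of_pos hQp]
        rw [← h5] at h4
        rw [G_cons, G_cons] at h2
        cases c <;> simp only [Bool.not_false, Bool.not_true, Bool.false_eq_true, if_false,
          if_true, add_zero] at h2
        · rw [h2] at h4
          simp at h4
        · rw [← h2] at h4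
          rw [show G Q (fun v => (v : ℝ) - θ) l y -
            (G Q (fun v => (v : ℝ) - θ) l y + Q ^ (l.length + 1) * ((v : ℝ) - θ)) =
            -(Q ^ (l.length + 1) * ((v : ℝ) - θ)) by ring, abs_neg] at h4
          exact lt_irrefl _ h4
      have hvv : v ≠ v' := fun h => hvl (h ▸ hv')
      have h6 : (1 : ℝ) ≤ |(v : ℝ) - v'| := by
        have h7 : (1 : ℤ) ≤ |v - v'| := Int.one_le_abs (sub_ne_zero.mpr hvv)
        have h8 : ((1 : ℤ) : ℝ) ≤ ((|v - v'| : ℤ) : ℝ) := by exact_mod_cast h7
        simpa using h8
      have h9 : |(v : ℝ) - v'| ≤ |(v : ℝ) - θ| + |(v' : ℝ) - θ| := by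
        have : (v : ℝ) - v' = ((v : ℝ) - θ) - ((v' : ℝ) - θ) := by ring
        rw [this]
        exact abs_sub _ _
      linarith
    rcases x with _ | ⟨a, x⟩
    · simp at hx
    rcases y with _ | ⟨b, y⟩
    · simp at hy
    rcases z with _ | ⟨c, z⟩
    · simp at hz
    have hx' : x.length = l.length := by simpa using hx
    have hy' : y.length = l.length := by simpa using hy
    have hz' : z.length = l.length := by simpa using hz
    by_cases hab : a = b
    · subst hab
      by_cases hac : c = a
      · subst hac
        refine ih hn' hl' x y z hx' hy' hz' (fun h => hxy (by rw [h])) (fun h => hyz (by rw [h]))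
          (fun h => hxz (by rw [h])) ?_ ?_
        · rw [G_cons, G_cons] at he1; linarith
        · rw [G_cons, G_cons] at he2; linarith
      · have hc : c = !a := by cases a <;> cases c <;> simp_all
        subst hc
        exact key a x y z hx' hy' hz' (fun h => hxy (by rw [h])) he1 he2
    · have hb : b = !a := by cases a <;> cases b <;> simp_all
      subst hb
      by_cases hac : c = a
      · subst hac
        -- x and z share the head
        exact key c x z y hx' hz' hy' (fun h => hxz (by rw [h])) (he1.trans he2)
          (by rw [← he2])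
      · have hc : c = !a := by cases a <;> cases c <;> simp_all
        subst hc
        -- y and z share the head
        refine key (!a) y z x hy' hz' hx' (fun h => hyz (by rw [h])) he2 ?_
        rw [Bool.not_not, ← he2, ← he1]

end

end Pool.Agent.H41.Kc
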