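import Mathlib
import Pool.Agent.H41.Kc.Geo

set_option autoImplicit false

/-!
The words that lines cut out of the lexicographically ordered point list.
-/

namespace Pool.Agent.H41.Kc

/-- all bit strings of length `n` in lexicographic order -/
def bits : ℕ → List (List Bool)
  | 0 => [[]]
  | n + 1 => (bits n).map (List.cons false) ++ (bits n).map (List.cons true)

lemma length_of_mem_bits : ∀ {n : ℕ} {b : List Bool}, b ∈ bits n → b.length = n := by
  intro n
  induction n with
  | zero => intro b hb; simp [bits] at hb; subst hb; rfl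
  | succ n ih =>
    intro b hb
    simp only [bits, List.mem_append, List.mem_map] at hb
    rcases hb with ⟨b', hb', rfl⟩ | ⟨b', hb', rfl⟩ <;> simp [ih hb']

lemma length_bits (n : ℕ) : (bits n).length = 2 ^ n := by
  induction n with
  | zero => simp [bits]
  | succ n ih => simp [bits, ih, pow_succ]; ring

/-- the word cut out by the line of slope `θ` and height `η`: `true` for points on or above it -/
noncomputable def word (Q θ η : ℝ) (l : List ℤ) : List Bool :=
  (bits l.length).map (fun b => decide (η ≤ G Q (fun v => (v : ℝ) - θ) l b))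

lemma word_nil (Q θ η : ℝ) : word Q θ η [] = [decide (η ≤ 0)] := by
  simp [word, bits, G_nil]

lemma word_cons (Q θ η : ℝ) (v : ℤ) (l : List ℤ) :
    word Q θ η (v :: l) = word Q θ η l ++ word Q θ (η - Q ^ (l.length + 1) * ((v : ℝ) - θ)) l := by
  unfold word
  rw [List.length_cons, bits, List.map_append, List.map_map, List.map_map]
  congr 1
  · apply List.map_congr_left
    intro b _
    simp only [Function.comp_apply]
    rw [G_cons]
    simp
  · apply List.map_congr_left
    intro b _
    simp only [Function.comp_apply]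
    rw [G_cons]
    simp only [if_true]
    congr 1
    apply propext
    constructor <;> intro h <;> linarith

lemma alt_change_end (a e e' : Bool) (X : List Bool) : alt a (X ++ [e]) ≤ alt a (X ++ [e']) + 1 := by
  rw [alt_append, alt_append, alt_cons, alt_cons]
  split_ifs <;> simp <;> omega

lemma alt_change_both (e e' : Bool) (X : List Bool) :
    alt (!e) (X ++ [e]) ≤ alt (!e') (X ++ [e']) + 2 * (if e = e' then 0 else 1) := by
  by_cases h : e = e'
  · subst h; simp
  · rw [if_neg h]
    have h1 := alt_le_alt (!e) (!e') (X ++ [e])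
    have h2 := alt_change_end (!e') e e' X
    split_ifs at h1 <;> omega

lemma alt_two_words (e : Bool) (X Y : List Bool) :
    alt (!e) (X ++ Y ++ [e]) ≤ alt (!e) (X ++ [e]) + 1 + alt (!e) (Y ++ [e]) := by
  have hs : (X ++ Y ++ [e]).Sublist (X ++ [e] ++ [!e] ++ (Y ++ [e])) := by
    rw [List.append_assoc X Y]
    refine List.Sublist.append_right ?_ _
    rw [List.append_assoc]
    exact List.sublist_append_left _ _
  refine (alt_sublist hs (!e)).trans ?_
  rw [alt_append, alt_append (!e) (X ++ [e]) [!e]]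
  simp only [List.getLastD_concat, alt_cons, alt_nil]
  have : (X ++ [e] ++ [!e]).getLastD (!e) = !e := List.getLastD_concat
  cases e <;> simp

/-- the line is far from the slope `v` -/
noncomputable def far (θ : ℝ) (v : ℤ) : Bool := decide ((1 : ℝ) / 2 ≤ |(v : ℝ) - θ|)

/-- the slope `v` is larger than `θ` -/
noncomputable def tau (θ : ℝ) (v : ℤ) : Bool := decide (θ < (v : ℝ))

section

variable {Q : ℝ} {N : ℕ} (hQ : 2 * (N : ℝ) + 3 ≤ Q)

include hQ

lemma word_dichotomy {θ : ℝ} {v : ℤ} {l : List ℤ} (hl : ∀ v' ∈ l, |(v' : ℝ) - v| ≤ N)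
    (hv : far θ v = true) (η : ℝ) :
    (∀ b ∈ word Q θ (η - Q ^ (l.length + 1) * ((v : ℝ) - θ)) l, b = tau θ v) ∨
      (∀ b ∈ word Q θ η l, b = !(tau θ v)) := by
  have hv' : (1 : ℝ) / 2 ≤ |(v : ℝ) - θ| := by simpa [far] using hv
  have hQp : 0 < Q ^ (l.length + 1) := by
    have hN : (0 : ℝ) ≤ N := Nat.cast_nonneg N
    have : 0 < Q := by linarith
    positivity
  rcases lt_or_ge θ (v : ℝ) with h | h
  · have hw : 0 < Q ^ (l.length + 1) * ((v : ℝ) - θ) := mul_pos hQp (by linarith)
    have ht : tau θ v = true := by simp [tau, h]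
    rw [ht]
    by_cases hall : ∀ b ∈ word Q θ (η - Q ^ (l.length + 1) * ((v : ℝ) - θ)) l, b = true
    · exact Or.inl hall
    · right
      push Not at hall
      obtain ⟨b, hb, hb'⟩ := hall
      obtain ⟨z, hz, rfl⟩ := List.mem_map.mp hb
      simp only [ne_eq, decide_eq_true_eq, not_le] at hb'
      intro b hb
      obtain ⟨y, hy, rfl⟩ := List.mem_map.mp hb
      have h1 := lower_lt hQ (θ := θ) (v := v) (l := l) hl hv' (length_of_mem_bits hy)
        (length_of_mem_bits hz)
      rw [abs_of_pos (by linarith : 0 < (v : ℝ) - θ), abs_lt] at h1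
      simp only [Bool.not_true, decide_eq_false_iff_not, not_le]
      linarith [h1.2]
  · have hlt : (v : ℝ) < θ := by
      rcases h.lt_or_eq with h | h
      · exact h
      · rw [h] at hv'; norm_num at hv'
    have hw : Q ^ (l.length + 1) * ((v : ℝ) - θ) < 0 := mul_neg_of_pos_of_neg hQp (by linarith)
    have ht : tau θ v = false := by simp [tau, h]
    rw [ht]
    by_cases hall : ∀ b ∈ word Q θ (η - Q ^ (l.length + 1) * ((v : ℝ) - θ)) l, b = false
    · exact Or.inl hall
    · right
      push Not at hall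
      obtain ⟨b, hb, hb'⟩ := hall
      obtain ⟨z, hz, rfl⟩ := List.mem_map.mp hb
      simp only [ne_eq, decide_eq_false_iff_not, not_le, not_lt] at hb'
      intro b hb
      obtain ⟨y, hy, rfl⟩ := List.mem_map.mp hb
      have h1 := lower_lt hQ (θ := θ) (v := v) (l := l) hl hv' (length_of_mem_bits hy)
        (length_of_mem_bits hz)
      rw [abs_of_neg (by linarith : (v : ℝ) - θ < 0), abs_lt] at h1
      simp only [Bool.not_false, decide_eq_true_eq]
      linarith [h1.1]

/-- one step of the induction at a far level -/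
lemma word_step {θ : ℝ} {v : ℤ} {l : List ℤ} (hl : ∀ v' ∈ l, |(v' : ℝ) - v| ≤ N)
    (hv : far θ v = true) {K : ℕ}
    (hK : ∀ η, alt (!(tau θ v)) (word Q θ η l ++ [tau θ v]) ≤ K) (η : ℝ) (e : Bool) :
    alt (!e) (word Q θ η (v :: l) ++ [e]) ≤ K + 2 * (if e = tau θ v then 0 else 1) := by
  refine (alt_change_both e (tau θ v) _).trans (Nat.add_le_add_right ?_ _)
  rw [word_cons]
  rcases word_dichotomy hQ hl hv η with h | h
  · rw [alt_append_const _ _ h]
    exact hK η
  · rw [List.append_assoc, alt_const_append _ h]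
    exact hK _

/-- all levels far -/
lemma word_far {θ : ℝ} : ∀ (l : List ℤ), (∀ v ∈ l, ∀ v' ∈ l, |(v' : ℝ) - v| ≤ N) →
    (∀ v ∈ l, far θ v = true) → ∀ (η : ℝ) (e : Bool),
    alt (!e) (word Q θ η l ++ [e]) ≤ 1 + 2 * alt e (l.map (tau θ)) := by
  intro l
  induction l with
  | nil =>
    intro _ _ η e
    rw [word_nil]
    simp only [List.singleton_append, alt_cons, alt_nil, List.map_nil]
    cases e <;> cases decide (η ≤ 0) <;> simp
  | cons v l ih =>
    intro hl hf η e
    have h1 := word_step hQ (θ := θ) (v := v) (l := l)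
      (fun v' hv' => hl v (by simp) v' (by simp [hv'])) (hf v (by simp))
      (K := 1 + 2 * alt (tau θ v) (l.map (tau θ)))
      (fun η => ih (fun v hv v' hv' => hl v (by simp [hv]) v' (by simp [hv']))
        (fun v hv => hf v (by simp [hv])) η (tau θ v)) η e
    rw [List.map_cons, alt_cons]
    omega

/-- general lines -/
lemma word_gen {θ : ℝ} : ∀ (l : List ℤ), l.Nodup → (∀ v ∈ l, ∀ v' ∈ l, |(v' : ℝ) - v| ≤ N) →
    ∀ (η : ℝ) (e : Bool),
    alt (!e) (word Q θ η l ++ [e]) ≤ 3 + 4 * alt e ((l.filter (far θ)).map (tau θ)) := by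
  intro l
  induction l with
  | nil =>
    intro _ _ η e
    rw [word_nil]
    simp only [List.singleton_append, alt_cons, alt_nil, List.filter_nil, List.map_nil]
    cases e <;> cases decide (η ≤ 0) <;> simp
  | cons v l ih =>
    intro hn hl η e
    have hn' : l.Nodup := hn.of_cons
    have hvl : v ∉ l := (List.nodup_cons.mp hn).1
    have hl' : ∀ v ∈ l, ∀ v' ∈ l, |(v' : ℝ) - v| ≤ N :=
      fun v hv v' hv' => hl v (by simp [hv]) v' (by simp [hv'])
    by_cases hv : far θ v = true
    · have h1 := word_step hQ (θ := θ) (v := v) (l := l)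
        (fun v' hv' => hl v (by simp) v' (by simp [hv'])) hv
        (K := 3 + 4 * alt (tau θ v) ((l.filter (far θ)).map (tau θ)))
        (fun η => ih hn' hl' η (tau θ v)) η e
      rw [List.filter_cons_of_pos hv, List.map_cons, alt_cons]
      omega
    · -- all other levels are far
      have hfar : ∀ v' ∈ l, far θ v' = true := by
        intro v' hv'
        by_contra hcon
        have h1 : |(v : ℝ) - θ| < 1 / 2 := by simpa [far] using hv
        have h2 : |(v' : ℝ) - θ| < 1 / 2 := by simpa [far] using hcon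
        have hvv : v ≠ v' := fun h => hvl (h ▸ hv')
        have h6 : (1 : ℝ) ≤ |(v : ℝ) - v'| := by
          have h7 : (1 : ℤ) ≤ |v - v'| := Int.one_le_abs (sub_ne_zero.mpr hvv)
          have h8 : ((1 : ℤ) : ℝ) ≤ ((|v - v'| : ℤ) : ℝ) := by exact_mod_cast h7
          simpa using h8
        have h9 : |(v : ℝ) - v'| ≤ |(v : ℝ) - θ| + |(v' : ℝ) - θ| := by
          have : (v : ℝ) - v' = ((v : ℝ) - θ) - ((v' : ℝ) - θ) := by ring
          rw [this]
          exact abs_sub _ _
        linarith
      have hfilt : (v :: l).filter (far θ) = l := by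
        rw [List.filter_cons_of_neg hv]
        exact List.filter_eq_self.mpr hfar
      rw [hfilt, word_cons]
      have h1 := word_far hQ l hl' hfar η e
      have h2 := word_far hQ l hl' hfar (η - Q ^ (l.length + 1) * ((v : ℝ) - θ)) e
      have h3 := alt_two_words e (word Q θ η l) (word Q θ (η - Q ^ (l.length + 1) * ((v : ℝ) - θ)) l)
      omega

end

/-- up-crossings of the permutation -/
lemma crossing_Phi_up {m : ℕ} (hm : 1 ≤ m) (d : ℕ) (t : ℤ) :
    alt false ((Phi m (d + 1)).map (thr t) ++ [true]) ≤ 2 * d + 1 := by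
  have hpow : (0 : ℤ) < (m : ℤ) ^ d := by positivity
  by_cases h0 : t < 0
  · have : ∀ b ∈ (Phi m (d + 1)).map (thr t), b = true := by
      intro b hb
      obtain ⟨v, hv, rfl⟩ := List.mem_map.mp hb
      have := mem_Phi hm hv
      unfold thr
      simp only [decide_eq_true_eq]
      omega
    have h2 := alt_append_const (a := false) [] [] this
    simp only [List.nil_append] at h2
    rw [h2]
    simp [alt_cons]
  by_cases h1 : (m : ℤ) ^ (d + 1) ≤ t
  · have : ∀ b ∈ (Phi m (d + 1)).map (thr t), b = false := by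
      intro b hb
      obtain ⟨v, hv, rfl⟩ := List.mem_map.mp hb
      have := mem_Phi hm hv
      unfold thr
      simp only [decide_eq_false_iff_not]
      omega
    rw [alt_const_append _ this]
    simp [alt_cons]
  push Not at h0 h1
  set i : ℤ := t / (m : ℤ) ^ d with hi
  have hi0 : 0 ≤ i := Int.ediv_nonneg h0 hpow.le
  have hi1 : i < m := by
    rw [hi]
    apply Int.ediv_lt_of_lt_mul hpow
    rw [pow_succ, mul_comm] at h1
    exact h1
  obtain ⟨i', hi'⟩ := Int.eq_ofNat_of_zero_le hi0
  have hi'm : i' < m := by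
    have : (i' : ℤ) < m := by rw [← hi']; exact hi1
    exact_mod_cast this
  set t' : ℤ := (m : ℤ) ^ d - t % (m : ℤ) ^ d with ht'
  have hmod0 := Int.emod_nonneg t hpow.ne'
  have hmod1 := Int.emod_lt_of_pos t hpow
  have ht : t = (i' : ℤ) * (m : ℤ) ^ d + ((m : ℤ) ^ d - t') := by
    have := Int.mul_ediv_add_emod t ((m : ℤ) ^ d)
    rw [ht', ← hi', hi]
    linarith [mul_comm ((m : ℤ) ^ d) (t / (m : ℤ) ^ d)]
  obtain ⟨F, T, hF, hT, -, -, heq⟩ := map_thr_split hm (fun _ => Phi m d)
    (fun _ => List.Sublist.refl _) hi'm (t := t') (by omega) (by omega)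
  rw [← ht, ← Phi_succ] at heq
  rw [heq, List.append_assoc, List.append_assoc, alt_const_append _ hF]
  have e2 : ((Phi m d).map (thr t')).map (!·) ++ (T ++ [true]) =
      ((Phi m d).map (thr t')).map (!·) ++ T ++ true :: [] := by simp
  rw [e2, alt_append_const _ _ hT]
  have h5 : alt false (((Phi m d).map (thr t')).map (!·) ++ true :: []) =
      alt true ((Phi m d).map (thr t') ++ [false]) := by
    have := alt_not true ((Phi m d).map (thr t') ++ [false])
    rw [List.map_append] at this
    exact this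
  rw [h5]
  exact crossing_Phi hm d t'

/-- The words of lines on the whole point set change rarely. -/
theorem word_bound {Q : ℝ} {m d : ℕ} (hm : 1 ≤ m) (hQ : 2 * ((m ^ (d + 1) : ℕ) : ℝ) + 3 ≤ Q)
    (θ η : ℝ) : alt true (word Q θ η (Phi m (d + 1)) ++ [false]) ≤ 8 * d + 7 := by
  have hN : ∀ v ∈ Phi m (d + 1), ∀ v' ∈ Phi m (d + 1), |(v' : ℝ) - v| ≤ ((m ^ (d + 1) : ℕ) : ℝ) := by
    intro v hv v' hv'
    have h1 := mem_Phi hm hv
    have h2 := mem_Phi hm hv'
    have h3 : |v' - v| ≤ ((m ^ (d + 1) : ℕ) : ℤ) := by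
      rw [abs_le]
      push_cast
      constructor <;> omega
    have h4 : ((|v' - v| : ℤ) : ℝ) ≤ (((m ^ (d + 1) : ℕ) : ℤ) : ℝ) := by exact_mod_cast h3
    simpa using h4
  have h1 := word_gen hQ (θ := θ) (Phi m (d + 1)) (nodup_Phi hm _) hN η false
  have h2 : alt false (((Phi m (d + 1)).filter (far θ)).map (tau θ)) ≤ 2 * d + 1 := by
    have h3 : (Phi m (d + 1)).map (tau θ) = (Phi m (d + 1)).map (thr (⌊θ⌋ + 1)) := by
      apply List.map_congr_left
      intro v _
      unfold tau thr
      congr 1
      apply propext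
      rw [← Int.floor_lt]
      exact Iff.rfl
    have h4 := alt_sublist (((List.filter_sublist (p := far θ) (l := Phi m (d + 1))).map (tau θ)).trans
      (List.sublist_append_left _ [true])) false
    rw [h3] at h4
    exact h4.trans (crossing_Phi_up hm d _)
  simp only [Bool.not_false] at h1
  omega

end Pool.Agent.H41.Kc
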