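import Mathlib
import Pool.Agent.H41.Kc.Perm
import Pool.Agent.H41.Kc.Chain

set_option autoImplicit false

/-!
Complete subtrees of sets of bit strings, and the alternating words that they force.
-/

namespace Pool.Agent.H41.Kc

/-- strings that continue `c` -/
def st (c : Bool) (A : Set (List Bool)) : Set (List Bool) := {b | (c :: b) ∈ A}

/-- strings that continue the initial segment `p` -/
def stp (p : List Bool) (A : Set (List Bool)) : Set (List Bool) := {b | (p ++ b) ∈ A}

lemma stp_nil (A : Set (List Bool)) : stp [] A = A := rfl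

lemma stp_cons (c : Bool) (p : List Bool) (A : Set (List Bool)) :
    stp (c :: p) A = stp p (st c A) := rfl

lemma st_stp (c : Bool) (p : List Bool) (A : Set (List Bool)) :
    st c (stp p A) = stp (p ++ [c]) A := by
  ext b
  simp [st, stp]

/-- the set `A` of strings of length `l.length` contains a complete subtree of depth `d` -/
def Full : List ℤ → ℕ → Set (List Bool) → Prop
  | [], 0, A => A.Nonempty
  | [], _ + 1, _ => False
  | _ :: _, 0, A => A.Nonempty
  | _ :: l, d + 1, A => Full l (d + 1) (st false A) ∨ Full l (d + 1) (st true A) ∨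
      (Full l d (st false A) ∧ Full l d (st true A))

lemma full_zero (l : List ℤ) (A : Set (List Bool)) : Full l 0 A ↔ A.Nonempty := by
  cases l <;> rfl

lemma full_nil_succ (d : ℕ) (A : Set (List Bool)) : ¬ Full [] (d + 1) A := id

lemma full_cons_succ (v : ℤ) (l : List ℤ) (d : ℕ) (A : Set (List Bool)) :
    Full (v :: l) (d + 1) A ↔ Full l (d + 1) (st false A) ∨ Full l (d + 1) (st true A) ∨
      (Full l d (st false A) ∧ Full l d (st true A)) := Iff.rfl

lemma st_nonempty {c : Bool} {A : Set (List Bool)} (h : (st c A).Nonempty) : A.Nonempty := by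
  obtain ⟨b, hb⟩ := h
  exact ⟨c :: b, hb⟩

lemma Full.pred : ∀ {l : List ℤ} {d : ℕ} {A : Set (List Bool)}, Full l (d + 1) A → Full l d A := by
  intro l
  induction l with
  | nil => intro d A h; exact absurd h (full_nil_succ d A)
  | cons v l ih =>
    intro d A h
    rw [full_cons_succ] at h
    cases d with
    | zero =>
      rw [full_zero]
      rcases h with h | h | h
      · exact st_nonempty ((full_zero _ _).mp (ih h))
      · exact st_nonempty ((full_zero _ _).mp (ih h))
      · exact st_nonempty ((full_zero _ _).mp h.1)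
    | succ d =>
      rw [full_cons_succ]
      rcases h with h | h | h
      · exact Or.inl (ih h)
      · exact Or.inr (Or.inl (ih h))
      · exact Or.inr (Or.inr ⟨ih h.1, ih h.2⟩)

lemma Full.mono {l : List ℤ} {d d' : ℕ} {A : Set (List Bool)} (h : Full l d A) (hd : d' ≤ d) :
    Full l d' A := by
  induction d with
  | zero =>
    have : d' = 0 := by omega
    subst this
    exact h
  | succ d ih =>
    rcases Nat.lt_or_ge d d' with h1 | h1
    · have : d' = d + 1 := by omega
      subst this
      exact h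
    · exact ih h.pred h1

lemma Full.nonempty {l : List ℤ} {d : ℕ} {A : Set (List Bool)} (h : Full l d A) : A.Nonempty :=
  (full_zero l A).mp (h.mono (Nat.zero_le _))

/-- the slope `v` is larger than `u` -/
def up (u v : ℤ) : Bool := decide (u < v)

/-- words of lines through an element of `A` -/
inductive BWp (τ : ℤ → Bool) : List ℤ → Set (List Bool) → List Bool → Prop
  | nil {l : List ℤ} {A : Set (List Bool)} : A.Nonempty → BWp τ l A []
  | skip {v : ℤ} {l : List ℤ} {A : Set (List Bool)} {w : List Bool} (c : Bool) :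
      BWp τ l (st c A) w → BWp τ (v :: l) A w
  | left {v : ℤ} {l : List ℤ} {A : Set (List Bool)} {w : List Bool} :
      BWp τ l (st false A) w → (st true A).Nonempty → BWp τ (v :: l) A (w ++ [τ v])
  | right {v : ℤ} {l : List ℤ} {A : Set (List Bool)} {w : List Bool} :
      BWp τ l (st true A) w → (st false A).Nonempty → BWp τ (v :: l) A ((!τ v) :: w)

/-- words of lines through two elements of `A` that part at the level `v₀` -/
inductive EWp (v₀ : ℤ) : List ℤ → Set (List Bool) → List Bool → Prop
  | here {l : List ℤ} {A : Set (List Bool)} {w₁ w₂ : List Bool} :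
      BWp (up v₀) l (st false A) w₁ → BWp (up v₀) l (st true A) w₂ → EWp v₀ (v₀ :: l) A (w₁ ++ w₂)
  | skip {v : ℤ} {l : List ℤ} {A : Set (List Bool)} {w : List Bool} (c : Bool) :
      EWp v₀ l (st c A) w → EWp v₀ (v :: l) A w
  | left {v : ℤ} {l : List ℤ} {A : Set (List Bool)} {w : List Bool} :
      EWp v₀ l (st false A) w → (st true A).Nonempty → EWp v₀ (v :: l) A (w ++ [up v₀ v])
  | right {v : ℤ} {l : List ℤ} {A : Set (List Bool)} {w : List Bool} :
      EWp v₀ l (st true A) w → (st false A).Nonempty → EWp v₀ (v :: l) A ((!up v₀ v) :: w)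

lemma EWp.lift {v₀ : ℤ} {l : List ℤ} {w : List Bool} : ∀ (l₁ : List ℤ) (p : List Bool)
    (A : Set (List Bool)), p.length = l₁.length → EWp v₀ l (stp p A) w → EWp v₀ (l₁ ++ l) A w := by
  intro l₁
  induction l₁ with
  | nil =>
    intro p A hp h
    rw [List.length_nil, List.length_eq_zero_iff] at hp
    subst hp
    exact h
  | cons v l₁ ih =>
    intro p A hp h
    rcases p with _ | ⟨c, p⟩
    · simp at hp
    · exact EWp.skip c (ih p (st c A) (by simpa using hp) h)

lemma BWp.lift {τ : ℤ → Bool} {l : List ℤ} {w : List Bool} : ∀ (l₁ : List ℤ) (p : List Bool)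
    (A : Set (List Bool)), p.length = l₁.length → BWp τ l (stp p A) w → BWp τ (l₁ ++ l) A w := by
  intro l₁
  induction l₁ with
  | nil =>
    intro p A hp h
    rw [List.length_nil, List.length_eq_zero_iff] at hp
    subst hp
    exact h
  | cons v l₁ ih =>
    intro p A hp h
    rcases p with _ | ⟨c, p⟩
    · simp at hp
    · exact BWp.skip c (ih p (st c A) (by simpa using hp) h)

/-- hereditary properties -/
def Her (C : List ℤ → Set (List Bool) → Prop) : Prop :=
  ∀ (v : ℤ) (l : List ℤ) (A : Set (List Bool)) (c : Bool), C (v :: l) A → C l (st c A)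

lemma Her.stp {C : List ℤ → Set (List Bool) → Prop} (hC : Her C) {l : List ℤ} :
    ∀ (l₁ : List ℤ) (p : List Bool) (A : Set (List Bool)), p.length = l₁.length →
    C (l₁ ++ l) A → C l (stp p A) := by
  intro l₁
  induction l₁ with
  | nil =>
    intro p A hp h
    rw [List.length_nil, List.length_eq_zero_iff] at hp
    subst hp
    exact h
  | cons v l₁ ih =>
    intro p A hp h
    rcases p with _ | ⟨c, p⟩
    · simp at hp
    · exact ih p (st c A) (by simpa using hp) (hC v _ A c h)

/-- the first branching -/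
lemma first_node {l₂ : List ℤ} {d : ℕ} : ∀ (B : List ℤ) (A : Set (List Bool)),
    Full (B ++ l₂) (d + 1) A →
    (∃ B₁ u B₂ p, B = B₁ ++ u :: B₂ ∧ p.length = B₁.length ∧
      Full (B₂ ++ l₂) d (st false (stp p A)) ∧ Full (B₂ ++ l₂) d (st true (stp p A))) ∨
    ∃ p, p.length = B.length ∧ Full l₂ (d + 1) (stp p A) := by
  intro B
  induction B with
  | nil =>
    intro A h
    exact Or.inr ⟨[], rfl, h⟩
  | cons v B ih =>
    intro A h
    have h' : Full (v :: (B ++ l₂)) (d + 1) A := h
    rw [full_cons_succ] at h'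
    rcases h' with h' | h' | h'
    · rcases ih _ h' with ⟨B₁, u, B₂, p, h1, h2, h3, h4⟩ | ⟨p, h1, h2⟩
      · exact Or.inl ⟨v :: B₁, u, B₂, false :: p, by rw [h1]; rfl, by simp [h2], h3, h4⟩
      · exact Or.inr ⟨false :: p, by simp [h1], h2⟩
    · rcases ih _ h' with ⟨B₁, u, B₂, p, h1, h2, h3, h4⟩ | ⟨p, h1, h2⟩
      · exact Or.inl ⟨v :: B₁, u, B₂, true :: p, by rw [h1]; rfl, by simp [h2], h3, h4⟩
      · exact Or.inr ⟨true :: p, by simp [h1], h2⟩
    · exact Or.inl ⟨[], v, B, [], rfl, rfl, h'.1, h'.2⟩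

/-- the forced words -/
def Wd : Bool → ℕ → List Bool → List Bool
  | _, 0, w => w ++ w
  | e, r + 1, w => [e] ++ Wd (!e) r ([!e] ++ w ++ [e]) ++ [!e]

/-- relation between blocks -/
def Rl (e : Bool) (b b' : List ℤ) : Prop := ∀ u ∈ b, ∀ u' ∈ b', up u u' = e ∧ up u' u = !e

/-- nested blocks -/
def Bk (m : ℕ) : ℕ → Bool → List ℤ → Prop
  | 0, _, l => l.length ≤ 1
  | D + 1, e, l => ∃ g : List (List ℤ), l = g.flatten ∧ g.length ≤ m ∧
      (∀ b ∈ g, Bk m D (!e) b) ∧ g.Pairwise (Rl e)

lemma suffix_append_cases {α : Type*} {B' b F : List α} (h : B' <:+ b ++ F) :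
    B' <:+ F ∨ ∃ b', b' <:+ b ∧ B' = b' ++ F := by
  obtain ⟨t, ht⟩ := h
  rw [List.append_eq_append_iff] at ht
  rcases ht with ⟨a, h1, h2⟩ | ⟨c, h1, h2⟩
  · exact Or.inr ⟨a, ⟨t, h1.symm⟩, h2⟩
  · exact Or.inl ⟨c, h2.symm⟩

lemma Bk.suffix {m : ℕ} : ∀ {D : ℕ} {e : Bool} {B B' : List ℤ}, Bk m D e B → B' <:+ B →
    Bk m D e B' := by
  intro D
  induction D with
  | zero =>
    intro e B B' h hs
    exact (hs.length_le).trans h
  | succ D ih =>
    intro e B B' h hs
    obtain ⟨g, rfl, hg, hb, hp⟩ := h
    have key : ∀ g : List (List ℤ), (∀ b ∈ g, Bk m D (!e) b) → g.Pairwise (Rl e) → ∀ B' : List ℤ,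
        B' <:+ g.flatten → ∃ g' : List (List ℤ), B' = g'.flatten ∧ g'.length ≤ g.length ∧
          (∀ b ∈ g', Bk m D (!e) b) ∧ g'.Pairwise (Rl e) := by
      intro g
      induction g with
      | nil =>
        intro _ _ B' hs
        refine ⟨[], ?_, le_rfl, by simp, List.Pairwise.nil⟩
        simpa using hs
      | cons b g ihg =>
        intro hb hp B' hs
        rw [List.flatten_cons] at hs
        rcases suffix_append_cases hs with h | ⟨b', h1, h2⟩
        · obtain ⟨g', h1, h2, h3, h4⟩ := ihg (fun b hb' => hb b (by simp [hb'])) hp.of_cons B' h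
          exact ⟨g', h1, by simp; omega, h3, h4⟩
        · refine ⟨b' :: g, by rw [h2, List.flatten_cons], by simp, ?_, ?_⟩
          · intro c hc
            rw [List.mem_cons] at hc
            rcases hc with rfl | hc
            · exact ih (hb b (by simp)) h1
            · exact hb c (by simp [hc])
          · rw [List.pairwise_cons] at hp ⊢
            exact ⟨fun c hc u hu u' hu' => hp.1 c hc u (h1.subset hu) u' hu', hp.2⟩
    obtain ⟨g', h1, h2, h3, h4⟩ := key g hb hp B' hs
    exact ⟨g', h1, h2.trans hg, h3, h4⟩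

/-- words behind a block -/
def Flank (C : List ℤ → Set (List Bool) → Prop) (B l₂ : List ℤ) (h : ℕ) (w : List Bool) : Prop :=
  ∀ B', B' <:+ B → ∀ A, C (B' ++ l₂) A → Full (B' ++ l₂) h A → ∀ v ∈ B, BWp (up v) (B' ++ l₂) A w

/-- forcing of `Wd e r` in blocks of direction `e'` -/
def PQ (m D r : ℕ) (s : Bool) (κ : ℕ) : Prop :=
  ∀ C, Her C → ∀ (e : Bool) (B : List ℤ), Bk m D e B → ∀ (l₂ : List ℤ) (h : ℕ) (w : List Bool),
    Flank C B l₂ h w → ∀ A, C (B ++ l₂) A → Full (B ++ l₂) (κ + 1 + h) A →
    (∃ v ∈ B, EWp v (B ++ l₂) A (Wd (xor s e) r w)) ∨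
      ∃ p, p.length = B.length ∧ Full l₂ (h + 1) (stp p A)

/-- no pattern: one branching is enough -/
lemma PQ_zero (m D : ℕ) (s : Bool) : PQ m D 0 s 0 := by
  intro C hC e B _ l₂ h w hF A hCA hA
  rcases first_node B A (d := h) (by rw [show h + 1 = 0 + 1 + h by omega]; exact hA) with
    ⟨B₁, u, B₂, p, h1, h2, h3, h4⟩ | h1
  · left
    refine ⟨u, by rw [h1]; simp, ?_⟩
    have hsuf : B₂ <:+ B := ⟨B₁ ++ [u], by rw [h1]; simp⟩
    have hC' : C (u :: (B₂ ++ l₂)) (stp p A) := by
      refine hC.stp B₁ p A h2 ?_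
      rw [h1] at hCA
      simpa using hCA
    have e1 := hF B₂ hsuf _ (hC u _ _ false hC') h3 u (by rw [h1]; simp)
    have e2 := hF B₂ hsuf _ (hC u _ _ true hC') h4 u (by rw [h1]; simp)
    have e3 : EWp u (u :: (B₂ ++ l₂)) (stp p A) (w ++ w) := EWp.here e1 e2
    have e4 := EWp.lift B₁ p A h2 e3
    rw [h1]
    simpa [Wd] using e4
  · exact Or.inr h1

/-- blocks with one element -/
lemma PQ_base (m r : ℕ) (s : Bool) : PQ m 0 r s 1 := by
  intro C hC e B hB l₂ h w hF A hCA hA
  right
  have hB' : B.length ≤ 1 := hB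
  have hA' : Full (B ++ l₂) (h + 1 + 1) A := by
    rw [show h + 1 + 1 = 1 + 1 + h by omega]; exact hA
  rcases first_node B A hA' with ⟨B₁, u, B₂, p, h1, h2, h3, h4⟩ | ⟨p, h1, h2⟩
  · have hlen : B.length = B₁.length + (B₂.length + 1) := by rw [h1]; simp
    have hB₁ : B₁ = [] := List.length_eq_zero_iff.mp (by omega)
    have hB₂ : B₂ = [] := List.length_eq_zero_iff.mp (by omega)
    subst hB₁ hB₂
    have hp : p = [] := by simpa using h2
    subst hp
    refine ⟨[false], by rw [h1]; simp, ?_⟩
    exact h3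
  · exact ⟨p, h1, h2.pred⟩

/-- patterns inside the blocks -/
lemma PQ_cross {m D r κ : ℕ} {s : Bool} (hP : PQ m D r s κ) : PQ m (D + 1) r (!s) (m * κ) := by
  intro C hC e B hB l₂ h w hF A hCA hA
  obtain ⟨g, hBg, hg, hb, _⟩ := hB
  have key : ∀ g : List (List ℤ), (∀ b ∈ g, Bk m D (!e) b) → g.flatten <:+ B →
      ∀ A, C (g.flatten ++ l₂) A → Full (g.flatten ++ l₂) (g.length * κ + 1 + h) A →
      (∃ v ∈ g.flatten, EWp v (g.flatten ++ l₂) A (Wd (xor (!s) e) r w)) ∨
        ∃ p, p.length = g.flatten.length ∧ Full l₂ (h + 1) (stp p A) := by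
    intro g
    induction g with
    | nil =>
      intro _ _ A _ hA
      right
      refine ⟨[], rfl, ?_⟩
      rw [stp_nil]
      refine Full.mono hA ?_
      simp
    | cons b g ih =>
      intro hb hs A hCA hA
      rw [List.flatten_cons, List.append_assoc] at hCA hA
      rw [List.flatten_cons] at hs
      have hsb : g.flatten <:+ B := (List.suffix_append b _).trans hs
      have h1 := hP C hC (!e) b (hb b (by simp)) (g.flatten ++ l₂) (g.length * κ + h) w (by
        intro b' hb' A' hCA' hA' v hv
        have h2 : b' ++ g.flatten <:+ B := by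
          refine List.IsSuffix.trans ?_ hs
          obtain ⟨t, ht⟩ := hb'
          exact ⟨t, by rw [← ht]; simp⟩
        have h3 := hF (b' ++ g.flatten) h2 A' (by rw [List.append_assoc]; exact hCA')
          (by rw [List.append_assoc]; exact hA'.mono (by omega)) v
          (hs.subset (List.mem_append_left _ hv))
        rw [List.append_assoc] at h3
        exact h3) A hCA (hA.mono (by rw [List.length_cons, Nat.succ_mul]; omega))
      rcases h1 with ⟨v, hv, h1⟩ | ⟨p, h1, h2⟩
      · left
        refine ⟨v, by rw [List.flatten_cons]; exact List.mem_append_left _ hv, ?_⟩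
        rw [List.flatten_cons, List.append_assoc]
        have : xor (!s) e = xor s (!e) := by cases s <;> cases e <;> rfl
        rw [this]
        exact h1
      · rcases ih (fun b hb' => hb b (by simp [hb'])) hsb (stp p A) (hC.stp b p A h1 hCA)
          (h2.mono (by omega)) with ⟨v, hv, h3⟩ | ⟨q, h3, h4⟩
        · left
          refine ⟨v, by rw [List.flatten_cons]; exact List.mem_append_right _ hv, ?_⟩
          rw [List.flatten_cons, List.append_assoc]
          exact EWp.lift b p A h1 h3
        · right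
          refine ⟨p ++ q, by simp [h1, h3], ?_⟩
          have : stp (p ++ q) A = stp q (stp p A) := by
            ext z; simp [stp]
          rw [this]
          exact h4
  have h1 := key g hb (by rw [← hBg]) A (by rw [← hBg]; exact hCA) (by
    rw [← hBg]
    refine hA.mono ?_
    have : g.length * κ ≤ m * κ := Nat.mul_le_mul_right _ hg
    omega)
  rw [← hBg] at h1
  exact h1

end Pool.Agent.H41.Kc
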