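import Mathlib
import Pool.Agent.H41.Kc.Full

set_option autoImplicit false

/-!
The recursion step for forced words.
-/

namespace Pool.Agent.H41.Kc

lemma split_flatten : ∀ (g : List (List ℤ)) (P : List ℤ) (u : ℤ) (R : List ℤ),
    g.flatten = P ++ u :: R → ∃ g₁ b₀ g₂ x y, g = g₁ ++ b₀ :: g₂ ∧ b₀ = x ++ u :: y ∧
      P = g₁.flatten ++ x ∧ R = y ++ g₂.flatten := by
  intro g
  induction g with
  | nil =>
    intro P u R h
    simp at h
  | cons b g ih =>
    intro P u R h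
    rw [List.flatten_cons, List.append_eq_append_iff] at h
    rcases h with ⟨a, h1, h2⟩ | ⟨c, h1, h2⟩
    · obtain ⟨g₁, b₀, g₂, x, y, h3, h4, h5, h6⟩ := ih a u R h2
      exact ⟨b :: g₁, b₀, g₂, x, y, by rw [h3]; rfl, h4, by rw [h1, h5]; simp, h6⟩
    · rcases c with _ | ⟨c₀, c⟩
      · rw [List.append_nil] at h1
        obtain ⟨g₁, b₀, g₂, x, y, h3, h4, h5, h6⟩ := ih [] u R (by simpa using h2.symm)
        refine ⟨b :: g₁, b₀, g₂, x, y, by rw [h3]; rfl, h4, ?_, h6⟩
        rw [List.flatten_cons, List.append_assoc, ← h5, h1]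
        simp
      · rw [List.cons_append, List.cons.injEq] at h2
        exact ⟨[], b, g, P, c, rfl, by rw [h1, h2.1], rfl, h2.2⟩

lemma mem_flatten_rl {e : Bool} {g₁ : List (List ℤ)} {b₀ : List ℤ} {g₂ : List (List ℤ)}
    (hp : (g₁ ++ b₀ :: g₂).Pairwise (Rl e)) {u v : ℤ} (hu : u ∈ g₁.flatten ++ b₀)
    (hv : v ∈ g₂.flatten) : up v u = !e := by
  rw [List.mem_flatten] at hv
  obtain ⟨b', hb', hv⟩ := hv
  rw [List.pairwise_append] at hp
  rw [List.mem_append] at hu
  rcases hu with hu | hu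
  · rw [List.mem_flatten] at hu
    obtain ⟨b, hb, hu⟩ := hu
    exact (hp.2.2 b hb b' (by simp [hb']) u hu v hv).2
  · exact ((List.pairwise_cons.mp hp.2.1).1 b' hb' u hu v hv).2

/-- restricted class -/
def Cl (C : List ℤ → Set (List Bool) → Prop) (B l₂ : List ℤ) (W : List Bool) (h : ℕ) :
    List ℤ → Set (List Bool) → Prop :=
  fun l A => C l A ∧ (∀ v ∈ B, ¬ EWp v l A W) ∧
    ∀ l₁ p, l = l₁ ++ l₂ → p.length = l₁.length → ¬ Full l₂ (h + 1) (stp p A)

lemma Cl.her {C : List ℤ → Set (List Bool) → Prop} (hC : Her C) (B l₂ : List ℤ) (W : List Bool)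
    (h : ℕ) : Her (Cl C B l₂ W h) := by
  intro v l A c hA
  refine ⟨hC v l A c hA.1, fun u hu hE => hA.2.1 u hu (EWp.skip c hE), ?_⟩
  intro l₁ p hl hp hF
  exact hA.2.2 (v :: l₁) (c :: p) (by rw [hl]; rfl) (by simp [hp]) hF

lemma stp_append (p q : List Bool) (A : Set (List Bool)) : stp (p ++ q) A = stp q (stp p A) := by
  ext z
  simp [stp]

/-- leaving a block -/
lemma leave_block {m D r lam : ℕ} (hlam : PQ m D (r + 1) true lam)
    {C : List ℤ → Set (List Bool) → Prop} (hC : Her C) {e : Bool} {B l₂ : List ℤ} {h : ℕ}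
    {w : List Bool} (hF : Flank C B l₂ h w) {b : List ℤ} (hb : Bk m D (!e) b) {R : List ℤ}
    (hbR : b ++ R <:+ B) {hq : ℕ} (hhq : h ≤ hq) {A : Set (List Bool)}
    (hCA : Cl C B l₂ (Wd e (r + 1) w) h (b ++ R ++ l₂) A)
    (hA : Full (b ++ R ++ l₂) (lam + 1 + hq) A) :
    ∃ p, p.length = b.length ∧ Full (R ++ l₂) (hq + 1) (stp p A) := by
  rw [List.append_assoc] at hCA hA
  rcases hlam (Cl C B l₂ (Wd e (r + 1) w) h) (Cl.her hC B l₂ _ h) (!e) b hb (R ++ l₂) hq w (by
    intro b' hb' A' hCA' hA' v hv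
    have h2 : b' ++ R <:+ B := by
      refine List.IsSuffix.trans ?_ hbR
      obtain ⟨t, ht⟩ := hb'
      exact ⟨t, by rw [← ht]; simp⟩
    have h3 := hF (b' ++ R) h2 A' (by rw [List.append_assoc]; exact hCA'.1)
      (by rw [List.append_assoc]; exact hA'.mono hhq) v
      (hbR.subset (List.mem_append_left _ hv))
    rw [List.append_assoc] at h3
    exact h3) A hCA hA with ⟨v, hv, h1⟩ | h1
  · exfalso
    refine hCA.2.1 v (hbR.subset (List.mem_append_left _ hv)) ?_
    have : xor true (!e) = e := by cases e <;> rfl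
    rw [this] at h1
    exact h1
  · exact h1

/-- two more symbols behind a block -/
lemma flank_up {m D r lam : ℕ} (hlam : PQ m D (r + 1) true lam)
    {C : List ℤ → Set (List Bool) → Prop} (hC : Her C) {e : Bool} {B l₂ : List ℤ} {h : ℕ}
    {w : List Bool} (hF : Flank C B l₂ h w) {b : List ℤ} {g : List (List ℤ)} {v : ℤ}
    (hb : Bk m D (!e) b) (hbR : b ++ g.flatten <:+ B) (hv : v ∈ B)
    (hg : ∀ u ∈ g.flatten, up v u = e) {A : Set (List Bool)}
    (hCA : Cl C B l₂ (Wd e (r + 1) w) h (b ++ g.flatten ++ l₂) A)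
    (hA : Full (b ++ g.flatten ++ l₂) (lam + h + 3) A) :
    BWp (up v) (b ++ g.flatten ++ l₂) A ([!e] ++ w ++ [e]) := by
  have hC' := Cl.her hC B l₂ (Wd e (r + 1) w) h
  obtain ⟨p, hp, h1⟩ := leave_block hlam hC hF hb hbR (hq := h + 2) (by omega) hCA
    (hA.mono (by omega))
  have hCA1 := hC'.stp b p A hp (by rw [← List.append_assoc]; exact hCA)
  have hgB : g.flatten <:+ B := (List.suffix_append b _).trans hbR
  rcases first_node g.flatten (stp p A) h1 with ⟨B₁, u, B₂, p', h2, h3, h4, h5⟩ | ⟨p', h2, h3⟩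
  swap
  · exact absurd (h3.mono (by omega)) (hCA1.2.2 g.flatten p' rfl h2)
  have hCA2 : Cl C B l₂ (Wd e (r + 1) w) h (u :: (B₂ ++ l₂)) (stp p' (stp p A)) := by
    refine hC'.stp B₁ p' _ h3 ?_
    rw [h2] at hCA1
    simpa using hCA1
  have hCA3 := hC' u _ _ true hCA2
  rcases first_node B₂ _ h5 with ⟨B₃, u', B₄, p'', h6, h7, h8, h9⟩ | ⟨p'', h6, h7⟩
  swap
  · exact absurd (h7.mono (by omega)) (hCA3.2.2 B₂ p'' rfl h6)
  have hCA4 : Cl C B l₂ (Wd e (r + 1) w) h (u' :: (B₄ ++ l₂))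
      (stp p'' (st true (stp p' (stp p A)))) := by
    refine hC'.stp B₃ p'' _ h7 ?_
    rw [h6] at hCA3
    simpa using hCA3
  have hCA5 := hC' u' _ _ false hCA4
  have hB₄ : B₄ <:+ B := by
    refine List.IsSuffix.trans ?_ hgB
    exact ⟨B₁ ++ u :: (B₃ ++ [u']), by rw [h2, h6]; simp⟩
  have h10 := hF B₄ hB₄ _ hCA5.1 (h8.mono (by omega)) v hv
  have h11 : BWp (up v) (u' :: (B₄ ++ l₂)) (stp p'' (st true (stp p' (stp p A))))
      (w ++ [e]) := by
    have := BWp.left (τ := up v) (v := u') h10 h9.nonempty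
    rwa [hg u' (by rw [h2, h6]; simp)] at this
  have h12 := BWp.lift B₃ p'' _ h7 h11
  have h13 : BWp (up v) (u :: (B₂ ++ l₂)) (stp p' (stp p A)) ((!e) :: (w ++ [e])) := by
    have := BWp.right (τ := up v) (v := u) h12 h4.nonempty
    rw [hg u (by rw [h2]; simp)] at this
    rw [h6]
    simpa using this
  have h14 := BWp.lift B₁ p' _ h3 h13
  have h15 : BWp (up v) (g.flatten ++ l₂) (stp p A) ((!e) :: (w ++ [e])) := by
    rw [h2]
    simpa using h14
  have h16 := BWp.lift b p A hp h15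
  simpa using h16

/-- patterns across the blocks -/
lemma PQ_step {m D r κ₁ lam : ℕ} (hκ : PQ m D r false κ₁) (hlam : PQ m D (r + 1) true lam) :
    PQ m (D + 1) (r + 1) false (2 * lam + m * κ₁ + 5) := by
  intro C hC e B hB l₂ h w hF A hCA hA
  rw [Bool.false_xor]
  by_contra hcon
  rw [not_or] at hcon
  obtain ⟨hcon1, hcon2⟩ := hcon
  have hC' := Cl.her hC B l₂ (Wd e (r + 1) w) h
  have hCA0 : Cl C B l₂ (Wd e (r + 1) w) h (B ++ l₂) A := by
    refine ⟨hCA, fun v hv hE => hcon1 ⟨v, hv, hE⟩, ?_⟩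
    intro l₁ p hl hp hFu
    have : l₁ = B := (List.append_cancel_right hl).symm
    subst this
    exact hcon2 ⟨p, hp, hFu⟩
  obtain ⟨g, hBg, hg, hb, hpw⟩ := hB
  -- phase 1
  rcases first_node B A (d := 2 * lam + m * κ₁ + 5 + h) (hA.mono (by omega)) with
    ⟨B₁, u₁, B₂, p₁, h1, h2, h3, h4⟩ | ⟨p₁, h1, h2⟩
  swap
  · exact hcon2 ⟨p₁, h1, h2.mono (by omega)⟩
  have hCA1 : Cl C B l₂ (Wd e (r + 1) w) h (u₁ :: (B₂ ++ l₂)) (stp p₁ A) := by
    refine hC'.stp B₁ p₁ _ h2 ?_
    rw [h1] at hCA0 ⊢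
    simpa using hCA0
  have hCA2 := hC' u₁ _ _ false hCA1
  rcases first_node B₂ (st false (stp p₁ A)) (d := 2 * lam + m * κ₁ + 4 + h) (h3.mono (by omega))
    with ⟨B₃, u₂, B₄, p₂, h5, h6, h7, h8⟩ | ⟨p₂, h5, h6⟩
  swap
  · exact hCA2.2.2 B₂ p₂ rfl h5 (h6.mono (by omega))
  have hCA3 : Cl C B l₂ (Wd e (r + 1) w) h (u₂ :: (B₄ ++ l₂))
      (stp p₂ (st false (stp p₁ A))) := by
    refine hC'.stp B₃ p₂ _ h6 ?_
    rw [h5] at hCA2
    simpa using hCA2
  have hCA4 := hC' u₂ _ _ true hCA3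
  obtain ⟨g₁, b₀, g₂, x, y, h9, h10, h11, h12⟩ := split_flatten g (B₁ ++ u₁ :: B₃) u₂ B₄
    (by rw [← hBg, h1, h5]; simp)
  have hb₀ : Bk m D (!e) b₀ := hb b₀ (by rw [h9]; simp)
  have hy : Bk m D (!e) y := hb₀.suffix ⟨x ++ [u₂], by rw [h10]; simp⟩
  have hB₄ : B₄ <:+ B := ⟨B₁ ++ u₁ :: (B₃ ++ [u₂]), by rw [h1, h5]; simp⟩
  have hpw' : (g₁ ++ b₀ :: g₂).Pairwise (Rl e) := by rw [← h9]; exact hpw
  have hlen : g₂.length ≤ m := by
    have : g.length = g₁.length + (g₂.length + 1) := by rw [h9]; simp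
    omega
  have hmul : g₂.length * κ₁ ≤ m * κ₁ := Nat.mul_le_mul_right _ hlen
  have hyB : y ++ g₂.flatten <:+ B := by rw [← h12]; exact hB₄
  have hCA5 : Cl C B l₂ (Wd e (r + 1) w) h (y ++ g₂.flatten ++ l₂)
      (st true (stp p₂ (st false (stp p₁ A)))) := by
    rw [← h12]; exact hCA4
  have h8' : Full (y ++ g₂.flatten ++ l₂) (lam + 1 + (g₂.length * κ₁ + (lam + h + 3)))
      (st true (stp p₂ (st false (stp p₁ A)))) := by
    rw [← h12]
    exact h8.mono (by omega)
  obtain ⟨p₃, hp₃, h13⟩ := leave_block hlam hC hF hy hyB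
    (hq := g₂.length * κ₁ + (lam + h + 3)) (by omega) hCA5 h8'
  have hCA6 := hC'.stp y p₃ _ hp₃ (by rw [← List.append_assoc]; exact hCA5)
  -- phase 2
  have key : ∀ g : List (List ℤ), (∀ b ∈ g, Bk m D (!e) b) → g.Pairwise (Rl e) →
      g.flatten <:+ B → ∀ A, Cl C B l₂ (Wd e (r + 1) w) h (g.flatten ++ l₂) A →
      Full (g.flatten ++ l₂) (g.length * κ₁ + (lam + h + 3) + 1) A →
      ∃ v ∈ g.flatten, EWp v (g.flatten ++ l₂) A (Wd (!e) r ([!e] ++ w ++ [e])) := by
    intro g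
    induction g with
    | nil =>
      intro _ _ _ A hCA hA
      exfalso
      refine hCA.2.2 [] [] rfl rfl ?_
      rw [stp_nil]
      exact Full.mono hA (by omega)
    | cons b g ih =>
      intro hb hp hs A hCA hA
      rw [List.flatten_cons] at hs
      have hsb : g.flatten <:+ B := (List.suffix_append b _).trans hs
      rw [List.flatten_cons, List.append_assoc] at hCA hA
      rcases hκ (Cl C B l₂ (Wd e (r + 1) w) h) hC' (!e) b (hb b (by simp)) (g.flatten ++ l₂)
        (g.length * κ₁ + (lam + h + 3)) ([!e] ++ w ++ [e]) (by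
          intro b' hb' A' hCA' hA' v hv
          have h2 : b' ++ g.flatten <:+ B := by
            refine List.IsSuffix.trans ?_ hs
            obtain ⟨t, ht⟩ := hb'
            exact ⟨t, by rw [← ht]; simp⟩
          have := flank_up hlam hC hF (b := b') (g := g) (v := v)
            ((hb b (by simp)).suffix hb') h2 (hs.subset (List.mem_append_left _ hv)) (by
              intro u hu
              rw [List.mem_flatten] at hu
              obtain ⟨b'', hb'', hu⟩ := hu
              exact ((List.pairwise_cons.mp hp).1 b'' hb'' v hv u hu).1)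
            (by rw [List.append_assoc]; exact hCA')
            (by rw [List.append_assoc]; exact hA'.mono (by omega))
          rw [List.append_assoc] at this
          exact this) A hCA (hA.mono (by rw [List.length_cons, Nat.succ_mul]; omega)) with
        ⟨v, hv, h1⟩ | ⟨p, h1, h2⟩
      · refine ⟨v, by rw [List.flatten_cons]; exact List.mem_append_left _ hv, ?_⟩
        rw [List.flatten_cons, List.append_assoc]
        rw [Bool.false_xor] at h1
        exact h1
      · obtain ⟨v, hv, h3⟩ := ih (fun b hb' => hb b (by simp [hb'])) hp.of_cons hsb (stp p A)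
          (hC'.stp b p A h1 hCA) h2
        refine ⟨v, by rw [List.flatten_cons]; exact List.mem_append_right _ hv, ?_⟩
        rw [List.flatten_cons, List.append_assoc]
        exact EWp.lift b p A h1 h3
  obtain ⟨v, hv, h14⟩ := key g₂ (fun b hb' => hb b (by rw [h9]; simp [hb']))
    (List.pairwise_cons.mp (List.pairwise_append.mp hpw').2.1).2
    ((List.suffix_append y _).trans hyB) _ hCA6 h13
  have hu₂ : up v u₂ = !e := mem_flatten_rl hpw' (by rw [h10]; simp) hv
  have hu₁ : up v u₁ = !e := mem_flatten_rl hpw' (by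
    rw [h10, ← List.append_assoc, ← h11]
    simp) hv
  have h15 := EWp.lift y p₃ _ hp₃ h14
  rw [← List.append_assoc, ← h12] at h15
  have h16 := EWp.right (v := u₂) h15 h7.nonempty
  rw [hu₂, Bool.not_not] at h16
  have h17 := EWp.lift B₃ p₂ _ h6 h16
  have h18 : EWp v (B₂ ++ l₂) (st false (stp p₁ A))
      (e :: Wd (!e) r ([!e] ++ w ++ [e])) := by
    rw [h5]
    simpa using h17
  have h19 := EWp.left (v := u₁) h18 h4.nonempty
  rw [hu₁] at h19
  have h20 := EWp.lift B₁ p₁ _ h2 h19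
  refine hcon1 ⟨v, (List.suffix_append y _ |>.trans hyB).subset hv, ?_⟩
  rw [h1]
  simpa [Wd] using h20

end Pool.Agent.H41.Kc
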