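import Mathlib
import Pool.Agent.H41.Kc.Step

set_option autoImplicit false

/-!
Complete subtrees of large depth force long alternating words.
-/

namespace Pool.Agent.H41.Kc

lemma Bk.map_anti {m : ℕ} {f : ℤ → ℤ} (hf : ∀ u v, f u < f v ↔ v < u) : ∀ {D : ℕ} {e : Bool}
    {l : List ℤ}, Bk m D e l → Bk m D (!e) (l.map f) := by
  intro D
  induction D with
  | zero =>
    intro e l h
    show (l.map f).length ≤ 1
    rw [List.length_map]
    exact h
  | succ D ih =>
    intro e l h
    obtain ⟨g, h1, h2, h3, h4⟩ := h
    refine ⟨g.map (List.map f), ?_, by rw [List.length_map]; exact h2, ?_, ?_⟩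
    · rw [h1, List.map_flatten]
    · intro b hb
      rw [List.mem_map] at hb
      obtain ⟨b', hb', rfl⟩ := hb
      exact ih (h3 b' hb')
    · rw [List.pairwise_map]
      refine h4.imp ?_
      intro b b' hbb u hu u' hu'
      rw [List.mem_map] at hu hu'
      obtain ⟨w, hw, rfl⟩ := hu
      obtain ⟨w', hw', rfl⟩ := hu'
      obtain ⟨h5, h6⟩ := hbb w hw w' hw'
      unfold up at h5 h6 ⊢
      simp only [hf]
      rw [h5, h6]
      simp

lemma Bk_Phi {m : ℕ} (hm : 1 ≤ m) : ∀ D : ℕ, Bk m D true (Phi m D) := by
  intro D
  induction D with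
  | zero =>
    show (Phi m 0).length ≤ 1
    simp [Phi]
  | succ D ih =>
    refine ⟨(List.range m).map (fun i : ℕ => (Phi m D).map (blk m D i)), ?_, ?_, ?_, ?_⟩
    · rw [Phi_succ, List.flatMap_def]
    · simp
    · intro b hb
      rw [List.mem_map] at hb
      obtain ⟨i, _, rfl⟩ := hb
      refine Bk.map_anti ?_ ih
      intro u v
      unfold blk
      constructor <;> intro h <;> omega
    · rw [List.pairwise_map]
      refine List.pairwise_lt_range.imp ?_
      intro i i' hii u hu u' hu'
      rw [List.mem_map] at hu hu'
      obtain ⟨w, hw, rfl⟩ := hu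
      obtain ⟨w', hw', rfl⟩ := hu'
      obtain ⟨h1, h2⟩ := mem_Phi hm hw
      obtain ⟨h3, h4⟩ := mem_Phi hm hw'
      have hpow : (0 : ℤ) < (m : ℤ) ^ D := by positivity
      have h5 : ((i : ℤ) + 1) * (m : ℤ) ^ D ≤ i' * (m : ℤ) ^ D :=
        mul_le_mul_of_nonneg_right (by exact_mod_cast hii) hpow.le
      have h6 : blk m D i w < blk m D i' w' := by
        unfold blk
        nlinarith
      unfold up
      simp [h6, h6.le]

/-- depth that forces the words -/
def kap (m : ℕ) : ℕ → ℕ → ℕ
  | _, 0 => 0
  | 0, _ + 1 => 1
  | 1, r + 1 => 2 + m * kap m 0 r + 5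
  | D + 2, r + 1 => 2 * (m * kap m D (r + 1)) + m * kap m (D + 1) r + 5

/-- companion of `kap` -/
def lak (m : ℕ) : ℕ → ℕ → ℕ
  | _, 0 => 0
  | 0, _ + 1 => 1
  | D + 1, r + 1 => m * kap m D (r + 1)

lemma PQ_all (m : ℕ) : ∀ D r : ℕ, PQ m D r false (kap m D r) ∧ PQ m D r true (lak m D r) := by
  intro D
  induction D with
  | zero =>
    intro r
    cases r with
    | zero =>
      constructor
      · have : kap m 0 0 = 0 := by unfold kap; rfl
        rw [this]
        exact PQ_zero m 0 false
      · exact PQ_zero m 0 true
    | succ r =>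
      constructor
      · have : kap m 0 (r + 1) = 1 := by unfold kap; rfl
        rw [this]
        exact PQ_base m (r + 1) false
      · exact PQ_base m (r + 1) true
  | succ D ih =>
    intro r
    cases r with
    | zero =>
      constructor
      · have : kap m (D + 1) 0 = 0 := by
          cases D <;> (unfold kap; rfl)
        rw [this]
        exact PQ_zero m (D + 1) false
      · exact PQ_zero m (D + 1) true
    | succ r =>
      have hk : kap m (D + 1) (r + 1) = 2 * lak m D (r + 1) + m * kap m D r + 5 := by
        cases D with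
        | zero => conv_lhs => unfold kap
                  rfl
        | succ D => conv_lhs => unfold kap
                    rfl
      constructor
      · rw [hk]
        exact PQ_step (ih r).1 (ih (r + 1)).2
      · exact PQ_cross (s := false) (ih (r + 1)).1

lemma kap_le {m : ℕ} (hm : 1 ≤ m) : ∀ D r : ℕ, kap m D (r + 1) ≤ 8 ^ D * m ^ ((D + r) / 2) := by
  intro D
  induction D using Nat.strong_induction_on with
  | _ D ih =>
    intro r
    have hp : ∀ a : ℕ, 1 ≤ m ^ a := fun a => Nat.one_le_pow _ _ hm
    rcases D with _ | _ | D
    · have : kap m 0 (r + 1) = 1 := by unfold kap; rfl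
      rw [this]
      have := hp ((0 + r) / 2)
      simpa using this
    · have h1 : kap m 1 (r + 1) = 2 + m * kap m 0 r + 5 := by
        conv_lhs => unfold kap
      show kap m 1 (r + 1) ≤ _
      rw [h1]
      cases r with
      | zero =>
        have : kap m 0 0 = 0 := by unfold kap; rfl
        rw [this]
        simp
      | succ r =>
        have : kap m 0 (r + 1) = 1 := by unfold kap; rfl
        rw [this]
        have h2 : m ≤ m ^ ((0 + 1 + (r + 1)) / 2) := by
          conv_lhs => rw [← pow_one m]
          exact Nat.pow_le_pow_right hm (by omega)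
        have h3 := hp ((0 + 1 + (r + 1)) / 2)
        rw [zero_add, pow_one] at *
        omega
    · have h1 : kap m (D + 2) (r + 1) = 2 * (m * kap m D (r + 1)) + m * kap m (D + 1) r + 5 := by
        conv_lhs => unfold kap
      show kap m (D + 2) (r + 1) ≤ _
      rw [h1]
      have h2 := ih D (by omega) r
      set E := (D + 2 + r) / 2 with hE
      have h3 : m * m ^ ((D + r) / 2) = m ^ E := by
        rw [← pow_succ']
        congr 1
        omega
      have h4 : m * kap m D (r + 1) ≤ 8 ^ D * m ^ E := by
        calc m * kap m D (r + 1) ≤ m * (8 ^ D * m ^ ((D + r) / 2)) := Nat.mul_le_mul_left _ h2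
          _ = 8 ^ D * m ^ E := by rw [← h3]; ring
      have h5 : m * kap m (D + 1) r ≤ 8 ^ (D + 1) * m ^ E := by
        cases r with
        | zero =>
          have : kap m (D + 1) 0 = 0 := by
            cases D <;> (unfold kap; rfl)
          rw [this]
          simp
        | succ r =>
          have h6 := ih (D + 1) (by omega) r
          have h7 : m * m ^ ((D + 1 + r) / 2) = m ^ E := by
            rw [← pow_succ']
            congr 1
            omega
          calc m * kap m (D + 1) (r + 1) ≤ m * (8 ^ (D + 1) * m ^ ((D + 1 + r) / 2)) :=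
                Nat.mul_le_mul_left _ h6
            _ = 8 ^ (D + 1) * m ^ E := by rw [← h7]; ring
      have h8 := hp E
      have h9 : 1 ≤ 8 ^ D * m ^ E := Nat.mul_pos (by positivity) h8
      have h10 : 8 ^ (D + 1) * m ^ E = 8 * (8 ^ D * m ^ E) := by ring
      have h11 : 8 ^ (D + 2) * m ^ E = 64 * (8 ^ D * m ^ E) := by ring
      rw [h11]
      rw [h10] at h5
      omega

/-- alternating list -/
def alts : Bool → ℕ → List Bool
  | _, 0 => []
  | e, n + 1 => e :: alts (!e) n

lemma alts_concat : ∀ (n : ℕ) (e : Bool), alts e (n + 1) = alts e n ++ [if n % 2 = 0 then e else !e] := by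
  intro n
  induction n with
  | zero => intro e; rfl
  | succ n ih =>
    intro e
    rw [alts, ih (!e), alts, List.cons_append]
    congr 3
    rcases Nat.mod_two_eq_zero_or_one n with h | h
    · have : (n + 1) % 2 = 1 := by omega
      simp [h, this]
    · have : (n + 1) % 2 = 0 := by omega
      simp [h, this]

lemma alts_append : ∀ (a b : ℕ) (e : Bool), alts e (2 * a) ++ alts e b = alts e (2 * a + b) := by
  intro a
  induction a with
  | zero => intro b e; simp [alts]
  | succ a ih =>
    intro b e
    have h1 : 2 * (a + 1) = 2 * a + 1 + 1 := by ring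
    have h2 : 2 * (a + 1) + b = (2 * a + b) + 1 + 1 := by ring
    rw [h2, h1]
    simp only [alts, Bool.not_not, List.cons_append]
    rw [ih]

lemma alts_wrap (k : ℕ) (e : Bool) : [!e] ++ alts e (2 * k) ++ [e] = alts (!e) (2 * (k + 1)) := by
  have h1 : 2 * (k + 1) = 2 * k + 1 + 1 := by ring
  rw [h1, alts_concat, alts]
  have h2 : (2 * k + 1) % 2 = 1 := by omega
  simp [h2]

lemma Wd_alts : ∀ (r k : ℕ) (e : Bool), Wd e r (alts e (2 * k)) = alts e (2 * (3 * r + 2 * k)) := by
  intro r
  induction r with
  | zero =>
    intro k e
    rw [Wd, alts_append]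
    congr 1
    ring
  | succ r ih =>
    intro k e
    rw [Wd, alts_wrap, ih (k + 1) (!e)]
    have h1 := alts_wrap (3 * r + 2 * (k + 1)) (!e)
    rw [Bool.not_not] at h1
    rw [h1]
    congr 1
    ring

lemma alt_alts : ∀ (n : ℕ) (e : Bool), alt e (alts (!e) n) = n := by
  intro n
  induction n with
  | zero => intro e; rfl
  | succ n ih =>
    intro e
    rw [alts, alt_cons, ih (!e)]
    have : e ≠ !e := by cases e <;> simp
    rw [if_neg this]
    omega

lemma altL_alts (n : ℕ) (e : Bool) : altL (alts e (n + 1)) = n := by
  rw [alts, altL_cons]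
  exact alt_alts n e

/-- A complete subtree of large depth forces a word with many changes. -/
theorem forced {m : ℕ} (hm : 1 ≤ m) (D q : ℕ) (A : Set (List Bool))
    (hA : Full (Phi m D) (8 ^ D * m ^ ((D + q) / 2) + 1) A) :
    ∃ v ∈ Phi m D, EWp v (Phi m D) A (alts true (6 * q + 6)) := by
  have h1 := (PQ_all m D (q + 1)).1 (fun _ _ => True) (fun _ _ _ _ _ => trivial) true (Phi m D)
    (Bk_Phi hm D) [] 0 [] (by
      intro B' _ A' _ hA' v _
      exact BWp.nil hA'.nonempty) A trivial (by
      rw [List.append_nil]
      refine hA.mono ?_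
      have := kap_le hm D q
      omega)
  rcases h1 with ⟨v, hv, h2⟩ | ⟨p, _, h2⟩
  · refine ⟨v, hv, ?_⟩
    rw [List.append_nil, Bool.false_xor] at h2
    have h3 := Wd_alts (q + 1) 0 true
    rw [show alts true (2 * 0) = [] from rfl] at h3
    rw [h3] at h2
    have h4 : 2 * (3 * (q + 1) + 2 * 0) = 6 * q + 6 := by ring
    rwa [h4] at h2
  · exact absurd h2 (full_nil_succ 0 _)

/-- sets without complete subtrees of depth `d` are small -/
lemma card_of_not_full : ∀ (l : List ℤ) (d : ℕ) (A : Set (List Bool)),
    (∀ b ∈ A, b.length = l.length) → ¬ Full l d A → A.Finite ∧ A.ncard ≤ (l.length + 1) ^ d := by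
  intro l
  induction l with
  | nil =>
    intro d A hA _
    have h1 : A ⊆ {[]} := by
      intro b hb
      have := hA b hb
      rw [List.length_nil, List.length_eq_zero_iff] at this
      simp [this]
    refine ⟨(Set.finite_singleton _).subset h1, ?_⟩
    have := Set.ncard_le_ncard h1 (Set.finite_singleton _)
    rw [Set.ncard_singleton] at this
    simpa using this
  | cons v l ih =>
    intro d A hA hF
    cases d with
    | zero =>
      rw [full_zero, Set.not_nonempty_iff_eq_empty] at hF
      subst hF
      simp
    | succ d =>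
      rw [full_cons_succ] at hF
      push Not at hF
      obtain ⟨h1, h2, h3⟩ := hF
      have hst : ∀ c, ∀ b ∈ st c A, b.length = l.length := by
        intro c b hb
        have := hA _ hb
        simpa using this
      have hdec : A = (List.cons false) '' (st false A) ∪ (List.cons true) '' (st true A) := by
        ext b
        simp only [Set.mem_union, Set.mem_image]
        constructor
        · intro hb
          rcases b with _ | ⟨c, b⟩
          · have := hA _ hb
            simp at this
          · cases c
            · exact Or.inl ⟨b, hb, rfl⟩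
            · exact Or.inr ⟨b, hb, rfl⟩
        · rintro (⟨b', hb', rfl⟩ | ⟨b', hb', rfl⟩)
          · exact hb'
          · exact hb'
      have hinj : ∀ c : Bool, Function.Injective (List.cons c) := fun c => List.cons_injective
      obtain ⟨f0, c0⟩ := ih (d + 1) (st false A) (hst false) h1
      obtain ⟨f1, c1⟩ := ih (d + 1) (st true A) (hst true) h2
      have hfin : A.Finite := by
        rw [hdec]
        exact (f0.image _).union (f1.image _)
      refine ⟨hfin, ?_⟩
      have hcard : A.ncard ≤ (st false A).ncard + (st true A).ncard := by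
        rw [hdec]
        refine (Set.ncard_union_le _ _).trans ?_
        rw [Set.ncard_image_of_injective _ (hinj false), Set.ncard_image_of_injective _ (hinj true),
          ← hdec]
      have hsmall : (st false A).ncard + (st true A).ncard ≤ (l.length + 1) ^ (d + 1) +
          (l.length + 1) ^ d := by
        by_cases h4 : Full l d (st false A)
        · have h5 := (ih d (st true A) (hst true) (h3 h4)).2
          omega
        · have h5 := (ih d (st false A) (hst false) h4).2
          omega
      refine hcard.trans (hsmall.trans ?_)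
      rw [List.length_cons]
      have h6 : (l.length + 1) ^ d ≤ (l.length + 1 + 1) ^ d := Nat.pow_le_pow_left (by omega) d
      calc (l.length + 1) ^ (d + 1) + (l.length + 1) ^ d
          = (l.length + 1) ^ d * (l.length + 1 + 1) := by ring
        _ ≤ (l.length + 1 + 1) ^ d * (l.length + 1 + 1) := Nat.mul_le_mul_right _ h6
        _ = (l.length + 1 + 1) ^ (d + 1) := by ring

end Pool.Agent.H41.Kc
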