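import Mathlib
import Pool.Agent.H41.Kc.Cross
import Pool.Agent.H41.Kc.Chain

set_option autoImplicit false

/-!
A `j`-convex set has an ordering in which every line missing it changes side at most `2 j` times.
-/

namespace Pool.Agent.H41.Kc

open Set Metric

/-- coordinate along a line with normal vector `(a, b)` -/
noncomputable def kf (a b : ℝ) (p : ℝ × ℝ) : ℝ := (-b * p.1 + a * p.2) / (a ^ 2 + b ^ 2)

lemma continuous_kf (a b : ℝ) : Continuous (kf a b) := by
  unfold kf
  fun_prop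

lemma sq_pos_of_ne {a b : ℝ} (hab : (a, b) ≠ (0, 0)) : 0 < a ^ 2 + b ^ 2 := by
  by_contra hcon
  push Not at hcon
  apply hab
  have h1 : a ^ 2 = 0 := le_antisymm (by nlinarith [sq_nonneg b]) (sq_nonneg a)
  have h2 : b ^ 2 = 0 := le_antisymm (by nlinarith [sq_nonneg a]) (sq_nonneg b)
  rw [pow_eq_zero_iff two_ne_zero] at h1 h2
  rw [h1, h2]

lemma line_ext {a b c : ℝ} (hab : (a, b) ≠ (0, 0)) {p q : ℝ × ℝ} (hp : hf a b c p = 0)
    (hq : hf a b c q = 0) (h : kf a b p = kf a b q) : p = q := by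
  have hD := sq_pos_of_ne hab
  unfold kf at h
  rw [div_left_inj' hD.ne'] at h
  unfold hf at hp hq
  have h1 : (a ^ 2 + b ^ 2) * (p.1 - q.1) = 0 := by
    have e : (a ^ 2 + b ^ 2) * (p.1 - q.1) = a * ((a * p.1 + b * p.2 - c) - (a * q.1 + b * q.2 - c)) -
      b * ((-b * p.1 + a * p.2) - (-b * q.1 + a * q.2)) := by ring
    rw [e, hp, hq, h]; ring
  have h2 : (a ^ 2 + b ^ 2) * (p.2 - q.2) = 0 := by
    have e : (a ^ 2 + b ^ 2) * (p.2 - q.2) = b * ((a * p.1 + b * p.2 - c) - (a * q.1 + b * q.2 - c)) +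
      a * ((-b * p.1 + a * p.2) - (-b * q.1 + a * q.2)) := by ring
    rw [e, hp, hq, h]; ring
  rcases mul_eq_zero.mp h1 with h1 | h1
  · exact absurd h1 hD.ne'
  rcases mul_eq_zero.mp h2 with h2 | h2
  · exact absurd h2 hD.ne'
  exact Prod.ext (by linarith) (by linarith)

lemma hf_move {a b c : ℝ} {q : ℝ × ℝ} (hq : hf a b c q = 0) (s : ℝ) :
    hf a b c (q - s • (-b, a)) = 0 := by
  simp only [hf, Prod.fst_sub, Prod.snd_sub, Prod.smul_mk, smul_eq_mul] at hq ⊢
  linarith

lemma kf_move {a b : ℝ} (hab : (a, b) ≠ (0, 0)) (q : ℝ × ℝ) (s : ℝ) :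
    kf a b (q - s • (-b, a)) = kf a b q - s := by
  have hD := sq_pos_of_ne hab
  simp only [kf, Prod.fst_sub, Prod.snd_sub, Prod.smul_mk, smul_eq_mul]
  field_simp
  ring

lemma comp_between {S : Set (ℝ × ℝ)} {a b c : ℝ} (hab : (a, b) ≠ (0, 0)) {q q' : ℝ × ℝ}
    (hq : q ∈ S ∩ {p : ℝ × ℝ | a * p.1 + b * p.2 = c})
    (hq' : q' ∈ S ∩ {p : ℝ × ℝ | a * p.1 + b * p.2 = c})
    (hC : connectedComponentIn (S ∩ {p : ℝ × ℝ | a * p.1 + b * p.2 = c}) q =
      connectedComponentIn (S ∩ {p : ℝ × ℝ | a * p.1 + b * p.2 = c}) q')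
    {s : ℝ} (hs0 : 0 < s) (hs1 : s < kf a b q' - kf a b q) : q' - s • (-b, a) ∈ S := by
  set X := S ∩ {p : ℝ × ℝ | a * p.1 + b * p.2 = c} with hX
  have h1 : q ∈ connectedComponentIn X q := mem_connectedComponentIn hq
  have h2 : q' ∈ connectedComponentIn X q := by rw [hC]; exact mem_connectedComponentIn hq'
  have h3 : IsPreconnected (kf a b '' connectedComponentIn X q) :=
    isPreconnected_connectedComponentIn.image _ (continuous_kf a b).continuousOn
  have h4 := h3.ordConnected.out (mem_image_of_mem _ h1) (mem_image_of_mem _ h2)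
  obtain ⟨p, hp, hpk⟩ := h4 (show kf a b q' - s ∈ Icc (kf a b q) (kf a b q') from
    ⟨by linarith, by linarith⟩)
  have hpX : p ∈ X := connectedComponentIn_subset X q hp
  have hp0 : hf a b c p = 0 := (hf_line p).mp hpX.2
  have hq0 : hf a b c q' = 0 := (hf_line q').mp hq'.2
  have : p = q' - s • (-b, a) := by
    refine line_ext hab hp0 (hf_move hq0 s) ?_
    rw [hpk, kf_move hab]
  rw [← this]
  exact hpX.1

section

variable {n : ℕ} {v : ZMod n → ℝ × ℝ} {S : Set (ℝ × ℝ)}
  (hv : IsSimplePolygon v) (hS : IsRegionOf v S)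

include hv hS

lemma card_in_le {a b c : ℝ} (h0 : ∀ i, hf a b c (v i) ≠ 0) {j : ℕ} (hab : (a, b) ≠ (0, 0))
    (hk : componentCount (S ∩ {p : ℝ × ℝ | a * p.1 + b * p.2 = c}) ≤ j)
    (E : Finset (ZMod n))
    (hE : ∀ i ∈ E, ∃ q : ℝ × ℝ, q ∈ edge v i ∧ hf a b c q = 0 ∧ ∃ δ : ℝ, 0 < δ ∧
      ∀ s : ℝ, 0 < s → s < δ → q + s • (-b, a) ∈ S ∧ q - s • (-b, a) ∉ S) : E.card ≤ j := by
  classical
  choose! q hq using hE
  set X := S ∩ {p : ℝ × ℝ | a * p.1 + b * p.2 = c} with hX
  have hqX : ∀ i ∈ E, q i ∈ X := by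
    intro i hi
    refine ⟨?_, (hf_line _).mpr (hq i hi).2.1⟩
    have h1 : q i ∈ frontier S := by
      rw [hS.frontier_eq]
      exact mem_iUnion.mpr ⟨i, (hq i hi).1⟩
    rw [hS.compact.isClosed.frontier_eq] at h1
    exact h1.1
  have hinj : Set.InjOn (fun i => connectedComponentIn X (q i)) (E : Set (ZMod n)) := by
    intro i hi i' hi' he
    have hi1 : i ∈ E := hi
    have hi2 : i' ∈ E := hi'
    simp only at he
    by_contra hne
    have hqq : q i ≠ q i' := by
      intro h
      have hin : q i ∈ edge v i ∩ edge v i' := ⟨(hq i hi1).1, by rw [h]; exact (hq i' hi2).1⟩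
      rcases hv.inter i i' hne (q i) hin with ⟨_, h⟩ | ⟨_, h⟩
      · have := (hq i hi1).2.1
        rw [h] at this; exact h0 i' this
      · have := (hq i hi1).2.1
        rw [h] at this; exact h0 i this
    have hkk : kf a b (q i) ≠ kf a b (q i') := fun h =>
      hqq (line_ext hab (hq i hi1).2.1 (hq i' hi2).2.1 h)
    rcases lt_or_gt_of_ne hkk with hlt | hlt
    · obtain ⟨δ, hδ, hd⟩ := (hq i' hi2).2.2
      set s := min (δ / 2) ((kf a b (q i') - kf a b (q i)) / 2) with hs
      have hs0 : 0 < s := lt_min (by linarith) (by linarith)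
      have hs1 : s < δ := lt_of_le_of_lt (min_le_left _ _) (by linarith)
      have hs2 : s < kf a b (q i') - kf a b (q i) :=
        lt_of_le_of_lt (min_le_right _ _) (by linarith)
      exact (hd s hs0 hs1).2 (comp_between hab (hqX i hi1) (hqX i' hi2) he hs0 hs2)
    · obtain ⟨δ, hδ, hd⟩ := (hq i hi1).2.2
      set s := min (δ / 2) ((kf a b (q i) - kf a b (q i')) / 2) with hs
      have hs0 : 0 < s := lt_min (by linarith) (by linarith)
      have hs1 : s < δ := lt_of_le_of_lt (min_le_left _ _) (by linarith)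
      have hs2 : s < kf a b (q i) - kf a b (q i') :=
        lt_of_le_of_lt (min_le_right _ _) (by linarith)
      exact (hd s hs0 hs1).2 (comp_between hab (hqX i' hi2) (hqX i hi1) he.symm hs0 hs2)
  have h1 : ((E.image (fun i => connectedComponentIn X (q i)) : Finset (Set (ℝ × ℝ))) :
      Set (Set (ℝ × ℝ))).encard ≤ componentCount X := by
    unfold componentCount
    apply encard_le_encard
    intro Y hY
    rw [Finset.mem_coe, Finset.mem_image] at hY
    obtain ⟨i, hi, rfl⟩ := hY
    exact ⟨q i, hqX i hi, rfl⟩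
  rw [encard_coe_eq_coe_finsetCard, Finset.card_image_of_injOn hinj] at h1
  have h2 : ((E.card : ℕ) : ℕ∞) ≤ ((j : ℕ) : ℕ∞) := h1.trans hk
  exact_mod_cast h2

/-- a line missing the vertices of a `j`-convex polygon crosses at most `2 j` edges -/
theorem crossing_le {a b c : ℝ} (h0 : ∀ i, hf a b c (v i) ≠ 0) {j : ℕ} (hab : (a, b) ≠ (0, 0))
    (hk : componentCount (S ∩ {p : ℝ × ℝ | a * p.1 + b * p.2 = c}) ≤ j)
    (E : Finset (ZMod n)) (hE : ∀ i ∈ E, hf a b c (v i) * hf a b c (v (i + 1)) < 0) :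
    E.card ≤ 2 * j := by
  classical
  set PR : ZMod n → Prop := fun i => ∃ q : ℝ × ℝ, q ∈ edge v i ∧ hf a b c q = 0 ∧
      ∃ δ : ℝ, 0 < δ ∧ ∀ s : ℝ, 0 < s → s < δ → q + s • (-b, a) ∈ S ∧ q - s • (-b, a) ∉ S with hPR
  have h1 : (E.filter PR).card ≤ j :=
    card_in_le hv hS h0 hab hk _ (fun i hi => (Finset.mem_filter.mp hi).2)
  have hneg : ∀ p, hf (-a) (-b) (-c) p = - hf a b c p := by
    intro p; simp only [hf]; ring
  have hset : {p : ℝ × ℝ | -a * p.1 + -b * p.2 = -c} = {p : ℝ × ℝ | a * p.1 + b * p.2 = c} := by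
    ext p
    simp only [mem_ofPred_eq]
    constructor <;> intro h <;> linarith
  have h2 : (E.filter (fun i => ¬ PR i)).card ≤ j := by
    refine card_in_le hv hS (a := -a) (b := -b) (c := -c) ?_ ?_ ?_ _ ?_
    · intro i; rw [hneg]; exact neg_ne_zero.mpr (h0 i)
    · intro h
      apply hab
      rw [Prod.mk.injEq] at h ⊢
      exact ⟨by linarith [h.1], by linarith [h.2]⟩
    · rw [hset]; exact hk
    · intro i hi
      obtain ⟨hi1, hi2⟩ := Finset.mem_filter.mp hi
      obtain ⟨q, hq1, hq2, δ, hδ, hd⟩ := local_picture hv hS h0 (hE i hi1)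
      rcases hd with hd | hd
      · exact absurd ⟨q, hq1, hq2, δ, hδ, hd⟩ hi2
      · refine ⟨q, hq1, by rw [hneg, hq2, neg_zero], δ, hδ, ?_⟩
        intro s hs0 hs1
        have h3 := hd s hs0 hs1
        have h4 : s • ((- -b : ℝ), (-a : ℝ)) = - (s • ((-b : ℝ), (a : ℝ))) := by
          ext <;> simp
        rw [h4, ← sub_eq_add_neg, sub_neg_eq_add]
        exact ⟨h3.2, h3.1⟩
  have h3 := Finset.card_filter_add_card_filter_not (s := E) PR
  omega

end

lemma altL_concat_concat (l : List Bool) (a b : Bool) :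
    altL (l ++ [a] ++ [b]) = altL (l ++ [a]) + if a = b then 0 else 1 := by
  cases l with
  | nil => simp [altL, alt_cons]
  | cons c l =>
    rw [List.cons_append, List.cons_append, altL_cons, altL_cons, alt_append]
    simp [alt_cons]

lemma altL_range (w : ℕ → Bool) (m : ℕ) :
    altL ((List.range (m + 1)).map w) =
      ((Finset.range m).filter (fun i => w i ≠ w (i + 1))).card := by
  induction m with
  | zero => simp [altL]
  | succ m ih =>
    rw [List.range_succ, List.map_append, List.range_succ, List.map_append]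
    simp only [List.map_cons, List.map_nil]
    rw [altL_concat_concat, Finset.range_add_one, Finset.filter_insert]
    rw [List.range_succ, List.map_append] at ih
    simp only [List.map_cons, List.map_nil] at ih
    rw [ih]
    by_cases h : w m = w (m + 1)
    · simp [h]
    · rw [if_neg h, if_pos h, Finset.card_insert_of_notMem]
      simp

/-- a `j`-convex set has an ordering in which a line missing it changes side at most `2 j`
times -/
theorem exists_order {j : ℕ} {Q : Set (ℝ × ℝ)} (h : KConvexSet j Q) :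
    ∃ L : List (ℝ × ℝ), L.Nodup ∧ (∀ p, p ∈ L ↔ p ∈ Q) ∧
      ∀ a b c : ℝ, (a, b) ≠ (0, 0) → (∀ p ∈ L, hf a b c p ≠ 0) →
        altL (L.map (fun p => decide (0 < hf a b c p))) ≤ 2 * j := by
  classical
  obtain ⟨_, n, v, S, hv, hr, hS, hk⟩ := h
  have hn : 3 ≤ n := hv.three_le
  have : NeZero n := ⟨by omega⟩
  have hcast : Set.InjOn (fun i : ℕ => (i : ZMod n)) {i | i < n} := by
    intro i hi i' hi' he
    simp only [mem_ofPred_eq] at hi hi'
    have h1 : (i : ZMod n).val = (i' : ZMod n).val := by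
      have he' : (i : ZMod n) = (i' : ZMod n) := he
      rw [he']
    rwa [ZMod.val_natCast_of_lt hi, ZMod.val_natCast_of_lt hi'] at h1
  refine ⟨(List.range n).map (fun i : ℕ => v (i : ZMod n)), ?_, ?_, ?_⟩
  · refine List.Nodup.map_on ?_ List.nodup_range
    intro i hi i' hi' he
    exact hcast (by simpa using hi) (by simpa using hi') (hv.injective he)
  · intro p
    rw [← hr]
    simp only [List.mem_map, List.mem_range, mem_range]
    constructor
    · rintro ⟨i, _, rfl⟩; exact ⟨_, rfl⟩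
    · rintro ⟨i, rfl⟩
      exact ⟨i.val, ZMod.val_lt i, by rw [ZMod.natCast_zmod_val]⟩
  · intro a b c hab h0
    have h0' : ∀ i, hf a b c (v i) ≠ 0 := by
      intro i
      apply h0
      simp only [List.mem_map, List.mem_range]
      exact ⟨i.val, ZMod.val_lt i, by rw [ZMod.natCast_zmod_val]⟩
    obtain ⟨m, rfl⟩ : ∃ m, n = m + 1 := ⟨n - 1, by omega⟩
    rw [List.map_map, altL_range]
    set F := (Finset.range m).filter (fun i : ℕ =>
      ((fun p => decide (0 < hf a b c p)) ∘ fun i : ℕ => v (i : ZMod (m + 1))) i ≠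
      ((fun p => decide (0 < hf a b c p)) ∘ fun i : ℕ => v (i : ZMod (m + 1))) (i + 1)) with hF
    have hinj : Set.InjOn (fun i : ℕ => (i : ZMod (m + 1))) (F : Set ℕ) := by
      refine hcast.mono ?_
      intro i hi
      rw [hF, Finset.coe_filter] at hi
      have := hi.1
      simp only [Finset.mem_range] at this
      show i < m + 1
      omega
    rw [← Finset.card_image_of_injOn hinj]
    refine crossing_le hv hS h0' hab (hk _ ⟨a, b, c, hab, rfl⟩) _ ?_
    intro i hi
    rw [Finset.mem_image] at hi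
    obtain ⟨k, hk1, rfl⟩ := hi
    rw [hF, Finset.mem_filter] at hk1
    have hne := hk1.2
    simp only [Function.comp_apply] at hne
    have h1 := h0' (k : ZMod (m + 1))
    have h2 := h0' ((k : ZMod (m + 1)) + 1)
    rw [Nat.cast_add, Nat.cast_one] at hne
    rcases lt_or_gt_of_ne h1 with h3 | h3 <;> rcases lt_or_gt_of_ne h2 with h4 | h4
    · exact absurd (by simp [not_lt.mpr h3.le, not_lt.mpr h4.le]) hne
    · exact mul_neg_of_neg_of_pos h3 h4
    · exact mul_neg_of_pos_of_neg h3 h4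
    · exact absurd (by simp [h3, h4]) hne

end Pool.Agent.H41.Kc
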