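import Mathlib

set_option autoImplicit false

/-!
Double counting for digit sequences.
-/

namespace Pool.Agent.H41.Kc

open Finset

lemma sum_coord {R n : ℕ} (j : Fin n) (f : Fin R → ℕ) :
    (∑ d : Fin n → Fin R, f (d j)) * R = R ^ n * ∑ β, f β := by
  cases n with
  | zero => exact j.elim0
  | succ n =>
    have h1 : (∑ d : Fin (n + 1) → Fin R, f (d j)) =
        ∑ q : Fin R × (Fin n → Fin R), f q.1 := by
      rw [← (Fin.insertNthEquiv (fun _ => Fin R) j).sum_comp]
      apply sum_congr rfl
      intro q _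
      simp [Fin.insertNthEquiv]
    rw [h1, Fintype.sum_prod_type]
    simp only [sum_const, card_univ, Fintype.card_fun, Fintype.card_fin, smul_eq_mul]
    rw [← mul_sum, pow_succ]
    ring

lemma count_one {R n : ℕ} (s : Fin n) (T : Finset (Fin R)) :
    (univ.filter (fun y : Fin n → Fin R => y s ∈ T)).card * R = R ^ n * T.card := by
  rw [card_filter, sum_coord s (fun β => if β ∈ T then 1 else 0)]
  simp

lemma count_two {R n : ℕ} (s s' : Fin n) (h : s' ≠ s) (T : Fin R → Finset (Fin R)) :
    (univ.filter (fun y : Fin n → Fin R => y s ∈ T (y s'))).card * R ^ 2 =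
      R ^ n * ∑ β, (T β).card := by
  cases n with
  | zero => exact s.elim0
  | succ n =>
    obtain ⟨j, hj⟩ := Fin.exists_succAbove_eq h
    have h1 : (univ.filter (fun y : Fin (n + 1) → Fin R => y s ∈ T (y s'))).card =
        ∑ d : Fin n → Fin R, (T (d j)).card := by
      rw [card_filter, ← (Fin.insertNthEquiv (fun _ => Fin R) s).sum_comp, Fintype.sum_prod_type,
        sum_comm]
      apply sum_congr rfl
      intro d _
      simp only [Fin.insertNthEquiv, Equiv.coe_fn_mk, Fin.insertNth_apply_same]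
      rw [← hj]
      simp
    have h2 := sum_coord j (fun β => (T β).card)
    rw [h1]
    calc (∑ d : Fin n → Fin R, (T (d j)).card) * R ^ 2
        = (∑ d : Fin n → Fin R, (T (d j)).card) * R * R := by ring
      _ = R ^ n * (∑ β, (T β).card) * R := by rw [h2]
      _ = R ^ (n + 1) * ∑ β, (T β).card := by ring

/-- a digit sequence that is bad for `x` -/
def IsBad {R S : ℕ} (x : Fin S → Fin R) (W : Fin S → Finset (Fin R))
    (C : Fin S → Fin R → Fin S → Finset (Fin R)) (y : Fin S → Fin R) : Prop :=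
  (∃ s, y s ∈ ({x s} : Finset (Fin R))) ∨ (∃ s, y s ∈ W s) ∨
    ∃ s' s, s' ≠ s ∧ y s ∈ C s' (y s') s

open Classical in
lemma bad_le {R S K : ℕ} (hR : 2 * ((S + 1) * (K + 1)) ≤ R) (x : Fin S → Fin R)
    (W : Fin S → Finset (Fin R)) (C : Fin S → Fin R → Fin S → Finset (Fin R))
    (hW : ∑ s, (W s).card ≤ K) (hC : ∀ s' β, ∑ s, (C s' β s).card ≤ K) :
    2 * (univ.filter (fun y : Fin S → Fin R => IsBad x W C y)).card < R ^ S := by
  have hR0 : 0 < R := lt_of_lt_of_le (by positivity) hR
  have hsub : univ.filter (fun y : Fin S → Fin R => IsBad x W C y) ⊆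
      (univ.biUnion fun s => univ.filter (fun y : Fin S → Fin R => y s ∈ ({x s} : Finset (Fin R)))) ∪
      ((univ.biUnion fun s => univ.filter (fun y : Fin S → Fin R => y s ∈ W s)) ∪
      (univ.biUnion fun s' => (univ.filter (fun s => s' ≠ s)).biUnion fun s =>
        univ.filter (fun y : Fin S → Fin R => y s ∈ C s' (y s') s))) := by
    intro y hy
    replace hy : IsBad x W C y := (mem_filter.mp hy).2
    simp only [mem_union, mem_biUnion, mem_filter, mem_univ, true_and]
    rcases hy with h | h | ⟨s', s, h1, h2⟩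
    · exact Or.inl h
    · exact Or.inr (Or.inl h)
    · exact Or.inr (Or.inr ⟨s', s, h1, h2⟩)
  have h1 := (card_le_card hsub).trans ((card_union_le _ _).trans
    (Nat.add_le_add card_biUnion_le ((card_union_le _ _).trans
      (Nat.add_le_add card_biUnion_le (card_biUnion_le.trans
        (sum_le_sum fun s' _ => card_biUnion_le))))))
  set N := (univ.filter (fun y : Fin S → Fin R => IsBad x W C y)).card with hN
  have e1 : (∑ s, (univ.filter (fun y : Fin S → Fin R => y s ∈ ({x s} : Finset (Fin R)))).card) *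
      R = R ^ S * S := by
    rw [sum_mul]
    rw [sum_congr rfl (fun s _ => count_one s {x s})]
    simp
    ring
  have e2 : (∑ s, (univ.filter (fun y : Fin S → Fin R => y s ∈ W s)).card) * R ≤ R ^ S * K := by
    rw [sum_mul]
    rw [sum_congr rfl (fun s _ => count_one s (W s)), ← mul_sum]
    exact Nat.mul_le_mul_left _ hW
  have e3 : (∑ s', ∑ s ∈ univ.filter (fun s => s' ≠ s),
      (univ.filter (fun y : Fin S → Fin R => y s ∈ C s' (y s') s)).card) * R ^ 2 ≤
      R ^ S * (S * (R * K)) := by
    rw [sum_mul]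
    have h2 : ∀ s' : Fin S, (∑ s ∈ univ.filter (fun s => s' ≠ s),
        (univ.filter (fun y : Fin S → Fin R => y s ∈ C s' (y s') s)).card) * R ^ 2 ≤
        R ^ S * (R * K) := by
      intro s'
      rw [sum_mul]
      have h3 : ∑ s ∈ univ.filter (fun s => s' ≠ s),
          (univ.filter (fun y : Fin S → Fin R => y s ∈ C s' (y s') s)).card * R ^ 2 =
          ∑ s ∈ univ.filter (fun s => s' ≠ s), R ^ S * ∑ β, (C s' β s).card := by
        apply sum_congr rfl
        intro s hs
        exact count_two s s' (mem_filter.mp hs).2 (fun β => C s' β s)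
      rw [h3]
      calc ∑ s ∈ univ.filter (fun s => s' ≠ s), R ^ S * ∑ β, (C s' β s).card
          ≤ ∑ s, R ^ S * ∑ β, (C s' β s).card :=
            sum_le_sum_of_subset (filter_subset _ _)
        _ = R ^ S * ∑ β, ∑ s, (C s' β s).card := by rw [← mul_sum, sum_comm]
        _ ≤ R ^ S * ∑ β : Fin R, K := Nat.mul_le_mul_left _ (sum_le_sum fun β _ => hC s' β)
        _ = R ^ S * (R * K) := by simp
    refine (sum_le_sum fun s' _ => h2 s').trans ?_
    simp
    exact le_of_eq (by ring)
  set A := ∑ s, (univ.filter (fun y : Fin S → Fin R => y s ∈ ({x s} : Finset (Fin R)))).card with hA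
  set B := ∑ s, (univ.filter (fun y : Fin S → Fin R => y s ∈ W s)).card with hB
  set E := ∑ s', ∑ s ∈ univ.filter (fun s => s' ≠ s),
      (univ.filter (fun y : Fin S → Fin R => y s ∈ C s' (y s') s)).card with hE
  have h2 : N ≤ A + (B + E) := h1
  have h3 : N * R ^ 2 ≤ R ^ S * R * (S + K + S * K) := by
    calc N * R ^ 2 ≤ (A + (B + E)) * R ^ 2 := Nat.mul_le_mul_right _ h2
      _ = A * R * R + B * R * R + E * R ^ 2 := by ring
      _ ≤ R ^ S * S * R + R ^ S * K * R + R ^ S * (S * (R * K)) := by
          rw [e1]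
          exact Nat.add_le_add (Nat.add_le_add le_rfl (Nat.mul_le_mul_right _ e2)) e3
      _ = R ^ S * R * (S + K + S * K) := by ring
  have h4 : 2 * (S + K + S * K) < R := by
    calc 2 * (S + K + S * K) < 2 * ((S + 1) * (K + 1)) := by nlinarith
      _ ≤ R := hR
  have h5 : 2 * N * R ^ 2 < R ^ S * R ^ 2 := by
    calc 2 * N * R ^ 2 = 2 * (N * R ^ 2) := by ring
      _ ≤ 2 * (R ^ S * R * (S + K + S * K)) := Nat.mul_le_mul_left _ h3
      _ = R ^ S * R * (2 * (S + K + S * K)) := by ring
      _ < R ^ S * R * R := Nat.mul_lt_mul_of_pos_left h4 (by positivity)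
      _ = R ^ S * R ^ 2 := by ring
  exact Nat.lt_of_mul_lt_mul_right h5

/-- exchange of digits -/
def mix {R S : ℕ} (b : Fin S → Bool) (x y : Fin S → Fin R) (s : Fin S) : Fin R :=
  if b s then y s else x s

lemma mix_mix {R S : ℕ} (b : Fin S → Bool) (x y : Fin S → Fin R) :
    mix b (mix b x y) (mix b y x) = x := by
  funext s
  unfold mix
  cases b s <;> simp

/-- exchange of digits as a permutation -/
def mixE {R S : ℕ} (b : Fin S → Bool) :
    ((Fin S → Fin R) × (Fin S → Fin R)) ≃ ((Fin S → Fin R) × (Fin S → Fin R)) where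
  toFun q := (mix b q.1 q.2, mix b q.2 q.1)
  invFun q := (mix b q.1 q.2, mix b q.2 q.1)
  left_inv q := by simp only [mix_mix]
  right_inv q := by simp only [mix_mix]

open Classical in
lemma exists_pair {R S : ℕ} (hR : 0 < R) (good : (Fin S → Fin R) → (Fin S → Fin R) → Prop)
    (h : ∀ x, R ^ S < 2 * (univ.filter (fun y => good x y)).card) :
    ∃ x y, 2 ^ S < 2 * (univ.filter
      (fun b : Fin S → Bool => good (mix b x y) (mix b y x))).card := by
  by_contra hcon
  push Not at hcon
  have h1 : ∑ q : (Fin S → Fin R) × (Fin S → Fin R),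
      2 * (univ.filter (fun b : Fin S → Bool => good (mix b q.1 q.2) (mix b q.2 q.1))).card ≤
      (R ^ S * R ^ S) * 2 ^ S := by
    refine (sum_le_sum fun q _ => hcon q.1 q.2).trans ?_
    simp
  have h2 : ∑ q : (Fin S → Fin R) × (Fin S → Fin R),
      (univ.filter (fun b : Fin S → Bool => good (mix b q.1 q.2) (mix b q.2 q.1))).card =
      2 ^ S * ∑ x, (univ.filter (fun y => good x y)).card := by
    have h3 : ∀ q : (Fin S → Fin R) × (Fin S → Fin R),
        (univ.filter (fun b : Fin S → Bool => good (mix b q.1 q.2) (mix b q.2 q.1))).card =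
        ∑ b : Fin S → Bool, if good (mix b q.1 q.2) (mix b q.2 q.1) then 1 else 0 := by
      intro q
      rw [card_filter]
    rw [sum_congr rfl (fun q _ => h3 q), sum_comm]
    have h4 : ∀ b : Fin S → Bool, (∑ q : (Fin S → Fin R) × (Fin S → Fin R),
        if good (mix b q.1 q.2) (mix b q.2 q.1) then 1 else 0) =
        ∑ x, (univ.filter (fun y => good x y)).card := by
      intro b
      have h5 := (mixE b).sum_comp (fun q : (Fin S → Fin R) × (Fin S → Fin R) =>
        if good q.1 q.2 then 1 else 0)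
      have h6 : (∑ q : (Fin S → Fin R) × (Fin S → Fin R),
          if good (mix b q.1 q.2) (mix b q.2 q.1) then 1 else 0) =
          ∑ q : (Fin S → Fin R) × (Fin S → Fin R), if good q.1 q.2 then 1 else 0 := h5
      rw [h6, Fintype.sum_prod_type]
      apply sum_congr rfl
      intro x _
      rw [card_filter]
    rw [sum_congr rfl (fun b _ => h4 b)]
    simp
  rw [← mul_sum, h2] at h1
  have h7 : ∑ x : Fin S → Fin R, R ^ S < ∑ x : Fin S → Fin R,
      2 * (univ.filter (fun y => good x y)).card :=
    sum_lt_sum_of_nonempty ⟨fun _ => ⟨0, hR⟩, mem_univ _⟩ (fun x _ => h x)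
  rw [← mul_sum] at h7
  simp only [sum_const, card_univ, Fintype.card_fun, Fintype.card_fin, smul_eq_mul] at h7
  have h8 : 2 ^ S * (R ^ S * R ^ S) < 2 ^ S * (2 * ∑ x, (univ.filter (fun y => good x y)).card) :=
    Nat.mul_lt_mul_of_pos_left h7 (by positivity)
  have h9 : 2 * (2 ^ S * ∑ x, (univ.filter (fun y => good x y)).card) =
      2 ^ S * (2 * ∑ x, (univ.filter (fun y => good x y)).card) := by ring
  have h10 : R ^ S * R ^ S * 2 ^ S = 2 ^ S * (R ^ S * R ^ S) := by ring
  rw [h9, h10] at h1
  exact absurd h8 (not_lt.mpr h1)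

end Pool.Agent.H41.Kc
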