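import Mathlib

set_option autoImplicit false

/-!
Mixed sibling blocks of a leaf of an `R`-ary tree of consecutive intervals.
-/

namespace Pool.Agent.H41.Kc

open Finset

/-- the number of changes of the word `w` inside the interval `[a, a + n)` -/
def chg (w : ℕ → Bool) (a n : ℕ) : ℕ :=
  ((range (n - 1)).filter (fun i => w (a + i) ≠ w (a + (i + 1)))).card

lemma chg_add (w : ℕ → Bool) (a m n : ℕ) : chg w a m + chg w (a + m) n ≤ chg w a (m + n) := by
  unfold chg
  set A := (range (m - 1)).filter (fun i => w (a + i) ≠ w (a + (i + 1))) with hA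
  set B := (range (n - 1)).filter (fun i => w (a + m + i) ≠ w (a + m + (i + 1))) with hB
  have h1 : (B.image (fun i => m + i)).card = B.card :=
    card_image_of_injective _ (fun x y h => by simpa using h)
  rw [← h1, ← card_union_of_disjoint]
  · apply card_le_card
    intro i hi
    rw [mem_union] at hi
    rcases hi with hi | hi
    · rw [hA, mem_filter, mem_range] at hi
      rw [mem_filter, mem_range]
      exact ⟨by omega, hi.2⟩
    · rw [mem_image] at hi
      obtain ⟨j, hj, rfl⟩ := hi
      rw [hB, mem_filter, mem_range] at hj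
      rw [mem_filter, mem_range]
      refine ⟨by omega, ?_⟩
      have h2 := hj.2
      rw [← add_assoc, add_assoc m j 1, ← add_assoc a m (j + 1)]
      exact h2
  · rw [disjoint_left]
    intro i hi hi'
    rw [hA, mem_filter, mem_range] at hi
    rw [mem_image] at hi'
    obtain ⟨j, _, rfl⟩ := hi'
    omega

lemma chg_blocks (w : ℕ → Bool) (a M : ℕ) (R : ℕ) :
    ∑ β ∈ range R, chg w (a + β * M) M ≤ chg w a (R * M) := by
  induction R with
  | zero => simp
  | succ R ih =>
    rw [sum_range_succ, Nat.succ_mul]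
    exact (Nat.add_le_add_right ih _).trans (chg_add w a (R * M) M)

lemma chg_pos {w : ℕ → Bool} {a n i j : ℕ} (hi : i < n) (hj : j < n) (h1 : w (a + i) = true)
    (h2 : w (a + j) = false) : 1 ≤ chg w a n := by
  by_contra hcon
  have h0 : chg w a n = 0 := by omega
  unfold chg at h0
  rw [card_eq_zero, filter_eq_empty_iff] at h0
  have h3 : ∀ i, i < n → w (a + i) = w a := by
    intro i
    induction i with
    | zero => intro _; rfl
    | succ i ih =>
      intro h
      have h4 := h0 (mem_range.mpr (by omega : i < n - 1))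
      rw [not_not] at h4
      rw [← h4]
      exact ih (by omega)
  rw [h3 i hi] at h1
  rw [h3 j hj, h1] at h2
  exact absurd h2 (by simp)

/-- the position of a leaf -/
def idx (R : ℕ) : (h : ℕ) → (Fin h → Fin R) → ℕ
  | 0, _ => 0
  | h + 1, c => (c 0 : ℕ) * R ^ h + idx R h (Fin.tail c)

lemma idx_lt (R : ℕ) : ∀ (h : ℕ) (c : Fin h → Fin R), idx R h c < R ^ h := by
  intro h
  induction h with
  | zero => intro c; simp [idx]
  | succ h ih =>
    intro c
    have h1 := ih (Fin.tail c)
    have h2 : (c 0 : ℕ) < R := (c 0).isLt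
    rw [idx, pow_succ]
    nlinarith

lemma idx_injective (R : ℕ) : ∀ (h : ℕ), Function.Injective (idx R h) := by
  intro h
  induction h with
  | zero => intro c c' _; exact Subsingleton.elim _ _
  | succ h ih =>
    intro c c' he
    rw [idx, idx] at he
    have h1 := idx_lt R h (Fin.tail c)
    have h2 := idx_lt R h (Fin.tail c')
    have h3 : (c 0 : ℕ) = c' 0 := by
      by_contra hne
      rcases lt_or_gt_of_ne hne with h | h <;> nlinarith
    have h4 : Fin.tail c = Fin.tail c' := by
      apply ih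
      rw [h3] at he
      omega
    rw [← Fin.cons_self_tail c, ← Fin.cons_self_tail c', h4, Fin.ext h3]

/-- the sibling block `(s, β)` of the leaf `x` contains points on both sides -/
def Mixed {R h : ℕ} (w : ℕ → Bool) (a : ℕ) (x : Fin h → Fin R) (s : Fin h) (β : Fin R) : Prop :=
  (∃ c : Fin h → Fin R, (∀ i < s, c i = x i) ∧ c s = β ∧ w (a + idx R h c) = true) ∧
    ∃ c : Fin h → Fin R, (∀ i < s, c i = x i) ∧ c s = β ∧ w (a + idx R h c) = false

lemma Mixed.zero {R h : ℕ} {w : ℕ → Bool} {a : ℕ} {x : Fin (h + 1) → Fin R} {β : Fin R}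
    (hm : Mixed w a x 0 β) : 1 ≤ chg w (a + β * R ^ h) (R ^ h) := by
  obtain ⟨⟨c, _, h1, h2⟩, c', _, h3, h4⟩ := hm
  rw [idx, h1, ← add_assoc] at h2
  rw [idx, h3, ← add_assoc] at h4
  exact chg_pos (idx_lt R h _) (idx_lt R h _) h2 h4

lemma Mixed.succ {R h : ℕ} {w : ℕ → Bool} {a : ℕ} {x : Fin (h + 1) → Fin R} {s : Fin h}
    {β : Fin R} (hm : Mixed w a x s.succ β) :
    Mixed w (a + x 0 * R ^ h) (Fin.tail x) s β := by
  obtain ⟨⟨c, h0, h1, h2⟩, c', h0', h3, h4⟩ := hm
  have e1 : c 0 = x 0 := h0 0 (Fin.succ_pos s)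
  have e2 : c' 0 = x 0 := h0' 0 (Fin.succ_pos s)
  rw [idx, e1, ← add_assoc] at h2
  rw [idx, e2, ← add_assoc] at h4
  exact ⟨⟨Fin.tail c, fun i hi => h0 i.succ (Fin.succ_lt_succ_iff.mpr hi), h1, h2⟩,
    Fin.tail c', fun i hi => h0' i.succ (Fin.succ_lt_succ_iff.mpr hi), h3, h4⟩

open Classical in
lemma mix_count {R : ℕ} (w : ℕ → Bool) : ∀ (h : ℕ) (a : ℕ) (x : Fin h → Fin R),
    ∑ s, (univ.filter (fun β => β ≠ x s ∧ Mixed w a x s β)).card ≤ chg w a (R ^ h) := by
  intro h
  induction h with
  | zero => intro a x; simp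
  | succ h ih =>
    intro a x
    rw [Fin.sum_univ_succ]
    have h1 : (univ.filter (fun β => β ≠ x 0 ∧ Mixed w a x 0 β)).card ≤
        ∑ β ∈ univ.erase (x 0), chg w (a + β * R ^ h) (R ^ h) := by
      rw [card_eq_sum_ones]
      calc ∑ β ∈ univ.filter (fun β => β ≠ x 0 ∧ Mixed w a x 0 β), 1
          ≤ ∑ β ∈ univ.filter (fun β => β ≠ x 0 ∧ Mixed w a x 0 β),
            chg w (a + β * R ^ h) (R ^ h) := by
            apply sum_le_sum
            intro β hβ
            exact (mem_filter.mp hβ).2.2.zero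
        _ ≤ _ := by
            apply sum_le_sum_of_subset
            intro β hβ
            rw [mem_erase]
            exact ⟨(mem_filter.mp hβ).2.1, mem_univ _⟩
    have h2 : ∑ s : Fin h, (univ.filter (fun β => β ≠ x s.succ ∧ Mixed w a x s.succ β)).card ≤
        chg w (a + x 0 * R ^ h) (R ^ h) := by
      refine le_trans (sum_le_sum fun s _ => ?_) (ih (a + x 0 * R ^ h) (Fin.tail x))
      apply card_le_card
      intro β hβ
      rw [mem_filter] at hβ ⊢
      exact ⟨mem_univ _, hβ.2.1, hβ.2.2.succ⟩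
    have h3 : ∑ β : Fin R, chg w (a + β * R ^ h) (R ^ h) ≤ chg w a (R ^ (h + 1)) := by
      rw [Fin.sum_univ_eq_sum_range (fun β => chg w (a + β * R ^ h) (R ^ h)) R, pow_succ,
        mul_comm (R ^ h) R]
      exact chg_blocks w a (R ^ h) R
    have h4 := add_sum_erase univ (fun β : Fin R => chg w (a + β * R ^ h) (R ^ h)) (mem_univ (x 0))
    omega

end Pool.Agent.H41.Kc
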