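import Mathlib

set_option autoImplicit false

/-!
Complete binary trees with real labels, and composite subtrees.
-/

namespace Pool.Agent.H41.Kc

/-- complete binary trees of height `n` with real labels at inner nodes and data at the leaves -/
inductive BTr (α : Type) : ℕ → Type
  | leaf (a : α) : BTr α 0
  | node {n : ℕ} (t : ℝ) (L R : BTr α n) : BTr α (n + 1)

namespace BTr

variable {α : Type}

/-- the labels -/
def lab : {n : ℕ} → BTr α n → Set ℝ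
  | _, leaf _ => ∅
  | _, node t L R => {t} ∪ (L.lab ∪ R.lab)

/-- labels are different from the labels of their descendants -/
def Dist : {n : ℕ} → BTr α n → Prop
  | _, leaf _ => True
  | _, node t L R => (t ∉ L.lab ∧ t ∉ R.lab) ∧ L.Dist ∧ R.Dist

/-- mirror image -/
def mi : {n : ℕ} → BTr α n → BTr α n
  | _, leaf a => leaf a
  | _, node t L R => node t R.mi L.mi

/-- mirror image with negated labels -/
def nm : {n : ℕ} → BTr α n → BTr α n
  | _, leaf a => leaf a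
  | _, node t L R => node (-t) R.nm L.nm

@[simp] lemma lab_leaf (a : α) : (leaf a).lab = ∅ := rfl

@[simp] lemma lab_node {n : ℕ} (t : ℝ) (L R : BTr α n) :
    (node t L R).lab = {t} ∪ (L.lab ∪ R.lab) := rfl

@[simp] lemma mi_node {n : ℕ} (t : ℝ) (L R : BTr α n) : (node t L R).mi = node t R.mi L.mi := rfl

@[simp] lemma nm_node {n : ℕ} (t : ℝ) (L R : BTr α n) : (node t L R).nm = node (-t) R.nm L.nm := rfl

lemma lab_mi {n : ℕ} (w : BTr α n) : w.mi.lab = w.lab := by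
  induction w with
  | leaf a => rfl
  | node t L R hL hR =>
    rw [mi_node, lab_node, lab_node, hL, hR, Set.union_comm R.lab]

lemma mem_lab_nm {n : ℕ} (w : BTr α n) (x : ℝ) : x ∈ w.nm.lab ↔ -x ∈ w.lab := by
  induction w with
  | leaf a => simp [nm]
  | node t L R hL hR =>
    rw [nm_node, lab_node, lab_node]
    simp only [Set.mem_union, Set.mem_singleton_iff, hL, hR]
    constructor
    · rintro (h | h | h)
      · left; linarith
      · right; right; exact h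
      · right; left; exact h
    · rintro (h | h | h)
      · left; linarith
      · right; right; exact h
      · right; left; exact h

lemma mi_mi {n : ℕ} (w : BTr α n) : w.mi.mi = w := by
  induction w with
  | leaf a => rfl
  | node t L R hL hR => rw [mi_node, mi_node, hL, hR]

lemma nm_nm {n : ℕ} (w : BTr α n) : w.nm.nm = w := by
  induction w with
  | leaf a => rfl
  | node t L R hL hR => rw [nm_node, nm_node, hL, hR, neg_neg]

lemma nm_mi {n : ℕ} (w : BTr α n) : w.mi.nm = w.nm.mi := by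
  induction w with
  | leaf a => rfl
  | node t L R hL hR => rw [mi_node, nm_node, nm_node, mi_node, hL, hR]

lemma dist_mi {n : ℕ} (w : BTr α n) (h : w.Dist) : w.mi.Dist := by
  induction w with
  | leaf a => trivial
  | node t L R hL hR =>
    obtain ⟨⟨h1, h2⟩, h3, h4⟩ := h
    refine ⟨⟨?_, ?_⟩, hR h4, hL h3⟩
    · rw [lab_mi]; exact h2
    · rw [lab_mi]; exact h1

lemma dist_nm {n : ℕ} (w : BTr α n) (h : w.Dist) : w.nm.Dist := by
  induction w with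
  | leaf a => trivial
  | node t L R hL hR =>
    obtain ⟨⟨h1, h2⟩, h3, h4⟩ := h
    refine ⟨⟨?_, ?_⟩, hR h4, hL h3⟩
    · rw [mem_lab_nm, neg_neg]; exact h2
    · rw [mem_lab_nm, neg_neg]; exact h1

lemma lab_finite {n : ℕ} (w : BTr α n) : w.lab.Finite := by
  induction w with
  | leaf a => exact Set.finite_empty
  | node t L R hL hR => exact (Set.finite_singleton t).union (hL.union hR)

end BTr

open BTr

/-- `Cmp c w m l u d`: the tree `w` contains a composite complete subtree of depth `d` whose top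
group has type `c` (`true`: cup, `false`: cap) and labels in `(l, u)` that are at least `m`, while
the lower groups have labels below `m`. -/
inductive Cmp {α : Type} : Bool → {n : ℕ} → BTr α n → ℝ → ℝ → ℝ → ℕ → Prop
  | zero (c : Bool) {n : ℕ} (w : BTr α n) (m l u : ℝ) : Cmp c w m l u 0
  | left (c : Bool) {n : ℕ} (t : ℝ) (L R : BTr α n) (m l u : ℝ) (d : ℕ) :
      Cmp c L m l u d → Cmp c (node t L R) m l u d
  | right (c : Bool) {n : ℕ} (t : ℝ) (L R : BTr α n) (m l u : ℝ) (d : ℕ) :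
      Cmp c R m l u d → Cmp c (node t L R) m l u d
  | cup {n : ℕ} (t : ℝ) (L R : BTr α n) (m l u : ℝ) (d : ℕ) : m ≤ t → l < t → t < u →
      Cmp true L m l t d → Cmp true R m t u d → Cmp true (node t L R) m l u (d + 1)
  | cap {n : ℕ} (t : ℝ) (L R : BTr α n) (m l u : ℝ) (d : ℕ) : m ≤ t → l < t → t < u →
      Cmp false L m t u d → Cmp false R m l t d → Cmp false (node t L R) m l u (d + 1)
  | fresh (c c' : Bool) {n : ℕ} (w : BTr α n) (m l u m' l' u' : ℝ) (d : ℕ) : m' ≤ m → u' ≤ m →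
      Cmp c' w m' l' u' d → Cmp c w m l u d

variable {α : Type}

lemma Cmp.le_height {c : Bool} {n : ℕ} {w : BTr α n} {m l u : ℝ} {d : ℕ} (h : Cmp c w m l u d) :
    d ≤ n := by
  induction h with
  | zero => exact Nat.zero_le _
  | left _ _ _ _ _ _ _ _ _ ih => omega
  | right _ _ _ _ _ _ _ _ _ ih => omega
  | cup _ _ _ _ _ _ _ _ _ _ _ _ ih1 ih2 => omega
  | cap _ _ _ _ _ _ _ _ _ _ _ _ ih1 ih2 => omega
  | fresh _ _ _ _ _ _ _ _ _ _ _ _ _ ih => exact ih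

lemma Cmp.anti {c : Bool} {n : ℕ} {w : BTr α n} {m l u : ℝ} {d : ℕ} (h : Cmp c w m l u d) :
    ∀ {d' : ℕ}, d' ≤ d → Cmp c w m l u d' := by
  induction h with
  | zero c w m l u => intro d' hd; rw [Nat.le_zero.mp hd]; exact Cmp.zero _ _ _ _ _
  | left c t L R m l u d _ ih => intro d' hd; exact Cmp.left _ _ _ _ _ _ _ _ (ih hd)
  | right c t L R m l u d _ ih => intro d' hd; exact Cmp.right _ _ _ _ _ _ _ _ (ih hd)
  | cup t L R m l u d h1 h2 h3 _ _ ih1 ih2 =>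
    intro d' hd
    cases d' with
    | zero => exact Cmp.zero _ _ _ _ _
    | succ k => exact Cmp.cup _ _ _ _ _ _ _ h1 h2 h3 (ih1 (by omega)) (ih2 (by omega))
  | cap t L R m l u d h1 h2 h3 _ _ ih1 ih2 =>
    intro d' hd
    cases d' with
    | zero => exact Cmp.zero _ _ _ _ _
    | succ k => exact Cmp.cap _ _ _ _ _ _ _ h1 h2 h3 (ih1 (by omega)) (ih2 (by omega))
  | fresh c c' w m l u m' l' u' d h1 h2 _ ih =>
    intro d' hd
    exact Cmp.fresh _ c' _ _ _ _ m' l' u' _ h1 h2 (ih hd)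

lemma Cmp.mono_u {c : Bool} {n : ℕ} {w : BTr α n} {m l u : ℝ} {d : ℕ} (h : Cmp c w m l u d) :
    ∀ {u' : ℝ}, u ≤ u' → Cmp c w m l u' d := by
  induction h with
  | zero c w m l u => intro u' _; exact Cmp.zero _ _ _ _ _
  | left c t L R m l u d _ ih => intro u' hu; exact Cmp.left _ _ _ _ _ _ _ _ (ih hu)
  | right c t L R m l u d _ ih => intro u' hu; exact Cmp.right _ _ _ _ _ _ _ _ (ih hu)
  | cup t L R m l u d h1 h2 h3 h4 _ _ ih2 =>
    intro u' hu
    exact Cmp.cup _ _ _ _ _ _ _ h1 h2 (lt_of_lt_of_le h3 hu) h4 (ih2 hu)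
  | cap t L R m l u d h1 h2 h3 _ h5 ih1 _ =>
    intro u' hu
    exact Cmp.cap _ _ _ _ _ _ _ h1 h2 (lt_of_lt_of_le h3 hu) (ih1 hu) h5
  | fresh c c' w m l u m' l' u' d h1 h2 h3 _ =>
    intro _ _
    exact Cmp.fresh _ c' _ _ _ _ m' l' u' _ h1 h2 h3

lemma Cmp.mirror {c : Bool} {n : ℕ} {w : BTr α n} {m l u : ℝ} {d : ℕ} (h : Cmp c w m l u d) :
    Cmp (!c) w.mi m l u d := by
  induction h with
  | zero c w m l u => exact Cmp.zero _ _ _ _ _
  | left c t L R m l u d _ ih => exact Cmp.right _ _ _ _ _ _ _ _ ih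
  | right c t L R m l u d _ ih => exact Cmp.left _ _ _ _ _ _ _ _ ih
  | cup t L R m l u d h1 h2 h3 _ _ ih1 ih2 =>
    exact Cmp.cap _ _ _ _ _ _ _ h1 h2 h3 ih2 ih1
  | cap t L R m l u d h1 h2 h3 _ _ ih1 ih2 =>
    exact Cmp.cup _ _ _ _ _ _ _ h1 h2 h3 ih2 ih1
  | fresh c c' w m l u m' l' u' d h1 h2 _ ih =>
    exact Cmp.fresh _ (!c') _ _ _ _ m' l' u' _ h1 h2 ih

/-- a composite subtree of depth `d` with labels below `θ` -/
def Plus {n : ℕ} (w : BTr α n) (d : ℕ) (θ : ℝ) : Prop :=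
  ∃ (c : Bool) (m l u : ℝ), m ≤ θ ∧ u ≤ θ ∧ Cmp c w m l u d

lemma Plus.zero {n : ℕ} (w : BTr α n) (θ : ℝ) : Plus w 0 θ :=
  ⟨true, θ, θ, θ, le_rfl, le_rfl, Cmp.zero _ _ _ _ _⟩

lemma Plus.anti {n : ℕ} {w : BTr α n} {d d' : ℕ} {θ : ℝ} (h : Plus w d θ) (hd : d' ≤ d) :
    Plus w d' θ := by
  obtain ⟨c, m, l, u, h1, h2, h3⟩ := h
  exact ⟨c, m, l, u, h1, h2, h3.anti hd⟩

lemma Plus.mono {n : ℕ} {w : BTr α n} {d : ℕ} {θ θ' : ℝ} (h : Plus w d θ) (hθ : θ ≤ θ') :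
    Plus w d θ' := by
  obtain ⟨c, m, l, u, h1, h2, h3⟩ := h
  exact ⟨c, m, l, u, h1.trans hθ, h2.trans hθ, h3⟩

lemma Plus.le_height {n : ℕ} {w : BTr α n} {d : ℕ} {θ : ℝ} (h : Plus w d θ) : d ≤ n := by
  obtain ⟨c, m, l, u, _, _, h3⟩ := h
  exact h3.le_height

lemma Plus.left {n : ℕ} {t : ℝ} {L R : BTr α n} {d : ℕ} {θ : ℝ} (h : Plus L d θ) :
    Plus (node t L R) d θ := by
  obtain ⟨c, m, l, u, h1, h2, h3⟩ := h
  exact ⟨c, m, l, u, h1, h2, Cmp.left _ _ _ _ _ _ _ _ h3⟩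

lemma Plus.right {n : ℕ} {t : ℝ} {L R : BTr α n} {d : ℕ} {θ : ℝ} (h : Plus R d θ) :
    Plus (node t L R) d θ := by
  obtain ⟨c, m, l, u, h1, h2, h3⟩ := h
  exact ⟨c, m, l, u, h1, h2, Cmp.right _ _ _ _ _ _ _ _ h3⟩

lemma Plus.toCmp {n : ℕ} {w : BTr α n} {d : ℕ} {m : ℝ} (h : Plus w d m) (c : Bool) (l u : ℝ) :
    Cmp c w m l u d := by
  obtain ⟨c', m', l', u', h1, h2, h3⟩ := h
  exact Cmp.fresh _ c' _ _ _ _ m' l' u' _ h1 h2 h3

lemma Plus.step {n : ℕ} {t : ℝ} {L R : BTr α n} {d : ℕ} {θ : ℝ} (hL : Plus L d t)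
    (hR : Plus R d t) (hθ : t < θ) : Plus (node t L R) (d + 1) θ :=
  ⟨true, t, t - 1, θ, hθ.le, le_rfl, Cmp.cup _ _ _ _ _ _ _ le_rfl (by linarith) hθ
    (hL.toCmp _ _ _) (hR.toCmp _ _ _)⟩

lemma Plus.mi {n : ℕ} {w : BTr α n} {d : ℕ} {θ : ℝ} (h : Plus w d θ) : Plus w.mi d θ := by
  obtain ⟨c, m, l, u, h1, h2, h3⟩ := h
  exact ⟨!c, m, l, u, h1, h2, h3.mirror⟩

lemma Cmp.exists_lab {c : Bool} {n : ℕ} {w : BTr α n} {m l u : ℝ} {d : ℕ} (h : Cmp c w m l u d) :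
    1 ≤ d → ∃ x ∈ w.lab, x < u ∨ x < m := by
  induction h with
  | zero => intro h; omega
  | left c t L R m l u d _ ih =>
    intro h
    obtain ⟨x, hx, hx'⟩ := ih h
    exact ⟨x, by simp [hx], hx'⟩
  | right c t L R m l u d _ ih =>
    intro h
    obtain ⟨x, hx, hx'⟩ := ih h
    exact ⟨x, by simp [hx], hx'⟩
  | cup t L R m l u d h1 h2 h3 _ _ _ _ => intro _; exact ⟨t, by simp, Or.inl h3⟩
  | cap t L R m l u d h1 h2 h3 _ _ _ _ => intro _; exact ⟨t, by simp, Or.inl h3⟩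
  | fresh c c' w m l u m' l' u' d h1 h2 _ ih =>
    intro h
    obtain ⟨x, hx, hx'⟩ := ih h
    refine ⟨x, hx, Or.inr ?_⟩
    rcases hx' with h' | h' <;> linarith

open Classical in
/-- the largest depth of a composite subtree with labels below `θ` -/
noncomputable def AA {n : ℕ} (w : BTr α n) (θ : ℝ) : ℕ := Nat.findGreatest (fun d => Plus w d θ) n

/-- the same for labels above `θ` -/
noncomputable def BB {n : ℕ} (w : BTr α n) (θ : ℝ) : ℕ := AA w.nm (-θ)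

lemma AA_spec {n : ℕ} (w : BTr α n) (θ : ℝ) : Plus w (AA w θ) θ := by
  classical
  unfold AA
  exact Nat.findGreatest_spec (P := fun d => Plus w d θ) (Nat.zero_le n) (Plus.zero w θ)

lemma le_AA {n : ℕ} {w : BTr α n} {d : ℕ} {θ : ℝ} (h : Plus w d θ) : d ≤ AA w θ := by
  classical
  unfold AA
  exact Nat.le_findGreatest h.le_height h

lemma AA_mono {n : ℕ} (w : BTr α n) {θ θ' : ℝ} (h : θ ≤ θ') : AA w θ ≤ AA w θ' :=
  le_AA ((AA_spec w θ).mono h)

lemma AA_le {n : ℕ} (w : BTr α n) (θ : ℝ) : AA w θ ≤ n := (AA_spec w θ).le_height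

lemma AA_left {n : ℕ} (t : ℝ) (L R : BTr α n) (θ : ℝ) : AA L θ ≤ AA (node t L R) θ :=
  le_AA (AA_spec L θ).left

lemma AA_right {n : ℕ} (t : ℝ) (L R : BTr α n) (θ : ℝ) : AA R θ ≤ AA (node t L R) θ :=
  le_AA (AA_spec R θ).right

lemma AA_step {n : ℕ} (t : ℝ) (L R : BTr α n) {θ : ℝ} (hθ : t < θ) :
    min (AA L t) (AA R t) + 1 ≤ AA (node t L R) θ :=
  le_AA (Plus.step ((AA_spec L t).anti (min_le_left _ _)) ((AA_spec R t).anti (min_le_right _ _)) hθ)

lemma AA_mi {n : ℕ} (w : BTr α n) (θ : ℝ) : AA w.mi θ = AA w θ := by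
  apply le_antisymm
  · have := (AA_spec w.mi θ).mi
    rw [mi_mi] at this
    exact le_AA this
  · exact le_AA (AA_spec w θ).mi

lemma AA_eq_zero {n : ℕ} {w : BTr α n} {θ : ℝ} (h : ∀ x ∈ w.lab, θ ≤ x) : AA w θ = 0 := by
  by_contra hcon
  obtain ⟨c, m, l, u, h1, h2, h3⟩ := AA_spec w θ
  obtain ⟨x, hx, hx'⟩ := h3.exists_lab (by omega)
  have := h x hx
  rcases hx' with h' | h' <;> linarith

lemma BB_anti {n : ℕ} (w : BTr α n) {θ θ' : ℝ} (h : θ ≤ θ') : BB w θ' ≤ BB w θ :=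
  AA_mono _ (by linarith)

lemma BB_le {n : ℕ} (w : BTr α n) (θ : ℝ) : BB w θ ≤ n := AA_le _ _

lemma BB_left {n : ℕ} (t : ℝ) (L R : BTr α n) (θ : ℝ) : BB L θ ≤ BB (node t L R) θ :=
  AA_right _ _ _ _

lemma BB_right {n : ℕ} (t : ℝ) (L R : BTr α n) (θ : ℝ) : BB R θ ≤ BB (node t L R) θ :=
  AA_left _ _ _ _

lemma BB_step {n : ℕ} (t : ℝ) (L R : BTr α n) {θ : ℝ} (hθ : θ < t) :
    min (BB L t) (BB R t) + 1 ≤ BB (node t L R) θ := by
  unfold BB
  rw [nm_node, min_comm]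
  exact AA_step _ _ _ (by linarith)

lemma BB_mi {n : ℕ} (w : BTr α n) (θ : ℝ) : BB w.mi θ = BB w θ := by
  unfold BB
  rw [nm_mi, AA_mi]

lemma BB_nm {n : ℕ} (w : BTr α n) (θ : ℝ) : BB w.nm θ = AA w (-θ) := by
  unfold BB
  rw [nm_nm]

lemma AA_nm {n : ℕ} (w : BTr α n) (θ : ℝ) : AA w.nm θ = BB w (-θ) := by
  unfold BB
  rw [neg_neg]

lemma BB_eq_zero {n : ℕ} {w : BTr α n} {θ : ℝ} (h : ∀ x ∈ w.lab, x ≤ θ) : BB w θ = 0 := by
  apply AA_eq_zero
  intro x hx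
  rw [mem_lab_nm] at hx
  have := h _ hx
  linarith

end Pool.Agent.H41.Kc
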