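import Mathlib
import Pool.Agent.H41.Kc.Tree
import Pool.Agent.H41.Kc.Chain
import Pool.Agent.H41.Kc.Cross

set_option autoImplicit false

/-!
Words of composite trees.
-/

namespace Pool.Agent.H41.Kc

open BTr

variable {α : Type}

/-- the leaves from left to right -/
def BTr.lf : {n : ℕ} → BTr α n → List α
  | _, leaf a => [a]
  | _, node _ L R => L.lf ++ R.lf

@[simp] lemma lf_leaf (a : α) : (leaf a).lf = [a] := rfl

@[simp] lemma lf_node {n : ℕ} (t : ℝ) (L R : BTr α n) : (node t L R).lf = L.lf ++ R.lf := rfl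

lemma lf_ne_nil {n : ℕ} (w : BTr α n) : w.lf ≠ [] := by
  induction w with
  | leaf a => simp
  | node t L R hL _ => simp [hL]

lemma lf_length {n : ℕ} (w : BTr α n) : w.lf.length = 2 ^ n := by
  induction w with
  | leaf a => simp
  | node t L R hL hR => rw [lf_node, List.length_append, hL, hR]; ring

lemma exists_mem_lf {n : ℕ} (w : BTr α n) : ∃ a, a ∈ w.lf := List.exists_mem_of_ne_nil _ (lf_ne_nil w)

/-- embedding of complete binary trees -/
inductive Sub : {k n : ℕ} → BTr α k → BTr α n → Prop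
  | leaf {n : ℕ} (a : α) (w : BTr α n) : a ∈ w.lf → Sub (leaf a) w
  | left {k n : ℕ} (T : BTr α k) (t : ℝ) (L R : BTr α n) : Sub T L → Sub T (node t L R)
  | right {k n : ℕ} (T : BTr α k) (t : ℝ) (L R : BTr α n) : Sub T R → Sub T (node t L R)
  | take {k n : ℕ} (T₁ T₂ : BTr α k) (t : ℝ) (L R : BTr α n) : Sub T₁ L → Sub T₂ R →
      Sub (node t T₁ T₂) (node t L R)

lemma Sub.lf_subset {k n : ℕ} {T : BTr α k} {w : BTr α n} (h : Sub T w) : ∀ a ∈ T.lf, a ∈ w.lf := by
  induction h with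
  | leaf a w ha => intro b hb; simp at hb; subst hb; exact ha
  | left T t L R _ ih => intro a ha; simp [ih a ha]
  | right T t L R _ ih => intro a ha; simp [ih a ha]
  | take T₁ T₂ t L R _ _ ih1 ih2 =>
    intro a ha
    rw [lf_node, List.mem_append] at ha ⊢
    rcases ha with ha | ha
    · exact Or.inl (ih1 a ha)
    · exact Or.inr (ih2 a ha)

/-- composite trees -/
inductive CT : Bool → {n : ℕ} → BTr α n → ℝ → ℝ → ℝ → Prop
  | leaf (c : Bool) (a : α) (m l u : ℝ) : CT c (leaf a) m l u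
  | cup {n : ℕ} (t : ℝ) (L R : BTr α n) (m l u : ℝ) : m ≤ t → l < t → t < u →
      CT true L m l t → CT true R m t u → CT true (node t L R) m l u
  | cap {n : ℕ} (t : ℝ) (L R : BTr α n) (m l u : ℝ) : m ≤ t → l < t → t < u →
      CT false L m t u → CT false R m l t → CT false (node t L R) m l u
  | fresh (c c' : Bool) {n : ℕ} (w : BTr α n) (m l u m' l' u' : ℝ) : m' ≤ m → u' ≤ m →
      CT c' w m' l' u' → CT c w m l u

lemma Cmp.extract {c : Bool} {n : ℕ} {w : BTr α n} {m l u : ℝ} {d : ℕ} (h : Cmp c w m l u d) :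
    ∃ T : BTr α d, Sub T w ∧ CT c T m l u := by
  induction h with
  | zero c w m l u =>
    obtain ⟨a, ha⟩ := exists_mem_lf w
    exact ⟨leaf a, Sub.leaf a w ha, CT.leaf _ _ _ _ _⟩
  | left c t L R m l u d _ ih =>
    obtain ⟨T, h1, h2⟩ := ih
    exact ⟨T, Sub.left _ _ _ _ h1, h2⟩
  | right c t L R m l u d _ ih =>
    obtain ⟨T, h1, h2⟩ := ih
    exact ⟨T, Sub.right _ _ _ _ h1, h2⟩
  | cup t L R m l u d h1 h2 h3 _ _ ih1 ih2 =>
    obtain ⟨T₁, h4, h5⟩ := ih1
    obtain ⟨T₂, h6, h7⟩ := ih2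
    exact ⟨node t T₁ T₂, Sub.take _ _ _ _ _ h4 h6, CT.cup _ _ _ _ _ _ h1 h2 h3 h5 h7⟩
  | cap t L R m l u d h1 h2 h3 _ _ ih1 ih2 =>
    obtain ⟨T₁, h4, h5⟩ := ih1
    obtain ⟨T₂, h6, h7⟩ := ih2
    exact ⟨node t T₁ T₂, Sub.take _ _ _ _ _ h4 h6, CT.cap _ _ _ _ _ _ h1 h2 h3 h5 h7⟩
  | fresh c c' w m l u m' l' u' d h1 h2 _ ih =>
    obtain ⟨T, h3, h4⟩ := ih
    exact ⟨T, h3, CT.fresh _ c' _ _ _ _ m' l' u' h1 h2 h4⟩

lemma CT.lab_lt {c : Bool} {n : ℕ} {w : BTr α n} {m l u : ℝ} (h : CT c w m l u) :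
    ∀ x ∈ w.lab, x < u ∨ x < m := by
  induction h with
  | leaf => intro x hx; simp at hx
  | cup t L R m l u h1 h2 h3 _ _ ih1 ih2 =>
    intro x hx
    rw [lab_node] at hx
    rcases hx with hx | hx | hx
    · rw [Set.mem_singleton_iff.mp hx]; exact Or.inl h3
    · rcases ih1 x hx with h | h
      · exact Or.inl (h.trans h3)
      · exact Or.inr h
    · exact ih2 x hx
  | cap t L R m l u h1 h2 h3 _ _ ih1 ih2 =>
    intro x hx
    rw [lab_node] at hx
    rcases hx with hx | hx | hx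
    · rw [Set.mem_singleton_iff.mp hx]; exact Or.inl h3
    · exact ih1 x hx
    · rcases ih2 x hx with h | h
      · exact Or.inl (h.trans h3)
      · exact Or.inr h
  | fresh c c' w m l u m' l' u' h1 h2 _ ih =>
    intro x hx
    rcases ih x hx with h | h
    · exact Or.inr (by linarith)
    · exact Or.inr (by linarith)

/-! ### Geometry -/

/-- the nodes of a left subtree, seen from the right block `S` with label `t` -/
def RL (φ : α → ℝ × ℝ) (t : ℝ) (S : List α) : {n : ℕ} → BTr α n → Prop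
  | _, leaf _ => True
  | _, node x X Y => (x ≠ t ∧ (x < t → ∀ a ∈ X.lf, ∀ b ∈ Y.lf, ∀ c ∈ S, 0 < mf (φ a) (φ b) (φ c)) ∧
      (t < x → ∀ a ∈ X.lf, ∀ b ∈ Y.lf, ∀ c ∈ S, mf (φ a) (φ b) (φ c) < 0)) ∧
      RL φ t S X ∧ RL φ t S Y

/-- the nodes of a right subtree, seen from the left block `S` with label `t` -/
def RR (φ : α → ℝ × ℝ) (t : ℝ) (S : List α) : {n : ℕ} → BTr α n → Prop
  | _, leaf _ => True
  | _, node x X Y => (x ≠ t ∧ (t < x → ∀ c ∈ S, ∀ a ∈ X.lf, ∀ b ∈ Y.lf, 0 < mf (φ c) (φ a) (φ b)) ∧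
      (x < t → ∀ c ∈ S, ∀ a ∈ X.lf, ∀ b ∈ Y.lf, mf (φ c) (φ a) (φ b) < 0)) ∧
      RR φ t S X ∧ RR φ t S Y

/-- the labels describe the order of slopes -/
def Geo (φ : α → ℝ × ℝ) : {n : ℕ} → BTr α n → Prop
  | _, leaf _ => True
  | _, node t L R => (∀ a ∈ L.lf, ∀ b ∈ R.lf, (φ a).1 < (φ b).1) ∧ RL φ t R.lf L ∧ RR φ t L.lf R ∧
      Geo φ L ∧ Geo φ R

lemma RL.mono {φ : α → ℝ × ℝ} {t : ℝ} {S S' : List α} {n : ℕ} {w : BTr α n} (h : RL φ t S w)
    (hS : ∀ a ∈ S', a ∈ S) : RL φ t S' w := by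
  induction w with
  | leaf a => trivial
  | node x X Y hX hY =>
    obtain ⟨⟨h1, h2, h3⟩, h4, h5⟩ := h
    exact ⟨⟨h1, fun hx a ha b hb c hc => h2 hx a ha b hb c (hS c hc),
      fun hx a ha b hb c hc => h3 hx a ha b hb c (hS c hc)⟩, hX h4, hY h5⟩

lemma RR.mono {φ : α → ℝ × ℝ} {t : ℝ} {S S' : List α} {n : ℕ} {w : BTr α n} (h : RR φ t S w)
    (hS : ∀ a ∈ S', a ∈ S) : RR φ t S' w := by
  induction w with
  | leaf a => trivial
  | node x X Y hX hY =>
    obtain ⟨⟨h1, h2, h3⟩, h4, h5⟩ := h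
    exact ⟨⟨h1, fun hx c hc => h2 hx c (hS c hc), fun hx c hc => h3 hx c (hS c hc)⟩, hX h4, hY h5⟩

lemma Sub.rl {φ : α → ℝ × ℝ} {t : ℝ} {S : List α} {k n : ℕ} {T : BTr α k} {w : BTr α n}
    (h : Sub T w) : RL φ t S w → RL φ t S T := by
  induction h with
  | leaf a w ha => intro _; trivial
  | left T x L R _ ih => intro h; exact ih h.2.1
  | right T x L R _ ih => intro h; exact ih h.2.2
  | take T₁ T₂ x L R h1 h2 ih1 ih2 =>
    rintro ⟨⟨h3, h4, h5⟩, h6, h7⟩
    exact ⟨⟨h3, fun hx a ha b hb c hc => h4 hx a (h1.lf_subset a ha) b (h2.lf_subset b hb) c hc,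
      fun hx a ha b hb c hc => h5 hx a (h1.lf_subset a ha) b (h2.lf_subset b hb) c hc⟩,
      ih1 h6, ih2 h7⟩

lemma Sub.rr {φ : α → ℝ × ℝ} {t : ℝ} {S : List α} {k n : ℕ} {T : BTr α k} {w : BTr α n}
    (h : Sub T w) : RR φ t S w → RR φ t S T := by
  induction h with
  | leaf a w ha => intro _; trivial
  | left T x L R _ ih => intro h; exact ih h.2.1
  | right T x L R _ ih => intro h; exact ih h.2.2
  | take T₁ T₂ x L R h1 h2 ih1 ih2 =>
    rintro ⟨⟨h3, h4, h5⟩, h6, h7⟩
    exact ⟨⟨h3, fun hx c hc a ha b hb => h4 hx c hc a (h1.lf_subset a ha) b (h2.lf_subset b hb),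
      fun hx c hc a ha b hb => h5 hx c hc a (h1.lf_subset a ha) b (h2.lf_subset b hb)⟩,
      ih1 h6, ih2 h7⟩

lemma Sub.geo {φ : α → ℝ × ℝ} {k n : ℕ} {T : BTr α k} {w : BTr α n}
    (h : Sub T w) : Geo φ w → Geo φ T := by
  induction h with
  | leaf a w ha => intro _; trivial
  | left T x L R _ ih => intro h; exact ih h.2.2.2.1
  | right T x L R _ ih => intro h; exact ih h.2.2.2.2
  | take T₁ T₂ x L R h1 h2 ih1 ih2 =>
    rintro ⟨h3, h4, h5, h6, h7⟩
    exact ⟨fun a ha b hb => h3 a (h1.lf_subset a ha) b (h2.lf_subset b hb),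
      (h1.rl h4).mono h2.lf_subset, (h2.rr h5).mono h1.lf_subset, ih1 h6, ih2 h7⟩

lemma RL.notMem {φ : α → ℝ × ℝ} {t : ℝ} {S : List α} {n : ℕ} {w : BTr α n} (h : RL φ t S w) :
    t ∉ w.lab := by
  induction w with
  | leaf a => simp
  | node x X Y hX hY =>
    obtain ⟨⟨h1, _⟩, h4, h5⟩ := h
    rw [lab_node]
    rintro (h | h | h)
    · exact h1 (Set.mem_singleton_iff.mp h).symm
    · exact hX h4 h
    · exact hY h5 h

lemma RR.notMem {φ : α → ℝ × ℝ} {t : ℝ} {S : List α} {n : ℕ} {w : BTr α n} (h : RR φ t S w) :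
    t ∉ w.lab := by
  induction w with
  | leaf a => simp
  | node x X Y hX hY =>
    obtain ⟨⟨h1, _⟩, h4, h5⟩ := h
    rw [lab_node]
    rintro (h | h | h)
    · exact h1 (Set.mem_singleton_iff.mp h).symm
    · exact hX h4 h
    · exact hY h5 h

lemma Geo.dist {φ : α → ℝ × ℝ} {n : ℕ} {w : BTr α n} (h : Geo φ w) : w.Dist := by
  induction w with
  | leaf a => trivial
  | node x X Y hX hY =>
    obtain ⟨_, h2, h3, h4, h5⟩ := h
    exact ⟨⟨h2.notMem, h3.notMem⟩, hX h4, hY h5⟩

/-! ### Lines -/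

section

variable (φ : α → ℝ × ℝ) (S : α → Bool)

/-- `S` is the side with respect to a line of slope `θ` -/
def Side (θ : ℝ) : Prop := ∀ a b : α, S a = true → S b = false →
  (φ b).2 - θ * (φ b).1 < (φ a).2 - θ * (φ a).1

/-- the nodes with labels below `z` see a smaller slope than the line -/
def H0 (z : ℝ) : {n : ℕ} → BTr α n → Prop
  | _, leaf _ => True
  | _, node x X Y => (x < z → (∀ a ∈ X.lf, S a = true) ∨ (∀ b ∈ Y.lf, S b = false)) ∧
      H0 z X ∧ H0 z Y

/-- the nodes with labels above `z` see a larger slope than the line -/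
def H1 (z : ℝ) : {n : ℕ} → BTr α n → Prop
  | _, leaf _ => True
  | _, node x X Y => (z < x → (∀ a ∈ X.lf, S a = false) ∨ (∀ b ∈ Y.lf, S b = true)) ∧
      H1 z X ∧ H1 z Y

/-- all nodes see a smaller slope than the line -/
def All0 : {n : ℕ} → BTr α n → Prop
  | _, leaf _ => True
  | _, node _ X Y => ((∀ a ∈ X.lf, S a = true) ∨ (∀ b ∈ Y.lf, S b = false)) ∧
      All0 X ∧ All0 Y

variable {S}

lemma H0.mono {z z' : ℝ} (hz : z' ≤ z) {n : ℕ} {w : BTr α n} (h : H0 S z w) : H0 S z' w := by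
  induction w with
  | leaf a => trivial
  | node x X Y hX hY => exact ⟨fun hx => h.1 (lt_of_lt_of_le hx hz), hX h.2.1, hY h.2.2⟩

lemma H1.mono {z z' : ℝ} (hz : z ≤ z') {n : ℕ} {w : BTr α n} (h : H1 S z w) : H1 S z' w := by
  induction w with
  | leaf a => trivial
  | node x X Y hX hY => exact ⟨fun hx => h.1 (lt_of_le_of_lt hz hx), hX h.2.1, hY h.2.2⟩

lemma H0.all {z : ℝ} {n : ℕ} {w : BTr α n} (h : H0 S z w) (hl : ∀ x ∈ w.lab, x < z) :
    All0 S w := by
  induction w with
  | leaf a => trivial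
  | node x X Y hX hY =>
    exact ⟨h.1 (hl x (by simp)), hX h.2.1 (fun y hy => hl y (by simp [hy])),
      hY h.2.2 (fun y hy => hl y (by simp [hy]))⟩

variable {φ}

lemma mf_shear (θ : ℝ) (A B p : ℝ × ℝ) : mf A B p =
    (B.1 - A.1) * ((p.2 - θ * p.1) - (B.2 - θ * B.1)) -
    ((B.2 - θ * B.1) - (A.2 - θ * A.1)) * (p.1 - B.1) := by
  simp only [mf]; ring

lemma mf_peak {θ : ℝ} {A B p : ℝ × ℝ} (h1 : A.1 < B.1) (h2 : B.1 < p.1)
    (h3 : A.2 - θ * A.1 < B.2 - θ * B.1) (h4 : p.2 - θ * p.1 < B.2 - θ * B.1) : mf A B p < 0 := by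
  rw [mf_shear θ]
  have e1 : 0 < (B.1 - A.1) * ((B.2 - θ * B.1) - (p.2 - θ * p.1)) :=
    mul_pos (by linarith) (by linarith)
  have e2 : 0 < ((B.2 - θ * B.1) - (A.2 - θ * A.1)) * (p.1 - B.1) :=
    mul_pos (by linarith) (by linarith)
  linarith

lemma mf_valley {θ : ℝ} {A B p : ℝ × ℝ} (h1 : A.1 < B.1) (h2 : B.1 < p.1)
    (h3 : B.2 - θ * B.1 < A.2 - θ * A.1) (h4 : B.2 - θ * B.1 < p.2 - θ * p.1) : 0 < mf A B p := by
  rw [mf_shear θ]
  have e1 : 0 < (B.1 - A.1) * ((p.2 - θ * p.1) - (B.2 - θ * B.1)) :=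
    mul_pos (by linarith) (by linarith)
  have e2 : 0 < ((A.2 - θ * A.1) - (B.2 - θ * B.1)) * (p.1 - B.1) :=
    mul_pos (by linarith) (by linarith)
  linarith

lemma or_of_not {A B : List α} {f g : Bool} (h : ∀ a ∈ A, S a = !f → ∀ b ∈ B,
    S b = !g → False) : (∀ a ∈ A, S a = f) ∨ (∀ b ∈ B, S b = g) := by
  by_contra hcon
  push Not at hcon
  obtain ⟨⟨a, ha, ha'⟩, b, hb, hb'⟩ := hcon
  refine h a ha ?_ b hb ?_
  · cases hS : S a <;> cases f <;> simp_all
  · cases hS : S b <;> cases g <;> simp_all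

variable {θ : ℝ} (hside : Side φ S θ)

include hside

lemma flagR0 {z : α} {t : ℝ} {T : List α} (hz : z ∈ T) (hzS : S z = true) {n : ℕ}
    {w : BTr α n} (hG : Geo φ w) (hr : RR φ t T w) (hx : ∀ a ∈ w.lf, (φ z).1 < (φ a).1) :
    H0 S t w := by
  induction w with
  | leaf a => trivial
  | node x X Y hX hY =>
    obtain ⟨⟨h1, h2, h3⟩, h4, h5⟩ := hr
    obtain ⟨g1, g2, g3, g4, g5⟩ := hG
    refine ⟨?_, hX g4 h4 (fun a ha => hx a (by simp [ha])),
      hY g5 h5 (fun a ha => hx a (by simp [ha]))⟩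
    intro hxt
    apply or_of_not
    intro a ha hSa b hb hSb
    have e1 := h3 hxt z hz a ha b hb
    have e2 := mf_valley (θ := θ) (hx a (by simp [ha])) (g1 a ha b hb)
      (hside z a hzS (by simpa using hSa)) (hside b a (by simpa using hSb) (by simpa using hSa))
    linarith

lemma flagR1 {z : α} {t : ℝ} {T : List α} (hz : z ∈ T) (hzS : S z = false) {n : ℕ}
    {w : BTr α n} (hG : Geo φ w) (hr : RR φ t T w) (hx : ∀ a ∈ w.lf, (φ z).1 < (φ a).1) :
    H1 S t w := by
  induction w with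
  | leaf a => trivial
  | node x X Y hX hY =>
    obtain ⟨⟨h1, h2, h3⟩, h4, h5⟩ := hr
    obtain ⟨g1, g2, g3, g4, g5⟩ := hG
    refine ⟨?_, hX g4 h4 (fun a ha => hx a (by simp [ha])),
      hY g5 h5 (fun a ha => hx a (by simp [ha]))⟩
    intro hxt
    apply or_of_not
    intro a ha hSa b hb hSb
    have e1 := h2 hxt z hz a ha b hb
    have e2 := mf_peak (θ := θ) (hx a (by simp [ha])) (g1 a ha b hb)
      (hside a z (by simpa using hSa) hzS) (hside a b (by simpa using hSa) (by simpa using hSb))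
    linarith

lemma flagL0 {z : α} {t : ℝ} {T : List α} (hz : z ∈ T) (hzS : S z = false) {n : ℕ}
    {w : BTr α n} (hG : Geo φ w) (hr : RL φ t T w) (hx : ∀ a ∈ w.lf, (φ a).1 < (φ z).1) :
    H0 S t w := by
  induction w with
  | leaf a => trivial
  | node x X Y hX hY =>
    obtain ⟨⟨h1, h2, h3⟩, h4, h5⟩ := hr
    obtain ⟨g1, g2, g3, g4, g5⟩ := hG
    refine ⟨?_, hX g4 h4 (fun a ha => hx a (by simp [ha])),
      hY g5 h5 (fun a ha => hx a (by simp [ha]))⟩
    intro hxt
    apply or_of_not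
    intro a ha hSa b hb hSb
    have e1 := h2 hxt a ha b hb z hz
    have e2 := mf_peak (θ := θ) (g1 a ha b hb) (hx b (by simp [hb]))
      (hside b a (by simpa using hSb) (by simpa using hSa)) (hside b z (by simpa using hSb) hzS)
    linarith

lemma flagL1 {z : α} {t : ℝ} {T : List α} (hz : z ∈ T) (hzS : S z = true) {n : ℕ}
    {w : BTr α n} (hG : Geo φ w) (hr : RL φ t T w) (hx : ∀ a ∈ w.lf, (φ a).1 < (φ z).1) :
    H1 S t w := by
  induction w with
  | leaf a => trivial
  | node x X Y hX hY =>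
    obtain ⟨⟨h1, h2, h3⟩, h4, h5⟩ := hr
    obtain ⟨g1, g2, g3, g4, g5⟩ := hG
    refine ⟨?_, hX g4 h4 (fun a ha => hx a (by simp [ha])),
      hY g5 h5 (fun a ha => hx a (by simp [ha]))⟩
    intro hxt
    apply or_of_not
    intro a ha hSa b hb hSb
    have e1 := h3 hxt a ha b hb z hz
    have e2 := mf_valley (θ := θ) (g1 a ha b hb) (hx b (by simp [hb]))
      (hside a b (by simpa using hSa) (by simpa using hSb)) (hside z b hzS (by simpa using hSb))
    linarith

end

/-! ### Words -/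

section

variable {φ : α → ℝ × ℝ} {S : α → Bool}

lemma alt_flip (a : Bool) (l : List Bool) : alt a l ≤ alt (!a) l + 1 := by
  have := alt_le_alt a (!a) l
  split_ifs at this <;> omega

lemma alt_end (a b : Bool) (l r : List Bool) :
    alt a (l ++ r) ≤ alt a (l ++ [b] ++ r) := by
  apply alt_sublist
  rw [List.append_assoc]
  exact List.Sublist.append (List.Sublist.refl _) (List.sublist_append_right _ _)

/-- split at a separating symbol -/
lemma alt_split (a b : Bool) (l r : List Bool) :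
    alt a (l ++ r) ≤ alt a (l ++ [b]) + alt b r := by
  refine (alt_end a b l r).trans ?_
  rw [alt_append a (l ++ [b])]
  simp

lemma map_const {T : List α} {b : Bool} (h : ∀ a ∈ T, S a = b) : ∀ c ∈ T.map S, c = b := by
  intro c hc
  obtain ⟨a, ha, rfl⟩ := List.mem_map.mp hc
  exact h a ha

lemma all0_word {n : ℕ} {w : BTr α n} (h : All0 S w) : alt true (w.lf.map S ++ [false]) ≤ 1 := by
  induction w with
  | leaf a => cases hS : S a <;> simp [hS, alt_cons]
  | node x X Y hX hY =>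
    obtain ⟨h1, h2, h3⟩ := h
    rw [lf_node, List.map_append]
    rcases h1 with h1 | h1
    · rw [List.append_assoc, alt_const_append _ (map_const h1)]
      exact hY h3
    · have := alt_append_const (a := true) (b := false) (X.lf.map S) [] (map_const h1)
      rw [this]
      exact hX h2

/-- The words of a composite tree. -/
lemma word_CT {θ : ℝ} (hside : Side φ S θ) {c : Bool} {n : ℕ} {w : BTr α n} {m l u : ℝ}
    (h : CT c w m l u) : Geo φ w →
    alt false (w.lf.map S ++ [true]) ≤ 5 ∧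
    (H1 S l w → H0 S m w → alt false (w.lf.map S ++ [true]) ≤ 3) ∧
    (c = true → H0 S m w → alt true (w.lf.map S ++ [true]) ≤ 4) ∧
    (c = false → H0 S m w → alt false (w.lf.map S ++ [false]) ≤ 4) := by
  induction h with
  | leaf c a m l u =>
    intro _
    cases hS : S a <;> simp [hS, alt_cons]
  | @cup n t L R m l u hmt hlt htu hL hR ihL ihR =>
    rintro ⟨g1, g2, g3, g4, g5⟩
    obtain ⟨L1, L2, L3, L4⟩ := ihL g4
    obtain ⟨R1, R2, R3, R4⟩ := ihR g5
    rw [lf_node, List.map_append]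
    set WL := L.lf.map S with hWL
    set WR := R.lf.map S with hWR
    have hlabL : ∀ x ∈ L.lab, x < t := by
      intro x hx
      rcases hL.lab_lt x hx with h | h <;> linarith
    -- flags
    have fR0 : (∃ a ∈ L.lf, S a = true) → H0 S t R := by
      rintro ⟨a, ha, haS⟩
      exact flagR0 hside ha haS g5 g3 (fun b hb => g1 a ha b hb)
    have fR1 : (∃ a ∈ L.lf, S a = false) → H1 S t R := by
      rintro ⟨a, ha, haS⟩
      exact flagR1 hside ha haS g5 g3 (fun b hb => g1 a ha b hb)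
    have fL0 : (∃ b ∈ R.lf, S b = false) → alt true (WL ++ [false]) ≤ 1 := by
      rintro ⟨b, hb, hbS⟩
      exact all0_word ((flagL0 hside hb hbS g4 g2 (fun a ha => g1 a ha b hb)).all hlabL)
    have cL0 : (∀ a ∈ L.lf, S a = false) → ∀ r, alt false (WL ++ r) = alt false r :=
      fun h r => alt_const_append _ (map_const h)
    have cL1 : (∀ a ∈ L.lf, S a = true) → ∀ r, alt true (WL ++ r) = alt true r :=
      fun h r => alt_const_append _ (map_const h)
    have cR1 : (∀ b ∈ R.lf, S b = true) → ∀ e, alt e (WL ++ WR ++ [true]) = alt e (WL ++ [true]) :=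
      fun h e => alt_append_const _ [] (map_const h)
    have cR0 : (∀ b ∈ R.lf, S b = false) →
        ∀ e, alt e (WL ++ WR ++ [false]) = alt e (WL ++ [false]) :=
      fun h e => alt_append_const _ [] (map_const h)
    have hexL := exists_mem_lf L
    have hexR := exists_mem_lf R
    -- the case where the node sees a smaller slope
    have hsmall : ¬ ((∀ a ∈ L.lf, S a = false) ∨ (∀ b ∈ R.lf, S b = true)) → H0 S m R →
        alt true (WL ++ WR ++ [true]) ≤ 4 := by
      intro hno hmR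
      push Not at hno
      obtain ⟨⟨a₁, ha₁, ha₁'⟩, b₁, hb₁, hb₁'⟩ := hno
      have ha₁S : S a₁ = true := by simpa using ha₁'
      have hb₁S : S b₁ = false := by simpa using hb₁'
      by_cases hok : (∀ a ∈ L.lf, S a = true) ∨ (∀ b ∈ R.lf, S b = false)
      · rcases hok with hok | hok
        · rw [List.append_assoc, cL1 hok]
          exact R3 rfl hmR
        · have h1 := fL0 ⟨b₁, hb₁, hb₁S⟩
          have h2 := alt_split true false (WL ++ WR) [true]
          rw [cR0 hok] at h2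
          have h3 : alt false [true] = 1 := by simp [alt_cons]
          omega
      · push Not at hok
        obtain ⟨⟨a₂, ha₂, ha₂'⟩, b₂, hb₂, hb₂'⟩ := hok
        have ha₂S : S a₂ = false := by simpa using ha₂'
        have h1 := fL0 ⟨b₁, hb₁, hb₁S⟩
        have h2 := R2 (fR1 ⟨a₂, ha₂, ha₂S⟩) hmR
        have h3 := alt_split true false WL (WR ++ [true])
        rw [List.append_assoc]
        omega
    refine ⟨?_, ?_, ?_, ?_⟩
    · -- general
      by_cases hok : (∀ a ∈ L.lf, S a = false) ∨ (∀ b ∈ R.lf, S b = true)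
      · rcases hok with hok | hok
        · rw [List.append_assoc, cL0 hok]
          exact R1
        · rw [cR1 hok]; exact L1
      · have hno := hok
        push Not at hno
        obtain ⟨⟨a₁, ha₁, ha₁'⟩, -⟩ := hno
        have ha₁S : S a₁ = true := by simpa using ha₁'
        have h1 := hsmall hok ((fR0 ⟨a₁, ha₁, ha₁S⟩).mono hmt)
        have h2 := alt_flip false (WL ++ WR ++ [true])
        simp only [Bool.not_false] at h2
        omega
    · intro h1 h0
      rcases h1.1 hlt with hok | hok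
      · rw [List.append_assoc, cL0 hok]
        exact R2 (h1.2.2.mono hlt.le) h0.2.2
      · rw [cR1 hok]
        exact L2 h1.2.1 h0.2.1
    · intro _ h0
      by_cases hok : (∀ a ∈ L.lf, S a = false) ∨ (∀ b ∈ R.lf, S b = true)
      · rcases hok with hok | hok
        · obtain ⟨a, ha⟩ := hexL
          have h1 := R2 (fR1 ⟨a, ha, hok a ha⟩) h0.2.2
          have h2 := alt_flip true (WL ++ WR ++ [true])
          simp only [Bool.not_true] at h2
          rw [List.append_assoc WL WR, cL0 hok] at h2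
          rw [List.append_assoc]
          omega
        · rw [cR1 hok]; exact L3 rfl h0.2.1
      · exact hsmall hok h0.2.2
    · intro h; exact absurd h (by simp)
  | @cap n t L R m l u hmt hlt htu hL hR ihL ihR =>
    rintro ⟨g1, g2, g3, g4, g5⟩
    obtain ⟨L1, L2, L3, L4⟩ := ihL g4
    obtain ⟨R1, R2, R3, R4⟩ := ihR g5
    rw [lf_node, List.map_append]
    set WL := L.lf.map S with hWL
    set WR := R.lf.map S with hWR
    have hlabR : ∀ x ∈ R.lab, x < t := by
      intro x hx
      rcases hR.lab_lt x hx with h | h <;> linarith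
    -- flags
    have fL0 : (∃ b ∈ R.lf, S b = false) → H0 S t L := by
      rintro ⟨b, hb, hbS⟩
      exact flagL0 hside hb hbS g4 g2 (fun a ha => g1 a ha b hb)
    have fL1 : (∃ b ∈ R.lf, S b = true) → H1 S t L := by
      rintro ⟨b, hb, hbS⟩
      exact flagL1 hside hb hbS g4 g2 (fun a ha => g1 a ha b hb)
    have fR0 : (∃ a ∈ L.lf, S a = true) → alt true (WR ++ [false]) ≤ 1 := by
      rintro ⟨a, ha, haS⟩
      exact all0_word ((flagR0 hside ha haS g5 g3 (fun b hb => g1 a ha b hb)).all hlabR)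
    have cL0 : (∀ a ∈ L.lf, S a = false) → ∀ r, alt false (WL ++ r) = alt false r :=
      fun h r => alt_const_append _ (map_const h)
    have cL1 : (∀ a ∈ L.lf, S a = true) → ∀ r, alt true (WL ++ r) = alt true r :=
      fun h r => alt_const_append _ (map_const h)
    have cR1 : (∀ b ∈ R.lf, S b = true) → ∀ e, alt e (WL ++ WR ++ [true]) = alt e (WL ++ [true]) :=
      fun h e => alt_append_const _ [] (map_const h)
    have cR0 : (∀ b ∈ R.lf, S b = false) →
        ∀ e, alt e (WL ++ WR ++ [false]) = alt e (WL ++ [false]) :=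
      fun h e => alt_append_const _ [] (map_const h)
    have hexL := exists_mem_lf L
    have hexR := exists_mem_lf R
    -- the case where the node sees a smaller slope
    have hsmall : ¬ ((∀ a ∈ L.lf, S a = false) ∨ (∀ b ∈ R.lf, S b = true)) → H0 S m L →
        alt false (WL ++ WR ++ [false]) ≤ 4 := by
      intro hno hmL
      push Not at hno
      obtain ⟨⟨a₁, ha₁, ha₁'⟩, b₁, hb₁, hb₁'⟩ := hno
      have ha₁S : S a₁ = true := by simpa using ha₁'
      have hb₁S : S b₁ = false := by simpa using hb₁'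
      by_cases hok : (∀ a ∈ L.lf, S a = true) ∨ (∀ b ∈ R.lf, S b = false)
      · rcases hok with hok | hok
        · have h1 := fR0 ⟨a₁, ha₁, ha₁S⟩
          have h2 := alt_flip false (WL ++ WR ++ [false])
          simp only [Bool.not_false] at h2
          rw [List.append_assoc WL WR, cL1 hok] at h2
          rw [List.append_assoc]
          omega
        · rw [cR0 hok]
          exact L4 rfl hmL
      · push Not at hok
        obtain ⟨-, b₂, hb₂, hb₂'⟩ := hok
        have hb₂S : S b₂ = true := by simpa using hb₂'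
        have h1 := fR0 ⟨a₁, ha₁, ha₁S⟩
        have h2 := L2 (fL1 ⟨b₂, hb₂, hb₂S⟩) hmL
        have h3 := alt_split false true WL (WR ++ [false])
        rw [List.append_assoc]
        omega
    refine ⟨?_, ?_, ?_, ?_⟩
    · -- general
      by_cases hok : (∀ a ∈ L.lf, S a = false) ∨ (∀ b ∈ R.lf, S b = true)
      · rcases hok with hok | hok
        · rw [List.append_assoc, cL0 hok]
          exact R1
        · rw [cR1 hok]; exact L1
      · have hno := hok
        push Not at hno
        obtain ⟨-, b₁, hb₁, hb₁'⟩ := hno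
        have hb₁S : S b₁ = false := by simpa using hb₁'
        have h1 := hsmall hok ((fL0 ⟨b₁, hb₁, hb₁S⟩).mono hmt)
        have h2 := alt_split false false (WL ++ WR) [true]
        have h3 : alt false [true] = 1 := by simp [alt_cons]
        omega
    · intro h1 h0
      rcases h1.1 hlt with hok | hok
      · rw [List.append_assoc, cL0 hok]
        exact R2 h1.2.2 h0.2.2
      · rw [cR1 hok]
        exact L2 (h1.2.1.mono hlt.le) h0.2.1
    · intro h; exact absurd h (by simp)
    · intro _ h0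
      by_cases hok : (∀ a ∈ L.lf, S a = false) ∨ (∀ b ∈ R.lf, S b = true)
      · rcases hok with hok | hok
        · rw [List.append_assoc, cL0 hok]
          exact R4 rfl h0.2.2
        · obtain ⟨b, hb⟩ := hexR
          have h1 := L2 (fL1 ⟨b, hb, hok b hb⟩) h0.2.1
          have h2 := alt_split false true (WL ++ WR) [false]
          rw [cR1 hok] at h2
          have h3 : alt true [false] = 1 := by simp [alt_cons]
          omega
      · exact hsmall hok h0.2.1
  | fresh c c' w m l u m' l' u' h1 h2 h3 ih =>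
    intro hG
    obtain ⟨I1, I2, I3, I4⟩ := ih hG
    have hall : H0 S m w → alt true (w.lf.map S ++ [false]) ≤ 1 := by
      intro h
      apply all0_word
      apply h.all
      intro x hx
      rcases h3.lab_lt x hx with h | h <;> linarith
    have hsplit1 := alt_split true false (w.lf.map S) [true]
    have h4 : alt false [true] = 1 := by simp [alt_cons]
    have hflip1 := alt_flip false (w.lf.map S ++ [true])
    have hflip2 := alt_flip false (w.lf.map S ++ [false])
    simp only [Bool.not_false] at hflip1 hflip2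
    refine ⟨I1, ?_, ?_, ?_⟩
    · intro _ h0
      have := hall h0
      omega
    · intro _ h0
      have := hall h0
      omega
    · intro _ h0
      have := hall h0
      omega

end

end Pool.Agent.H41.Kc
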