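import Mathlib
import Pool.Agent.H41.Kc.Comp

set_option autoImplicit false

/-!
From trees all of whose leaves see their sibling blocks in separated directions to trees with
labels that describe the order of slopes.
-/

namespace Pool.Agent.H41.Kc

open BTr

variable {α : Type}

/-- the slope between two points -/
noncomputable def sl (a b : ℝ × ℝ) : ℝ := (b.2 - a.2) / (b.1 - a.1)

lemma sl_comm (a b : ℝ × ℝ) : sl a b = sl b a := by
  unfold sl
  rw [← neg_sub a.2, ← neg_sub a.1, neg_div_neg_eq]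

lemma sl_height {a b c : ℝ × ℝ} (h : c.1 - a.1 ≠ 0) :
    (sl a c - sl a b) * (c.1 - a.1) = c.2 - a.2 - sl a b * (c.1 - a.1) := by
  have : sl a c * (c.1 - a.1) = c.2 - a.2 := by
    unfold sl
    rw [div_mul_cancel₀ _ h]
  rw [sub_mul, this]

lemma sl_mul {a b : ℝ × ℝ} (h : b.1 - a.1 ≠ 0) : sl a b * (b.1 - a.1) = b.2 - a.2 := by
  unfold sl
  rw [div_mul_cancel₀ _ h]

lemma height_eq {a b c : ℝ × ℝ} (hab : b.1 - a.1 ≠ 0) (hac : c.1 - a.1 ≠ 0)
    (hbc : c.1 - b.1 ≠ 0) :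
    (sl a c - sl a b) * (c.1 - a.1) = (sl b c - sl a b) * (c.1 - b.1) := by
  have h1 := sl_mul hab
  have h2 := sl_mul hac
  have h3 := sl_mul hbc
  linear_combination h2 - h3 - h1

lemma mf_sl {a b c : ℝ × ℝ} (hab : b.1 - a.1 ≠ 0) (hac : c.1 - a.1 ≠ 0) :
    mf a b c = (b.1 - a.1) * (c.1 - a.1) * (sl a c - sl a b) := by
  have h1 := sl_mul hab
  have h2 := sl_mul hac
  unfold mf
  linear_combination (b.1 - a.1) * (-h2) + (c.1 - a.1) * h1

lemma sl_lt_iff_same {a b c : ℝ × ℝ} (hab : a.1 < b.1)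
    (h : (a.1 < c.1 ∧ b.1 < c.1) ∨ (c.1 < a.1 ∧ c.1 < b.1)) :
    (sl a b < sl a c ↔ sl a b < sl b c) := by
  rcases h with ⟨h1, h2⟩ | ⟨h1, h2⟩
  · have h3 := height_eq (a := a) (b := b) (c := c) (by linarith) (by linarith) (by linarith)
    constructor
    · intro h4
      have h5 : 0 < (sl a c - sl a b) * (c.1 - a.1) := mul_pos (by linarith) (by linarith)
      rw [h3] at h5
      have := (mul_pos_iff_of_pos_right (by linarith : 0 < c.1 - b.1)).mp h5
      linarith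
    · intro h4
      have h5 : 0 < (sl b c - sl a b) * (c.1 - b.1) := mul_pos (by linarith) (by linarith)
      rw [← h3] at h5
      have := (mul_pos_iff_of_pos_right (by linarith : 0 < c.1 - a.1)).mp h5
      linarith
  · have h3 := height_eq (a := a) (b := b) (c := c) (by linarith) (by linarith) (by linarith)
    have h3' : (sl a c - sl a b) * (a.1 - c.1) = (sl b c - sl a b) * (b.1 - c.1) := by
      linear_combination -h3
    constructor
    · intro h4
      have h5 : 0 < (sl a c - sl a b) * (a.1 - c.1) := mul_pos (by linarith) (by linarith)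
      rw [h3'] at h5
      have := (mul_pos_iff_of_pos_right (by linarith : 0 < b.1 - c.1)).mp h5
      linarith
    · intro h4
      have h5 : 0 < (sl b c - sl a b) * (b.1 - c.1) := mul_pos (by linarith) (by linarith)
      rw [← h3'] at h5
      have := (mul_pos_iff_of_pos_right (by linarith : 0 < a.1 - c.1)).mp h5
      linarith

variable (φ : α → ℝ × ℝ)

/-- the block `Y` lies on one side of `a` -/
def NW (a : α) (Y : Set α) : Prop :=
  (∀ c ∈ Y, (φ a).1 < (φ c).1) ∨ (∀ c ∈ Y, (φ c).1 < (φ a).1)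

/-- the slopes from `a` to `Y` and to `Z` are separated -/
def Sep (a : α) (Y Z : Set α) : Prop :=
  (∀ c ∈ Y, ∀ d ∈ Z, sl (φ a) (φ c) < sl (φ a) (φ d)) ∨
    (∀ c ∈ Y, ∀ d ∈ Z, sl (φ a) (φ d) < sl (φ a) (φ c))

/-- a leaf that is good for the blocks of `Γ` -/
def LGood (Γ : List (Set α)) (a : α) : Prop := (∀ Y ∈ Γ, NW φ a Y) ∧ Γ.Pairwise (Sep φ a)

/-- trees with good leaves -/
def TGood : List (Set α) → {n : ℕ} → BTr α n → Prop
  | Γ, _, leaf a => LGood φ Γ a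
  | Γ, _, node _ L R => TGood ({x | x ∈ R.lf} :: Γ) L ∧ TGood ({x | x ∈ L.lf} :: Γ) R

variable {φ}

lemma NW.mono {a : α} {Y Y' : Set α} (h : NW φ a Y) (hY : Y' ⊆ Y) : NW φ a Y' := by
  rcases h with h | h
  · exact Or.inl fun c hc => h c (hY hc)
  · exact Or.inr fun c hc => h c (hY hc)

lemma Sep.mono {a : α} {Y Y' Z Z' : Set α} (h : Sep φ a Y Z) (hY : Y' ⊆ Y) (hZ : Z' ⊆ Z) :
    Sep φ a Y' Z' := by
  rcases h with h | h
  · exact Or.inl fun c hc d hd => h c (hY hc) d (hZ hd)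
  · exact Or.inr fun c hc d hd => h c (hY hc) d (hZ hd)

lemma TGood.leaf_good {n : ℕ} {w : BTr α n} : ∀ {Γ : List (Set α)}, TGood φ Γ w →
    ∀ a ∈ w.lf, LGood φ Γ a := by
  induction w with
  | leaf a =>
    intro Γ h b hb
    simp only [lf_leaf, List.mem_singleton] at hb
    subst hb
    exact h
  | node t L R hL hR =>
    intro Γ h a ha
    rw [lf_node, List.mem_append] at ha
    obtain ⟨h1, h2⟩ := h
    rcases ha with ha | ha
    · obtain ⟨h3, h4⟩ := hL h1 a ha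
      exact ⟨fun Y hY => h3 Y (by simp [hY]), (List.pairwise_cons.mp h4).2⟩
    · obtain ⟨h3, h4⟩ := hR h2 a ha
      exact ⟨fun Y hY => h3 Y (by simp [hY]), (List.pairwise_cons.mp h4).2⟩

/-- the conditions on the context in the recursive construction -/
structure CtxOk (φ : α → ℝ × ℝ) (Γ : List (ℝ × Set α)) (A : List α) : Prop where
  dist : ∀ g ∈ Γ, ∀ g' ∈ Γ, g.1 = g'.1 → g = g'
  ord : ∀ a ∈ A, ∀ g ∈ Γ, ∀ g' ∈ Γ, g.1 < g'.1 → ∀ c ∈ g.2, ∀ d ∈ g'.2,
    sl (φ a) (φ c) < sl (φ a) (φ d)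
  ne : ∀ g ∈ Γ, g.2.Nonempty
  side : ∀ g ∈ Γ, (∀ a ∈ A, ∀ c ∈ g.2, (φ a).1 < (φ c).1) ∨
    (∀ a ∈ A, ∀ c ∈ g.2, (φ c).1 < (φ a).1)

/-- the conclusion of the recursive construction -/
def Concl (φ : α → ℝ × ℝ) (Γ : List (ℝ × Set α)) {n : ℕ} (T w : BTr α n) : Prop :=
  (∀ a, a ∈ w.lf ↔ a ∈ T.lf) ∧ Geo φ w ∧ ∀ g ∈ Γ, ∀ Z : List α, (∀ c ∈ Z, c ∈ g.2) →
    ((∀ a ∈ T.lf, ∀ c ∈ g.2, (φ a).1 < (φ c).1) → RL φ g.1 Z w) ∧
    ((∀ a ∈ T.lf, ∀ c ∈ g.2, (φ c).1 < (φ a).1) → RR φ g.1 Z w)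

lemma build_node {n : ℕ} {X Y : BTr α n}
    (hX : ∀ Γ : List (ℝ × Set α), TGood φ (Γ.map Prod.snd) X → CtxOk φ Γ X.lf →
      ∃ w : BTr α n, Concl φ Γ X w)
    (hY : ∀ Γ : List (ℝ × Set α), TGood φ (Γ.map Prod.snd) Y → CtxOk φ Γ Y.lf →
      ∃ w : BTr α n, Concl φ Γ Y w)
    (hXY : ∀ a ∈ X.lf, ∀ b ∈ Y.lf, (φ a).1 < (φ b).1) {Γ : List (ℝ × Set α)}
    (hgX : TGood φ ({x | x ∈ Y.lf} :: Γ.map Prod.snd) X)
    (hgY : TGood φ ({x | x ∈ X.lf} :: Γ.map Prod.snd) Y) {A : List α}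
    (hA : ∀ a, a ∈ A ↔ a ∈ X.lf ∨ a ∈ Y.lf) (hctx : CtxOk φ Γ A) :
    ∃ w : BTr α (n + 1), (∀ a, a ∈ w.lf ↔ a ∈ A) ∧ Geo φ w ∧ ∀ g ∈ Γ, ∀ Z : List α,
      (∀ c ∈ Z, c ∈ g.2) →
      ((∀ a ∈ A, ∀ c ∈ g.2, (φ a).1 < (φ c).1) → RL φ g.1 Z w) ∧
      ((∀ a ∈ A, ∀ c ∈ g.2, (φ c).1 < (φ a).1) → RR φ g.1 Z w) := by
  obtain ⟨a₀, ha₀⟩ := exists_mem_lf X
  obtain ⟨b₀, hb₀⟩ := exists_mem_lf Y
  have hXA : ∀ a ∈ X.lf, a ∈ A := fun a ha => (hA a).mpr (Or.inl ha)
  have hYA : ∀ a ∈ Y.lf, a ∈ A := fun a ha => (hA a).mpr (Or.inr ha)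
  -- comparison of the node with the contexts
  have hsame : ∀ g ∈ Γ, ∀ a ∈ X.lf, ∀ b ∈ Y.lf, ∀ c ∈ g.2,
      ((φ a).1 < (φ c).1 ∧ (φ b).1 < (φ c).1) ∨ ((φ c).1 < (φ a).1 ∧ (φ c).1 < (φ b).1) := by
    intro g hg a ha b hb c hc
    rcases hctx.side g hg with h | h
    · exact Or.inl ⟨h a (hXA a ha) c hc, h b (hYA b hb) c hc⟩
    · exact Or.inr ⟨h a (hXA a ha) c hc, h b (hYA b hb) c hc⟩
  have hsX : ∀ a ∈ X.lf, ∀ g ∈ Γ, Sep φ a {x | x ∈ Y.lf} g.2 := by
    intro a ha g hg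
    have h1 := (hgX.leaf_good a ha).2
    rw [List.pairwise_cons] at h1
    exact h1.1 g.2 (List.mem_map.mpr ⟨g, hg, rfl⟩)
  have hsY : ∀ b ∈ Y.lf, ∀ g ∈ Γ, Sep φ b {x | x ∈ X.lf} g.2 := by
    intro b hb g hg
    have h1 := (hgY.leaf_good b hb).2
    rw [List.pairwise_cons] at h1
    exact h1.1 g.2 (List.mem_map.mpr ⟨g, hg, rfl⟩)
  have hdich : ∀ g ∈ Γ,
      (∀ a ∈ X.lf, ∀ b ∈ Y.lf, ∀ c ∈ g.2, sl (φ a) (φ b) < sl (φ a) (φ c)) ∨
      (∀ a ∈ X.lf, ∀ b ∈ Y.lf, ∀ c ∈ g.2, sl (φ a) (φ c) < sl (φ a) (φ b)) := by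
    intro g hg
    obtain ⟨c₀, hc₀⟩ := hctx.ne g hg
    rcases hsX a₀ ha₀ g hg with h0 | h0
    · left
      intro a ha b hb c hc
      have h1 := h0 b hb c₀ hc₀
      have h2 := (sl_lt_iff_same (hXY a₀ ha₀ b hb) (hsame g hg a₀ ha₀ b hb c₀ hc₀)).mp h1
      have h3 : ∀ a ∈ X.lf, ∀ c ∈ g.2, sl (φ b) (φ a) < sl (φ b) (φ c) := by
        rcases hsY b hb g hg with h | h
        · exact h
        · have := h a₀ ha₀ c₀ hc₀
          rw [sl_comm (φ b) (φ a₀)] at this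
          linarith
      have h4 := h3 a ha c hc
      rw [sl_comm (φ b) (φ a)] at h4
      exact (sl_lt_iff_same (hXY a ha b hb) (hsame g hg a ha b hb c hc)).mpr h4
    · right
      intro a ha b hb c hc
      have h1 := h0 b hb c₀ hc₀
      have h2 : ¬ (sl (φ a₀) (φ b) < sl (φ b) (φ c₀)) := by
        rw [← sl_lt_iff_same (hXY a₀ ha₀ b hb) (hsame g hg a₀ ha₀ b hb c₀ hc₀)]
        linarith
      have h3 : ∀ a ∈ X.lf, ∀ c ∈ g.2, sl (φ b) (φ c) < sl (φ b) (φ a) := by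
        rcases hsY b hb g hg with h | h
        · have := h a₀ ha₀ c₀ hc₀
          rw [sl_comm (φ b) (φ a₀)] at this
          exact absurd this h2
        · exact h
      have h4 := h3 a ha c hc
      rw [sl_comm (φ b) (φ a)] at h4
      rcases hsX a ha g hg with h | h
      · have h5 := h b hb c hc
        have h6 := (sl_lt_iff_same (hXY a ha b hb) (hsame g hg a ha b hb c hc)).mp h5
        linarith
      · exact h b hb c hc
  -- the label
  classical
  set lo : Finset ℝ := ((Γ.filter (fun g => decide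
    (∀ c ∈ g.2, sl (φ a₀) (φ c) < sl (φ a₀) (φ b₀)))).map Prod.fst).toFinset with hlo
  set hi : Finset ℝ := ((Γ.filter (fun g => decide
    (∀ c ∈ g.2, sl (φ a₀) (φ b₀) < sl (φ a₀) (φ c)))).map Prod.fst).toFinset with hhi
  have hlomem : ∀ x, x ∈ lo ↔ ∃ g ∈ Γ, (∀ c ∈ g.2, sl (φ a₀) (φ c) < sl (φ a₀) (φ b₀)) ∧
      g.1 = x := by
    intro x
    simp only [hlo, List.mem_toFinset, List.mem_map, List.mem_filter, decide_eq_true_eq]
    constructor
    · rintro ⟨g, ⟨h1, h2⟩, h3⟩; exact ⟨g, h1, h2, h3⟩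
    · rintro ⟨g, h1, h2, h3⟩; exact ⟨g, ⟨h1, h2⟩, h3⟩
  have hhimem : ∀ x, x ∈ hi ↔ ∃ g ∈ Γ, (∀ c ∈ g.2, sl (φ a₀) (φ b₀) < sl (φ a₀) (φ c)) ∧
      g.1 = x := by
    intro x
    simp only [hhi, List.mem_toFinset, List.mem_map, List.mem_filter, decide_eq_true_eq]
    constructor
    · rintro ⟨g, ⟨h1, h2⟩, h3⟩; exact ⟨g, h1, h2, h3⟩
    · rintro ⟨g, h1, h2, h3⟩; exact ⟨g, ⟨h1, h2⟩, h3⟩
  have hlohi : ∀ x ∈ lo, ∀ y ∈ hi, x < y := by
    intro x hx y hy
    obtain ⟨g, hg, hg1, rfl⟩ := (hlomem x).mp hx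
    obtain ⟨g', hg', hg1', rfl⟩ := (hhimem y).mp hy
    obtain ⟨c, hc⟩ := hctx.ne g hg
    obtain ⟨c', hc'⟩ := hctx.ne g' hg'
    by_contra hcon
    rcases lt_or_eq_of_le (not_lt.mp hcon) with h | h
    · have h1 := hctx.ord a₀ (hXA a₀ ha₀) g' hg' g hg h c' hc' c hc
      have h2 := hg1 c hc
      have h3 := hg1' c' hc'
      linarith
    · have h1 := hctx.dist g' hg' g hg h
      subst h1
      have h2 := hg1 c hc
      have h3 := hg1' c hc
      linarith
  obtain ⟨t, htlo, hthi⟩ := Order.exists_between_finsets lo hi hlohi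
  have hlt : ∀ g ∈ Γ, t < g.1 → ∀ a ∈ X.lf, ∀ b ∈ Y.lf, ∀ c ∈ g.2,
      sl (φ a) (φ b) < sl (φ a) (φ c) := by
    intro g hg htg
    rcases hdich g hg with h | h
    · exact h
    · have h1 : g.1 ∈ lo := (hlomem _).mpr ⟨g, hg, fun c hc => h a₀ ha₀ b₀ hb₀ c hc, rfl⟩
      have := htlo _ h1
      linarith
  have hgt : ∀ g ∈ Γ, g.1 < t → ∀ a ∈ X.lf, ∀ b ∈ Y.lf, ∀ c ∈ g.2,
      sl (φ a) (φ c) < sl (φ a) (φ b) := by
    intro g hg htg
    rcases hdich g hg with h | h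
    · have h1 : g.1 ∈ hi := (hhimem _).mpr ⟨g, hg, fun c hc => h a₀ ha₀ b₀ hb₀ c hc, rfl⟩
      have := hthi _ h1
      linarith
    · exact h
  have hne : ∀ g ∈ Γ, g.1 ≠ t := by
    intro g hg
    rcases hdich g hg with h | h
    · have h1 : g.1 ∈ hi := (hhimem _).mpr ⟨g, hg, fun c hc => h a₀ ha₀ b₀ hb₀ c hc, rfl⟩
      exact ne_of_gt (hthi _ h1)
    · have h1 : g.1 ∈ lo := (hlomem _).mpr ⟨g, hg, fun c hc => h a₀ ha₀ b₀ hb₀ c hc, rfl⟩
      exact ne_of_lt (htlo _ h1)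
  have hltY : ∀ g ∈ Γ, t < g.1 → ∀ a ∈ X.lf, ∀ b ∈ Y.lf, ∀ c ∈ g.2,
      sl (φ b) (φ a) < sl (φ b) (φ c) := by
    intro g hg htg a ha b hb c hc
    rw [sl_comm (φ b) (φ a)]
    exact (sl_lt_iff_same (hXY a ha b hb) (hsame g hg a ha b hb c hc)).mp
      (hlt g hg htg a ha b hb c hc)
  have hgtY : ∀ g ∈ Γ, g.1 < t → ∀ a ∈ X.lf, ∀ b ∈ Y.lf, ∀ c ∈ g.2,
      sl (φ b) (φ c) < sl (φ b) (φ a) := by
    intro g hg htg a ha b hb c hc
    have h1 := hgt g hg htg a ha b hb c hc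
    rcases hsY b hb g hg with h | h
    · have h2 := h a ha c hc
      rw [sl_comm (φ b) (φ a)] at h2
      have h3 := (sl_lt_iff_same (hXY a ha b hb) (hsame g hg a ha b hb c hc)).mpr h2
      linarith
    · exact h a ha c hc
  -- the contexts of the children
  have hcX : CtxOk φ ((t, {x | x ∈ Y.lf}) :: Γ) X.lf := by
    refine ⟨?_, ?_, ?_, ?_⟩
    · intro g hg g' hg' hgg
      rw [List.mem_cons] at hg hg'
      rcases hg with rfl | hg
      · rcases hg' with rfl | hg'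
        · rfl
        · exact absurd hgg.symm (hne g' hg')
      · rcases hg' with rfl | hg'
        · exact absurd hgg (hne g hg)
        · exact hctx.dist g hg g' hg' hgg
    · intro a ha g hg g' hg' hgg c hc d hd
      rw [List.mem_cons] at hg hg'
      rcases hg with rfl | hg
      · rcases hg' with rfl | hg'
        · exact absurd hgg (lt_irrefl _)
        · exact hlt g' hg' hgg a ha c hc d hd
      · rcases hg' with rfl | hg'
        · exact hgt g hg hgg a ha d hd c hc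
        · exact hctx.ord a (hXA a ha) g hg g' hg' hgg c hc d hd
    · intro g hg
      rw [List.mem_cons] at hg
      rcases hg with rfl | hg
      · exact ⟨b₀, hb₀⟩
      · exact hctx.ne g hg
    · intro g hg
      rw [List.mem_cons] at hg
      rcases hg with rfl | hg
      · exact Or.inl fun a ha c hc => hXY a ha c hc
      · rcases hctx.side g hg with h | h
        · exact Or.inl fun a ha c hc => h a (hXA a ha) c hc
        · exact Or.inr fun a ha c hc => h a (hXA a ha) c hc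
  have hcY : CtxOk φ ((t, {x | x ∈ X.lf}) :: Γ) Y.lf := by
    refine ⟨?_, ?_, ?_, ?_⟩
    · intro g hg g' hg' hgg
      rw [List.mem_cons] at hg hg'
      rcases hg with rfl | hg
      · rcases hg' with rfl | hg'
        · rfl
        · exact absurd hgg.symm (hne g' hg')
      · rcases hg' with rfl | hg'
        · exact absurd hgg (hne g hg)
        · exact hctx.dist g hg g' hg' hgg
    · intro b hb g hg g' hg' hgg c hc d hd
      rw [List.mem_cons] at hg hg'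
      rcases hg with rfl | hg
      · rcases hg' with rfl | hg'
        · exact absurd hgg (lt_irrefl _)
        · exact hltY g' hg' hgg c hc b hb d hd
      · rcases hg' with rfl | hg'
        · exact hgtY g hg hgg d hd b hb c hc
        · exact hctx.ord b (hYA b hb) g hg g' hg' hgg c hc d hd
    · intro g hg
      rw [List.mem_cons] at hg
      rcases hg with rfl | hg
      · exact ⟨a₀, ha₀⟩
      · exact hctx.ne g hg
    · intro g hg
      rw [List.mem_cons] at hg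
      rcases hg with rfl | hg
      · exact Or.inr fun a ha c hc => hXY c hc a ha
      · rcases hctx.side g hg with h | h
        · exact Or.inl fun a ha c hc => h a (hYA a ha) c hc
        · exact Or.inr fun a ha c hc => h a (hYA a ha) c hc
  obtain ⟨wX, hwX1, hwX2, hwX3⟩ := hX ((t, {x | x ∈ Y.lf}) :: Γ) hgX hcX
  obtain ⟨wY, hwY1, hwY2, hwY3⟩ := hY ((t, {x | x ∈ X.lf}) :: Γ) hgY hcY
  refine ⟨node t wX wY, ?_, ⟨?_, ?_, ?_, hwX2, hwY2⟩, ?_⟩
  · intro a
    rw [lf_node, List.mem_append, hwX1, hwY1, hA]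
  · intro a ha b hb
    exact hXY a ((hwX1 a).mp ha) b ((hwY1 b).mp hb)
  · exact (hwX3 (t, {x | x ∈ Y.lf}) (by simp) wY.lf (fun c hc => (hwY1 c).mp hc)).1
      (fun a ha c hc => hXY a ha c hc)
  · exact (hwY3 (t, {x | x ∈ X.lf}) (by simp) wX.lf (fun c hc => (hwX1 c).mp hc)).2
      (fun a ha c hc => hXY c hc a ha)
  · intro g hg Z hZ
    constructor
    · intro hside
      refine ⟨⟨fun h => hne g hg h.symm, ?_, ?_⟩, ?_, ?_⟩
      · intro htg a ha b hb c hc
        have ha' := (hwX1 a).mp ha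
        have hb' := (hwY1 b).mp hb
        have h1 := hlt g hg htg a ha' b hb' c (hZ c hc)
        have h2 := hXY a ha' b hb'
        have h3 := hside a (hXA a ha') c (hZ c hc)
        rw [mf_sl (by linarith) (by linarith)]
        exact mul_pos (mul_pos (by linarith) (by linarith)) (by linarith)
      · intro htg a ha b hb c hc
        have ha' := (hwX1 a).mp ha
        have hb' := (hwY1 b).mp hb
        have h1 := hgt g hg htg a ha' b hb' c (hZ c hc)
        have h2 := hXY a ha' b hb'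
        have h3 := hside a (hXA a ha') c (hZ c hc)
        rw [mf_sl (by linarith) (by linarith)]
        exact mul_neg_of_pos_of_neg (mul_pos (by linarith) (by linarith)) (by linarith)
      · exact (hwX3 g (by simp [hg]) Z hZ).1 (fun a ha c hc => hside a (hXA a ha) c hc)
      · exact (hwY3 g (by simp [hg]) Z hZ).1 (fun a ha c hc => hside a (hYA a ha) c hc)
    · intro hside
      refine ⟨⟨fun h => hne g hg h.symm, ?_, ?_⟩, ?_, ?_⟩
      · intro htg c hc a ha b hb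
        have ha' := (hwX1 a).mp ha
        have hb' := (hwY1 b).mp hb
        have h1 := hgt g hg htg a ha' b hb' c (hZ c hc)
        have h2 := hXY a ha' b hb'
        have h3 := hside a (hXA a ha') c (hZ c hc)
        have h4 : mf (φ c) (φ a) (φ b) = mf (φ a) (φ b) (φ c) := by
          simp only [mf]; ring
        rw [h4, mf_sl (by linarith) (by linarith)]
        have e1 : 0 < ((φ b).1 - (φ a).1) * ((φ a).1 - (φ c).1) *
            (sl (φ a) (φ b) - sl (φ a) (φ c)) :=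
          mul_pos (mul_pos (by linarith) (by linarith)) (by linarith)
        linarith
      · intro htg c hc a ha b hb
        have ha' := (hwX1 a).mp ha
        have hb' := (hwY1 b).mp hb
        have h1 := hlt g hg htg a ha' b hb' c (hZ c hc)
        have h2 := hXY a ha' b hb'
        have h3 := hside a (hXA a ha') c (hZ c hc)
        have h4 : mf (φ c) (φ a) (φ b) = mf (φ a) (φ b) (φ c) := by
          simp only [mf]; ring
        rw [h4, mf_sl (by linarith) (by linarith)]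
        have e1 : 0 < ((φ b).1 - (φ a).1) * ((φ a).1 - (φ c).1) *
            (sl (φ a) (φ c) - sl (φ a) (φ b)) :=
          mul_pos (mul_pos (by linarith) (by linarith)) (by linarith)
        linarith
      · exact (hwX3 g (by simp [hg]) Z hZ).2 (fun a ha c hc => hside a (hXA a ha) c hc)
      · exact (hwY3 g (by simp [hg]) Z hZ).2 (fun a ha c hc => hside a (hYA a ha) c hc)

lemma xsep {X Y : List α} (hX : X ≠ []) (hY : Y ≠ []) (h1 : ∀ a ∈ X, NW φ a {y | y ∈ Y})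
    (h2 : ∀ b ∈ Y, NW φ b {x | x ∈ X}) :
    (∀ a ∈ X, ∀ b ∈ Y, (φ a).1 < (φ b).1) ∨ (∀ b ∈ Y, ∀ a ∈ X, (φ b).1 < (φ a).1) := by
  obtain ⟨a₀, ha₀⟩ := List.exists_mem_of_ne_nil _ hX
  obtain ⟨b₀, hb₀⟩ := List.exists_mem_of_ne_nil _ hY
  rcases h1 a₀ ha₀ with h | h
  · left
    intro a ha b hb
    rcases h2 b hb with h' | h'
    · have e1 := h b hb
      have e2 := h' a₀ ha₀
      linarith
    · exact h' a ha
  · right
    intro b hb a ha
    rcases h2 b hb with h' | h'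
    · exact h' a ha
    · have e1 := h b hb
      have e2 := h' a₀ ha₀
      linarith

theorem build {n : ℕ} (T : BTr α n) : ∀ Γ : List (ℝ × Set α), TGood φ (Γ.map Prod.snd) T →
    CtxOk φ Γ T.lf → ∃ w : BTr α n, Concl φ Γ T w := by
  induction T with
  | leaf a =>
    intro Γ _ _
    exact ⟨leaf a, fun b => Iff.rfl, trivial, fun g _ Z _ => ⟨fun _ => trivial, fun _ => trivial⟩⟩
  | node t L R hL hR =>
    intro Γ hg hc
    obtain ⟨h1, h2⟩ := hg
    have h3 : ∀ a ∈ L.lf, NW φ a {y | y ∈ R.lf} := fun a ha =>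
      (h1.leaf_good a ha).1 _ (by simp)
    have h4 : ∀ b ∈ R.lf, NW φ b {x | x ∈ L.lf} := fun a ha =>
      (h2.leaf_good a ha).1 _ (by simp)
    rcases xsep (lf_ne_nil L) (lf_ne_nil R) h3 h4 with h | h
    · exact build_node hL hR h h1 h2 (A := (node t L R).lf) (by simp) hc
    · exact build_node hR hL h h2 h1 (A := (node t L R).lf) (by simp [or_comm]) hc

/-- Trees with good leaves can be labelled and ordered. -/
theorem build_top {n : ℕ} {T : BTr α n} (h : TGood φ [] T) :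
    ∃ w : BTr α n, (∀ a, a ∈ w.lf ↔ a ∈ T.lf) ∧ Geo φ w := by
  obtain ⟨w, h1, h2, _⟩ := build T [] h ⟨by simp, by simp, by simp, by simp⟩
  exact ⟨w, h1, h2⟩

end Pool.Agent.H41.Kc
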