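import Mathlib
import Pool.Agent.H41.Kc.Build

set_option autoImplicit false

/-!
Large sets of leaves of a complete binary tree contain the leaves of a complete binary tree.
-/

namespace Pool.Agent.H41.Kc

open BTr Finset

variable {α : Type}

/-- the number of leaves that force a complete subtree of depth `r` -/
def gr : ℕ → ℕ → ℕ
  | _, 0 => 0
  | 0, (_ + 1) => 1
  | (h + 1), (r + 1) => gr h (r + 1) + gr h r

lemma gr_eq (h : ℕ) : ∀ r, gr h r = ∑ i ∈ range r, h.choose i := by
  induction h with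
  | zero =>
    intro r
    cases r with
    | zero => simp [gr]
    | succ r =>
      rw [sum_range_succ']
      simp [gr]
  | succ h ih =>
    intro r
    cases r with
    | zero => simp [gr]
    | succ r =>
      rw [gr, ih, ih, sum_range_succ', sum_range_succ' (fun i => (h + 1).choose i)]
      simp only [Nat.choose_zero_right, Nat.choose_succ_succ]
      rw [sum_add_distrib]
      ring

lemma gr_half (m : ℕ) : gr (2 * m + 1) (m + 1) = 4 ^ m := by
  rw [gr_eq]
  exact Nat.sum_range_choose_halfway m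

/-- embedding of contexts -/
inductive Emb : List (Set α) → List (Set α) → Prop
  | nil : Emb [] []
  | skip (Y : Set α) {Γ Γ' : List (Set α)} : Emb Γ' Γ → Emb Γ' (Y :: Γ)
  | take {Y Y' : Set α} {Γ Γ' : List (Set α)} : Y' ⊆ Y → Emb Γ' Γ → Emb (Y' :: Γ') (Y :: Γ)

lemma Emb.mem {Γ Γ' : List (Set α)} (h : Emb Γ' Γ) : ∀ Z' ∈ Γ', ∃ Z ∈ Γ, Z' ⊆ Z := by
  induction h with
  | nil => intro Z' hZ; simp at hZ
  | skip Y _ ih =>
    intro Z' hZ
    obtain ⟨Z, h1, h2⟩ := ih Z' hZ
    exact ⟨Z, by simp [h1], h2⟩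
  | take hY _ ih =>
    intro Z' hZ
    rw [List.mem_cons] at hZ
    rcases hZ with rfl | hZ
    · exact ⟨_, by simp, hY⟩
    · obtain ⟨Z, h1, h2⟩ := ih Z' hZ
      exact ⟨Z, by simp [h1], h2⟩

variable {φ : α → ℝ × ℝ}

lemma Sep.symm {a : α} {Y Z : Set α} (h : Sep φ a Y Z) : Sep φ a Z Y := by
  rcases h with h | h
  · exact Or.inr fun c hc d hd => h d hd c hc
  · exact Or.inl fun c hc d hd => h d hd c hc

lemma Emb.good {Γ Γ' : List (Set α)} (h : Emb Γ' Γ) {a : α} : LGood φ Γ a → LGood φ Γ' a := by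
  induction h with
  | nil => exact id
  | skip Y _ ih =>
    rintro ⟨h1, h2⟩
    exact ih ⟨fun Z hZ => h1 Z (by simp [hZ]), (List.pairwise_cons.mp h2).2⟩
  | take hY hE ih =>
    rintro ⟨h1, h2⟩
    rw [List.pairwise_cons] at h2
    obtain ⟨h3, h4⟩ := ih ⟨fun Z hZ => h1 Z (by simp [hZ]), h2.2⟩
    refine ⟨?_, ?_⟩
    · intro Z hZ
      rw [List.mem_cons] at hZ
      rcases hZ with rfl | hZ
      · exact (h1 _ (by simp)).mono hY
      · exact h3 Z hZ
    · rw [List.pairwise_cons]
      refine ⟨?_, h4⟩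
      intro Z' hZ'
      obtain ⟨Z, hZ, hZZ⟩ := hE.mem Z' hZ'
      exact (h2.1 Z hZ).mono hY hZZ

/-- the sibling block of the leaf `b` at level `s` -/
def sib {h : ℕ} (F : (Fin h → Bool) → α) (b : Fin h → Bool) (s : Fin h) : Set α :=
  {a | ∃ c : Fin h → Bool, (∀ i < s, c i = b i) ∧ c s ≠ b s ∧ F c = a}

/-- the leaf `b` is good -/
structure Gd (φ : α → ℝ × ℝ) (Γ : List (Set α)) {h : ℕ} (F : (Fin h → Bool) → α)
    (b : Fin h → Bool) : Prop where
  good : LGood φ Γ (F b)
  nw : ∀ s, NW φ (F b) (sib F b s)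
  ctx : ∀ s, ∀ Y ∈ Γ, Sep φ (F b) (sib F b s) Y
  sep : ∀ s s', s < s' → Sep φ (F b) (sib F b s) (sib F b s')

lemma sib_succ {h : ℕ} (F : (Fin (h + 1) → Bool) → α) (b₀ : Bool) (b : Fin h → Bool) (s : Fin h) :
    sib (fun d => F (Fin.cons b₀ d)) b s ⊆ sib F (Fin.cons b₀ b) s.succ := by
  rintro a ⟨c, h1, h2, h3⟩
  refine ⟨Fin.cons b₀ c, ?_, ?_, h3⟩
  · intro i hi
    refine Fin.cases ?_ (fun i hi => ?_) i hi
    · intro _; rfl
    · simp only [Fin.cons_succ]
      exact h1 i (Fin.succ_lt_succ_iff.mp hi)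
  · simpa only [Fin.cons_succ] using h2

lemma sib_zero {h : ℕ} (F : (Fin (h + 1) → Bool) → α) (b₀ : Bool) (b : Fin h → Bool) :
    Set.range (fun d => F (Fin.cons (!b₀) d)) ⊆ sib F (Fin.cons b₀ b) 0 := by
  rintro a ⟨c, h3⟩
  refine ⟨Fin.cons (!b₀) c, ?_, ?_, h3⟩
  · intro i hi
    exact absurd hi (Fin.not_lt_zero i)
  · simp

lemma Gd.step {Γ : List (Set α)} {h : ℕ} {F : (Fin (h + 1) → Bool) → α} {b₀ : Bool}
    {b : Fin h → Bool} (hg : Gd φ Γ F (Fin.cons b₀ b)) :
    Gd φ (Set.range (fun d => F (Fin.cons (!b₀) d)) :: Γ) (fun d => F (Fin.cons b₀ d)) b := by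
  have h0 := sib_zero F b₀ b
  have hs := fun s => sib_succ F b₀ b s
  refine ⟨⟨?_, ?_⟩, ?_, ?_, ?_⟩
  · intro Y hY
    rw [List.mem_cons] at hY
    rcases hY with rfl | hY
    · exact (hg.nw 0).mono h0
    · exact hg.good.1 Y hY
  · rw [List.pairwise_cons]
    exact ⟨fun Y hY => (hg.ctx 0 Y hY).mono h0 (le_refl _), hg.good.2⟩
  · intro s
    exact (hg.nw s.succ).mono (hs s)
  · intro s Y hY
    rw [List.mem_cons] at hY
    rcases hY with rfl | hY
    · exact ((hg.sep 0 s.succ (Fin.succ_pos s)).mono h0 (hs s)).symm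
    · exact (hg.ctx s.succ Y hY).mono (hs s) (le_refl _)
  · intro s s' hss
    exact (hg.sep s.succ s'.succ (Fin.succ_lt_succ_iff.mpr hss)).mono (hs s) (hs s')

/-- Many good leaves give a large tree with good leaves. -/
theorem rank_tree : ∀ (h r : ℕ) (F : (Fin h → Bool) → α) (Γ : List (Set α))
    (A : Finset (Fin h → Bool)), (∀ b ∈ A, Gd φ Γ F b) → gr h r < A.card →
    ∃ T : BTr α r, (∀ a ∈ T.lf, a ∈ Set.range F) ∧ ∀ Γ', Emb Γ' Γ → TGood φ Γ' T := by
  intro h
  induction h with
  | zero =>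
    intro r F Γ A hA hc
    cases r with
    | zero =>
      obtain ⟨b, hb⟩ := card_pos.mp (Nat.zero_lt_of_lt hc)
      refine ⟨leaf (F b), fun a ha => ⟨b, (List.mem_singleton.mp ha).symm⟩, ?_⟩
      intro Γ' hE
      exact hE.good (hA b hb).good
    | succ r =>
      have h1 : A.card ≤ 1 := by
        refine (card_le_univ A).trans ?_
        simp
      simp only [gr] at hc
      omega
  | succ h ih =>
    intro r F Γ A hA hc
    cases r with
    | zero =>
      obtain ⟨b, hb⟩ := card_pos.mp (Nat.zero_lt_of_lt hc)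
      refine ⟨leaf (F b), fun a ha => ⟨b, (List.mem_singleton.mp ha).symm⟩, ?_⟩
      intro Γ' hE
      exact hE.good (hA b hb).good
    | succ r =>
      set B : Bool → Finset (Fin h → Bool) := fun β => univ.filter (fun d => Fin.cons β d ∈ A)
        with hB
      have hcard : A.card ≤ (B false).card + (B true).card := by
        have h1 : A ⊆ (B false).image (fun d => (Fin.cons false d : Fin (h + 1) → Bool)) ∪
            (B true).image (fun d => (Fin.cons true d : Fin (h + 1) → Bool)) := by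
          intro b hb
          have hb' : (Fin.cons (b 0) (Fin.tail b) : Fin (h + 1) → Bool) = b := Fin.cons_self_tail b
          rw [mem_union]
          cases h0 : b 0
          · left
            rw [h0] at hb'
            rw [mem_image]
            exact ⟨Fin.tail b, by simp only [hB, mem_filter, mem_univ, true_and]; rw [hb']; exact hb,
              hb'⟩
          · right
            rw [h0] at hb'
            rw [mem_image]
            exact ⟨Fin.tail b, by simp only [hB, mem_filter, mem_univ, true_and]; rw [hb']; exact hb,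
              hb'⟩
        exact (card_le_card h1).trans ((card_union_le _ _).trans
          (Nat.add_le_add card_image_le card_image_le))
      have hBA : ∀ β, ∀ d ∈ B β, Gd φ (Set.range (fun d => F (Fin.cons (!β) d)) :: Γ)
          (fun d => F (Fin.cons β d)) d := by
        intro β d hd
        have h1 : Fin.cons β d ∈ A := by
          simpa only [hB, mem_filter, mem_univ, true_and] using hd
        exact (hA _ h1).step
      rw [gr] at hc
      by_cases h1 : ∃ β, gr h (r + 1) < (B β).card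
      · obtain ⟨β, hβ⟩ := h1
        obtain ⟨T, hT1, hT2⟩ := ih (r + 1) _ _ (B β) (hBA β) hβ
        refine ⟨T, ?_, ?_⟩
        · intro a ha
          obtain ⟨d, hd⟩ := hT1 a ha
          exact ⟨_, hd⟩
        · intro Γ' hE
          exact hT2 Γ' (Emb.skip _ hE)
      · push Not at h1
        have h2 := h1 false
        have h3 := h1 true
        obtain ⟨T₀, hT1, hT2⟩ := ih r _ _ (B false) (hBA false) (by omega)
        obtain ⟨T₁, hT3, hT4⟩ := ih r _ _ (B true) (hBA true) (by omega)
        refine ⟨node 0 T₀ T₁, ?_, ?_⟩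
        · intro a ha
          rw [lf_node, List.mem_append] at ha
          rcases ha with ha | ha
          · obtain ⟨d, hd⟩ := hT1 a ha
            exact ⟨_, hd⟩
          · obtain ⟨d, hd⟩ := hT3 a ha
            exact ⟨_, hd⟩
        · intro Γ' hE
          exact ⟨hT2 _ (Emb.take (fun a ha => hT3 a ha) hE),
            hT4 _ (Emb.take (fun a ha => hT1 a ha) hE)⟩

end Pool.Agent.H41.Kc
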