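import Mathlib
import Pool.Agent.H41.Kc.Rank
import Pool.Agent.H41.Kc.Count
import Pool.Agent.H41.Kc.Mix

set_option autoImplicit false

/-!
Extraction of a labelled binary tree from a sequence of points that every line meets in few runs.
-/

namespace Pool.Agent.H41.Kc

open BTr Finset

section

variable {R S : ℕ}

/-- the block `(s, β)` of the leaf `x` -/
def cyl (x : Fin S → Fin R) (s : Fin S) (β : Fin R) : Set (Fin S → Fin R) :=
  {c | (∀ i < s, c i = x i) ∧ c s = β}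

/-- the positions of the block -/
def sbl (x : Fin S → Fin R) (s : Fin S) (β : Fin R) : Set ℕ := idx R S '' cyl x s β

lemma cyl_ne {x c : Fin S → Fin R} {s : Fin S} {β : Fin R} (hβ : β ≠ x s) (hc : c ∈ cyl x s β) :
    c ≠ x := by
  rintro rfl
  exact hβ hc.2.symm

lemma cyl_disjoint {x c d : Fin S → Fin R} {s s' : Fin S} {β β' : Fin R} (hs : s < s')
    (hβ : β ≠ x s) (hc : c ∈ cyl x s β) (hd : d ∈ cyl x s' β') : c ≠ d := by
  rintro rfl
  apply hβ
  rw [← hc.2, hd.1 s hs]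

variable (p : ℕ → ℝ × ℝ)

lemma exists_min_slope (x : Fin S → Fin R) (s : Fin S) (β : Fin R) : ∃ c ∈ cyl x s β,
    ∀ d ∈ cyl x s β, sl (p (idx R S x)) (p (idx R S c)) ≤ sl (p (idx R S x)) (p (idx R S d)) := by
  have h1 : (cyl x s β).Nonempty := by
    refine ⟨Function.update x s β, ?_, ?_⟩
    · intro i hi
      rw [Function.update_of_ne (ne_of_lt hi)]
    · simp
  exact Set.exists_min_image _ _ (Set.toFinite _) h1

/-- the smallest slope from `x` to the block `(s, β)` -/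
noncomputable def msl (x : Fin S → Fin R) (s : Fin S) (β : Fin R) : ℝ :=
  sl (p (idx R S x)) (p (idx R S (exists_min_slope p x s β).choose))

lemma msl_spec (x : Fin S → Fin R) (s : Fin S) (β : Fin R) :
    (∃ c ∈ cyl x s β, sl (p (idx R S x)) (p (idx R S c)) = msl p x s β) ∧
    ∀ d ∈ cyl x s β, msl p x s β ≤ sl (p (idx R S x)) (p (idx R S d)) :=
  ⟨⟨_, (exists_min_slope p x s β).choose_spec.1, rfl⟩, (exists_min_slope p x s β).choose_spec.2⟩

open Classical in
/-- the digits of the blocks that surround `x` -/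
noncomputable def Wr (x : Fin S → Fin R) (s : Fin S) : Finset (Fin R) :=
  univ.filter (fun β => β ≠ x s ∧ ¬ NW p (idx R S x) (sbl x s β))

open Classical in
/-- the digits of the blocks that are in conflict with the block `(s', β')` -/
noncomputable def Co (x : Fin S → Fin R) (s' : Fin S) (β' : Fin R) (s : Fin S) : Finset (Fin R) :=
  univ.filter (fun β => β ≠ x s ∧ (NW p (idx R S x) (sbl x s β) ∧
    (∃ c ∈ cyl x s β, sl (p (idx R S x)) (p (idx R S c)) < msl p x s' β') ∧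
    ∃ c ∈ cyl x s β, msl p x s' β' < sl (p (idx R S x)) (p (idx R S c))))

variable {p} {K : ℕ}

lemma wr_le (hx : ∀ c d : Fin S → Fin R, c ≠ d → (p (idx R S c)).1 ≠ (p (idx R S d)).1)
    (hK : ∀ a b c : ℝ, (a, b) ≠ (0, 0) →
      chg (fun i => decide (0 < hf a b c (p i))) 0 (R ^ S) ≤ K) (x : Fin S → Fin R) :
    ∑ s, (Wr p x s).card ≤ K := by
  classical
  set w : ℕ → Bool := fun i => decide (0 < hf 1 0 (p (idx R S x)).1 (p i)) with hw
  refine le_trans (sum_le_sum fun s _ => ?_) ((mix_count w S 0 x).trans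
    (hK 1 0 (p (idx R S x)).1 (by simp)))
  apply card_le_card
  intro β hβ
  unfold Wr at hβ
  rw [mem_filter] at hβ ⊢
  obtain ⟨_, h1, h2⟩ := hβ
  refine ⟨mem_univ _, h1, ?_⟩
  unfold NW at h2
  push Not at h2
  obtain ⟨⟨_, ⟨c, hc, rfl⟩, h3⟩, _, ⟨d, hd, rfl⟩, h4⟩ := h2
  have h5 := hx d x (cyl_ne h1 hd)
  refine ⟨⟨d, hd.1, hd.2, ?_⟩, c, hc.1, hc.2, ?_⟩
  · simp only [hw, zero_add]
    apply decide_eq_true
    have := lt_of_le_of_ne h4 (Ne.symm h5)
    unfold hf
    linarith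
  · simp only [hw, zero_add]
    apply decide_eq_false
    unfold hf
    linarith

lemma co_le (hx : ∀ c d : Fin S → Fin R, c ≠ d → (p (idx R S c)).1 ≠ (p (idx R S d)).1)
    (hK : ∀ a b c : ℝ, (a, b) ≠ (0, 0) →
      chg (fun i => decide (0 < hf a b c (p i))) 0 (R ^ S) ≤ K) (x : Fin S → Fin R)
    (s' : Fin S) (β' : Fin R) :
    ∑ s, (Co p x s' β' s).card ≤ K := by
  classical
  set μ := msl p x s' β' with hμ
  set q := p (idx R S x) with hq
  set w : ℕ → Bool := fun i => decide (0 < hf (-μ) 1 (-μ * q.1 + q.2) (p i)) with hw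
  refine le_trans (sum_le_sum fun s _ => ?_) ((mix_count w S 0 x).trans
    (hK (-μ) 1 (-μ * q.1 + q.2) (by simp)))
  apply card_le_card
  intro β hβ
  unfold Co at hβ
  rw [mem_filter] at hβ ⊢
  obtain ⟨_, h1, hnw, ⟨c, hc, hc'⟩, d, hd, hd'⟩ := hβ
  refine ⟨mem_univ _, h1, ?_⟩
  have hcx := hx c x (cyl_ne h1 hc)
  have hdx := hx d x (cyl_ne h1 hd)
  rw [← hq] at hcx hdx
  have hval : ∀ e : Fin S → Fin R, (p (idx R S e)).1 - q.1 ≠ 0 →
      hf (-μ) 1 (-μ * q.1 + q.2) (p (idx R S e)) =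
      (sl q (p (idx R S e)) - μ) * ((p (idx R S e)).1 - q.1) := by
    intro e he
    have h2 := sl_mul (a := q) (b := p (idx R S e)) he
    rw [sub_mul, h2, hf]
    ring
  have hc1 := hval c (sub_ne_zero.mpr hcx)
  have hd1 := hval d (sub_ne_zero.mpr hdx)
  rw [← hq, ← hμ] at hc' hd'
  rcases hnw with h | h
  · have e1 := h _ ⟨c, hc, rfl⟩
    have e2 := h _ ⟨d, hd, rfl⟩
    rw [← hq] at e1 e2
    refine ⟨⟨d, hd.1, hd.2, ?_⟩, c, hc.1, hc.2, ?_⟩
    · simp only [hw, zero_add, decide_eq_true_eq]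
      rw [hd1]
      exact mul_pos (by linarith) (by linarith)
    · simp only [hw, zero_add, decide_eq_false_iff_not, not_lt]
      rw [hc1]
      exact mul_nonpos_of_nonpos_of_nonneg (by linarith) (by linarith)
  · have e1 := h _ ⟨c, hc, rfl⟩
    have e2 := h _ ⟨d, hd, rfl⟩
    rw [← hq] at e1 e2
    refine ⟨⟨c, hc.1, hc.2, ?_⟩, d, hd.1, hd.2, ?_⟩
    · simp only [hw, zero_add, decide_eq_true_eq]
      rw [hc1]
      exact mul_pos_of_neg_of_neg (by linarith) (by linarith)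
    · simp only [hw, zero_add, decide_eq_false_iff_not, not_lt]
      rw [hd1]
      exact mul_nonpos_of_nonneg_of_nonpos (by linarith) (by linarith)

lemma good_nw {x y : Fin S → Fin R} (h : ¬ IsBad x (Wr p x) (Co p x) y) (s : Fin S) :
    y s ≠ x s ∧ NW p (idx R S x) (sbl x s (y s)) := by
  classical
  unfold IsBad at h
  push Not at h
  obtain ⟨h1, h2, _⟩ := h
  have h3 : y s ≠ x s := by
    intro he
    exact h1 s (by rw [mem_singleton]; exact he)
  refine ⟨h3, ?_⟩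
  by_contra h4
  apply h2 s
  unfold Wr
  rw [mem_filter]
  exact ⟨mem_univ _, h3, h4⟩

lemma good_sep (hgp : ∀ c d e : Fin S → Fin R, c ≠ d → d ≠ e → c ≠ e →
      sl (p (idx R S c)) (p (idx R S d)) ≠ sl (p (idx R S c)) (p (idx R S e)))
    {x y : Fin S → Fin R} (h : ¬ IsBad x (Wr p x) (Co p x) y) {s s' : Fin S} (hs : s < s') :
    Sep p (idx R S x) (sbl x s (y s)) (sbl x s' (y s')) := by
  classical
  obtain ⟨g1, g2⟩ := good_nw h s
  obtain ⟨g3, g4⟩ := good_nw h s'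
  unfold IsBad at h
  push Not at h
  obtain ⟨_, _, h3⟩ := h
  obtain ⟨⟨c₀, hc₀, hc₀'⟩, hmin⟩ := msl_spec p x s (y s)
  obtain ⟨⟨d₀, hd₀, hd₀'⟩, hmin'⟩ := msl_spec p x s' (y s')
  have hne : ∀ c ∈ cyl x s (y s), ∀ d ∈ cyl x s' (y s'),
      sl (p (idx R S x)) (p (idx R S c)) ≠ sl (p (idx R S x)) (p (idx R S d)) := by
    intro c hc d hd
    exact hgp x c d (cyl_ne g1 hc).symm (cyl_disjoint hs g1 hc hd) (cyl_ne g3 hd).symm
  have hmm := hne c₀ hc₀ d₀ hd₀
  rw [hc₀', hd₀'] at hmm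
  rcases lt_or_gt_of_ne hmm with hlt | hlt
  · left
    rintro _ ⟨c, hc, rfl⟩ _ ⟨d, hd, rfl⟩
    refine lt_of_le_of_ne ?_ (hne c hc d hd)
    refine le_trans ?_ (hmin' d hd)
    by_contra hcon
    rw [not_le] at hcon
    apply h3 s' s (ne_of_gt hs)
    unfold Co
    rw [mem_filter]
    exact ⟨mem_univ _, g1, g2, ⟨c₀, hc₀, by rw [hc₀']; exact hlt⟩, c, hc, hcon⟩
  · right
    rintro _ ⟨c, hc, rfl⟩ _ ⟨d, hd, rfl⟩
    refine lt_of_le_of_ne ?_ (hne c hc d hd).symm
    refine le_trans ?_ (hmin c hc)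
    by_contra hcon
    rw [not_le] at hcon
    apply h3 s s' (ne_of_lt hs)
    unfold Co
    rw [mem_filter]
    exact ⟨mem_univ _, g3, g4, ⟨d₀, hd₀, by rw [hd₀']; exact hlt⟩, d, hd, hcon⟩

lemma sib_sub {x y : Fin S → Fin R} (b : Fin S → Bool) (s : Fin S) :
    sib (fun b => idx R S (mix b x y)) b s ⊆ sbl (mix b x y) s (mix b y x s) := by
  rintro _ ⟨c, h1, h2, rfl⟩
  refine ⟨mix c x y, ⟨?_, ?_⟩, rfl⟩
  · intro i hi
    unfold mix
    rw [h1 i hi]
  · unfold mix
    cases hb : b s <;> cases hc : c s <;> simp_all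

end

lemma card_compl' {β : Type} [Fintype β] (P Q : β → Prop) (h : ∀ b, Q b ↔ ¬ P b)
    [DecidablePred P] [DecidablePred Q] :
    (univ.filter P).card + (univ.filter Q).card = Fintype.card β := by
  have h1 : univ.filter Q = univ.filter (fun b => ¬ P b) := by
    ext b
    simp [h]
  rw [h1, Finset.card_filter_add_card_filter_not, card_univ]

/-- Extraction of a labelled tree. -/
theorem extract {R K m : ℕ} (hR : 2 * ((2 * m + 1 + 1) * (K + 1)) ≤ R) {p : ℕ → ℝ × ℝ}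
    (hx : ∀ i < R ^ (2 * m + 1), ∀ j < R ^ (2 * m + 1), i ≠ j → (p i).1 ≠ (p j).1)
    (hgp : ∀ i < R ^ (2 * m + 1), ∀ j < R ^ (2 * m + 1), ∀ l < R ^ (2 * m + 1), i ≠ j → j ≠ l →
      i ≠ l → mf (p i) (p j) (p l) ≠ 0)
    (hK : ∀ a b c : ℝ, (a, b) ≠ (0, 0) →
      chg (fun i => decide (0 < hf a b c (p i))) 0 (R ^ (2 * m + 1)) ≤ K) :
    ∃ w : BTr ℕ (m + 1), Geo p w ∧ ∀ a ∈ w.lf, a < R ^ (2 * m + 1) := by
  classical
  set S := 2 * m + 1 with hS
  have hR0 : 0 < R := lt_of_lt_of_le (by positivity) hR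
  have hx' : ∀ c d : Fin S → Fin R, c ≠ d → (p (idx R S c)).1 ≠ (p (idx R S d)).1 := by
    intro c d hcd
    exact hx _ (idx_lt R S c) _ (idx_lt R S d) (fun h => hcd (idx_injective R S h))
  have hgp' : ∀ c d e : Fin S → Fin R, c ≠ d → d ≠ e → c ≠ e →
      sl (p (idx R S c)) (p (idx R S d)) ≠ sl (p (idx R S c)) (p (idx R S e)) := by
    intro c d e hcd hde hce hsl
    have h1 := hgp _ (idx_lt R S c) _ (idx_lt R S d) _ (idx_lt R S e)
      (fun h => hcd (idx_injective R S h)) (fun h => hde (idx_injective R S h))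
      (fun h => hce (idx_injective R S h))
    apply h1
    have h2 := hx' c d hcd
    have h3 := hx' c e hce
    rw [mf_sl (sub_ne_zero.mpr h2.symm) (sub_ne_zero.mpr h3.symm), hsl]
    ring
  obtain ⟨x, y, hxy⟩ := exists_pair hR0
    (fun x y : Fin S → Fin R => ¬ IsBad x (Wr p x) (Co p x) y) (by
      intro x
      have h1 := bad_le hR x (Wr p x) (Co p x) (wr_le hx' hK x) (co_le hx' hK x)
      have h2 := card_compl' (fun y => IsBad x (Wr p x) (Co p x) y)
        (fun y => ¬ IsBad x (Wr p x) (Co p x) y) (fun _ => Iff.rfl)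
      rw [Fintype.card_fun, Fintype.card_fin, Fintype.card_fin] at h2
      have h3 : ∀ N₁ N₂ T : ℕ, N₁ + N₂ = T → 2 * N₁ < T → T < 2 * N₂ := by omega
      exact h3 _ _ _ (by convert h2) (by convert h1))
  set A := univ.filter (fun b : Fin S → Bool =>
    ¬ IsBad (mix b x y) (Wr p (mix b x y)) (Co p (mix b x y)) (mix b y x)) with hA
  have hxy' : 2 ^ S < 2 * A.card := by convert hxy
  have hcard : gr S (m + 1) < A.card := by
    have h0 : gr S (m + 1) = 4 ^ m := by rw [hS, gr_half]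
    rw [h0]
    have h1 : 2 ^ S = 2 * 4 ^ m := by
      rw [hS, pow_succ, pow_mul]
      norm_num
      ring
    omega
  obtain ⟨T, hT1, hT2⟩ := rank_tree (φ := p) S (m + 1) (fun b => idx R S (mix b x y)) [] A (by
    intro b hb
    rw [hA, mem_filter] at hb
    have hb' := hb.2
    refine ⟨⟨by simp, by simp⟩, ?_, by simp, ?_⟩
    · intro s
      exact (good_nw hb' s).2.mono (sib_sub b s)
    · intro s s' hss
      exact (good_sep hgp' hb' hss).mono (sib_sub b s) (sib_sub b s')) hcard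
  obtain ⟨w, hw1, hw2⟩ := build_top (hT2 [] Emb.nil)
  refine ⟨w, hw2, ?_⟩
  intro a ha
  obtain ⟨b, rfl⟩ := hT1 a ((hw1 a).mp ha)
  exact idx_lt R S _

end Pool.Agent.H41.Kc
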