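import Mathlib
import Pool.Agent.H41.Kc.Defs

set_option autoImplicit false

/-!
Affine changes of coordinates preserve `k`-convex sets.
-/

namespace Pool.Agent.H41.Kc

open Set

/-- an affine map of the plane -/
def af (a b c d e f : ℝ) (x : ℝ × ℝ) : ℝ × ℝ := (a * x.1 + b * x.2 + c, d * x.1 + e * x.2 + f)

lemma continuous_af (a b c d e f : ℝ) : Continuous (af a b c d e f) := by
  unfold af
  fun_prop

/-- an invertible affine map as a homeomorphism -/
noncomputable def afH (a b c d e f : ℝ) (h : a * e - b * d ≠ 0) : (ℝ × ℝ) ≃ₜ (ℝ × ℝ) where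
  toFun := af a b c d e f
  invFun := af (e / (a * e - b * d)) (-b / (a * e - b * d)) ((b * f - e * c) / (a * e - b * d))
    (-d / (a * e - b * d)) (a / (a * e - b * d)) ((d * c - a * f) / (a * e - b * d))
  left_inv := by
    intro x
    simp only [af]
    apply Prod.ext
    · simp only
      rw [div_mul_eq_mul_div, div_mul_eq_mul_div, ← add_div, ← add_div, div_eq_iff h]
      ring
    · simp only
      rw [div_mul_eq_mul_div, div_mul_eq_mul_div, ← add_div, ← add_div, div_eq_iff h]
      ring
  right_inv := by
    intro x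
    simp only [af]
    apply Prod.ext
    · simp only
      have e1 : a * (e / (a * e - b * d) * x.1 + -b / (a * e - b * d) * x.2 +
          (b * f - e * c) / (a * e - b * d)) +
          b * (-d / (a * e - b * d) * x.1 + a / (a * e - b * d) * x.2 +
          (d * c - a * f) / (a * e - b * d)) + c =
          ((a * e - b * d) * (x.1 - c)) / (a * e - b * d) + c := by ring
      rw [e1, mul_div_cancel_left₀ _ h]
      ring
    · simp only
      have e1 : d * (e / (a * e - b * d) * x.1 + -b / (a * e - b * d) * x.2 +
          (b * f - e * c) / (a * e - b * d)) +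
          e * (-d / (a * e - b * d) * x.1 + a / (a * e - b * d) * x.2 +
          (d * c - a * f) / (a * e - b * d)) + f =
          ((a * e - b * d) * (x.2 - f)) / (a * e - b * d) + f := by ring
      rw [e1, mul_div_cancel_left₀ _ h]
      ring
  continuous_toFun := continuous_af _ _ _ _ _ _
  continuous_invFun := continuous_af _ _ _ _ _ _

lemma af_segment (a b c d e f : ℝ) (x y : ℝ × ℝ) :
    af a b c d e f '' segment ℝ x y = segment ℝ (af a b c d e f x) (af a b c d e f y) := by
  rw [segment_eq_image', segment_eq_image', image_image]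
  apply image_congr
  intro t _
  simp only [af]
  apply Prod.ext
  · simp only [Prod.fst_add, Prod.smul_fst, Prod.fst_sub, Prod.snd_add, Prod.smul_snd,
      Prod.snd_sub, smul_eq_mul]
    ring
  · simp only [Prod.fst_add, Prod.smul_fst, Prod.fst_sub, Prod.snd_add, Prod.smul_snd,
      Prod.snd_sub, smul_eq_mul]
    ring

lemma af_line {a b c d e f : ℝ} (h : a * e - b * d ≠ 0) {l : Set (ℝ × ℝ)} (hl : IsLine l) :
    IsLine (af a b c d e f ⁻¹' l) := by
  obtain ⟨u, v, w, huv, rfl⟩ := hl
  refine ⟨u * a + v * d, u * b + v * e, w - u * c - v * f, ?_, ?_⟩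
  · intro h0
    rw [Prod.mk.injEq] at h0
    obtain ⟨h1, h2⟩ := h0
    apply huv
    have e1 : (a * e - b * d) * u = e * (u * a + v * d) - d * (u * b + v * e) := by ring
    have e2 : (a * e - b * d) * v = a * (u * b + v * e) - b * (u * a + v * d) := by ring
    rw [h1, h2, mul_zero, mul_zero, sub_zero] at e1
    rw [h1, h2, mul_zero, mul_zero, sub_zero] at e2
    rcases mul_eq_zero.mp e1 with h3 | h3
    · exact absurd h3 h
    · rcases mul_eq_zero.mp e2 with h4 | h4
      · exact absurd h4 h
      · rw [h3, h4]
  · ext x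
    simp only [mem_preimage, mem_ofPred_eq, af]
    constructor <;> intro h3 <;> linarith

variable {a b c d e f : ℝ} (h : a * e - b * d ≠ 0)

include h

lemma af_injective : Function.Injective (af a b c d e f) := (afH a b c d e f h).injective

lemma gp_image {P : Set (ℝ × ℝ)} (hP : GeneralPosition P) :
    GeneralPosition (af a b c d e f '' P) := by
  intro l hl
  have h1 := hP _ (af_line (c := c) (f := f) h hl)
  have h2 : af a b c d e f '' P ∩ l = af a b c d e f '' (P ∩ af a b c d e f ⁻¹' l) := by
    rw [image_inter_preimage]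
  rw [h2, (af_injective h).encard_image]
  exact h1

lemma componentCount_image (X : Set (ℝ × ℝ)) :
    componentCount (af a b c d e f '' X) ≤ componentCount X := by
  unfold componentCount
  have : (fun x => connectedComponentIn (af a b c d e f '' X) x) '' (af a b c d e f '' X) =
      (fun Y => af a b c d e f '' Y) '' ((fun x => connectedComponentIn X x) '' X) := by
    rw [image_image, image_image]
    apply image_congr
    intro x hx
    exact ((afH a b c d e f h).image_connectedComponentIn hx).symm
  rw [this]
  exact encard_image_le _ _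

/-- Affine images of `k`-convex sets are `k`-convex. -/
theorem kconvex_image {k : ℕ} {P : Set (ℝ × ℝ)} (hP : KConvexSet k P) :
    KConvexSet k (af a b c d e f '' P) := by
  obtain ⟨hg, n, v, S, hv, hr, hS, hk⟩ := hP
  have hinj := af_injective (c := c) (f := f) h
  have hedge : ∀ i, edge (af a b c d e f ∘ v) i = af a b c d e f '' edge v i := by
    intro i
    unfold edge
    rw [af_segment]
    rfl
  refine ⟨gp_image h hg, n, af a b c d e f ∘ v, af a b c d e f '' S, ⟨hv.three_le,
    hinj.comp hv.injective, ?_⟩, ?_, ⟨?_, ?_, ?_⟩, ?_⟩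
  · rintro i j hij p ⟨hp1, hp2⟩
    rw [hedge] at hp1 hp2
    obtain ⟨q, hq, rfl⟩ := hp1
    obtain ⟨q', hq', hqq⟩ := hp2
    have := hinj hqq
    subst this
    rcases hv.inter i j hij q' ⟨hq, hq'⟩ with ⟨h1, h2⟩ | ⟨h1, h2⟩
    · exact Or.inl ⟨h1, by rw [h2]; rfl⟩
    · exact Or.inr ⟨h1, by rw [h2]; rfl⟩
  · rw [range_comp, hr]
  · exact hS.compact.image (continuous_af _ _ _ _ _ _)
  · have h1 := (afH a b c d e f h).image_interior S
    have h2 := (afH a b c d e f h).image_closure (interior S)
    have h3 : ((afH a b c d e f h) : ℝ × ℝ → ℝ × ℝ) = af a b c d e f := rfl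
    rw [h3] at h1 h2
    rw [← h1, ← h2, hS.regular]
  · have h1 := (afH a b c d e f h).image_frontier S
    have h3 : ((afH a b c d e f h) : ℝ × ℝ → ℝ × ℝ) = af a b c d e f := rfl
    rw [h3] at h1
    rw [← h1, hS.frontier_eq, image_iUnion]
    apply iUnion_congr
    intro i
    rw [hedge]
  · intro l hl
    have h2 : af a b c d e f '' S ∩ l = af a b c d e f '' (S ∩ af a b c d e f ⁻¹' l) := by
      rw [image_inter_preimage]
    rw [h2]
    exact (componentCount_image h _).trans (hk _ (af_line (c := c) (f := f) h hl))

end Pool.Agent.H41.Kc
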