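import Mathlib
import Pool.Agent.H41.Kc.Alt

set_option autoImplicit false

/-!
Piecewise linear interpolation of a chain of points with increasing first coordinates.
-/

namespace Pool.Agent.H41.Kc

open Set

/-- first coordinates increase along `p 0, …, p N` -/
def XInc (N : ℕ) (p : ℕ → ℝ × ℝ) : Prop := ∀ i < N, (p i).1 < (p (i + 1)).1

lemma XInc.mono {N M : ℕ} {p : ℕ → ℝ × ℝ} (h : XInc N p) (hM : M ≤ N) : XInc M p :=
  fun i hi => h i (by omega)

lemma XInc.lt {N : ℕ} {p : ℕ → ℝ × ℝ} (h : XInc N p) {i j : ℕ} (hij : i < j) (hj : j ≤ N) :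
    (p i).1 < (p j).1 := by
  induction j, hij using Nat.le_induction with
  | base => exact h i (by omega)
  | succ j hij ih => exact (ih (by omega)).trans (h j (by omega))

lemma XInc.le {N : ℕ} {p : ℕ → ℝ × ℝ} (h : XInc N p) {i j : ℕ} (hij : i ≤ j) (hj : j ≤ N) :
    (p i).1 ≤ (p j).1 := by
  rcases eq_or_lt_of_le hij with rfl | hlt
  · exact le_rfl
  · exact (h.lt hlt hj).le

lemma XInc.lt_iff {N : ℕ} {p : ℕ → ℝ × ℝ} (h : XInc N p) {i j : ℕ} (hi : i ≤ N) (hj : j ≤ N) :
    (p i).1 < (p j).1 ↔ i < j := by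
  constructor
  · intro hlt
    by_contra hcon
    push Not at hcon
    exact absurd (h.le hcon hi) (not_le.mpr hlt)
  · intro hij; exact h.lt hij hj

lemma XInc.le_iff {N : ℕ} {p : ℕ → ℝ × ℝ} (h : XInc N p) {i j : ℕ} (hi : i ≤ N) (hj : j ≤ N) :
    (p i).1 ≤ (p j).1 ↔ i ≤ j := by
  rw [← not_lt, h.lt_iff hj hi, not_lt]

/-- slope of the `i`-th edge -/
noncomputable def slp (p : ℕ → ℝ × ℝ) (i : ℕ) : ℝ :=
  ((p (i + 1)).2 - (p i).2) / ((p (i + 1)).1 - (p i).1)

/-- piecewise linear interpolation -/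
noncomputable def PL (p : ℕ → ℝ × ℝ) (N : ℕ) (x : ℝ) : ℝ :=
  (p 0).2 + ∑ i ∈ Finset.range N, slp p i * (max (p i).1 (min x (p (i + 1)).1) - (p i).1)

lemma continuous_PL (p : ℕ → ℝ × ℝ) (N : ℕ) : Continuous (PL p N) := by
  unfold PL
  fun_prop

lemma PL_zero (p : ℕ → ℝ × ℝ) (x : ℝ) : PL p 0 x = (p 0).2 := by simp [PL]

lemma PL_succ (p : ℕ → ℝ × ℝ) (N : ℕ) (x : ℝ) :
    PL p (N + 1) x = PL p N x + slp p N * (max (p N).1 (min x (p (N + 1)).1) - (p N).1) := by
  unfold PL
  rw [Finset.sum_range_succ]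
  ring

lemma PL_right {p : ℕ → ℝ × ℝ} : ∀ {M : ℕ}, XInc M p → ∀ {x : ℝ}, (p M).1 ≤ x →
    PL p M x = (p M).2 := by
  intro M
  induction M with
  | zero => intro _ x _; exact PL_zero p x
  | succ M ih =>
    intro h x hx
    have h1 := h M (by omega)
    rw [PL_succ, ih (h.mono (by omega)) (h1.le.trans hx), min_eq_right hx, max_eq_right h1.le]
    unfold slp
    rw [div_mul_cancel₀ _ (by linarith : (p (M + 1)).1 - (p M).1 ≠ 0)]
    ring

lemma PL_left {p : ℕ → ℝ × ℝ} {M : ℕ} {x : ℝ} : ∀ {N : ℕ}, XInc N p → M ≤ N → x ≤ (p M).1 →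
    PL p N x = PL p M x := by
  intro N
  induction N with
  | zero => intro _ hM _; rw [Nat.le_zero.mp hM]
  | succ N ih =>
    intro h hM hx
    rcases eq_or_lt_of_le hM with rfl | hlt
    · rfl
    · have h1 : (p M).1 ≤ (p N).1 := h.le (by omega) (by omega)
      have h2 := h N (by omega)
      rw [PL_succ, ih (h.mono (by omega)) (by omega) hx,
        min_eq_left (by linarith), max_eq_left (by linarith)]
      ring

lemma PL_seg {p : ℕ → ℝ × ℝ} {N i : ℕ} (h : XInc N p) (hi : i < N) {x : ℝ} (h1 : (p i).1 ≤ x)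
    (h2 : x ≤ (p (i + 1)).1) : PL p N x = (p i).2 + slp p i * (x - (p i).1) := by
  rw [PL_left h (by omega : i + 1 ≤ N) h2, PL_succ, PL_right (h.mono (by omega)) h1,
    min_eq_left h2, max_eq_right h1]

lemma PL_conv {p : ℕ → ℝ × ℝ} {N i : ℕ} (h : XInc N p) (hi : i < N) {x : ℝ} (h1 : (p i).1 ≤ x)
    (h2 : x ≤ (p (i + 1)).1) : ((p (i + 1)).1 - (p i).1) * PL p N x =
      ((p (i + 1)).1 - x) * (p i).2 + (x - (p i).1) * (p (i + 1)).2 := by
  rw [PL_seg h hi h1 h2]
  have h3 := h i hi
  have h4 : (p (i + 1)).1 - (p i).1 ≠ 0 := by linarith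
  unfold slp
  field_simp
  ring

lemma PL_vertex {p : ℕ → ℝ × ℝ} {N i : ℕ} (h : XInc N p) (hi : i ≤ N) :
    PL p N (p i).1 = (p i).2 := by
  rw [PL_left h hi le_rfl, PL_right (h.mono hi) le_rfl]

lemma exists_seg {p : ℕ → ℝ × ℝ} {N : ℕ} (hN : 1 ≤ N) {x : ℝ} (h1 : (p 0).1 ≤ x)
    (h2 : x ≤ (p N).1) : ∃ i < N, (p i).1 ≤ x ∧ x ≤ (p (i + 1)).1 := by
  classical
  have hex : ∃ k, x ≤ (p (k + 1)).1 := ⟨N - 1, by rw [Nat.sub_add_cancel hN]; exact h2⟩
  refine ⟨Nat.find hex, ?_, ?_, Nat.find_spec hex⟩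
  · have : Nat.find hex ≤ N - 1 := Nat.find_min' hex (by rw [Nat.sub_add_cancel hN]; exact h2)
    omega
  · rcases Nat.eq_zero_or_pos (Nat.find hex) with h0 | h0
    · rw [h0]; exact h1
    · have h3 := Nat.find_min hex (m := Nat.find hex - 1) (by omega)
      rw [Nat.sub_add_cancel h0] at h3
      exact (not_le.mp h3).le

/-- edges of the chain are pieces of the graph -/
lemma segment_eq_graph {p : ℕ → ℝ × ℝ} {N i : ℕ} (h : XInc N p) (hi : i < N) :
    segment ℝ (p i) (p (i + 1)) =
      {q | (p i).1 ≤ q.1 ∧ q.1 ≤ (p (i + 1)).1 ∧ q.2 = PL p N q.1} := by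
  have h3 := h i hi
  have h4 : (p (i + 1)).1 - (p i).1 ≠ 0 := by linarith
  ext q
  rw [segment_eq_image']
  simp only [mem_image, mem_Icc, mem_ofPred_eq]
  constructor
  · rintro ⟨t, ⟨ht0, ht1⟩, rfl⟩
    simp only [Prod.fst_add, Prod.smul_fst, Prod.fst_sub, smul_eq_mul, Prod.snd_add,
      Prod.smul_snd, Prod.snd_sub]
    have e1 : (p i).1 ≤ (p i).1 + t * ((p (i + 1)).1 - (p i).1) := by nlinarith
    have e2 : (p i).1 + t * ((p (i + 1)).1 - (p i).1) ≤ (p (i + 1)).1 := by nlinarith
    refine ⟨e1, e2, ?_⟩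
    rw [PL_seg h hi e1 e2]
    unfold slp
    field_simp
    ring
  · rintro ⟨h1, h2, h5⟩
    rw [PL_seg h hi h1 h2] at h5
    refine ⟨(q.1 - (p i).1) / ((p (i + 1)).1 - (p i).1), ⟨?_, ?_⟩, ?_⟩
    · exact div_nonneg (by linarith) (by linarith)
    · rw [div_le_one (by linarith)]; linarith
    · apply Prod.ext
      · simp only [Prod.fst_add, Prod.smul_fst, Prod.fst_sub, smul_eq_mul]
        field_simp
        ring
      · simp only [Prod.snd_add, Prod.smul_snd, Prod.snd_sub, smul_eq_mul]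
        rw [h5]
        unfold slp
        field_simp

/-! ### Unions of preconnected sets -/

/-- a union of `r` preconnected sets -/
inductive NC {α : Type*} [TopologicalSpace α] : ℕ → Set α → Prop
  | zero : NC 0 ∅
  | succ {r : ℕ} {A C : Set α} : NC r A → IsPreconnected C → NC (r + 1) (A ∪ C)

lemma NC.image {α β : Type*} [TopologicalSpace α] [TopologicalSpace β] {r : ℕ} {A : Set α}
    (h : NC r A) {f : α → β} (hf : Continuous f) : NC r (f '' A) := by
  induction h with
  | zero => rw [image_empty]; exact NC.zero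
  | succ _ hC ih => rw [image_union]; exact ih.succ (hC.image _ hf.continuousOn)

lemma NC.inter {r : ℕ} {A : Set ℝ} (h : NC r A) {I : Set ℝ} (hI : I.OrdConnected) :
    NC r (A ∩ I) := by
  induction h with
  | zero => rw [empty_inter]; exact NC.zero
  | succ _ hC ih =>
    rw [union_inter_distrib_right]
    exact ih.succ (hC.ordConnected.inter hI).isPreconnected

lemma NC.encard_le {α : Type*} [TopologicalSpace α] {X : Set α} {r : ℕ} {A : Set α}
    (h : NC r A) : A ⊆ X → ((fun x => connectedComponentIn X x) '' A).encard ≤ r := by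
  induction h with
  | zero => intro _; simp
  | @succ r A C _ hC ih =>
    intro hX
    rw [image_union]
    refine (encard_union_le _ _).trans ?_
    have h1 := ih (subset_union_left.trans hX)
    have h2 : ((fun x => connectedComponentIn X x) '' C).encard ≤ 1 := by
      rw [encard_le_one_iff]
      rintro _ _ ⟨x, hx, rfl⟩ ⟨y, hy, rfl⟩
      have h3 : y ∈ connectedComponentIn X x :=
        hC.subset_connectedComponentIn hx (subset_union_right.trans hX) hy
      exact connectedComponentIn_eq h3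
    rw [Nat.cast_add, Nat.cast_one]
    exact add_le_add h1 h2

/-! ### The part of the chain above a line -/

/-- the word of the line `y = α x + β` -/
noncomputable def wd (p : ℕ → ℝ × ℝ) (α β : ℝ) (i : ℕ) : Bool :=
  decide (α * (p i).1 + β ≤ (p i).2)

lemma seg_above_ordConnected {p : ℕ → ℝ × ℝ} {N i : ℕ} (h : XInc N p) (hi : i < N) (α β : ℝ) :
    OrdConnected {x | ((p i).1 ≤ x ∧ x ≤ (p (i + 1)).1) ∧ α * x + β ≤ PL p N x} := by
  constructor
  intro x hx z hz w hw
  obtain ⟨⟨hx1, hx2⟩, hx3⟩ := hx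
  obtain ⟨⟨hz1, hz2⟩, hz3⟩ := hz
  have hw1 : (p i).1 ≤ w := hx1.trans hw.1
  have hw2 : w ≤ (p (i + 1)).1 := hw.2.trans hz2
  refine ⟨⟨hw1, hw2⟩, ?_⟩
  rw [PL_seg h hi hx1 hx2] at hx3
  rw [PL_seg h hi hz1 hz2] at hz3
  rw [PL_seg h hi hw1 hw2]
  have h1 := hw.1
  have h2 := hw.2
  rcases le_total α (slp p i) with hc | hc <;> nlinarith

lemma above_cover {p : ℕ → ℝ × ℝ} {N : ℕ} (h : XInc N p) (α β : ℝ) : ∀ m ≤ N,
    ∃ (r : ℕ) (A C : Set ℝ), NC r A ∧ C.OrdConnected ∧
      {x | ((p 0).1 ≤ x ∧ x ≤ (p m).1) ∧ α * x + β ≤ PL p N x} = A ∪ C ∧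
      (wd p α β m = true → (p m).1 ∈ C) ∧ (wd p α β m = false → C = ∅) ∧
      2 * r + (if wd p α β m = true then 2 else 0) =
        alt false ((List.range (m + 1)).map (wd p α β) ++ [false]) := by
  intro m
  induction m with
  | zero =>
    intro _
    have hset : {x | ((p 0).1 ≤ x ∧ x ≤ (p 0).1) ∧ α * x + β ≤ PL p N x} =
        {x | x = (p 0).1 ∧ wd p α β 0 = true} := by
      ext x
      simp only [mem_ofPred_eq, wd, decide_eq_true_eq]
      constructor
      · rintro ⟨⟨h1, h2⟩, h3⟩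
        have : x = (p 0).1 := le_antisymm h2 h1
        subst this
        rw [PL_vertex h (by omega)] at h3
        exact ⟨rfl, h3⟩
      · rintro ⟨rfl, h3⟩
        rw [PL_vertex h (by omega)]
        exact ⟨⟨le_rfl, le_rfl⟩, h3⟩
    rw [hset]
    cases hw : wd p α β 0
    · refine ⟨0, ∅, ∅, NC.zero, ordConnected_empty, ?_, ?_, ?_, ?_⟩
      · ext x; simp
      · intro h; exact absurd h (by simp)
      · intro _; rfl
      · simp [alt_cons, hw]
    · refine ⟨0, ∅, {(p 0).1}, NC.zero, ordConnected_singleton, ?_, ?_, ?_, ?_⟩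
      · ext x; simp
      · intro _; rfl
      · intro h; exact absurd h (by simp)
      · simp [alt_cons, hw]
  | succ m ih =>
    intro hm
    obtain ⟨r, A, C, hA, hC, hU, htrue, hfalse, hcount⟩ := ih (by omega)
    set Y := {x | ((p m).1 ≤ x ∧ x ≤ (p (m + 1)).1) ∧ α * x + β ≤ PL p N x} with hY
    have hYo : Y.OrdConnected := seg_above_ordConnected h (by omega) α β
    have h0m : (p 0).1 ≤ (p m).1 := h.le (by omega) (by omega)
    have hmm : (p m).1 < (p (m + 1)).1 := h m (by omega)
    have hsplit : {x | ((p 0).1 ≤ x ∧ x ≤ (p (m + 1)).1) ∧ α * x + β ≤ PL p N x} = (A ∪ C) ∪ Y := by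
      rw [← hU]
      ext x
      simp only [mem_ofPred_eq, mem_union, hY]
      constructor
      · rintro ⟨⟨h1, h2⟩, h3⟩
        rcases le_total x (p m).1 with h4 | h4
        · exact Or.inl ⟨⟨h1, h4⟩, h3⟩
        · exact Or.inr ⟨⟨h4, h2⟩, h3⟩
      · rintro (⟨⟨h1, h2⟩, h3⟩ | ⟨⟨h1, h2⟩, h3⟩)
        · exact ⟨⟨h1, by linarith⟩, h3⟩
        · exact ⟨⟨by linarith, h2⟩, h3⟩
    have hvm : wd p α β m = true → (p m).1 ∈ Y := by
      intro hw
      refine ⟨⟨le_rfl, hmm.le⟩, ?_⟩
      rw [PL_vertex h (by omega)]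
      simpa [wd] using hw
    have hvm1 : wd p α β (m + 1) = true → (p (m + 1)).1 ∈ Y := by
      intro hw
      refine ⟨⟨hmm.le, le_rfl⟩, ?_⟩
      rw [PL_vertex h hm]
      simpa [wd] using hw
    have hlast : ∀ c : Bool, alt false ((List.range (m + 1 + 1)).map (wd p α β) ++ [c]) =
        alt false ((List.range m).map (wd p α β) ++ [wd p α β m]) +
          (if wd p α β m = wd p α β (m + 1) then 0 else 1) +
          (if wd p α β (m + 1) = c then 0 else 1) := by
      intro c
      rw [List.range_succ, List.map_append, List.range_succ, List.map_append]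
      simp only [List.map_cons, List.map_nil]
      rw [alt_append, alt_append false (List.map (wd p α β) (List.range m) ++ [wd p α β m])]
      simp [alt_cons]
    have hprev : alt false ((List.range (m + 1)).map (wd p α β) ++ [false]) =
        alt false ((List.range m).map (wd p α β) ++ [wd p α β m]) +
          (if wd p α β m = false then 0 else 1) := by
      rw [List.range_succ, List.map_append]
      simp only [List.map_cons, List.map_nil]
      rw [alt_append false (List.map (wd p α β) (List.range m) ++ [wd p α β m])]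
      simp [alt_cons]
    rw [hprev] at hcount
    rw [hlast false, hsplit]
    cases hw : wd p α β m <;> cases hw1 : wd p α β (m + 1)
    · -- false, false
      have hYe : Y = ∅ := by
        rw [eq_empty_iff_forall_notMem]
        rintro x ⟨⟨h1, h2⟩, h3⟩
        rw [wd, decide_eq_false_iff_not, not_le] at hw hw1
        have h4 := PL_conv h (show m < N by omega) h1 h2
        have h5 : ((p (m + 1)).1 - (p m).1) * (α * x + β) ≤
            ((p (m + 1)).1 - (p m).1) * PL p N x := mul_le_mul_of_nonneg_left h3 (by linarith)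
        rw [h4] at h5
        rcases eq_or_lt_of_le h1 with h6 | h6
        · subst h6
          nlinarith
        · nlinarith
      rw [hw] at hcount
      refine ⟨r, A, ∅, hA, ordConnected_empty, ?_, ?_, ?_, ?_⟩
      · rw [hfalse hw, hYe]; simp
      · intro h; exact absurd h (by simp)
      · intro _; rfl
      · simp at hcount ⊢; exact hcount
    · -- false, true
      rw [hw] at hcount
      refine ⟨r, A, Y, hA, hYo, ?_, ?_, ?_, ?_⟩
      · rw [hfalse hw]; simp
      · intro _; exact hvm1 hw1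
      · intro h; exact absurd h (by simp)
      · simp at hcount ⊢; omega
    · -- true, false
      rw [hw] at hcount
      have hCY : (C ∪ Y).OrdConnected := (IsPreconnected.union (p m).1 (htrue hw) (hvm hw)
        hC.isPreconnected hYo.isPreconnected).ordConnected
      refine ⟨r + 1, A ∪ (C ∪ Y), ∅, hA.succ hCY.isPreconnected, ordConnected_empty,
        ?_, ?_, ?_, ?_⟩
      · simp [union_assoc]
      · intro h; exact absurd h (by simp)
      · intro _; rfl
      · simp at hcount ⊢; omega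
    · -- true, true
      rw [hw] at hcount
      have hCY : (C ∪ Y).OrdConnected := (IsPreconnected.union (p m).1 (htrue hw) (hvm hw)
        hC.isPreconnected hYo.isPreconnected).ordConnected
      refine ⟨r, A, C ∪ Y, hA, hCY, ?_, ?_, ?_, ?_⟩
      · simp [union_assoc]
      · intro _; exact Or.inr (hvm1 hw1)
      · intro h; exact absurd h (by simp)
      · simp at hcount ⊢; omega

/-- the part of the interval where the chain is on or above a line is a union of few intervals -/
lemma above_NC {p : ℕ → ℝ × ℝ} {N : ℕ} (h : XInc N p) (α β : ℝ) :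
    ∃ r : ℕ, NC r {x | ((p 0).1 ≤ x ∧ x ≤ (p N).1) ∧ α * x + β ≤ PL p N x} ∧
      2 * r = alt false ((List.range (N + 1)).map (wd p α β) ++ [false]) := by
  obtain ⟨r, A, C, hA, hC, hU, htrue, hfalse, hcount⟩ := above_cover h α β N le_rfl
  rw [hU]
  cases hw : wd p α β N
  · rw [hfalse hw, union_empty]
    rw [hw] at hcount
    simp only [Bool.false_eq_true, if_false, add_zero] at hcount
    exact ⟨r, hA, hcount⟩
  · rw [hw] at hcount
    simp only [if_true] at hcount
    exact ⟨r + 1, hA.succ hC.isPreconnected, by omega⟩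

end Pool.Agent.H41.Kc
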