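import Mathlib
import Pool.Agent.H41.Kc.Defs
import Pool.Agent.H41.Kc.PLF

set_option autoImplicit false
set_option linter.unusedSectionVars false

/-!
A chain of points above a horizontal base, as a polygon.
-/

namespace Pool.Agent.H41.Kc

open Set Metric

section

variable {N : ℕ} {p : ℕ → ℝ × ℝ} (h : XInc N p) (hN : 2 ≤ N) (h0 : (p 0).2 = 0)
  (hNN : (p N).2 = 0) (hpos : ∀ i, 0 < i → i < N → 0 < (p i).2)

/-- the region below the chain -/
def reg (p : ℕ → ℝ × ℝ) (N : ℕ) : Set (ℝ × ℝ) :=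
  {q | (p 0).1 ≤ q.1 ∧ q.1 ≤ (p N).1 ∧ 0 ≤ q.2 ∧ q.2 ≤ PL p N q.1}

include h hN h0 hNN hpos

lemma PL_pos {x : ℝ} (h1 : (p 0).1 < x) (h2 : x < (p N).1) : 0 < PL p N x := by
  obtain ⟨i, hi, h3, h4⟩ := exists_seg (by omega : 1 ≤ N) h1.le h2.le
  have h5 := PL_conv h hi h3 h4
  have h6 := h i hi
  have h7 : 0 < ((p (i + 1)).1 - x) * (p i).2 + (x - (p i).1) * (p (i + 1)).2 := by
    rcases Nat.eq_zero_or_pos i with rfl | hi0
    · rw [h0]
      have := hpos 1 (by omega) (by omega)
      nlinarith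
    · have h8 := hpos i hi0 hi
      rcases eq_or_lt_of_le (show i + 1 ≤ N from hi) with h9 | h9
      · rw [h9, hNN]
        nlinarith
      · have h10 := hpos (i + 1) (by omega) h9
        rcases eq_or_lt_of_le h3 with h11 | h11
        · rw [← h11]; nlinarith
        · nlinarith [mul_pos (sub_pos.mpr h11) h10, mul_nonneg (sub_nonneg.mpr h4) h8.le]
  rw [← h5] at h7
  exact (mul_pos_iff_of_pos_left (by linarith)).mp h7

lemma PL_nonneg {x : ℝ} (h1 : (p 0).1 ≤ x) (h2 : x ≤ (p N).1) : 0 ≤ PL p N x := by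
  rcases eq_or_lt_of_le h1 with h3 | h3
  · rw [← h3, PL_vertex h (by omega), h0]
  · rcases eq_or_lt_of_le h2 with h4 | h4
    · rw [h4, PL_vertex h (by omega), hNN]
    · exact (PL_pos h hN h0 hNN hpos h3 h4).le

lemma reg_eq_image : reg p N =
    (fun z : ℝ × ℝ => (z.1, z.2 * PL p N z.1)) '' (Icc (p 0).1 (p N).1 ×ˢ Icc 0 1) := by
  ext q
  simp only [reg, mem_ofPred_eq, mem_image, mem_prod, mem_Icc, Prod.exists]
  constructor
  · rintro ⟨h1, h2, h3, h4⟩
    rcases eq_or_lt_of_le (PL_nonneg h hN h0 hNN hpos h1 h2) with h5 | h5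
    · refine ⟨q.1, 0, ⟨⟨h1, h2⟩, le_rfl, zero_le_one⟩, ?_⟩
      have : q.2 = 0 := by linarith
      rw [zero_mul, ← this]
    · refine ⟨q.1, q.2 / PL p N q.1, ⟨⟨h1, h2⟩, div_nonneg h3 h5.le, ?_⟩, ?_⟩
      · rw [div_le_one h5]; exact h4
      · rw [div_mul_cancel₀ _ h5.ne']
  · rintro ⟨x, t, ⟨⟨h1, h2⟩, h3, h4⟩, rfl⟩
    have h5 := PL_nonneg h hN h0 hNN hpos h1 h2
    refine ⟨h1, h2, mul_nonneg h3 h5, ?_⟩
    show t * PL p N x ≤ PL p N x
    nlinarith

lemma isCompact_reg : IsCompact (reg p N) := by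
  rw [reg_eq_image h hN h0 hNN hpos]
  refine (isCompact_Icc.prod isCompact_Icc).image ?_
  have := continuous_PL p N
  fun_prop

lemma open_subset_interior :
    {q : ℝ × ℝ | ((p 0).1 < q.1 ∧ q.1 < (p N).1) ∧ 0 < q.2 ∧ q.2 < PL p N q.1} ⊆
      interior (reg p N) := by
  have hc := continuous_PL p N
  apply interior_maximal
  · rintro q ⟨⟨h1, h2⟩, h3, h4⟩
    exact ⟨h1.le, h2.le, h3.le, h4.le⟩
  · apply IsOpen.inter
    · exact (isOpen_lt continuous_const continuous_fst).inter
        (isOpen_lt continuous_fst continuous_const)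
    · exact (isOpen_lt continuous_const continuous_snd).inter
        (isOpen_lt continuous_snd (hc.comp continuous_fst))

lemma regular_reg : closure (interior (reg p N)) = reg p N := by
  have hx : (p 0).1 < (p N).1 := h.lt (by omega) le_rfl
  apply Subset.antisymm
  · exact closure_minimal interior_subset (isCompact_reg h hN h0 hNN hpos).isClosed
  · rw [reg_eq_image h hN h0 hNN hpos]
    have h1 : Icc (p 0).1 (p N).1 ×ˢ Icc (0 : ℝ) 1 =
        closure (Ioo (p 0).1 (p N).1 ×ˢ Ioo (0 : ℝ) 1) := by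
      rw [closure_prod_eq, closure_Ioo hx.ne, closure_Ioo zero_ne_one]
    rw [h1]
    have hc : Continuous (fun z : ℝ × ℝ => (z.1, z.2 * PL p N z.1)) := by
      have := continuous_PL p N
      fun_prop
    refine (image_closure_subset_closure_image hc).trans (closure_mono ?_)
    rw [← h1, ← reg_eq_image h hN h0 hNN hpos]
    refine Subset.trans ?_ (open_subset_interior h hN h0 hNN hpos)
    rintro _ ⟨⟨x, t⟩, ⟨⟨h2, h3⟩, h4, h5⟩, rfl⟩
    have h6 := PL_pos h hN h0 hNN hpos h2 h3
    exact ⟨⟨h2, h3⟩, mul_pos h4 h6, by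
      show t * PL p N x < PL p N x
      have : t < 1 := h5
      nlinarith⟩

omit h hN h0 hNN hpos in
lemma bottom_segment {p : ℕ → ℝ × ℝ} {N : ℕ} (hx : (p 0).1 < (p N).1) (h0 : (p 0).2 = 0)
    (hNN : (p N).2 = 0) :
    segment ℝ (p N) (p 0) = {q | (p 0).1 ≤ q.1 ∧ q.1 ≤ (p N).1 ∧ q.2 = 0} := by
  rw [segment_symm, segment_eq_image']
  ext q
  simp only [mem_image, mem_Icc, mem_ofPred_eq]
  constructor
  · rintro ⟨t, ⟨ht0, ht1⟩, rfl⟩
    simp only [Prod.fst_add, Prod.smul_fst, Prod.fst_sub, smul_eq_mul, Prod.snd_add,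
      Prod.smul_snd, Prod.snd_sub, h0, hNN]
    refine ⟨by nlinarith, by nlinarith, by ring⟩
  · rintro ⟨h1, h2, h3⟩
    have h4 : (p N).1 - (p 0).1 ≠ 0 := by linarith
    refine ⟨(q.1 - (p 0).1) / ((p N).1 - (p 0).1), ⟨?_, ?_⟩, ?_⟩
    · exact div_nonneg (by linarith) (by linarith)
    · rw [div_le_one (by linarith)]; linarith
    · apply Prod.ext
      · simp only [Prod.fst_add, Prod.smul_fst, Prod.fst_sub, smul_eq_mul]
        field_simp
        ring
      · simp only [Prod.snd_add, Prod.smul_snd, Prod.snd_sub, smul_eq_mul, h0, hNN, h3]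
        ring

/-- points above and below a point of an interior point are in the region -/
lemma not_interior_of {q : ℝ × ℝ} (_hq : q ∈ reg p N) (h1 : q.2 = 0 ∨ q.2 = PL p N q.1) :
    q ∉ interior (reg p N) := by
  intro hint
  obtain ⟨ε, hε, hball⟩ := Metric.isOpen_iff.mp isOpen_interior q hint
  rcases h1 with h1 | h1
  · have hmem : ((q.1, q.2 - ε / 2) : ℝ × ℝ) ∈ ball q ε := by
      rw [mem_ball, Prod.dist_eq]
      simp only [dist_self, Real.dist_eq, sub_sub_cancel_left, abs_neg, abs_of_pos (half_pos hε)]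
      rw [max_eq_right (half_pos hε).le]
      linarith
    have := (interior_subset (hball hmem)).2.2.1
    simp only at this
    linarith
  · have hmem : ((q.1, q.2 + ε / 2) : ℝ × ℝ) ∈ ball q ε := by
      rw [mem_ball, Prod.dist_eq]
      simp only [dist_self, Real.dist_eq, add_sub_cancel_left, abs_of_pos (half_pos hε)]
      rw [max_eq_right (half_pos hε).le]
      linarith
    have := (interior_subset (hball hmem)).2.2.2
    simp only at this
    linarith

lemma frontier_reg : frontier (reg p N) =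
    {q | (p 0).1 ≤ q.1 ∧ q.1 ≤ (p N).1 ∧ (q.2 = 0 ∨ q.2 = PL p N q.1)} := by
  rw [(isCompact_reg h hN h0 hNN hpos).isClosed.frontier_eq]
  ext q
  constructor
  · rintro ⟨⟨h1, h2, h3, h4⟩, h5⟩
    refine ⟨h1, h2, ?_⟩
    by_contra hcon
    push Not at hcon
    obtain ⟨h6, h7⟩ := hcon
    apply h5
    apply open_subset_interior h hN h0 hNN hpos
    refine ⟨⟨lt_of_le_of_ne h1 ?_, lt_of_le_of_ne h2 ?_⟩, lt_of_le_of_ne h3 (Ne.symm h6),
      lt_of_le_of_ne h4 h7⟩
    · intro h8
      rw [← h8, PL_vertex h (by omega), h0] at h4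
      exact h6 (le_antisymm h4 h3)
    · intro h8
      rw [h8, PL_vertex h (by omega), hNN] at h4
      exact h6 (le_antisymm h4 h3)
  · rintro ⟨h1, h2, h3⟩
    have h4 := PL_nonneg h hN h0 hNN hpos h1 h2
    have hq : q ∈ reg p N := by
      refine ⟨h1, h2, ?_, ?_⟩
      · rcases h3 with h3 | h3 <;> rw [h3]
        exact h4
      · rcases h3 with h3 | h3 <;> rw [h3]
        exact h4
    exact ⟨hq, not_interior_of h hN h0 hNN hpos hq h3⟩

end

/-- the cyclic vertex sequence -/
def cyc (N : ℕ) (p : ℕ → ℝ × ℝ) (i : ZMod (N + 1)) : ℝ × ℝ := p i.val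

lemma val_add_one' {N : ℕ} (i : ZMod (N + 1)) :
    (i.val < N ∧ (i + 1).val = i.val + 1) ∨ (i.val = N ∧ (i + 1).val = 0) := by
  have hlt : i.val < N + 1 := ZMod.val_lt i
  have hi : ((i.val : ℕ) : ZMod (N + 1)) = i := ZMod.natCast_zmod_val i
  rcases eq_or_lt_of_le (Nat.lt_succ_iff.mp hlt) with h | h
  · right
    refine ⟨h, ?_⟩
    have h1 : i + 1 = ((N + 1 : ℕ) : ZMod (N + 1)) := by
      rw [← hi, h]; push_cast; rfl
    rw [h1, ZMod.natCast_self, ZMod.val_zero]
  · left
    refine ⟨h, ?_⟩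
    have h1 : i + 1 = ((i.val + 1 : ℕ) : ZMod (N + 1)) := by
      rw [Nat.cast_add, hi, Nat.cast_one]
    rw [h1, ZMod.val_natCast_of_lt (by omega)]

section

variable {N : ℕ} {p : ℕ → ℝ × ℝ} (h : XInc N p) (hN : 2 ≤ N) (h0 : (p 0).2 = 0)
  (hNN : (p N).2 = 0) (hpos : ∀ i, 0 < i → i < N → 0 < (p i).2)

include h hN h0 hNN

lemma edge_cyc (i : ZMod (N + 1)) :
    (i.val < N ∧ edge (cyc N p) i =
      {q | (p i.val).1 ≤ q.1 ∧ q.1 ≤ (p (i.val + 1)).1 ∧ q.2 = PL p N q.1}) ∨
    (i.val = N ∧ edge (cyc N p) i = {q | (p 0).1 ≤ q.1 ∧ q.1 ≤ (p N).1 ∧ q.2 = 0}) := by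
  rcases val_add_one' i with ⟨h1, h2⟩ | ⟨h1, h2⟩
  · left
    refine ⟨h1, ?_⟩
    unfold edge cyc
    rw [h2, segment_eq_graph h h1]
  · right
    refine ⟨h1, ?_⟩
    unfold edge cyc
    rw [h2, h1, bottom_segment (h.lt (by omega) le_rfl) h0 hNN]

include hpos

lemma isSimple_cyc : IsSimplePolygon (cyc N p) := by
  have key : ∀ i j : ZMod (N + 1), i.val < j.val → ∀ q ∈ edge (cyc N p) i ∩ edge (cyc N p) j,
      (j = i + 1 ∧ q = cyc N p j) ∨ (i = j + 1 ∧ q = cyc N p i) := by
    rintro i j hij q ⟨hqi, hqj⟩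
    have hjlt : j.val < N + 1 := ZMod.val_lt j
    rcases edge_cyc h hN h0 hNN i with ⟨hi, hei⟩ | ⟨hi, hei⟩
    · rw [hei] at hqi
      obtain ⟨hq1, hq2, hq3⟩ := hqi
      rcases edge_cyc h hN h0 hNN j with ⟨hj, hej⟩ | ⟨hj, hej⟩
      · rw [hej] at hqj
        obtain ⟨hr1, hr2, hr3⟩ := hqj
        left
        have h1 : j.val ≤ i.val + 1 := by
          rw [← h.le_iff (by omega) (by omega)]
          linarith
        have h2 : j.val = i.val + 1 := by omega
        have h3 : q.1 = (p j.val).1 := by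
          rw [← h2] at hq2
          linarith
        refine ⟨?_, ?_⟩
        · apply ZMod.val_injective
          rcases val_add_one' i with ⟨_, h4⟩ | ⟨h4, _⟩
          · rw [h4, h2]
          · omega
        · unfold cyc
          refine Prod.ext h3 ?_
          rw [hq3, h3, PL_vertex h (by omega)]
      · rw [hej] at hqj
        obtain ⟨hr1, hr2, hr3⟩ := hqj
        rcases eq_or_lt_of_le hr1 with h4 | h4
        · -- left end
          right
          have h5 : i.val ≤ 0 := by
            rw [← h.le_iff (by omega) (by omega)]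
            linarith
          have h6 : i.val = 0 := by omega
          refine ⟨?_, ?_⟩
          · apply ZMod.val_injective
            rcases val_add_one' j with ⟨h7, _⟩ | ⟨_, h7⟩
            · omega
            · rw [h7, h6]
          · unfold cyc
            rw [h6]
            exact Prod.ext h4.symm (by rw [hr3, h0])
        · rcases eq_or_lt_of_le hr2 with h5 | h5
          · left
            have h6 : N ≤ i.val + 1 := by
              rw [← h.le_iff le_rfl (by omega)]
              linarith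
            refine ⟨?_, ?_⟩
            · apply ZMod.val_injective
              rcases val_add_one' i with ⟨_, h7⟩ | ⟨h7, _⟩
              · rw [h7]; omega
              · omega
            · unfold cyc
              rw [hj]
              exact Prod.ext h5 (by rw [hr3, hNN])
          · exfalso
            have := PL_pos h hN h0 hNN hpos h4 h5
            linarith
    · omega
  constructor
  · omega
  · intro i j hij
    apply ZMod.val_injective
    have hi : i.val < N + 1 := ZMod.val_lt i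
    have hj : j.val < N + 1 := ZMod.val_lt j
    unfold cyc at hij
    by_contra hne
    rcases Nat.lt_or_gt_of_ne hne with h1 | h1
    · have := h.lt h1 (by omega)
      rw [hij] at this
      exact lt_irrefl _ this
    · have := h.lt h1 (by omega)
      rw [hij] at this
      exact lt_irrefl _ this
  · intro i j hij q hq
    have hne : i.val ≠ j.val := fun h => hij (ZMod.val_injective _ h)
    rcases Nat.lt_or_gt_of_ne hne with h1 | h1
    · exact key i j h1 q hq
    · exact (key j i h1 q hq.symm).symm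

lemma isRegionOf_cyc : IsRegionOf (cyc N p) (reg p N) := by
  refine ⟨isCompact_reg h hN h0 hNN hpos, regular_reg h hN h0 hNN hpos, ?_⟩
  rw [frontier_reg h hN h0 hNN hpos]
  ext q
  simp only [mem_ofPred_eq, mem_iUnion]
  constructor
  · rintro ⟨h1, h2, h3 | h3⟩
    · refine ⟨((N : ℕ) : ZMod (N + 1)), ?_⟩
      have hval : ((N : ℕ) : ZMod (N + 1)).val = N := ZMod.val_natCast_of_lt (by omega)
      rcases edge_cyc h hN h0 hNN ((N : ℕ) : ZMod (N + 1)) with ⟨h4, _⟩ | ⟨_, h4⟩
      · rw [hval] at h4; omega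
      · rw [h4]; exact ⟨h1, h2, h3⟩
    · obtain ⟨i, hi, h4, h5⟩ := exists_seg (by omega : 1 ≤ N) h1 h2
      refine ⟨((i : ℕ) : ZMod (N + 1)), ?_⟩
      have hval : ((i : ℕ) : ZMod (N + 1)).val = i := ZMod.val_natCast_of_lt (by omega)
      rcases edge_cyc h hN h0 hNN ((i : ℕ) : ZMod (N + 1)) with ⟨_, h6⟩ | ⟨h6, _⟩
      · rw [h6, hval]; exact ⟨h4, h5, h3⟩
      · rw [hval] at h6; omega
  · rintro ⟨i, hi⟩
    rcases edge_cyc h hN h0 hNN i with ⟨h6, h7⟩ | ⟨h6, h7⟩
    · rw [h7] at hi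
      obtain ⟨h8, h9, h10⟩ := hi
      exact ⟨(h.le (Nat.zero_le _) h6.le).trans h8, h9.trans (h.le h6 le_rfl), Or.inr h10⟩
    · rw [h7] at hi
      exact ⟨hi.1, hi.2.1, Or.inl hi.2.2⟩

lemma count_reg {K : ℕ} (hK : 1 ≤ K)
    (hw : ∀ α β : ℝ, alt false ((List.range (N + 1)).map (wd p α β) ++ [false]) ≤ 2 * K + 1)
    {l : Set (ℝ × ℝ)} (hl : IsLine l) : componentCount (reg p N ∩ l) ≤ K := by
  obtain ⟨a, b, c, hab, rfl⟩ := hl
  by_cases hb : b = 0
  · -- vertical line
    subst hb
    have ha : a ≠ 0 := by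
      intro h
      apply hab
      rw [h]
    have hpre : IsPreconnected (reg p N ∩ {q : ℝ × ℝ | a * q.1 + 0 * q.2 = c}) := by
      apply Convex.isPreconnected
      rintro ⟨x, y⟩ ⟨⟨h1, h2, h3, h4⟩, h5⟩ ⟨x', y'⟩ ⟨⟨h1', h2', h3', h4'⟩, h5'⟩ s t hs ht hst
      simp only [mem_ofPred_eq, zero_mul, add_zero] at h1 h2 h3 h4 h5 h1' h2' h3' h4' h5'
      have hxx : x' = x := by
        apply mul_left_cancel₀ ha
        rw [h5, h5']
      subst hxx
      have hx : s * x' + t * x' = x' := by rw [← add_mul, hst, one_mul]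
      simp only [reg, Prod.smul_mk, smul_eq_mul, Prod.mk_add_mk, mem_inter_iff, mem_ofPred_eq,
        zero_mul, add_zero, hx]
      refine ⟨⟨h1, h2, by positivity, ?_⟩, h5⟩
      have : s * PL p N x' + t * PL p N x' = PL p N x' := by rw [← add_mul, hst, one_mul]
      rw [← this]
      exact add_le_add (mul_le_mul_of_nonneg_left h4 hs) (mul_le_mul_of_nonneg_left h4' ht)
    have hNC : NC 1 (reg p N ∩ {q : ℝ × ℝ | a * q.1 + 0 * q.2 = c}) := by
      have := NC.zero.succ hpre
      rwa [empty_union] at this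
    refine (hNC.encard_le (Subset.refl _)).trans ?_
    exact_mod_cast hK
  · -- other lines
    set α := -a / b with hα
    set β := c / b with hβ
    obtain ⟨r, hr, hcount⟩ := above_NC h α β
    have hI : OrdConnected {x : ℝ | 0 ≤ α * x + β} := by
      constructor
      intro x hx z hz w hw
      simp only [mem_ofPred_eq] at hx hz ⊢
      have h1 := hw.1
      have h2 := hw.2
      rcases le_total 0 α with hc | hc <;> nlinarith
    have hNC := (hr.inter hI).image (f := fun x : ℝ => ((x, α * x + β) : ℝ × ℝ)) (by fun_prop)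
    have hset : reg p N ∩ {q : ℝ × ℝ | a * q.1 + b * q.2 = c} =
        (fun x : ℝ => ((x, α * x + β) : ℝ × ℝ)) ''
          ({x | ((p 0).1 ≤ x ∧ x ≤ (p N).1) ∧ α * x + β ≤ PL p N x} ∩
            {x : ℝ | 0 ≤ α * x + β}) := by
      have hline : ∀ x y : ℝ, a * x + b * y = c ↔ y = α * x + β := by
        intro x y
        rw [hα, hβ]
        constructor
        · intro h
          field_simp
          linarith
        · intro h
          rw [h]
          field_simp
          ring
      ext ⟨x, y⟩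
      simp only [reg, mem_inter_iff, mem_ofPred_eq, mem_image, Prod.mk.injEq, hline]
      constructor
      · rintro ⟨⟨h1, h2, h3, h4⟩, h5⟩
        subst h5
        exact ⟨x, ⟨⟨⟨h1, h2⟩, h4⟩, h3⟩, rfl, rfl⟩
      · rintro ⟨x', ⟨⟨⟨h1, h2⟩, h4⟩, h3⟩, rfl, rfl⟩
        exact ⟨⟨h1, h2, h3, h4⟩, rfl⟩
    rw [hset]
    refine (hNC.encard_le (Subset.refl _)).trans ?_
    have := hw α β
    have : r ≤ K := by omega
    exact_mod_cast this

/-- The points of the chain form a `K`-convex set. -/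
theorem kconvex_of_chain {K : ℕ} (hK : 1 ≤ K) (hg : GeneralPosition (p '' {i | i ≤ N}))
    (hw : ∀ α β : ℝ, alt false ((List.range (N + 1)).map (wd p α β) ++ [false]) ≤ 2 * K + 1) :
    KConvexSet K (p '' {i | i ≤ N}) := by
  refine ⟨hg, N + 1, cyc N p, reg p N, isSimple_cyc h hN h0 hNN hpos, ?_,
    isRegionOf_cyc h hN h0 hNN hpos, fun l hl => count_reg h hN h0 hNN hpos hK hw hl⟩
  ext q
  simp only [mem_range, mem_image, mem_ofPred_eq]
  constructor
  · rintro ⟨i, rfl⟩
    have : i.val < N + 1 := ZMod.val_lt i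
    exact ⟨i.val, by omega, rfl⟩
  · rintro ⟨i, hi, rfl⟩
    exact ⟨((i : ℕ) : ZMod (N + 1)), by unfold cyc; rw [ZMod.val_natCast_of_lt (by omega)]⟩

end

end Pool.Agent.H41.Kc
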