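import Mathlib
import Pool.Agent.H41.Kc.Region
import Pool.Agent.H41.Kc.Cross

set_option autoImplicit false

/-!
General position, and polygons from sorted lists of points.
-/

namespace Pool.Agent.H41.Kc

open Set

lemma encard_le_two_of {α : Type*} {s : Set α}
    (h : ∀ x ∈ s, ∀ y ∈ s, ∀ z ∈ s, x ≠ y → y ≠ z → x ≠ z → False) : s.encard ≤ 2 := by
  by_contra hcon
  push Not at hcon
  have h3 : (3 : ℕ∞) ≤ s.encard := by
    have := Order.add_one_le_of_lt hcon
    norm_num at this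
    exact this
  obtain ⟨t, hts, ht⟩ := Set.exists_subset_encard_eq h3
  obtain ⟨x, y, z, hxy, hxz, hyz, rfl⟩ := Set.encard_eq_three.mp ht
  exact h x (hts (by simp)) y (hts (by simp)) z (hts (by simp)) hxy hyz hxz

lemma mf_zero_of_line {a b c : ℝ} (hab : (a, b) ≠ (0, 0)) {x y z : ℝ × ℝ}
    (hx : a * x.1 + b * x.2 = c) (hy : a * y.1 + b * y.2 = c) (hz : a * z.1 + b * z.2 = c) :
    mf x y z = 0 := by
  have h1 : a * mf x y z = 0 := by
    unfold mf
    have e1 : a * (y.1 - x.1) = -b * (y.2 - x.2) := by linarith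
    have e2 : a * (z.1 - x.1) = -b * (z.2 - x.2) := by linarith
    calc a * ((y.1 - x.1) * (z.2 - x.2) - (y.2 - x.2) * (z.1 - x.1))
        = (a * (y.1 - x.1)) * (z.2 - x.2) - (y.2 - x.2) * (a * (z.1 - x.1)) := by ring
      _ = 0 := by rw [e1, e2]; ring
  have h2 : b * mf x y z = 0 := by
    unfold mf
    have e1 : b * (y.2 - x.2) = -a * (y.1 - x.1) := by linarith
    have e2 : b * (z.2 - x.2) = -a * (z.1 - x.1) := by linarith
    calc b * ((y.1 - x.1) * (z.2 - x.2) - (y.2 - x.2) * (z.1 - x.1))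
        = (y.1 - x.1) * (b * (z.2 - x.2)) - (b * (y.2 - x.2)) * (z.1 - x.1) := by ring
      _ = 0 := by rw [e1, e2]; ring
  rcases mul_eq_zero.mp h1 with h | h
  · rcases mul_eq_zero.mp h2 with h' | h'
    · exact absurd (by rw [h, h']) hab
    · exact h'
  · exact h

/-- general position from the orientation function -/
lemma gp_of_mf {P : Set (ℝ × ℝ)}
    (h : ∀ x ∈ P, ∀ y ∈ P, ∀ z ∈ P, x ≠ y → y ≠ z → x ≠ z → mf x y z ≠ 0) :
    GeneralPosition P := by
  rintro l ⟨a, b, c, hab, rfl⟩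
  apply encard_le_two_of
  rintro x ⟨hx, hx'⟩ y ⟨hy, hy'⟩ z ⟨hz, hz'⟩ hxy hyz hxz
  exact h x hx y hy z hz hxy hyz hxz (mf_zero_of_line hab hx' hy' hz')

lemma mf_of_gp {P : Set (ℝ × ℝ)} (h : GeneralPosition P) {x y z : ℝ × ℝ} (hx : x ∈ P)
    (hy : y ∈ P) (hz : z ∈ P) (hxy : x ≠ y) (hyz : y ≠ z) (hxz : x ≠ z) : mf x y z ≠ 0 := by
  intro h0
  set a := -(y.2 - x.2) with ha
  set b := y.1 - x.1 with hb
  have hab : (a, b) ≠ (0, 0) := by
    intro h
    rw [Prod.mk.injEq] at h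
    apply hxy
    exact Prod.ext (by linarith [h.2]) (by linarith [h.1])
  have h1 := h {p | a * p.1 + b * p.2 = a * x.1 + b * x.2} ⟨a, b, _, hab, rfl⟩
  have h2 : ({x, y, z} : Set (ℝ × ℝ)) ⊆ P ∩ {p | a * p.1 + b * p.2 = a * x.1 + b * x.2} := by
    intro w hw
    simp only [mem_insert_iff, mem_singleton_iff] at hw
    rcases hw with rfl | rfl | rfl
    · exact ⟨hx, rfl⟩
    · refine ⟨hy, ?_⟩
      simp only [mem_ofPred_eq, ha, hb]
      ring
    · refine ⟨hz, ?_⟩
      simp only [mem_ofPred_eq, ha, hb]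
      unfold mf at h0
      linarith
  have h3 := (encard_le_encard h2).trans h1
  have h4 : ({x, y, z} : Set (ℝ × ℝ)).encard = 3 :=
    Set.encard_eq_three.mpr ⟨x, y, z, hxy, hxz, hyz, rfl⟩
  rw [h4] at h3
  exact absurd h3 (by norm_num)

lemma mf_swap12 (x y z : ℝ × ℝ) : mf y x z = - mf x y z := by
  simp only [mf]; ring

lemma mf_swap23 (x y z : ℝ × ℝ) : mf x z y = - mf x y z := by
  simp only [mf]; ring

/-- finitely many points of the axis lie on lines through two points above the axis -/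
lemma bad_finite {M : Set (ℝ × ℝ)} (hM : M.Finite) (hpos : ∀ z ∈ M, 0 < z.2) :
    {t : ℝ | ∃ z ∈ M, ∃ w ∈ M, z ≠ w ∧ mf z w (t, 0) = 0}.Finite := by
  refine ((hM.prod hM).image (fun q : (ℝ × ℝ) × (ℝ × ℝ) =>
    q.1.1 - (q.2.1 - q.1.1) * q.1.2 / (q.2.2 - q.1.2))).subset ?_
  rintro t ⟨z, hz, w, hw, hne, h0⟩
  refine ⟨(z, w), ⟨hz, hw⟩, ?_⟩
  simp only
  unfold mf at h0
  simp only at h0
  have h1 : w.2 - z.2 ≠ 0 := by
    intro h
    rw [h, zero_mul, sub_zero] at h0
    rcases mul_eq_zero.mp h0 with h2 | h2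
    · exact hne (Prod.ext (by linarith) (by linarith))
    · have := hpos z hz; linarith
  field_simp
  linarith

/-- two far away points of the axis can be added to a set above the axis -/
lemma gp_add {M : Set (ℝ × ℝ)} (hM : M.Finite) (hpos : ∀ z ∈ M, 0 < z.2)
    (hg : GeneralPosition M) (X : ℝ) :
    ∃ s t : ℝ, s < -X ∧ X < t ∧ s < t ∧ GeneralPosition ({(s, 0), (t, 0)} ∪ M) := by
  have hbad := bad_finite hM hpos
  obtain ⟨s, hs1, hs2⟩ := ((Set.Iio_infinite (-|X|)).sdiff hbad).nonempty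
  obtain ⟨t, ht1, ht2⟩ := ((Set.Ioi_infinite (|X|)).sdiff hbad).nonempty
  have hs3 : s < -|X| := hs1
  have ht3 : |X| < t := ht1
  have hst : s < t := by linarith [abs_nonneg X]
  refine ⟨s, t, ?_, ?_, hst, ?_⟩
  · linarith [le_abs_self X]
  · linarith [le_abs_self X]
  have hs4 : ∀ z ∈ M, ∀ w ∈ M, z ≠ w → mf z w (s, 0) ≠ 0 :=
    fun z hz w hw hne h => hs2 ⟨z, hz, w, hw, hne, h⟩
  have ht4 : ∀ z ∈ M, ∀ w ∈ M, z ≠ w → mf z w (t, 0) ≠ 0 :=
    fun z hz w hw hne h => ht2 ⟨z, hz, w, hw, hne, h⟩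
  have hst4 : ∀ z ∈ M, mf (s, 0) (t, 0) z ≠ 0 := by
    intro z hz h
    unfold mf at h
    simp only [sub_self, zero_mul, sub_zero] at h
    have := hpos z hz
    rcases mul_eq_zero.mp h with h | h <;> linarith
  have hM4 : ∀ x ∈ M, ∀ y ∈ M, ∀ z ∈ M, x ≠ y → y ≠ z → x ≠ z → mf x y z ≠ 0 :=
    fun x hx y hy z hz h1 h2 h3 => mf_of_gp hg hx hy hz h1 h2 h3
  apply gp_of_mf
  have rot : ∀ x y z : ℝ × ℝ, mf y z x = mf x y z := by
    intro x y z; simp only [mf]; ring
  intro x hx y hy z hz hxy hyz hxz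
  simp only [mem_union, mem_insert_iff, mem_singleton_iff] at hx hy hz
  rcases hx with (rfl | rfl) | hx <;> rcases hy with (rfl | rfl) | hy <;>
    rcases hz with (rfl | rfl) | hz
  · exact absurd rfl hxy
  · exact absurd rfl hxy
  · exact absurd rfl hxy
  · exact absurd rfl hxz
  · exact absurd rfl hyz
  · exact hst4 z hz
  · exact absurd rfl hxz
  · rw [← rot, mf_swap12, neg_ne_zero, ← rot, ← rot]
    exact hst4 y hy
  · rw [← rot]; exact hs4 y hy z hz hyz
  · exact absurd rfl hyz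
  · exact absurd rfl hxz
  · rw [mf_swap12, neg_ne_zero]; exact hst4 z hz
  · exact absurd rfl hxy
  · exact absurd rfl hxy
  · exact absurd rfl hxy
  · rw [← rot, ← rot]; exact hst4 y hy
  · exact absurd rfl hxz
  · rw [← rot]; exact ht4 y hy z hz hyz
  · exact absurd rfl hyz
  · rw [← rot]; exact hst4 x hx
  · rw [mf_swap12, neg_ne_zero, ← rot]; exact hs4 x hx z hz hxz
  · rw [← rot, mf_swap12, neg_ne_zero]; exact hst4 x hx
  · exact absurd rfl hyz
  · rw [mf_swap12, neg_ne_zero, ← rot]; exact ht4 x hx z hz hxz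
  · exact hs4 x hx y hy hxy
  · exact ht4 x hx y hy hxy
  · exact hM4 x hx y hy z hz hxy hyz hxz

/-- a sorted list of points with the ends on the axis and the other points above it -/
theorem kconvex_of_list {L : List (ℝ × ℝ)} {s t : ℝ} (hL : L ≠ [])
    (hsort : ((s, 0) :: (L ++ [(t, 0)])).Pairwise (fun a b => a.1 < b.1))
    (hpos : ∀ z ∈ L, 0 < z.2)
    (hg : GeneralPosition {z | z ∈ (s, 0) :: (L ++ [(t, 0)])}) {K : ℕ} (hK : 1 ≤ K)
    (hw : ∀ α β : ℝ, alt false (((s, 0) :: (L ++ [(t, 0)])).map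
      (fun z => decide (α * z.1 + β ≤ z.2)) ++ [false]) ≤ 2 * K + 1) :
    KConvexSet K {z | z ∈ (s, 0) :: (L ++ [(t, 0)])} := by
  set W := (s, (0 : ℝ)) :: (L ++ [(t, 0)]) with hW
  set N := L.length + 1 with hN
  have hlen : W.length = N + 1 := by simp [hW, hN]
  set p : ℕ → ℝ × ℝ := fun i => W.getD i (0, 0) with hp
  have hpi : ∀ i (hi : i < W.length), p i = W[i] := by
    intro i hi
    simp only [hp]
    exact List.getD_eq_getElem _ _ hi
  have hinc : XInc N p := by
    intro i hi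
    rw [hpi i (by omega), hpi (i + 1) (by omega)]
    exact List.pairwise_iff_getElem.mp hsort i (i + 1) (by omega) (by omega) (by omega)
  have hp0 : p 0 = (s, 0) := by simp [hp, hW]
  have hpN : p N = (t, 0) := by
    rw [hpi N (by omega)]
    simp [hW, hN]
  have hLpos : 0 < L.length := List.length_pos_iff.mpr hL
  have himg : p '' {i | i ≤ N} = {z | z ∈ W} := by
    ext z
    simp only [mem_image, mem_ofPred_eq, List.mem_iff_getElem]
    constructor
    · rintro ⟨i, hi, rfl⟩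
      exact ⟨i, by omega, (hpi i (by omega)).symm⟩
    · rintro ⟨i, hi, rfl⟩
      exact ⟨i, by omega, hpi i hi⟩
  rw [← himg]
  refine kconvex_of_chain hinc (by omega) (by rw [hp0]) (by rw [hpN]) ?_ hK (by rw [himg]; exact hg)
    ?_
  · intro i hi0 hiN
    rw [hpi i (by omega)]
    obtain ⟨k, rfl⟩ : ∃ k, i = k + 1 := ⟨i - 1, by omega⟩
    have hk : k < L.length := by omega
    have : W[k + 1]'(by omega) = L[k] := by
      simp only [hW, List.getElem_cons_succ]
      exact List.getElem_append_left hk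
    rw [this]
    exact hpos _ (List.getElem_mem hk)
  · intro α β
    have : (List.range (N + 1)).map (wd p α β) = W.map (fun z => decide (α * z.1 + β ≤ z.2)) := by
      apply List.ext_getElem
      · simp [hlen]
      · intro i h1 h2
        rw [List.getElem_map, List.getElem_map, List.getElem_range]
        unfold wd
        rw [List.length_map] at h2
        rw [hpi i h2]
    rw [this]
    exact hw α β

end Pool.Agent.H41.Kc
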