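import Mathlib

set_option autoImplicit false

/-!
Finite lower sets of `ℕ × ℕ`: corners, the free square at a corner, and a counting inequality.
-/

namespace Pool.Agent.H41.Kc

open Finset

/-- lower set -/
def Low (U : Finset (ℕ × ℕ)) : Prop := ∀ p ∈ U, ∀ q : ℕ × ℕ, q.1 ≤ p.1 → q.2 ≤ p.2 → q ∈ U

lemma exists_notMem_row (U : Finset (ℕ × ℕ)) (j : ℕ) : ∃ i, (i, j) ∉ U := by
  by_contra hcon
  push Not at hcon
  have hinj : Set.InjOn (fun i : ℕ => (i, j)) Set.univ := by
    intro a _ b _ h
    simpa using h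
  exact Set.infinite_of_injOn_mapsTo hinj (fun i _ => hcon i) Set.infinite_univ
    U.finite_toSet

lemma exists_notMem_col (U : Finset (ℕ × ℕ)) (i : ℕ) : ∃ j, (i, j) ∉ U := by
  by_contra hcon
  push Not at hcon
  have hinj : Set.InjOn (fun j : ℕ => (i, j)) Set.univ := by
    intro a _ b _ h
    simpa using h
  exact Set.infinite_of_injOn_mapsTo hinj (fun j _ => hcon j) Set.infinite_univ
    U.finite_toSet

open Classical in
/-- length of row `j` -/
noncomputable def rl (U : Finset (ℕ × ℕ)) (j : ℕ) : ℕ := Nat.find (exists_notMem_row U j)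

open Classical in
/-- height of column `i` -/
noncomputable def cl (U : Finset (ℕ × ℕ)) (i : ℕ) : ℕ := Nat.find (exists_notMem_col U i)

lemma rl_notMem (U : Finset (ℕ × ℕ)) (j : ℕ) : (rl U j, j) ∉ U := by
  classical
  exact Nat.find_spec (exists_notMem_row U j)

lemma cl_notMem (U : Finset (ℕ × ℕ)) (i : ℕ) : (i, cl U i) ∉ U := by
  classical
  exact Nat.find_spec (exists_notMem_col U i)

lemma rl_le {U : Finset (ℕ × ℕ)} {i j : ℕ} (h : (i, j) ∉ U) : rl U j ≤ i := by
  classical
  exact Nat.find_min' (exists_notMem_row U j) h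

lemma cl_le {U : Finset (ℕ × ℕ)} {i j : ℕ} (h : (i, j) ∉ U) : cl U i ≤ j := by
  classical
  exact Nat.find_min' (exists_notMem_col U i) h

lemma mem_iff_rl {U : Finset (ℕ × ℕ)} (hU : Low U) {i j : ℕ} : (i, j) ∈ U ↔ i < rl U j := by
  constructor
  · intro h
    by_contra hcon
    push Not at hcon
    exact rl_notMem U j (hU _ h _ hcon le_rfl)
  · intro h
    by_contra hcon
    exact absurd (rl_le hcon) (not_le.mpr h)

lemma mem_iff_cl {U : Finset (ℕ × ℕ)} (hU : Low U) {i j : ℕ} : (i, j) ∈ U ↔ j < cl U i := by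
  constructor
  · intro h
    by_contra hcon
    push Not at hcon
    exact cl_notMem U i (hU _ h _ le_rfl hcon)
  · intro h
    by_contra hcon
    exact absurd (cl_le hcon) (not_le.mpr h)

lemma rl_mono {U U' : Finset (ℕ × ℕ)} (h : U' ⊆ U) (j : ℕ) : rl U' j ≤ rl U j :=
  rl_le (fun h' => rl_notMem U j (h h'))

lemma cl_mono {U U' : Finset (ℕ × ℕ)} (h : U' ⊆ U) (i : ℕ) : cl U' i ≤ cl U i :=
  cl_le (fun h' => cl_notMem U i (h h'))

/-- the corner cells -/
def corners (U : Finset (ℕ × ℕ)) : Finset (ℕ × ℕ) :=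
  U.filter (fun c => (c.1 + 1, c.2) ∉ U ∧ (c.1, c.2 + 1) ∉ U)

lemma mem_corners {U : Finset (ℕ × ℕ)} {c : ℕ × ℕ} :
    c ∈ corners U ↔ c ∈ U ∧ (c.1 + 1, c.2) ∉ U ∧ (c.1, c.2 + 1) ∉ U := by
  simp [corners]

/-- side length of the largest free square at the corner `c` -/
noncomputable def gsq (U : Finset (ℕ × ℕ)) (c : ℕ × ℕ) : ℕ :=
  min (c.1 + 1 - rl U (c.2 + 1)) (c.2 + 1 - cl U (c.1 + 1))

lemma gsq_mono {U U' : Finset (ℕ × ℕ)} (h : U' ⊆ U) (c : ℕ × ℕ) : gsq U c ≤ gsq U' c := by
  unfold gsq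
  have h1 := rl_mono h (c.2 + 1)
  have h2 := cl_mono h (c.1 + 1)
  omega

open Classical in
/-- the cells on the diagonals of the free squares -/
noncomputable def KK (U : Finset (ℕ × ℕ)) : Finset (ℕ × ℕ) :=
  U.filter (fun p => ∃ k, (p.1 + k, p.2 + k) ∈ U ∧ (p.1 + k + 1, p.2) ∉ U ∧ (p.1, p.2 + k + 1) ∉ U)

lemma mem_KK {U : Finset (ℕ × ℕ)} {p : ℕ × ℕ} : p ∈ KK U ↔ p ∈ U ∧
    ∃ k, (p.1 + k, p.2 + k) ∈ U ∧ (p.1 + k + 1, p.2) ∉ U ∧ (p.1, p.2 + k + 1) ∉ U := by
  classical
  simp [KK]

lemma low_erase {U : Finset (ℕ × ℕ)} (hU : Low U) {c : ℕ × ℕ} (hc : c ∈ corners U) :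
    Low (U.erase c) := by
  obtain ⟨hc1, hc2, hc3⟩ := mem_corners.mp hc
  intro p hp q hq1 hq2
  rw [mem_erase] at hp ⊢
  refine ⟨?_, hU p hp.2 q hq1 hq2⟩
  rintro rfl
  rcases Nat.lt_or_ge q.1 p.1 with h1 | h1
  · exact hc2 (hU p hp.2 _ (by simpa using h1) (by simpa using hq2))
  · rcases Nat.lt_or_ge q.2 p.2 with h2 | h2
    · exact hc3 (hU p hp.2 _ (by simpa using hq1) (by simpa using h2))
    · exact hp.1 (Prod.ext (le_antisymm h1 hq1) (le_antisymm h2 hq2))

/-- removing one corner -/
lemma card_KK_erase {U : Finset (ℕ × ℕ)} (hU : Low U) {c : ℕ × ℕ} (hc : c ∈ corners U) :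
    (KK (U.erase c)).card + gsq U c ≤ (KK U).card + 2 := by
  classical
  obtain ⟨hc1, hc2, hc3⟩ := mem_corners.mp hc
  obtain ⟨x₀, y₀⟩ := c
  simp only at hc2 hc3
  set W := U.erase (x₀, y₀) with hW
  have hWlow : Low W := low_erase hU hc
  have hWU : W ⊆ U := erase_subset _ _
  set g := gsq U (x₀, y₀) with hg
  -- the diagonal
  set Dg := (range g).image (fun k => (x₀ - k, y₀ - k)) with hDg
  have hgx : g ≤ x₀ + 1 := by rw [hg]; unfold gsq; simp only; omega
  have hgy : g ≤ y₀ + 1 := by rw [hg]; unfold gsq; simp only; omega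
  have hDcard : Dg.card = g := by
    rw [hDg, card_image_of_injOn, card_range]
    intro k hk k' hk' h
    simp only [coe_range, Set.mem_Iio] at hk hk'
    simp only [Prod.mk.injEq] at h
    omega
  have hDK : Dg ⊆ KK U := by
    intro p hp
    rw [hDg, mem_image] at hp
    obtain ⟨k, hk, rfl⟩ := hp
    rw [mem_range] at hk
    rw [mem_KK]
    refine ⟨hU _ hc1 _ (by simp) (by simp), k, ?_, ?_, ?_⟩
    · have e1 : x₀ - k + k = x₀ := by omega
      have e2 : y₀ - k + k = y₀ := by omega
      simp only [e1, e2]; exact hc1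
    · have e1 : x₀ - k + k + 1 = x₀ + 1 := by omega
      simp only [e1]
      rw [mem_iff_cl hU]
      have : g ≤ y₀ + 1 - cl U (x₀ + 1) := by rw [hg]; exact min_le_right _ _
      omega
    · have e1 : y₀ - k + k + 1 = y₀ + 1 := by omega
      simp only [e1]
      rw [mem_iff_rl hU]
      have : g ≤ x₀ + 1 - rl U (y₀ + 1) := by rw [hg]; exact min_le_left _ _
      omega
  have hDW : ∀ p ∈ Dg, p ∉ KK W := by
    intro p hp hpW
    rw [hDg, mem_image] at hp
    obtain ⟨k, hk, rfl⟩ := hp
    rw [mem_range] at hk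
    obtain ⟨hpW1, k', h1, h2, h3⟩ := mem_KK.mp hpW
    simp only at h1 h2 h3
    rcases lt_trichotomy k' k with h | h | h
    · apply h2
      rw [hW, mem_erase]
      refine ⟨?_, hU _ hc1 _ (by simp; omega) (by simp)⟩
      intro he
      rw [Prod.mk.injEq] at he
      omega
    · subst h
      have e1 : x₀ - k' + k' = x₀ := by omega
      have e2 : y₀ - k' + k' = y₀ := by omega
      rw [e1, e2, hW] at h1
      simp at h1
    · apply hc2
      exact hU _ (hWU h1) _ (by simp; omega) (by simp; omega)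
  -- new elements
  have hnew : (KK W \ KK U).card ≤ 2 := by
    have hcases : ∀ p ∈ KK W \ KK U,
        (p.2 = y₀ ∧ ∃ k, p.1 + k + 1 = x₀ ∧ (x₀ - 1, y₀ + k) ∈ W ∧ (p.1, y₀ + k + 1) ∉ W) ∨
        (p.1 = x₀ ∧ ∃ k, p.2 + k + 1 = y₀ ∧ (x₀ + k, y₀ - 1) ∈ W ∧ (x₀ + k + 1, p.2) ∉ W) := by
      intro p hp
      rw [mem_sdiff] at hp
      obtain ⟨⟨hpW, k, h1, h2, h3⟩, hpU⟩ := And.intro (mem_KK.mp hp.1) hp.2
      have h4 : (p.1 + k + 1, p.2) ∈ U ∨ (p.1, p.2 + k + 1) ∈ U := by
        by_contra hcon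
        push Not at hcon
        exact hpU (mem_KK.mpr ⟨hWU hpW, k, hWU h1, hcon.1, hcon.2⟩)
      rcases h4 with h4 | h4
      · left
        have h5 : (p.1 + k + 1, p.2) = (x₀, y₀) := by
          by_contra hne
          exact h2 (mem_erase.mpr ⟨hne, h4⟩)
        rw [Prod.mk.injEq] at h5
        refine ⟨h5.2, k, h5.1, ?_, ?_⟩
        · have e1 : x₀ - 1 = p.1 + k := by omega
          rw [e1, ← h5.2]; exact h1
        · rw [← h5.2]; exact h3
      · right
        have h5 : (p.1, p.2 + k + 1) = (x₀, y₀) := by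
          by_contra hne
          exact h3 (mem_erase.mpr ⟨hne, h4⟩)
        rw [Prod.mk.injEq] at h5
        refine ⟨h5.1, k, h5.2, ?_, ?_⟩
        · have e1 : y₀ - 1 = p.2 + k := by omega
          rw [e1, ← h5.1]; exact h1
        · rw [← h5.1]; exact h2
    set Sa := (KK W \ KK U).filter (fun p => p.2 = y₀ ∧ ∃ k, p.1 + k + 1 = x₀ ∧
      (x₀ - 1, y₀ + k) ∈ W ∧ (p.1, y₀ + k + 1) ∉ W) with hSa
    set Sb := (KK W \ KK U).filter (fun p => p.1 = x₀ ∧ ∃ k, p.2 + k + 1 = y₀ ∧
      (x₀ + k, y₀ - 1) ∈ W ∧ (x₀ + k + 1, p.2) ∉ W) with hSb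
    have hcov : KK W \ KK U ⊆ Sa ∪ Sb := by
      intro p hp
      rw [mem_union, hSa, hSb, mem_filter, mem_filter]
      rcases hcases p hp with h | h
      · exact Or.inl ⟨hp, h⟩
      · exact Or.inr ⟨hp, h⟩
    have hSa1 : Sa.card ≤ 1 := by
      rw [card_le_one]
      intro p hp q hq
      rw [hSa, mem_filter] at hp hq
      obtain ⟨_, hp2, k, hk1, hk2, hk3⟩ := hp
      obtain ⟨_, hq2, k', hk1', hk2', hk3'⟩ := hq
      have hkk : k = k' := by
        rcases lt_trichotomy k k' with h | h | h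
        · exfalso
          apply hk3
          exact hWlow _ hk2' _ (by simp; omega) (by simp; omega)
        · exact h
        · exfalso
          apply hk3'
          exact hWlow _ hk2 _ (by simp; omega) (by simp; omega)
      exact Prod.ext (by omega) (by omega)
    have hSb1 : Sb.card ≤ 1 := by
      rw [card_le_one]
      intro p hp q hq
      rw [hSb, mem_filter] at hp hq
      obtain ⟨_, hp2, k, hk1, hk2, hk3⟩ := hp
      obtain ⟨_, hq2, k', hk1', hk2', hk3'⟩ := hq
      have hkk : k = k' := by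
        rcases lt_trichotomy k k' with h | h | h
        · exfalso
          apply hk3
          exact hWlow _ hk2' _ (by simp; omega) (by simp; omega)
        · exact h
        · exfalso
          apply hk3'
          exact hWlow _ hk2 _ (by simp; omega) (by simp; omega)
      exact Prod.ext (by omega) (by omega)
    have := (card_le_card hcov).trans (card_union_le _ _)
    omega
  -- conclusion
  have h1 : (KK W ∩ KK U).card + Dg.card ≤ (KK U).card := by
    rw [← card_union_of_disjoint]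
    · exact card_le_card (union_subset inter_subset_right hDK)
    · rw [disjoint_left]
      intro p hp hp'
      exact hDW p hp' (mem_inter.mp hp).1
  have h2 : (KK W).card = (KK W ∩ KK U).card + (KK W \ KK U).card := by
    rw [add_comm, card_sdiff_add_card_inter]
  omega

/-- the counting inequality -/
theorem young_bound : ∀ (n : ℕ) (U U' : Finset (ℕ × ℕ)), (U \ U').card = n → Low U → Low U' →
    U' ⊆ U → 2 * U'.card + (KK U').card + ∑ c ∈ corners U \ U', gsq U c ≤
      2 * U.card + (KK U).card := by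
  classical
  intro n
  induction n with
  | zero =>
    intro U U' hn hU hU' hsub
    have : U ⊆ U' := by
      rw [card_eq_zero, sdiff_eq_empty_iff_subset] at hn
      exact hn
    have he : U' = U := Subset.antisymm hsub this
    subst he
    have : corners U' \ U' = ∅ := by
      rw [sdiff_eq_empty_iff_subset]
      exact filter_subset _ _
    rw [this]
    simp
  | succ n ih =>
    intro U U' hn hU hU' hsub
    -- a corner of U outside U'
    obtain ⟨c, hc, hcmax⟩ : ∃ c ∈ U \ U', ∀ q ∈ U \ U', q.1 + q.2 ≤ c.1 + c.2 :=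
      exists_max_image _ _ (card_pos.mp (by omega))
    obtain ⟨hcU, hcU'⟩ := mem_sdiff.mp hc
    have hcor : c ∈ corners U := by
      rw [mem_corners]
      refine ⟨hcU, ?_, ?_⟩
      · intro h
        have : (c.1 + 1, c.2) ∈ U \ U' := by
          rw [mem_sdiff]
          exact ⟨h, fun h' => hcU' (hU' _ h' _ (by simp) (by simp))⟩
        have := hcmax _ this
        simp only at this
        omega
      · intro h
        have : (c.1, c.2 + 1) ∈ U \ U' := by
          rw [mem_sdiff]
          exact ⟨h, fun h' => hcU' (hU' _ h' _ (by simp) (by simp))⟩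
        have := hcmax _ this
        simp only at this
        omega
    set W := U.erase c with hW
    have hWlow : Low W := low_erase hU hcor
    have hsubW : U' ⊆ W := by
      intro p hp
      rw [hW, mem_erase]
      exact ⟨fun h => hcU' (h ▸ hp), hsub hp⟩
    have hcardW : (W \ U').card = n := by
      have : W \ U' = (U \ U').erase c := by
        rw [hW, erase_sdiff_comm]
      rw [this, card_erase_of_mem hc, hn]
      rfl
    have h1 := ih W U' hcardW hWlow hU' hsubW
    have h2 := card_KK_erase hU hcor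
    rw [← hW] at h2
    have h3 : W.card + 1 = U.card := by
      rw [hW, card_erase_add_one hcU]
    have h4 : ∑ c' ∈ corners U \ U', gsq U c' ≤ gsq U c + ∑ c' ∈ corners W \ U', gsq W c' := by
      have hcm : c ∈ corners U \ U' := mem_sdiff.mpr ⟨hcor, hcU'⟩
      rw [← add_sum_erase _ _ hcm]
      apply Nat.add_le_add_left
      calc ∑ c' ∈ (corners U \ U').erase c, gsq U c'
          ≤ ∑ c' ∈ (corners U \ U').erase c, gsq W c' :=
            sum_le_sum (fun c' _ => gsq_mono (erase_subset _ _) c')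
        _ ≤ ∑ c' ∈ corners W \ U', gsq W c' := by
            apply sum_le_sum_of_subset
            intro c' hc'
            rw [mem_erase, mem_sdiff] at hc'
            obtain ⟨hne, hc'1, hc'2⟩ := hc'
            obtain ⟨h5, h6, h7⟩ := mem_corners.mp hc'1
            rw [mem_sdiff, mem_corners]
            refine ⟨⟨mem_erase.mpr ⟨hne, h5⟩, ?_, ?_⟩, hc'2⟩
            · exact fun h => h6 (mem_of_mem_erase h)
            · exact fun h => h7 (mem_of_mem_erase h)
    omega

end Pool.Agent.H41.Kc
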