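import Mathlib
import Pool.Agent.H41.Kc.Tree
import Pool.Agent.H41.Kc.Young

set_option autoImplicit false

/-!
The potential argument: a complete binary tree without deep composite subtrees is not high.
-/

namespace Pool.Agent.H41.Kc

open BTr

variable {α : Type}

/-- the region cut off by the two depth functions -/
def US {n : ℕ} (w : BTr α n) : Set (ℕ × ℕ) :=
  {p | ∀ θ : ℝ, θ ∉ w.lab → p.1 < AA w θ ∨ p.2 < BB w θ}

lemma exists_below {n : ℕ} (w : BTr α n) : ∃ θ : ℝ, θ ∉ w.lab ∧ AA w θ = 0 := by
  obtain ⟨M, hM⟩ := w.lab_finite.bddBelow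
  refine ⟨M - 1, ?_, ?_⟩
  · intro h
    have := hM h
    linarith
  · apply AA_eq_zero
    intro x hx
    have := hM hx
    linarith

lemma exists_above {n : ℕ} (w : BTr α n) : ∃ θ : ℝ, θ ∉ w.lab ∧ BB w θ = 0 := by
  obtain ⟨M, hM⟩ := w.lab_finite.bddAbove
  refine ⟨M + 1, ?_, ?_⟩
  · intro h
    have := hM h
    linarith
  · apply BB_eq_zero
    intro x hx
    have := hM hx
    linarith

lemma US_bound {n : ℕ} (w : BTr α n) {p : ℕ × ℕ} (hp : p ∈ US w) {D E : ℕ}
    (hD : ∀ θ, AA w θ ≤ D) (hE : ∀ θ, BB w θ ≤ E) : p.1 < D ∧ p.2 < E := by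
  obtain ⟨θ, h1, h2⟩ := exists_below w
  obtain ⟨θ', h1', h2'⟩ := exists_above w
  constructor
  · rcases hp θ' h1' with h | h
    · exact lt_of_lt_of_le h (hD _)
    · omega
  · rcases hp θ h1 with h | h
    · omega
    · exact lt_of_lt_of_le h (hE _)

lemma US_finite {n : ℕ} (w : BTr α n) : (US w).Finite := by
  refine ((Finset.range n ×ˢ Finset.range n).finite_toSet).subset ?_
  intro p hp
  have := US_bound w hp (AA_le w) (BB_le w)
  rw [Finset.mem_coe, Finset.mem_product, Finset.mem_range, Finset.mem_range]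
  exact this

/-- the region as a finite set -/
noncomputable def UU {n : ℕ} (w : BTr α n) : Finset (ℕ × ℕ) := (US_finite w).toFinset

lemma mem_UU {n : ℕ} {w : BTr α n} {p : ℕ × ℕ} :
    p ∈ UU w ↔ ∀ θ : ℝ, θ ∉ w.lab → p.1 < AA w θ ∨ p.2 < BB w θ := by
  unfold UU
  rw [Set.Finite.mem_toFinset]
  rfl

lemma low_UU {n : ℕ} (w : BTr α n) : Low (UU w) := by
  intro p hp q hq1 hq2
  rw [mem_UU] at hp ⊢
  intro θ hθ
  rcases hp θ hθ with h | h
  · exact Or.inl (lt_of_le_of_lt hq1 h)
  · exact Or.inr (lt_of_le_of_lt hq2 h)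

lemma UU_left {n : ℕ} (t : ℝ) (L R : BTr α n) : UU L ⊆ UU (node t L R) := by
  intro p hp
  rw [mem_UU] at hp ⊢
  intro θ hθ
  have hθ' : θ ∉ L.lab := fun h => hθ (by simp [h])
  rcases hp θ hθ' with h | h
  · exact Or.inl (lt_of_lt_of_le h (AA_left _ _ _ _))
  · exact Or.inr (lt_of_lt_of_le h (BB_left _ _ _ _))

lemma UU_right {n : ℕ} (t : ℝ) (L R : BTr α n) : UU R ⊆ UU (node t L R) := by
  intro p hp
  rw [mem_UU] at hp ⊢
  intro θ hθ
  have hθ' : θ ∉ R.lab := fun h => hθ (by simp [h])
  rcases hp θ hθ' with h | h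
  · exact Or.inl (lt_of_lt_of_le h (AA_right _ _ _ _))
  · exact Or.inr (lt_of_lt_of_le h (BB_right _ _ _ _))

lemma UU_mi {n : ℕ} (w : BTr α n) : UU w.mi = UU w := by
  ext p
  rw [mem_UU, mem_UU]
  simp only [lab_mi, AA_mi, BB_mi]

lemma mem_UU_nm {n : ℕ} (w : BTr α n) (x y : ℕ) : (x, y) ∈ UU w.nm ↔ (y, x) ∈ UU w := by
  rw [mem_UU, mem_UU]
  constructor
  · intro h θ hθ
    have h1 := h (-θ) (by rw [mem_lab_nm, neg_neg]; exact hθ)
    rw [AA_nm, BB_nm, neg_neg] at h1
    exact h1.symm
  · intro h θ hθ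
    rw [mem_lab_nm] at hθ
    have h1 := h (-θ) hθ
    rw [AA_nm, BB_nm]
    exact h1.symm

lemma rl_nm {n : ℕ} (w : BTr α n) (j : ℕ) : rl (UU w.nm) j = cl (UU w) j := by
  apply le_antisymm
  · apply rl_le
    rw [mem_UU_nm]
    exact cl_notMem _ _
  · apply cl_le
    rw [← mem_UU_nm]
    exact rl_notMem _ _

lemma cl_nm {n : ℕ} (w : BTr α n) (j : ℕ) : cl (UU w.nm) j = rl (UU w) j := by
  have := rl_nm w.nm j
  rw [nm_nm] at this
  exact this.symm

/-- the cup condition at a node, for the cell `(x, y)` -/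
def CL {n : ℕ} (x y : ℕ) (t : ℝ) (L R : BTr α n) : Prop :=
  (BB L t ≤ y ∧ AA R t ≤ x) ∧ (x, y) ∈ UU L ∧ (x, y) ∈ UU R

open Classical in
/-- the value function of the cell `(x, y)` -/
noncomputable def VV (x y : ℕ) : {n : ℕ} → BTr α n → ℕ
  | _, leaf a => rl (UU (leaf a)) (y + 1)
  | _, node t L R => max (rl (UU (node t L R)) (y + 1))
      (max (max (VV x y L) (VV x y R)) (if CL x y t L R then min (VV x y L) (VV x y R) + 1 else 0))

lemma VV_left {x y n : ℕ} (t : ℝ) (L R : BTr α n) : VV x y L ≤ VV x y (node t L R) := by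
  simp only [VV]; omega

lemma VV_right {x y n : ℕ} (t : ℝ) (L R : BTr α n) : VV x y R ≤ VV x y (node t L R) := by
  simp only [VV]; omega

lemma VV_step {x y n : ℕ} {t : ℝ} {L R : BTr α n} (h : CL x y t L R) :
    min (VV x y L) (VV x y R) + 1 ≤ VV x y (node t L R) := by
  classical
  simp only [VV, if_pos h]; omega

lemma rl_le_VV {x y n : ℕ} (w : BTr α n) : rl (UU w) (y + 1) ≤ VV x y w := by
  cases w with
  | leaf a => simp only [VV]; exact le_rfl
  | node t L R => simp only [VV]; omega

/-- stacking lemma -/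
lemma stack {x y : ℕ} : ∀ {n : ℕ} (w : BTr α n), w.Dist → ∀ m l u : ℝ,
    m ∉ w.lab → l ∉ w.lab → u ∉ w.lab → AA w l ≤ x → BB w u ≤ y → BB w m ≤ y + 1 →
    AA w m ≤ x → Cmp true w m l u (VV x y w) := by
  classical
  have hexit : ∀ {n : ℕ} (w : BTr α n) (m l u : ℝ), m ∉ w.lab → BB w m ≤ y + 1 →
      Cmp true w m l u (rl (UU w) (y + 1)) := by
    intro n w m l u hm hB
    apply Plus.toCmp
    apply (AA_spec w m).anti
    apply rl_le
    intro hmem
    rw [mem_UU] at hmem
    rcases hmem m hm with h | h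
    · simp at h
    · simp only at h; omega
  intro n w
  induction w with
  | leaf a =>
    intro _ m l u hm _ _ _ _ hB _
    simp only [VV]
    exact hexit _ _ _ _ hm hB
  | @node n t L R ihL ihR =>
    intro hdist m l u hm hl hu hAl hBu hBm hAm
    obtain ⟨⟨htL, htR⟩, hdL, hdR⟩ := hdist
    have hmL : m ∉ L.lab := fun h => hm (by simp [h])
    have hmR : m ∉ R.lab := fun h => hm (by simp [h])
    have hlL : l ∉ L.lab := fun h => hl (by simp [h])
    have hlR : l ∉ R.lab := fun h => hl (by simp [h])
    have huL : u ∉ L.lab := fun h => hu (by simp [h])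
    have huR : u ∉ R.lab := fun h => hu (by simp [h])
    have e1 := AA_left t L R l
    have e2 := AA_right t L R l
    have e3 := BB_left t L R u
    have e4 := BB_right t L R u
    have e5 := BB_left t L R m
    have e6 := BB_right t L R m
    have e7 := AA_left t L R m
    have e8 := AA_right t L R m
    have hL := ihL hdL m l u hmL hlL huL (by omega) (by omega) (by omega) (by omega)
    have hR := ihR hdR m l u hmR hlR huR (by omega) (by omega) (by omega) (by omega)
    simp only [VV]
    rcases le_total (max (max (VV x y L) (VV x y R))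
      (if CL x y t L R then min (VV x y L) (VV x y R) + 1 else 0)) (rl (UU (node t L R)) (y + 1))
      with h1 | h1
    · rw [max_eq_left h1]
      exact hexit _ _ _ _ hm hBm
    · rw [max_eq_right h1]
      rcases le_total (if CL x y t L R then min (VV x y L) (VV x y R) + 1 else 0)
        (max (VV x y L) (VV x y R)) with h2 | h2
      · rw [max_eq_left h2]
        rcases le_total (VV x y L) (VV x y R) with h3 | h3
        · rw [max_eq_right h3]
          exact Cmp.right _ _ _ _ _ _ _ _ hR
        · rw [max_eq_left h3]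
          exact Cmp.left _ _ _ _ _ _ _ _ hL
      · rw [max_eq_right h2]
        by_cases hCL : CL x y t L R
        · rw [if_pos hCL]
          obtain ⟨⟨hB, hA⟩, hcL, hcR⟩ := hCL
          have key : ∀ z : ℝ, z ∉ L.lab → AA L z ≤ x → z < t := by
            intro z hz hAz
            by_contra hcon
            push Not at hcon
            rw [mem_UU] at hcL
            rcases hcL z hz with h | h
            · simp only at h; omega
            · simp only at h
              have := BB_anti L hcon
              omega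
          have hmt : m < t := key m hmL (by omega)
          have hlt : l < t := key l hlL (by omega)
          have htu : t < u := by
            by_contra hcon
            push Not at hcon
            rw [mem_UU] at hcR
            rcases hcR u huR with h | h
            · simp only at h
              have := AA_mono R hcon
              omega
            · simp only at h; omega
          refine Cmp.cup _ _ _ _ _ _ _ hmt.le hlt htu ?_ ?_
          · exact (ihL hdL m l t hmL hlL htL (by omega) hB (by omega) (by omega)).anti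
              (min_le_left _ _)
          · exact (ihR hdR m t u hmR htR huR hA (by omega) (by omega) (by omega)).anti
              (min_le_right _ _)
        · rw [if_neg hCL]
          exact Cmp.zero _ _ _ _ _

/-- the value function is bounded at a corner -/
lemma VV_le {x y n : ℕ} (w : BTr α n) (hd : w.Dist) (hc : (x, y) ∈ corners (UU w)) :
    VV x y w ≤ x + 1 := by
  obtain ⟨h1, h2, h3⟩ := mem_corners.mp hc
  simp only at h2 h3
  rw [mem_UU] at h1 h2 h3
  push Not at h2 h3
  obtain ⟨θ₁, ha1, ha2, ha3⟩ := h2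
  obtain ⟨θ₀, hb1, hb2, hb3⟩ := h3
  simp only at ha2 ha3 hb2 hb3
  have hlt : θ₀ < θ₁ := by
    by_contra hcon
    push Not at hcon
    have := BB_anti w hcon
    rcases h1 θ₀ hb1 with h | h
    · simp only at h; omega
    · simp only at h; omega
  have := stack (x := x) (y := y) w hd θ₀ θ₀ θ₁ hb1 hb1 ha1 hb2 ha3 hb3 hb2
  exact (le_AA ⟨true, θ₀, θ₀, θ₁, hlt.le, le_rfl, this⟩).trans ha2

/-- amount used up at a corner -/
noncomputable def tauP {n : ℕ} (w : BTr α n) (c : ℕ × ℕ) : ℕ :=
  min (gsq (UU w) c) (c.1 + 1 - VV c.1 c.2 w)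

/-- amount used up at a corner, transposed -/
noncomputable def tauP' {n : ℕ} (w : BTr α n) (c : ℕ × ℕ) : ℕ :=
  min (gsq (UU w) c) (c.2 + 1 - VV c.2 c.1 w.nm)

lemma tau_le {n : ℕ} (w : BTr α n) (c : ℕ × ℕ) : tauP w c ≤ gsq (UU w) c := min_le_left _ _

lemma tauP'_le {n : ℕ} (w : BTr α n) (c : ℕ × ℕ) : tauP' w c ≤ gsq (UU w) c := min_le_left _ _

lemma tau_left {n : ℕ} (t : ℝ) (L R : BTr α n) (c : ℕ × ℕ) : tauP (node t L R) c ≤ tauP L c := by
  unfold tauP
  have h1 := gsq_mono (UU_left t L R) c
  have h2 := VV_left (x := c.1) (y := c.2) t L R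
  omega

lemma tau_right {n : ℕ} (t : ℝ) (L R : BTr α n) (c : ℕ × ℕ) : tauP (node t L R) c ≤ tauP R c := by
  unfold tauP
  have h1 := gsq_mono (UU_right t L R) c
  have h2 := VV_right (x := c.1) (y := c.2) t L R
  omega

lemma tauP'_left {n : ℕ} (t : ℝ) (L R : BTr α n) (c : ℕ × ℕ) : tauP' (node t L R) c ≤ tauP' L c := by
  unfold tauP'
  have h1 := gsq_mono (UU_left t L R) c
  have h2 := VV_right (x := c.2) (y := c.1) (-t) R.nm L.nm
  rw [nm_node]
  omega

lemma tauP'_right {n : ℕ} (t : ℝ) (L R : BTr α n) (c : ℕ × ℕ) : tauP' (node t L R) c ≤ tauP' R c := by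
  unfold tauP'
  have h1 := gsq_mono (UU_right t L R) c
  have h2 := VV_left (x := c.2) (y := c.1) (-t) R.nm L.nm
  rw [nm_node]
  omega

/-- all four amounts -/
noncomputable def tt {n : ℕ} (w : BTr α n) (c : ℕ × ℕ) : ℕ :=
  tauP w c + tauP' w c + (tauP w.mi c + tauP' w.mi c)

lemma tt_le {n : ℕ} (w : BTr α n) (c : ℕ × ℕ) : tt w c ≤ 4 * gsq (UU w) c := by
  unfold tt
  have h1 := tau_le w c
  have h2 := tauP'_le w c
  have h3 := tau_le w.mi c
  have h4 := tauP'_le w.mi c
  rw [UU_mi] at h3 h4
  omega

lemma tt_left {n : ℕ} (t : ℝ) (L R : BTr α n) (c : ℕ × ℕ) : tt (node t L R) c ≤ tt L c := by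
  unfold tt
  have h1 := tau_left t L R c
  have h2 := tauP'_left t L R c
  have h3 := tau_right t R.mi L.mi c
  have h4 := tauP'_right t R.mi L.mi c
  rw [mi_node]
  omega

lemma tt_right {n : ℕ} (t : ℝ) (L R : BTr α n) (c : ℕ × ℕ) : tt (node t L R) c ≤ tt R c := by
  unfold tt
  have h1 := tau_right t L R c
  have h2 := tauP'_right t L R c
  have h3 := tau_left t R.mi L.mi c
  have h4 := tauP'_left t R.mi L.mi c
  rw [mi_node]
  omega

/-- one of the amounts increases in one direction, at a node of cup type -/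
lemma cup_step {n : ℕ} {t : ℝ} {L R : BTr α n} (hd : (node t L R).Dist)
    (hL : UU L = UU (node t L R)) (hR : UU R = UU (node t L R)) {c : ℕ × ℕ}
    (hc : c ∈ corners (UU (node t L R))) (hCL : CL c.1 c.2 t L R) :
    (tauP (node t L R) c + tauP' (node t L R) c + 1 ≤ tauP L c + tauP' L c) ∨
    (tauP (node t L R) c + tauP' (node t L R) c + 1 ≤ tauP R c + tauP' R c) := by
  obtain ⟨x, y⟩ := c
  simp only at hCL
  have hstep := VV_step hCL
  have hle : VV x y (node t L R) ≤ x + 1 := VV_le _ hd hc
  -- transposed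
  have hCL' : CL y x (-t) R.nm L.nm := by
    obtain ⟨⟨h1, h2⟩, h3, h4⟩ := hCL
    refine ⟨⟨?_, ?_⟩, ?_, ?_⟩
    · rw [BB_nm, neg_neg]; exact h2
    · rw [AA_nm, neg_neg]; exact h1
    · rw [mem_UU_nm]; exact h4
    · rw [mem_UU_nm]; exact h3
  have hstep' := VV_step hCL'
  have hc' : (y, x) ∈ corners (UU (node t L R).nm) := by
    obtain ⟨h1, h2, h3⟩ := mem_corners.mp hc
    rw [mem_corners]
    refine ⟨(mem_UU_nm _ _ _).mpr h1, ?_, ?_⟩
    · rw [mem_UU_nm]; exact h3
    · rw [mem_UU_nm]; exact h2
  have hle' : VV y x (node t L R).nm ≤ y + 1 := VV_le _ (dist_nm _ hd) hc'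
  rw [nm_node] at hle'
  have hrl1 := rl_le_VV (x := x) (y := y) L
  have hrl2 := rl_le_VV (x := x) (y := y) R
  rw [hL] at hrl1
  rw [hR] at hrl2
  have hcl1 := rl_le_VV (x := y) (y := x) L.nm
  have hcl2 := rl_le_VV (x := y) (y := x) R.nm
  rw [rl_nm, hL] at hcl1
  rw [rl_nm, hR] at hcl2
  have hmono1 := tau_left t L R (x, y)
  have hmono2 := tau_right t L R (x, y)
  have hmono3 := tauP'_left t L R (x, y)
  have hmono4 := tauP'_right t L R (x, y)
  by_cases hIJ : x + 1 - rl (UU (node t L R)) (y + 1) ≤ y + 1 - cl (UU (node t L R)) (x + 1)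
  · -- use the first function
    have hg : gsq (UU (node t L R)) (x, y) = x + 1 - rl (UU (node t L R)) (y + 1) := by
      unfold gsq; simp only; omega
    rcases le_total (VV x y L) (VV x y R) with h | h
    · left
      have : tauP (node t L R) (x, y) + 1 ≤ tauP L (x, y) := by
        unfold tauP
        rw [hL, hg]
        simp only
        rw [min_eq_left h] at hstep
        omega
      omega
    · right
      have : tauP (node t L R) (x, y) + 1 ≤ tauP R (x, y) := by
        unfold tauP
        rw [hR, hg]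
        simp only
        rw [min_eq_right h] at hstep
        omega
      omega
  · have hg : gsq (UU (node t L R)) (x, y) = y + 1 - cl (UU (node t L R)) (x + 1) := by
      unfold gsq; simp only; omega
    rcases le_total (VV y x L.nm) (VV y x R.nm) with h | h
    · left
      have : tauP' (node t L R) (x, y) + 1 ≤ tauP' L (x, y) := by
        unfold tauP'
        rw [hL, hg, nm_node]
        simp only
        rw [min_eq_right h] at hstep'
        omega
      omega
    · right
      have : tauP' (node t L R) (x, y) + 1 ≤ tauP' R (x, y) := by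
        unfold tauP'
        rw [hR, hg, nm_node]
        simp only
        rw [min_eq_left h] at hstep'
        omega
      omega

/-- locating the corner at a node of cup type -/
lemma find_corner {n : ℕ} {t : ℝ} {L R : BTr α n} (hd : (node t L R).Dist)
    (hL : UU L = UU (node t L R)) (hR : UU R = UU (node t L R))
    (hA : AA R t < AA L t) (hB : BB L t < BB R t) :
    ∃ c ∈ corners (UU (node t L R)), CL c.1 c.2 t L R := by
  have hlow := low_UU (node t L R)
  obtain ⟨⟨htL, htR⟩, -, -⟩ := hd
  set i := AA R t with hi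
  set j := BB L t with hj
  have hij : (i, j) ∈ UU (node t L R) := by
    rw [mem_UU]
    intro θ hθ
    have hθt : θ ≠ t := fun h => hθ (by simp [h])
    rcases lt_or_gt_of_ne hθt with h | h
    · right
      have := BB_step t L R h
      simp only
      omega
    · left
      have := AA_step t L R h
      simp only
      omega
  have hx := (mem_iff_rl hlow).mp hij
  have hy := (mem_iff_cl hlow).mp hij
  set x := rl (UU (node t L R)) j - 1 with hxdef
  set y := cl (UU (node t L R)) i - 1 with hydef
  have hxj : (x, j) ∈ UU (node t L R) := (mem_iff_rl hlow).mpr (by omega)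
  have hiy : (i, y) ∈ UU (node t L R) := (mem_iff_cl hlow).mpr (by omega)
  have hxj' : (x + 1, j) ∉ UU (node t L R) := by
    rw [mem_iff_rl hlow]; omega
  have hiy' : (i, y + 1) ∉ UU (node t L R) := by
    rw [mem_iff_cl hlow]; omega
  have hxy : (x, y) ∈ UU (node t L R) := by
    rw [mem_UU]
    intro θ hθ
    simp only
    by_contra hcon
    push Not at hcon
    obtain ⟨h1, h2⟩ := hcon
    have hθt : θ ≠ t := fun h => hθ (by simp [h])
    have hθL : θ ∉ L.lab := fun h => hθ (by simp [h])
    have hθR : θ ∉ R.lab := fun h => hθ (by simp [h])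
    rcases lt_or_gt_of_ne hθt with h | h
    · have h3 := AA_mono R h.le
      have h4 := BB_right t L R θ
      rw [← hR, mem_UU] at hiy
      rcases hiy θ hθR with h5 | h5
      · simp only at h5; omega
      · simp only at h5; omega
    · have h3 := BB_anti L h.le
      have h4 := AA_left t L R θ
      rw [← hL, mem_UU] at hxj
      rcases hxj θ hθL with h5 | h5
      · simp only at h5; omega
      · simp only at h5; omega
  refine ⟨(x, y), ?_, ⟨⟨?_, ?_⟩, ?_, ?_⟩⟩
  · rw [mem_corners]
    refine ⟨hxy, ?_, ?_⟩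
    · intro h
      exact hxj' (hlow _ h _ le_rfl (by simp only; omega))
    · intro h
      exact hiy' (hlow _ h _ (by simp only; omega) le_rfl)
  · simp only; omega
  · simp only; omega
  · simp only; rw [hL]; exact hxy
  · simp only; rw [hR]; exact hxy

/-- the part of the potential that depends only on the region -/
noncomputable def PiU (U : Finset (ℕ × ℕ)) : ℕ := 4 * (2 * U.card + (KK U).card) + U.card

/-- the potential -/
noncomputable def Psi {n : ℕ} (w : BTr α n) : ℤ :=
  (PiU (UU w) : ℤ) - ∑ c ∈ corners (UU w), (tt w c : ℤ)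

lemma Psi_nonneg {n : ℕ} (w : BTr α n) : 0 ≤ Psi w := by
  unfold Psi PiU
  have h1 := young_bound _ (UU w) ∅ rfl (low_UU w) (by intro p hp; simp at hp)
    (Finset.empty_subset _)
  have h2 : ∑ c ∈ corners (UU w), (tt w c : ℤ) ≤ ∑ c ∈ corners (UU w), (4 * gsq (UU w) c : ℤ) := by
    apply Finset.sum_le_sum
    intro c _
    exact_mod_cast tt_le w c
  rw [← Finset.mul_sum] at h2
  rw [Finset.sdiff_empty] at h1
  have h3 : ((∑ c ∈ corners (UU w), gsq (UU w) c : ℕ) : ℤ) ≤
      ((2 * (UU w).card + (KK (UU w)).card : ℕ) : ℤ) := by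
    exact_mod_cast (Nat.le_add_left _ _).trans h1
  push_cast at h3 ⊢
  linarith [(Nat.cast_nonneg (UU w).card : (0 : ℤ) ≤ _)]

/-- the potential drops if the region shrinks -/
lemma Psi_drop {n k : ℕ} {w : BTr α n} {w' : BTr α k} (hsub : UU w' ⊆ UU w)
    (hne : UU w' ≠ UU w) (ht : ∀ c, tt w c ≤ tt w' c) : Psi w' + 1 ≤ Psi w := by
  classical
  unfold Psi PiU
  have h1 := young_bound _ (UU w) (UU w') rfl (low_UU w) (low_UU w') hsub
  have h2 : (UU w').card + 1 ≤ (UU w).card :=
    Finset.card_lt_card (Finset.ssubset_iff_subset_ne.mpr ⟨hsub, hne⟩)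
  have h3 : ∑ c ∈ corners (UU w), (tt w c : ℤ) ≤
      4 * (∑ c ∈ corners (UU w) \ UU w', (gsq (UU w) c : ℤ)) +
      ∑ c ∈ corners (UU w'), (tt w' c : ℤ) := by
    have hsplit : ∑ c ∈ corners (UU w), (tt w c : ℤ) =
        ∑ c ∈ corners (UU w) \ UU w', (tt w c : ℤ) +
        ∑ c ∈ corners (UU w) ∩ UU w', (tt w c : ℤ) := by
      rw [← Finset.sum_union (Finset.disjoint_sdiff_inter _ _), Finset.sdiff_union_inter]
    rw [hsplit]
    apply add_le_add
    · rw [Finset.mul_sum]
      apply Finset.sum_le_sum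
      intro c _
      exact_mod_cast tt_le w c
    · calc ∑ c ∈ corners (UU w) ∩ UU w', (tt w c : ℤ)
          ≤ ∑ c ∈ corners (UU w) ∩ UU w', (tt w' c : ℤ) := by
            apply Finset.sum_le_sum
            intro c _
            exact_mod_cast ht c
        _ ≤ ∑ c ∈ corners (UU w'), (tt w' c : ℤ) := by
            apply Finset.sum_le_sum_of_subset_of_nonneg
            · intro c hc
              rw [Finset.mem_inter] at hc
              obtain ⟨h5, h6, h7⟩ := mem_corners.mp hc.1
              rw [mem_corners]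
              exact ⟨hc.2, fun h => h6 (hsub h), fun h => h7 (hsub h)⟩
            · intro c _ _
              exact Int.natCast_nonneg _
  have h4 : ((2 * (UU w').card + (KK (UU w')).card +
      ∑ c ∈ corners (UU w) \ UU w', gsq (UU w) c : ℕ) : ℤ) ≤
      ((2 * (UU w).card + (KK (UU w)).card : ℕ) : ℤ) := by exact_mod_cast h1
  have h5 : (((UU w').card + 1 : ℕ) : ℤ) ≤ ((UU w).card : ℤ) := by exact_mod_cast h2
  push_cast at h4 h5 ⊢
  linarith

/-- the potential drops if the region stays and one amount increases -/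
lemma Psi_drop' {n k : ℕ} {w : BTr α n} {w' : BTr α k} (he : UU w' = UU w)
    (ht : ∀ c, tt w c ≤ tt w' c) {c : ℕ × ℕ} (hc : c ∈ corners (UU w))
    (hlt : tt w c + 1 ≤ tt w' c) : Psi w' + 1 ≤ Psi w := by
  unfold Psi
  rw [he]
  have : ∑ c ∈ corners (UU w), (tt w c : ℤ) + 1 ≤ ∑ c ∈ corners (UU w), (tt w' c : ℤ) := by
    have h1 : ∑ c ∈ corners (UU w), (tt w c : ℤ) < ∑ c ∈ corners (UU w), (tt w' c : ℤ) := by
      apply Finset.sum_lt_sum
      · intro c _; exact_mod_cast ht c
      · exact ⟨c, hc, by exact_mod_cast hlt⟩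
    linarith
  linarith

lemma main_step {n : ℕ} (t : ℝ) (L R : BTr α n) (hd : (node t L R).Dist) :
    Psi L + 1 ≤ Psi (node t L R) ∨ Psi R + 1 ≤ Psi (node t L R) := by
  by_cases hL : UU L = UU (node t L R)
  swap
  · left; exact Psi_drop (UU_left t L R) hL (tt_left t L R)
  by_cases hR : UU R = UU (node t L R)
  swap
  · right; exact Psi_drop (UU_right t L R) hR (tt_right t L R)
  have hd' := hd
  obtain ⟨⟨htL, htR⟩, hdL, hdR⟩ := hd
  -- the label is in the region
  have hij : (min (AA L t) (AA R t), min (BB L t) (BB R t)) ∈ UU (node t L R) := by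
    rw [mem_UU]
    intro θ hθ
    have hθt : θ ≠ t := fun h => hθ (by simp [h])
    rcases lt_or_gt_of_ne hθt with h | h
    · right
      have := BB_step t L R h
      simp only
      omega
    · left
      have := AA_step t L R h
      simp only
      omega
  have h1 : min (AA L t) (AA R t) < AA L t ∨ min (BB L t) (BB R t) < BB L t := by
    have := hij
    rw [← hL, mem_UU] at this
    exact this t htL
  have h2 : min (AA L t) (AA R t) < AA R t ∨ min (BB L t) (BB R t) < BB R t := by
    have := hij
    rw [← hR, mem_UU] at this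
    exact this t htR
  have hcase : (AA R t < AA L t ∧ BB L t < BB R t) ∨ (AA L t < AA R t ∧ BB R t < BB L t) := by
    omega
  rcases hcase with ⟨hA, hB⟩ | ⟨hA, hB⟩
  · obtain ⟨c, hc, hCL⟩ := find_corner hd' hL hR hA hB
    rcases cup_step hd' hL hR hc hCL with h | h
    · left
      refine Psi_drop' hL (tt_left t L R) hc ?_
      unfold tt
      have h3 := tau_right t R.mi L.mi c
      have h4 := tauP'_right t R.mi L.mi c
      rw [mi_node]
      omega
    · right
      refine Psi_drop' hR (tt_right t L R) hc ?_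
      unfold tt
      have h3 := tau_left t R.mi L.mi c
      have h4 := tauP'_left t R.mi L.mi c
      rw [mi_node]
      omega
  · -- mirrored
    have hdm : (node t R.mi L.mi).Dist := dist_mi _ hd'
    have hwm : UU (node t R.mi L.mi) = UU (node t L R) := UU_mi (node t L R)
    have hLm : UU R.mi = UU (node t R.mi L.mi) := by rw [UU_mi, hwm, hR]
    have hRm : UU L.mi = UU (node t R.mi L.mi) := by rw [UU_mi, hwm, hL]
    have hAm : AA L.mi t < AA R.mi t := by rw [AA_mi, AA_mi]; exact hA
    have hBm : BB R.mi t < BB L.mi t := by rw [BB_mi, BB_mi]; exact hB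
    obtain ⟨c, hc, hCL⟩ := find_corner hdm hLm hRm hAm hBm
    have hc' : c ∈ corners (UU (node t L R)) := by rw [← hwm]; exact hc
    rcases cup_step hdm hLm hRm hc hCL with h | h
    · right
      refine Psi_drop' hR (tt_right t L R) hc' ?_
      unfold tt
      have h3 := tau_right t L R c
      have h4 := tauP'_right t L R c
      rw [mi_node]
      omega
    · left
      refine Psi_drop' hL (tt_left t L R) hc' ?_
      unfold tt
      have h3 := tau_left t L R c
      have h4 := tauP'_left t L R c
      rw [mi_node]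
      omega

lemma height_le_Psi : ∀ {n : ℕ} (w : BTr α n), w.Dist → (n : ℤ) ≤ Psi w := by
  intro n w
  induction w with
  | leaf a => intro _; exact_mod_cast Psi_nonneg _
  | @node n t L R ihL ihR =>
    intro hd
    have h1 := ihL hd.2.1
    have h2 := ihR hd.2.2
    push_cast
    rcases main_step t L R hd with h | h <;> linarith

/-- A complete binary tree of height `n` contains a composite subtree of depth `D` with
`n ≤ 13 D ^ 2`, for the labels or for the mirrored negated labels. -/
theorem tree_bound {n : ℕ} (w : BTr α n) (hd : w.Dist) (D : ℕ) (hn : 13 * D ^ 2 < n) :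
    (∃ θ, Plus w (D + 1) θ) ∨ (∃ θ, Plus w.nm (D + 1) θ) := by
  by_contra hcon
  push Not at hcon
  obtain ⟨h1, h2⟩ := hcon
  have hA : ∀ θ, AA w θ ≤ D := by
    intro θ
    by_contra hc
    push Not at hc
    exact h1 θ ((AA_spec w θ).anti hc)
  have hB : ∀ θ, BB w θ ≤ D := by
    intro θ
    by_contra hc
    push Not at hc
    exact h2 (-θ) ((AA_spec w.nm (-θ)).anti hc)
  have h3 := height_le_Psi w hd
  have h4 : Psi w ≤ (PiU (UU w) : ℤ) := by
    unfold Psi
    have : 0 ≤ ∑ c ∈ corners (UU w), (tt w c : ℤ) :=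
      Finset.sum_nonneg (fun c _ => Int.natCast_nonneg _)
    linarith
  have h5 : (UU w).card ≤ D ^ 2 := by
    have : UU w ⊆ Finset.range D ×ˢ Finset.range D := by
      intro p hp
      have hp' : p ∈ US w := by
        rw [mem_UU] at hp; exact hp
      have := US_bound w hp' hA hB
      rw [Finset.mem_product, Finset.mem_range, Finset.mem_range]
      exact this
    have := Finset.card_le_card this
    rwa [Finset.card_product, Finset.card_range, ← pow_two] at this
  have h6 : (KK (UU w)).card ≤ (UU w).card :=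
    Finset.card_le_card (fun p hp => (mem_KK.mp hp).1)
  have h7 : PiU (UU w) ≤ 13 * D ^ 2 := by
    unfold PiU
    omega
  have h8 : (PiU (UU w) : ℤ) ≤ ((13 * D ^ 2 : ℕ) : ℤ) := by exact_mod_cast h7
  have h9 : ((13 * D ^ 2 : ℕ) : ℤ) < (n : ℤ) := by exact_mod_cast hn
  linarith

end Pool.Agent.H41.Kc
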