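import Mathlib
import Pool.Agent.H41.Kc.Comp
import Pool.Agent.H41.Kc.Planar
import Pool.Agent.H41.Kc.Affine
import Pool.Agent.H41.Kc.Pot

set_option autoImplicit false

/-!
Composite trees give `3`-convex sets.
-/

namespace Pool.Agent.H41.Kc

open BTr

variable {α : Type}

/-- the top node of a composite tree -/
def Strip : {n : ℕ} → BTr α n → Prop
  | _, leaf _ => True
  | _, node t L R => (∃ m l, m ≤ t ∧ CT true L m l t) ∨ (∃ m l, m ≤ t ∧ CT false R m l t)

lemma CT.strip {c : Bool} {n : ℕ} {w : BTr α n} {m l u : ℝ} (h : CT c w m l u) : Strip w := by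
  induction h with
  | leaf => trivial
  | cup t L R m l u h1 h2 h3 h4 _ _ _ => exact Or.inl ⟨m, l, h1, h4⟩
  | cap t L R m l u h1 h2 h3 _ h5 _ _ => exact Or.inr ⟨m, l, h1, h5⟩
  | fresh c c' w m l u m' l' u' h1 h2 _ ih => exact ih

variable {φ : α → ℝ × ℝ}

lemma Geo.sorted {n : ℕ} {w : BTr α n} (h : Geo φ w) :
    w.lf.Pairwise (fun a b => (φ a).1 < (φ b).1) := by
  induction w with
  | leaf a => simp
  | node t L R hL hR =>
    obtain ⟨h1, _, _, h4, h5⟩ := h
    rw [lf_node, List.pairwise_append]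
    exact ⟨hL h4, hR h5, h1⟩

lemma RL.pairwise {t : ℝ} {T : List α} {n : ℕ} {w : BTr α n} (h : RL φ t T w)
    (hl : ∀ x ∈ w.lab, x < t) :
    w.lf.Pairwise (fun a b => ∀ c ∈ T, 0 < mf (φ a) (φ b) (φ c)) := by
  induction w with
  | leaf a => simp
  | node x X Y hX hY =>
    obtain ⟨⟨h1, h2, h3⟩, h4, h5⟩ := h
    rw [lf_node, List.pairwise_append]
    exact ⟨hX h4 (fun y hy => hl y (by simp [hy])), hY h5 (fun y hy => hl y (by simp [hy])),
      fun a ha b hb c hc => h2 (hl x (by simp)) a ha b hb c hc⟩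

lemma RR.pairwise {t : ℝ} {T : List α} {n : ℕ} {w : BTr α n} (h : RR φ t T w)
    (hl : ∀ x ∈ w.lab, x < t) :
    w.lf.Pairwise (fun a b => ∀ c ∈ T, mf (φ c) (φ a) (φ b) < 0) := by
  induction w with
  | leaf a => simp
  | node x X Y hX hY =>
    obtain ⟨⟨h1, h2, h3⟩, h4, h5⟩ := h
    rw [lf_node, List.pairwise_append]
    exact ⟨hX h4 (fun y hy => hl y (by simp [hy])), hY h5 (fun y hy => hl y (by simp [hy])),
      fun a ha b hb c hc => h3 (hl x (by simp)) c hc a ha b hb⟩

lemma gp_subset {P Q : Set (ℝ × ℝ)} (hP : GeneralPosition P) (h : Q ⊆ P) : GeneralPosition Q := by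
  intro l hl
  exact (Set.encard_le_encard (Set.inter_subset_inter_left _ h)).trans (hP l hl)

lemma ncard_of_sorted {W : List (ℝ × ℝ)} (h : W.Pairwise (fun a b => a.1 < b.1)) :
    {z | z ∈ W}.ncard = W.length := by
  classical
  have hn : W.Nodup := h.imp (fun {a b} h heq => by rw [heq] at h; exact lt_irrefl _ h)
  have hcoe : {z | z ∈ W} = (W.toFinset : Set (ℝ × ℝ)) := by ext z; simp
  rw [hcoe, Set.ncard_coe_finset, List.toFinset_card_of_nodup hn]

/-- case of a cup at the top -/
lemma cup_convex {D : ℕ} (hD : 1 ≤ D) {t : ℝ} {L R : BTr α D} (hG : Geo φ (node t L R))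
    {P : Set (ℝ × ℝ)} (hP : GeneralPosition P) (hPm : ∀ a ∈ (node t L R).lf, φ a ∈ P)
    {m l : ℝ} (hm : m ≤ t) (hCT : CT true L m l t) :
    ∃ Q : Set (ℝ × ℝ), Q ⊆ P ∧ KConvexSet 3 Q ∧ 2 ^ D < Q.ncard := by
  obtain ⟨g1, g2, g3, g4, g5⟩ := hG
  obtain ⟨b, hb⟩ := exists_mem_lf R
  have hlabL : ∀ x ∈ L.lab, x < t := by
    intro x hx
    rcases hCT.lab_lt x hx with h | h <;> linarith
  have hsortL := g4.sorted
  have hpair := g2.pairwise hlabL
  have hlen := lf_length L
  have hbL : ∀ a ∈ L.lf, (φ a).1 < (φ b).1 := fun a ha => g1 a ha b hb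
  -- the first point
  rcases hLf : L.lf with _ | ⟨a₀, rest⟩
  · exact absurd hLf (lf_ne_nil L)
  have ha₀ : a₀ ∈ L.lf := by rw [hLf]; simp
  have ha₀b : (φ a₀).1 < (φ b).1 := hbL a₀ ha₀
  have hrestne : rest ≠ [] := by
    intro h
    rw [hLf, h] at hlen
    simp at hlen
    have : 2 ≤ 2 ^ D := by
      calc 2 = 2 ^ 1 := rfl
        _ ≤ 2 ^ D := Nat.pow_le_pow_right (by norm_num) hD
    omega
  set c : ℝ := ((φ b).2 - (φ a₀).2) / ((φ b).1 - (φ a₀).1) with hc
  set d : ℝ := (φ a₀).2 - c * (φ a₀).1 with hd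
  have hne : (φ b).1 - (φ a₀).1 ≠ 0 := by linarith
  have hcb : (φ b).2 - (φ a₀).2 = c * ((φ b).1 - (φ a₀).1) := by
    rw [hc, div_mul_cancel₀ _ hne]
  have hdet : (1 : ℝ) * (-1) - 0 * c ≠ 0 := by norm_num
  set F : ℝ × ℝ → ℝ × ℝ := af 1 0 0 c (-1) d with hF
  have hF1 : ∀ z, (F z).1 = z.1 := by intro z; simp only [hF, af]; ring
  have hF2 : ∀ z, (F z).2 = c * z.1 - z.2 + d := by intro z; simp only [hF, af]; ring
  have hFF : ∀ z, F (F z) = z := by
    intro z
    apply Prod.ext
    · rw [hF1, hF1]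
    · rw [hF2, hF1, hF2]; ring
  have hFa₀ : F (φ a₀) = ((φ a₀).1, 0) := by
    apply Prod.ext
    · rw [hF1]
    · rw [hF2, hd]; ring
  have hFb : F (φ b) = ((φ b).1, 0) := by
    apply Prod.ext
    · rw [hF1]
    · rw [hF2, hd]
      show c * (φ b).1 - (φ b).2 + ((φ a₀).2 - c * (φ a₀).1) = 0
      linarith
  set ML := rest.map (fun a => F (φ a)) with hML
  set W := ((φ a₀).1, (0 : ℝ)) :: (ML ++ [((φ b).1, 0)]) with hW
  have hWeq : W = (L.lf ++ [b]).map (fun a => F (φ a)) := by
    rw [hW, hLf, List.cons_append, List.map_cons, List.map_append, List.map_cons, List.map_nil,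
      hFa₀, hFb]
  have hsortLb : (L.lf ++ [b]).Pairwise (fun x y => (φ x).1 < (φ y).1) := by
    rw [List.pairwise_append]
    refine ⟨hsortL, List.pairwise_singleton _ _, ?_⟩
    intro a ha b' hb'
    rw [List.mem_singleton] at hb'
    subst hb'
    exact hbL a ha
  have hsort : W.Pairwise (fun x y => x.1 < y.1) := by
    rw [hWeq, List.pairwise_map]
    refine hsortLb.imp ?_
    intro x y hxy
    rw [hF1, hF1]; exact hxy
  have hWP : ∀ z ∈ W, F z ∈ P := by
    intro z hz
    rw [hWeq, List.mem_map] at hz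
    obtain ⟨a, ha, rfl⟩ := hz
    rw [hFF]
    apply hPm
    rw [lf_node, List.mem_append]
    rw [List.mem_append, List.mem_singleton] at ha
    rcases ha with ha | rfl
    · exact Or.inl ha
    · exact Or.inr hb
  have hconv : KConvexSet 3 {z | z ∈ W} := by
    refine kconvex_of_list ?_ hsort ?_ ?_ (by norm_num) ?_
    · rw [hML]
      intro h
      exact hrestne (List.map_eq_nil_iff.mp h)
    · intro z hz
      rw [hML, List.mem_map] at hz
      obtain ⟨a, ha, rfl⟩ := hz
      rw [hLf, List.pairwise_cons] at hpair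
      have h1 := hpair.1 a ha b hb
      rw [hF2, hd]
      have h2 : mf (φ a₀) (φ a) (φ b) = ((φ b).1 - (φ a₀).1) *
          (c * (φ a).1 - (φ a).2 + ((φ a₀).2 - c * (φ a₀).1)) := by
        unfold mf
        rw [hcb]; ring
      rw [h2] at h1
      exact (mul_pos_iff_of_pos_left (by linarith)).mp h1
    · have h1 := gp_image (c := 0) (f := d) hdet hP
      refine gp_subset h1 ?_
      intro z hz
      exact ⟨F z, hWP z hz, hFF z⟩
    · intro x y
      show alt false (W.map _ ++ [false]) ≤ _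
      rw [hWeq, List.map_map]
      set S : α → Bool := fun a => decide ((c - x) * (φ a).1 + (d - y) < (φ a).2) with hS
      have hside : Side φ S (c - x) := by
        intro a a' h1 h2
        simp only [hS, decide_eq_true_eq, decide_eq_false_iff_not, not_lt] at h1 h2
        linarith
      have hmap : (L.lf ++ [b]).map ((fun z : ℝ × ℝ => decide (x * z.1 + y ≤ z.2)) ∘
          (fun a => F (φ a))) = ((L.lf ++ [b]).map S).map (!·) := by
        rw [List.map_map]
        apply List.map_congr_left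
        intro a _
        simp only [Function.comp_apply, hS, hF1, hF2]
        rw [← decide_not]
        congr 1
        apply propext
        rw [not_lt]
        constructor <;> intro h <;> linarith
      rw [hmap]
      have hnot : ((L.lf ++ [b]).map S).map (!·) ++ [false] =
          ((L.lf ++ [b]).map S ++ [true]).map (!·) := by
        rw [List.map_append (l₂ := [true])]; rfl
      rw [hnot]
      have h3 := alt_not true ((L.lf ++ [b]).map S ++ [true])
      simp only [Bool.not_true] at h3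
      rw [h3, List.map_append, List.map_cons, List.map_nil]
      obtain ⟨w1, -, -, -⟩ := word_CT hside hCT g4
      cases hSb : S b
      · have h4 : alt true (L.lf.map S ++ [false]) ≤ 1 :=
          all0_word ((flagL0 hside hb hSb g4 g2 hbL).all hlabL)
        have h5 := alt_append true (L.lf.map S ++ [false]) [true]
        have h6 : alt ((L.lf.map S ++ [false]).getLastD true) [true] = 1 := by
          simp [alt_cons]
        rw [h5, h6]
        omega
      · have h5 := alt_append_const (a := true) (b := true) (l₂ := [true]) (L.lf.map S) []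
          (by simp)
        rw [h5]
        have h6 := alt_flip true (L.lf.map S ++ [true])
        simp only [Bool.not_true] at h6
        omega
  refine ⟨F '' {z | z ∈ W}, ?_, ?_, ?_⟩
  · rintro _ ⟨z, hz, rfl⟩
    exact hWP z hz
  · exact kconvex_image (c := 0) (f := d) hdet hconv
  · rw [Set.ncard_image_of_injective _ (af_injective (c := 0) (f := d) hdet), ncard_of_sorted hsort,
      hWeq, List.length_map, List.length_append, hlen]
    simp

/-- case of a cap at the top -/
lemma cap_convex {D : ℕ} (hD : 1 ≤ D) {t : ℝ} {L R : BTr α D} (hG : Geo φ (node t L R))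
    {P : Set (ℝ × ℝ)} (hP : GeneralPosition P) (hPm : ∀ a ∈ (node t L R).lf, φ a ∈ P)
    {m l : ℝ} (hm : m ≤ t) (hCT : CT false R m l t) :
    ∃ Q : Set (ℝ × ℝ), Q ⊆ P ∧ KConvexSet 3 Q ∧ 2 ^ D < Q.ncard := by
  obtain ⟨g1, g2, g3, g4, g5⟩ := hG
  obtain ⟨b, hb⟩ := exists_mem_lf L
  have hlabR : ∀ x ∈ R.lab, x < t := by
    intro x hx
    rcases hCT.lab_lt x hx with h | h <;> linarith
  have hsortR := g5.sorted
  have hpair := g3.pairwise hlabR
  have hlen := lf_length R
  have hbR : ∀ a ∈ R.lf, (φ b).1 < (φ a).1 := fun a ha => g1 b hb a ha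
  -- the last point
  obtain ⟨init, a₁, hRf⟩ : ∃ init a₁, R.lf = init ++ [a₁] :=
    ⟨R.lf.dropLast, R.lf.getLast (lf_ne_nil R), (List.dropLast_append_getLast _).symm⟩
  have ha₁ : a₁ ∈ R.lf := by rw [hRf]; simp
  have hba₁ : (φ b).1 < (φ a₁).1 := hbR a₁ ha₁
  have hinitne : init ≠ [] := by
    intro h
    rw [hRf, h] at hlen
    simp at hlen
    have : 2 ≤ 2 ^ D := by
      calc 2 = 2 ^ 1 := rfl
        _ ≤ 2 ^ D := Nat.pow_le_pow_right (by norm_num) hD
    omega
  set c : ℝ := ((φ a₁).2 - (φ b).2) / ((φ a₁).1 - (φ b).1) with hc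
  set d : ℝ := (φ b).2 - c * (φ b).1 with hd
  have hne : (φ a₁).1 - (φ b).1 ≠ 0 := by linarith
  have hcb : (φ a₁).2 - (φ b).2 = c * ((φ a₁).1 - (φ b).1) := by
    rw [hc, div_mul_cancel₀ _ hne]
  have hdet : (1 : ℝ) * 1 - 0 * (-c) ≠ 0 := by norm_num
  have hdet' : (1 : ℝ) * 1 - 0 * c ≠ 0 := by norm_num
  set F : ℝ × ℝ → ℝ × ℝ := af 1 0 0 (-c) 1 (-d) with hF
  set F' : ℝ × ℝ → ℝ × ℝ := af 1 0 0 c 1 d with hF'
  have hF1 : ∀ z, (F z).1 = z.1 := by intro z; simp only [hF, af]; ring
  have hF2 : ∀ z, (F z).2 = z.2 - c * z.1 - d := by intro z; simp only [hF, af]; ring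
  have hFF : ∀ z, F' (F z) = z := by
    intro z
    apply Prod.ext
    · simp only [hF', af]; rw [hF1]; ring
    · simp only [hF', af]; rw [hF1, hF2]; ring
  have hFF' : ∀ z, F (F' z) = z := by
    intro z
    apply Prod.ext
    · rw [hF1]; simp only [hF', af]; ring
    · rw [hF2]; simp only [hF', af]; ring
  have hFa₁ : F (φ a₁) = ((φ a₁).1, 0) := by
    apply Prod.ext
    · rw [hF1]
    · rw [hF2, hd]
      show (φ a₁).2 - c * (φ a₁).1 - ((φ b).2 - c * (φ b).1) = 0
      linarith
  have hFb : F (φ b) = ((φ b).1, 0) := by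
    apply Prod.ext
    · rw [hF1]
    · rw [hF2, hd]; ring
  set ML := init.map (fun a => F (φ a)) with hML
  set W := ((φ b).1, (0 : ℝ)) :: (ML ++ [((φ a₁).1, 0)]) with hW
  have hWeq : W = (b :: R.lf).map (fun a => F (φ a)) := by
    rw [hW, hRf, List.map_cons, List.map_append, List.map_cons, List.map_nil, hFa₁, hFb]
  have hsortLb : (b :: R.lf).Pairwise (fun x y => (φ x).1 < (φ y).1) := by
    rw [List.pairwise_cons]
    exact ⟨hbR, hsortR⟩
  have hsort : W.Pairwise (fun x y => x.1 < y.1) := by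
    rw [hWeq, List.pairwise_map]
    refine hsortLb.imp ?_
    intro x y hxy
    rw [hF1, hF1]; exact hxy
  have hWP : ∀ z ∈ W, F' z ∈ P := by
    intro z hz
    rw [hWeq, List.mem_map] at hz
    obtain ⟨a, ha, rfl⟩ := hz
    rw [hFF]
    apply hPm
    rw [lf_node, List.mem_append]
    rw [List.mem_cons] at ha
    rcases ha with rfl | ha
    · exact Or.inl hb
    · exact Or.inr ha
  have hconv : KConvexSet 3 {z | z ∈ W} := by
    refine kconvex_of_list ?_ hsort ?_ ?_ (by norm_num) ?_
    · rw [hML]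
      intro h
      exact hinitne (List.map_eq_nil_iff.mp h)
    · intro z hz
      rw [hML, List.mem_map] at hz
      obtain ⟨a, ha, rfl⟩ := hz
      rw [hRf, List.pairwise_append] at hpair
      have h1 := hpair.2.2 a ha a₁ (by simp) b hb
      rw [hF2, hd]
      have h2 : mf (φ b) (φ a) (φ a₁) = -(((φ a₁).1 - (φ b).1) *
          ((φ a).2 - c * (φ a).1 - ((φ b).2 - c * (φ b).1))) := by
        unfold mf
        rw [hcb]; ring
      rw [h2, neg_lt_zero] at h1
      exact (mul_pos_iff_of_pos_left (by linarith)).mp h1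
    · have h1 := gp_image (c := 0) (f := -d) hdet hP
      refine gp_subset h1 ?_
      intro z hz
      exact ⟨F' z, hWP z hz, hFF' z⟩
    · intro x y
      show alt false (W.map _ ++ [false]) ≤ _
      rw [hWeq, List.map_map]
      set S : α → Bool := fun a => decide ((x + c) * (φ a).1 + (y + d) ≤ (φ a).2) with hS
      have hside : Side φ S (x + c) := by
        intro a a' h1 h2
        simp only [hS, decide_eq_true_eq, decide_eq_false_iff_not, not_le] at h1 h2
        linarith
      have hmap : (b :: R.lf).map ((fun z : ℝ × ℝ => decide (x * z.1 + y ≤ z.2)) ∘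
          (fun a => F (φ a))) = (b :: R.lf).map S := by
        apply List.map_congr_left
        intro a _
        simp only [Function.comp_apply, hS, hF1, hF2]
        congr 1
        apply propext
        constructor <;> intro h <;> linarith
      rw [hmap, List.map_cons, List.cons_append, alt_cons]
      obtain ⟨w1, -, -, -⟩ := word_CT hside hCT g5
      cases hSb : S b
      · have h4 := alt_split false true (R.lf.map S) [false]
        have h5 : alt true [false] = 1 := by simp [alt_cons]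
        simp only [if_true]
        omega
      · have h4 : alt true (R.lf.map S ++ [false]) ≤ 1 :=
          all0_word ((flagR0 hside hb hSb g5 g3 hbR).all hlabR)
        simp only [Bool.false_eq_true, if_false]
        omega
  refine ⟨F' '' {z | z ∈ W}, ?_, ?_, ?_⟩
  · rintro _ ⟨z, hz, rfl⟩
    exact hWP z hz
  · exact kconvex_image (c := 0) (f := d) hdet' hconv
  · rw [Set.ncard_image_of_injective _ (af_injective (c := 0) (f := d) hdet'),
      ncard_of_sorted hsort, hWeq, List.length_map, List.length_cons, hlen]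
    simp

/-- A composite subtree of depth `D + 1` gives a `3`-convex set of more than `2 ^ D` points. -/
theorem geo_convex {n D : ℕ} (hD : 1 ≤ D) {w : BTr α n} (hG : Geo φ w) {P : Set (ℝ × ℝ)}
    (hP : GeneralPosition P) (hPm : ∀ a ∈ w.lf, φ a ∈ P) {θ : ℝ} (h : Plus w (D + 1) θ) :
    ∃ Q : Set (ℝ × ℝ), Q ⊆ P ∧ KConvexSet 3 Q ∧ 2 ^ D < Q.ncard := by
  obtain ⟨c, m, l, u, _, _, hC⟩ := h
  obtain ⟨T, hsub, hCT⟩ := hC.extract
  have hGT := hsub.geo hG
  have hst := hCT.strip
  have hPT : ∀ a ∈ T.lf, φ a ∈ P := fun a ha => hPm a (hsub.lf_subset a ha)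
  cases T with
  | node t L R =>
    rcases hst with ⟨m', l', h1, h2⟩ | ⟨m', l', h1, h2⟩
    · exact cup_convex hD hGT hP hPT h1 h2
    · exact cap_convex hD hGT hP hPT h1 h2

/-! ### Reflection -/

lemma mf_reflect (A B p : ℝ × ℝ) : mf (-A.1, A.2) (-B.1, B.2) (-p.1, p.2) = - mf A B p := by
  simp only [mf]; ring

lemma mf_rev (A B p : ℝ × ℝ) : mf p B A = - mf A B p := by
  simp only [mf]; ring

lemma lf_nm_mem {n : ℕ} (w : BTr α n) (a : α) : a ∈ w.nm.lf ↔ a ∈ w.lf := by
  induction w with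
  | leaf b => rfl
  | node t L R hL hR =>
    rw [nm_node, lf_node, lf_node, List.mem_append, List.mem_append, hL, hR, or_comm]

lemma RL.nm {t : ℝ} {T T' : List α} (hT : ∀ a ∈ T', a ∈ T) {n : ℕ} {w : BTr α n} (h : RL φ t T w) :
    RR (fun a => (-(φ a).1, (φ a).2)) (-t) T' w.nm := by
  induction w with
  | leaf b => trivial
  | node x X Y hX hY =>
    obtain ⟨⟨h1, h2, h3⟩, h4, h5⟩ := h
    refine ⟨⟨?_, ?_, ?_⟩, hY h5, hX h4⟩
    · intro h; apply h1; linarith
    · intro hx c hc b hb a ha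
      rw [lf_nm_mem] at ha hb
      have := h2 (by linarith) a ha b hb c (hT c hc)
      rw [mf_reflect, mf_rev]
      linarith
    · intro hx c hc b hb a ha
      rw [lf_nm_mem] at ha hb
      have := h3 (by linarith) a ha b hb c (hT c hc)
      rw [mf_reflect, mf_rev]
      linarith

lemma RR.nm {t : ℝ} {T T' : List α} (hT : ∀ a ∈ T', a ∈ T) {n : ℕ} {w : BTr α n} (h : RR φ t T w) :
    RL (fun a => (-(φ a).1, (φ a).2)) (-t) T' w.nm := by
  induction w with
  | leaf b => trivial
  | node x X Y hX hY =>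
    obtain ⟨⟨h1, h2, h3⟩, h4, h5⟩ := h
    refine ⟨⟨?_, ?_, ?_⟩, hY h5, hX h4⟩
    · intro h; apply h1; linarith
    · intro hx b hb a ha c hc
      rw [lf_nm_mem] at ha hb
      have := h2 (by linarith) c (hT c hc) a ha b hb
      rw [mf_reflect, mf_rev]
      linarith
    · intro hx b hb a ha c hc
      rw [lf_nm_mem] at ha hb
      have := h3 (by linarith) c (hT c hc) a ha b hb
      rw [mf_reflect, mf_rev]
      linarith

lemma Geo.nm {n : ℕ} {w : BTr α n} (h : Geo φ w) :
    Geo (fun a => (-(φ a).1, (φ a).2)) w.nm := by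
  induction w with
  | leaf b => trivial
  | node t L R hL hR =>
    obtain ⟨h1, h2, h3, h4, h5⟩ := h
    refine ⟨?_, ?_, ?_, hR h5, hL h4⟩
    · intro a ha b hb
      rw [lf_nm_mem] at ha hb
      have := h1 b hb a ha
      simp only
      linarith
    · exact h3.nm (fun a ha => (lf_nm_mem _ _).mp ha)
    · exact h2.nm (fun a ha => (lf_nm_mem _ _).mp ha)

/-- Geometric trees of height more than `13 D ^ 2` contain large `3`-convex sets. -/
theorem tree_convex {n D : ℕ} (hD : 1 ≤ D) (hn : 13 * D ^ 2 < n) {w : BTr α n} (hG : Geo φ w)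
    {P : Set (ℝ × ℝ)} (hP : GeneralPosition P) (hPm : ∀ a ∈ w.lf, φ a ∈ P) :
    ∃ Q : Set (ℝ × ℝ), Q ⊆ P ∧ KConvexSet 3 Q ∧ 2 ^ D < Q.ncard := by
  rcases tree_bound w hG.dist D hn with ⟨θ, h⟩ | ⟨θ, h⟩
  · exact geo_convex hD hG hP hPm h
  · have hdet : (-1 : ℝ) * 1 - 0 * 0 ≠ 0 := by norm_num
    set F : ℝ × ℝ → ℝ × ℝ := af (-1) 0 0 0 1 0 with hF
    have hFeq : ∀ z, F z = (-z.1, z.2) := by
      intro z
      simp only [hF, af]
      apply Prod.ext <;> simp
    have hFF : ∀ z, F (F z) = z := by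
      intro z
      rw [hFeq, hFeq]
      simp
    have hgp := gp_image (c := 0) (f := 0) hdet hP
    obtain ⟨Q, hQ1, hQ2, hQ3⟩ := geo_convex hD hG.nm (P := F '' P) hgp (by
      intro a ha
      rw [lf_nm_mem] at ha
      exact ⟨φ a, hPm a ha, hFeq _⟩) h
    refine ⟨F '' Q, ?_, kconvex_image (c := 0) (f := 0) hdet hQ2, ?_⟩
    · rintro _ ⟨z, hz, rfl⟩
      obtain ⟨y, hy, hyz⟩ := hQ1 hz
      rw [← hyz, hFF]
      exact hy
    · rw [Set.ncard_image_of_injective _ (af_injective (c := 0) (f := 0) hdet)]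
      exact hQ3

end Pool.Agent.H41.Kc
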