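import Mathlib
import Pool.Agent.H41.Kc.GeoConvex
import Pool.Agent.H41.Kc.Extract
import Pool.Agent.H41.Kc.Cross2

set_option autoImplicit false

/-!
Every `k`-convex set contains a large `3`-convex subset: finite version.
-/

namespace Pool.Agent.H41.Kc

open BTr

/-- a shear makes the first coordinates of a finite set distinct -/
lemma exists_shear {P : Set (ℝ × ℝ)} (hP : P.Finite) :
    ∃ ε : ℝ, ∀ u ∈ P, ∀ v ∈ P, u ≠ v → u.1 + ε * u.2 ≠ v.1 + ε * v.2 := by
  set B : Set ℝ := (fun q : (ℝ × ℝ) × (ℝ × ℝ) => (q.2.1 - q.1.1) / (q.1.2 - q.2.2)) '' (P ×ˢ P)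
    with hB
  have hBf : B.Finite := (hP.prod hP).image _
  obtain ⟨ε, hε⟩ := (hBf.infinite_compl).nonempty
  refine ⟨ε, fun u hu v hv huv he => ?_⟩
  have h1 : ε * (u.2 - v.2) = v.1 - u.1 := by linarith
  by_cases h2 : u.2 - v.2 = 0
  · rw [h2, mul_zero] at h1
    apply huv
    exact Prod.ext (by linarith) (by linarith)
  · apply hε
    refine ⟨(u, v), ⟨hu, hv⟩, ?_⟩
    simp only
    rw [div_eq_iff h2, ← h1]

/-- lines through vertices can be moved off -/
lemma altL_all {L : List (ℝ × ℝ)} {N : ℕ}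
    (h : ∀ a b c : ℝ, (a, b) ≠ (0, 0) → (∀ p ∈ L, hf a b c p ≠ 0) →
      altL (L.map (fun p => decide (0 < hf a b c p))) ≤ N) {a b c : ℝ} (hab : (a, b) ≠ (0, 0)) :
    altL (L.map (fun p => decide (0 < hf a b c p))) ≤ N := by
  classical
  -- a small shift
  obtain ⟨ε, hε, hε'⟩ : ∃ ε > 0, ∀ p ∈ L, 0 < hf a b c p → ε < hf a b c p := by
    set A := (L.toFinset.filter (fun p => 0 < hf a b c p)).image (hf a b c) with hA
    have hpos : ∀ x ∈ ({0} : Finset ℝ), ∀ y ∈ A, x < y := by
      intro x hx y hy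
      rw [Finset.mem_singleton] at hx
      rw [hA, Finset.mem_image] at hy
      obtain ⟨p, hp, rfl⟩ := hy
      rw [hx]
      exact (Finset.mem_filter.mp hp).2
    obtain ⟨ε, h1, h2⟩ := Order.exists_between_finsets {0} A hpos
    refine ⟨ε, h1 0 (by simp), fun p hp h3 => h2 _ ?_⟩
    rw [hA, Finset.mem_image]
    exact ⟨p, Finset.mem_filter.mpr ⟨List.mem_toFinset.mpr hp, h3⟩, rfl⟩
  have h1 : ∀ p, hf a b (c + ε) p = hf a b c p - ε := by
    intro p; unfold hf; ring
  have h2 : L.map (fun p => decide (0 < hf a b c p)) =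
      L.map (fun p => decide (0 < hf a b (c + ε) p)) := by
    apply List.map_congr_left
    intro p hp
    congr 1
    apply propext
    rw [h1]
    constructor
    · intro h3
      have := hε' p hp h3
      linarith
    · intro h3
      linarith
  rw [h2]
  apply h a b (c + ε) hab
  intro p hp
  rw [h1]
  intro h3
  by_cases h4 : 0 < hf a b c p
  · have := hε' p hp h4
    linarith
  · linarith

lemma chg_le_altL {L : List (ℝ × ℝ)} {N : ℕ} (hN : N ≤ L.length) (f : ℝ × ℝ → Bool) :
    chg (fun i => f (L.getD i (0, 0))) 0 N ≤ altL (L.map f) := by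
  cases N with
  | zero => simp [chg]
  | succ m =>
    have h1 := altL_range (fun i => f (L.getD i (0, 0))) m
    have h2 : chg (fun i => f (L.getD i (0, 0))) 0 (m + 1) =
        altL ((List.range (m + 1)).map (fun i => f (L.getD i (0, 0)))) := by
      rw [h1]
      unfold chg
      simp only [Nat.add_sub_cancel, zero_add]
    rw [h2]
    apply altL_sublist
    have h3 : (List.range (m + 1)).map (fun i => f (L.getD i (0, 0))) =
        (L.take (m + 1)).map f := by
      apply List.ext_getElem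
      · simp [hN]
      · intro i h4 h5
        simp only [List.length_map, List.length_range] at h4
        rw [List.getElem_map, List.getElem_map, List.getElem_range, List.getElem_take,
          List.getD_eq_getElem _ _ (by omega)]
    rw [h3]
    exact (List.take_sublist _ _).map f

/-- Finite form of the lower bound: every `k`-convex set with at least
`(4 (13 D ^ 2 + 1) (2 k + 1)) ^ (26 D ^ 2 + 1)` points has a `3`-convex subset with more than
`2 ^ D` points. -/
theorem lower_finite {k D : ℕ} (hD : 1 ≤ D) {P : Set (ℝ × ℝ)} (hP : KConvexSet k P)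
    (hn : (4 * (13 * D ^ 2 + 1) * (2 * k + 1)) ^ (26 * D ^ 2 + 1) ≤ P.ncard) :
    ∃ Q : Set (ℝ × ℝ), Q ⊆ P ∧ KConvexSet 3 Q ∧ 2 ^ D < Q.ncard := by
  classical
  have hfin : P.Finite := by
    apply Set.finite_of_ncard_pos
    exact lt_of_lt_of_le (by positivity) hn
  obtain ⟨ε, hε⟩ := exists_shear hfin
  have hdet : (1 : ℝ) * 1 - ε * 0 ≠ 0 := by norm_num
  have hdet' : (1 : ℝ) * 1 - (-ε) * 0 ≠ 0 := by norm_num
  set F : ℝ × ℝ → ℝ × ℝ := af 1 ε 0 0 1 0 with hF
  set F' : ℝ × ℝ → ℝ × ℝ := af 1 (-ε) 0 0 1 0 with hF'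
  have hFv : ∀ z, F z = (z.1 + ε * z.2, z.2) := by
    intro z
    simp only [hF, af]
    apply Prod.ext <;> simp
  have hFF : ∀ z, F' (F z) = z := by
    intro z
    rw [hFv]
    simp only [hF', af]
    apply Prod.ext <;> simp
  have hPF : KConvexSet k (F '' P) := kconvex_image (c := 0) (f := 0) hdet hP
  obtain ⟨L, hL1, hL2, hL3⟩ := exists_order hPF
  have hlen : L.length = P.ncard := by
    have h1 : (F '' P).ncard = P.ncard :=
      Set.ncard_image_of_injective _ (af_injective (c := 0) (f := 0) hdet)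
    have h2 : F '' P = (L.toFinset : Set (ℝ × ℝ)) := by
      ext z
      simp [← hL2]
    rw [← h1, h2, Set.ncard_coe_finset, List.toFinset_card_of_nodup hL1]
  set R := 4 * (13 * D ^ 2 + 1) * (2 * k + 1) with hR
  set m := 13 * D ^ 2 with hm
  have hRm : R ^ (2 * m + 1) ≤ L.length := by
    rw [hlen]
    have : 2 * m + 1 = 26 * D ^ 2 + 1 := by rw [hm]; ring
    rw [this]
    exact hn
  set p : ℕ → ℝ × ℝ := fun i => L.getD i (0, 0) with hp
  have hpe : ∀ i (hi : i < L.length), p i = L[i] := by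
    intro i hi
    simp only [hp]
    exact List.getD_eq_getElem _ _ hi
  have hpm : ∀ i < L.length, p i ∈ F '' P := by
    intro i hi
    rw [hpe i hi, ← hL2]
    exact List.getElem_mem hi
  have hpi : ∀ i < L.length, ∀ j < L.length, i ≠ j → p i ≠ p j := by
    intro i hi j hj hij he
    rw [hpe i hi, hpe j hj] at he
    exact hij ((hL1.getElem_inj_iff).mp he)
  obtain ⟨w, hw1, hw2⟩ := extract (R := R) (K := 2 * k) (m := m) (p := p) (by
      rw [hR]
      exact le_of_eq (by ring)) (by
      intro i hi j hj hij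
      have hi' := lt_of_lt_of_le hi hRm
      have hj' := lt_of_lt_of_le hj hRm
      obtain ⟨u, hu, hu'⟩ := hpm i hi'
      obtain ⟨v, hv, hv'⟩ := hpm j hj'
      have hne := hpi i hi' j hj' hij
      rw [← hu', ← hv'] at hne ⊢
      have huv : u ≠ v := fun h => hne (by rw [h])
      have := hε u hu v hv huv
      rw [hFv, hFv]
      exact this) (by
      intro i hi j hj l hl hij hjl hil
      have hi' := lt_of_lt_of_le hi hRm
      have hj' := lt_of_lt_of_le hj hRm
      have hl' := lt_of_lt_of_le hl hRm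
      exact mf_of_gp hPF.1 (hpm i hi') (hpm j hj') (hpm l hl') (hpi i hi' j hj' hij)
        (hpi j hj' l hl' hjl) (hpi i hi' l hl' hil)) (by
      intro a b c hab
      exact (chg_le_altL hRm (fun p => decide (0 < hf a b c p))).trans (altL_all hL3 hab))
  obtain ⟨Q, hQ1, hQ2, hQ3⟩ := tree_convex hD (n := m + 1) (by rw [hm]; omega) hw1 hPF.1 (by
    intro a ha
    exact hpm a (lt_of_lt_of_le (hw2 a ha) hRm))
  refine ⟨F' '' Q, ?_, kconvex_image (c := 0) (f := 0) hdet' hQ2, ?_⟩
  · rintro _ ⟨z, hz, rfl⟩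
    obtain ⟨y, hy, hyz⟩ := hQ1 hz
    rw [← hyz, hFF]
    exact hy
  · rw [Set.ncard_image_of_injective _ (af_injective (c := 0) (f := 0) hdet')]
    exact hQ3

end Pool.Agent.H41.Kc
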