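import Mathlib
import Pool.Agent.H41.Kc.Full
import Pool.Agent.H41.Kc.Geo
import Pool.Agent.H41.Kc.Chain

set_option autoImplicit false

/-!
Forced words are cut out by lines of the plane.
-/

namespace Pool.Agent.H41.Kc

/-- order of the first coordinates -/
def xlt (Q : ℝ) (l : List ℤ) (a b : List Bool) : Prop :=
  G Q (fun _ => 1) l a < G Q (fun _ => 1) l b

/-- the point of `z` lies above the line of slope `θ` through the point of `x` -/
noncomputable def hw (Q θ : ℝ) (l : List ℤ) (x z : List Bool) : Bool :=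
  decide (G Q (fun v => (v : ℝ) - θ) l x < G Q (fun v => (v : ℝ) - θ) l z)

lemma xlt_cons (Q : ℝ) (v : ℤ) (l : List ℤ) (c : Bool) (a b : List Bool) :
    xlt Q (v :: l) (c :: a) (c :: b) ↔ xlt Q l a b := by
  unfold xlt
  rw [G_cons, G_cons]
  simp

lemma hw_cons (Q θ : ℝ) (v : ℤ) (l : List ℤ) (c : Bool) (x z : List Bool) :
    hw Q θ (v :: l) (c :: x) (c :: z) = hw Q θ l x z := by
  unfold hw
  rw [G_cons, G_cons]
  simp

section

variable {Q : ℝ} {N : ℕ} (hQ : 2 * (N : ℝ) + 3 ≤ Q)

include hQ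

lemma xlt_head {v : ℤ} {l : List ℤ} {a b : List Bool} (ha : a.length = l.length)
    (hb : b.length = l.length) : xlt Q (v :: l) (false :: a) (true :: b) := by
  have h1 := lower_x hQ ha hb
  rw [abs_lt] at h1
  unfold xlt
  rw [G_cons, G_cons]
  simp only [Bool.false_eq_true, if_false, if_true, mul_one]
  linarith [h1.2]

lemma near_far {v₀ v : ℤ} (hv : v ≠ v₀) {θ : ℝ} (hθ : |(v₀ : ℝ) - θ| < 1 / 2) :
    1 / 2 ≤ |(v : ℝ) - θ| ∧ (θ < v ↔ v₀ < v) := by
  rw [abs_lt] at hθ
  rcases lt_or_gt_of_ne hv with h | h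
  · have h6 : (v : ℝ) + 1 ≤ v₀ := by exact_mod_cast h
    constructor
    · rw [abs_of_neg (by linarith)]
      linarith
    · constructor
      · intro h7; linarith
      · intro h7; omega
  · have h6 : (v₀ : ℝ) + 1 ≤ v := by exact_mod_cast h
    constructor
    · rw [abs_of_pos (by linarith)]
      linarith
    · constructor
      · intro _; exact h
      · intro _; linarith

lemma hw_left {v₀ v : ℤ} (hv : v ≠ v₀) {θ : ℝ} (hθ : |(v₀ : ℝ) - θ| < 1 / 2) {l : List ℤ}
    (hl : ∀ v' ∈ l, |(v' : ℝ) - v| ≤ N) {x z : List Bool} (hx : x.length = l.length)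
    (hz : z.length = l.length) : hw Q θ (v :: l) (false :: x) (true :: z) = up v₀ v := by
  obtain ⟨h1, h2⟩ := near_far hQ hv hθ
  have h3 := lower_lt hQ hl h1 hx hz
  have hQp : 0 < Q ^ (l.length + 1) := by
    have hN : (0 : ℝ) ≤ N := Nat.cast_nonneg N
    have : 0 < Q := by linarith
    positivity
  unfold hw up
  rw [G_cons, G_cons]
  simp only [Bool.false_eq_true, if_false, if_true, add_zero]
  by_cases h4 : θ < v
  · rw [abs_of_pos (by linarith : 0 < (v : ℝ) - θ), abs_lt] at h3
    rw [decide_eq_true (h2.mp h4), decide_eq_true_iff]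
    linarith [h3.2]
  · have h5 : (v : ℝ) - θ < 0 := by
      rcases lt_or_eq_of_le (not_lt.mp h4) with h6 | h6
      · linarith
      · rw [h6] at h1; norm_num at h1
    rw [abs_of_neg h5, abs_lt] at h3
    rw [decide_eq_false (fun h => h4 (h2.mpr h)), decide_eq_false_iff_not]
    linarith [h3.1]

lemma hw_right {v₀ v : ℤ} (hv : v ≠ v₀) {θ : ℝ} (hθ : |(v₀ : ℝ) - θ| < 1 / 2) {l : List ℤ}
    (hl : ∀ v' ∈ l, |(v' : ℝ) - v| ≤ N) {x z : List Bool} (hx : x.length = l.length)
    (hz : z.length = l.length) : hw Q θ (v :: l) (true :: x) (false :: z) = !(up v₀ v) := by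
  obtain ⟨h1, h2⟩ := near_far hQ hv hθ
  have h3 := lower_lt hQ hl h1 hx hz
  have hQp : 0 < Q ^ (l.length + 1) := by
    have hN : (0 : ℝ) ≤ N := Nat.cast_nonneg N
    have : 0 < Q := by linarith
    positivity
  unfold hw up
  rw [G_cons, G_cons]
  simp only [Bool.false_eq_true, if_false, if_true, add_zero]
  by_cases h4 : θ < v
  · rw [abs_of_pos (by linarith : 0 < (v : ℝ) - θ), abs_lt] at h3
    rw [decide_eq_true (h2.mp h4), Bool.not_true, decide_eq_false_iff_not]
    linarith [h3.1]
  · have h5 : (v : ℝ) - θ < 0 := by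
      rcases lt_or_eq_of_le (not_lt.mp h4) with h6 | h6
      · linarith
      · rw [h6] at h1; norm_num at h1
    rw [abs_of_neg h5, abs_lt] at h3
    rw [decide_eq_false (fun h => h4 (h2.mpr h)), Bool.not_false, decide_eq_true_iff]
    linarith [h3.2]

theorem BWp.sem {v₀ : ℤ} {l : List ℤ} {A : Set (List Bool)} {w : List Bool}
    (h : BWp (up v₀) l A w) : v₀ ∉ l → (∀ v ∈ l, ∀ v' ∈ l, |(v' : ℝ) - v| ≤ N) →
    (∀ b ∈ A, b.length = l.length) → ∃ x ∈ A, ∃ Z : List (List Bool), (∀ z ∈ Z, z ∈ A) ∧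
      Z.Pairwise (xlt Q l) ∧ ∀ θ : ℝ, |(v₀ : ℝ) - θ| < 1 / 2 → Z.map (hw Q θ l x) = w := by
  induction h with
  | nil hne =>
    intro _ _ _
    obtain ⟨x, hx⟩ := hne
    exact ⟨x, hx, [], by simp, List.Pairwise.nil, fun _ _ => rfl⟩
  | @skip v l A w c h ih =>
    intro hv hl hA
    obtain ⟨x, hx, Z, hZ, hZs, hZw⟩ := ih (fun h => hv (by simp [h]))
      (fun u hu u' hu' => hl u (by simp [hu]) u' (by simp [hu']))
      (fun b hb => by have := hA _ hb; simpa using this)
    refine ⟨c :: x, hx, Z.map (List.cons c), ?_, ?_, ?_⟩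
    · intro z hz
      obtain ⟨y, hy, rfl⟩ := List.mem_map.mp hz
      exact hZ y hy
    · rw [List.pairwise_map]
      exact hZs.imp (fun h => (xlt_cons Q v l c _ _).mpr h)
    · intro θ hθ
      rw [List.map_map, ← hZw θ hθ]
      exact List.map_congr_left (fun z _ => hw_cons Q θ v l c x z)
  | @left v l A w h hne ih =>
    intro hv hl hA
    have hlen : ∀ c, ∀ b ∈ st c A, b.length = l.length :=
      fun c b hb => by have := hA _ hb; simpa using this
    obtain ⟨x, hx, Z, hZ, hZs, hZw⟩ := ih (fun h => hv (by simp [h]))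
      (fun u hu u' hu' => hl u (by simp [hu]) u' (by simp [hu'])) (hlen false)
    obtain ⟨y, hy⟩ := hne
    refine ⟨false :: x, hx, Z.map (List.cons false) ++ [true :: y], ?_, ?_, ?_⟩
    · intro z hz
      rw [List.mem_append, List.mem_map, List.mem_singleton] at hz
      rcases hz with ⟨z', hz', rfl⟩ | rfl
      · exact hZ z' hz'
      · exact hy
    · rw [List.pairwise_append, List.pairwise_map]
      refine ⟨hZs.imp (fun h => (xlt_cons Q v l false _ _).mpr h), List.pairwise_singleton _ _, ?_⟩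
      intro a ha b hb
      obtain ⟨a', ha', rfl⟩ := List.mem_map.mp ha
      rw [List.mem_singleton] at hb
      subst hb
      exact xlt_head hQ (hlen false _ (hZ a' ha')) (hlen true _ hy)
    · intro θ hθ
      rw [List.map_append, List.map_map, List.map_cons, List.map_nil, ← hZw θ hθ]
      congr 1
      · exact List.map_congr_left (fun z _ => hw_cons Q θ v l false x z)
      · rw [hw_left hQ (v₀ := v₀) (fun h => hv (by simp [h])) hθ
          (fun v' hv' => hl v (by simp) v' (by simp [hv'])) (hlen false _ hx) (hlen true _ hy)]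
  | @right v l A w h hne ih =>
    intro hv hl hA
    have hlen : ∀ c, ∀ b ∈ st c A, b.length = l.length :=
      fun c b hb => by have := hA _ hb; simpa using this
    obtain ⟨x, hx, Z, hZ, hZs, hZw⟩ := ih (fun h => hv (by simp [h]))
      (fun u hu u' hu' => hl u (by simp [hu]) u' (by simp [hu'])) (hlen true)
    obtain ⟨y, hy⟩ := hne
    refine ⟨true :: x, hx, (false :: y) :: Z.map (List.cons true), ?_, ?_, ?_⟩
    · intro z hz
      rw [List.mem_cons, List.mem_map] at hz
      rcases hz with rfl | ⟨z', hz', rfl⟩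
      · exact hy
      · exact hZ z' hz'
    · rw [List.pairwise_cons, List.pairwise_map]
      refine ⟨?_, hZs.imp (fun h => (xlt_cons Q v l true _ _).mpr h)⟩
      intro a ha
      obtain ⟨a', ha', rfl⟩ := List.mem_map.mp ha
      exact xlt_head hQ (hlen false _ hy) (hlen true _ (hZ a' ha'))
    · intro θ hθ
      rw [List.map_cons, List.map_map, ← hZw θ hθ]
      congr 1
      · rw [hw_right hQ (v₀ := v₀) (fun h => hv (by simp [h])) hθ
          (fun v' hv' => hl v (by simp) v' (by simp [hv'])) (hlen true _ hx) (hlen false _ hy)]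
      · exact List.map_congr_left (fun z _ => hw_cons Q θ v l true x z)

omit hQ in
lemma EWp.mem {v₀ : ℤ} {l : List ℤ} {A : Set (List Bool)} {w : List Bool}
    (h : EWp v₀ l A w) : v₀ ∈ l := by
  induction h with
  | here _ _ => simp
  | skip c _ ih => simp [ih]
  | left _ _ ih => simp [ih]
  | right _ _ ih => simp [ih]

theorem EWp.sem {v₀ : ℤ} {l : List ℤ} {A : Set (List Bool)} {w : List Bool}
    (h : EWp v₀ l A w) : l.Nodup → (∀ v ∈ l, ∀ v' ∈ l, |(v' : ℝ) - v| ≤ N) →
    (∀ b ∈ A, b.length = l.length) → ∃ θ : ℝ, |(v₀ : ℝ) - θ| < 1 / 2 ∧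
      ∃ x ∈ A, ∃ Z : List (List Bool), (∀ z ∈ Z, z ∈ A) ∧
      Z.Pairwise (xlt Q l) ∧ Z.map (hw Q θ l x) = w := by
  induction h with
  | @here l A w₁ w₂ h1 h2 =>
    intro hn hl hA
    have hv : v₀ ∉ l := (List.nodup_cons.mp hn).1
    have hlen : ∀ c, ∀ b ∈ st c A, b.length = l.length :=
      fun c b hb => by have := hA _ hb; simpa using this
    obtain ⟨x₁, hx₁, Z₁, hZ₁, hZs₁, hZw₁⟩ := BWp.sem hQ h1 hv
      (fun u hu u' hu' => hl u (by simp [hu]) u' (by simp [hu'])) (hlen false)
    obtain ⟨x₂, hx₂, Z₂, hZ₂, hZs₂, hZw₂⟩ := BWp.sem hQ h2 hv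
      (fun u hu u' hu' => hl u (by simp [hu]) u' (by simp [hu'])) (hlen true)
    have hxx : G Q (fun _ => 1) (v₀ :: l) (false :: x₁) < G Q (fun _ => 1) (v₀ :: l) (true :: x₂) :=
      xlt_head hQ (hlen false _ hx₁) (hlen true _ hx₂)
    set X₁ := G Q (fun _ => 1) (v₀ :: l) (false :: x₁) with hX₁
    set X₂ := G Q (fun _ => 1) (v₀ :: l) (true :: x₂) with hX₂
    set Y₁ := G Q (fun v => (v : ℝ)) (v₀ :: l) (false :: x₁) with hY₁
    set Y₂ := G Q (fun v => (v : ℝ)) (v₀ :: l) (true :: x₂) with hY₂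
    set θ := (Y₂ - Y₁) / (X₂ - X₁) with hθ
    have hXX : X₂ - X₁ ≠ 0 := by linarith
    have hYY : Y₂ - Y₁ = θ * (X₂ - X₁) := by rw [hθ, div_mul_cancel₀ _ hXX]
    have heq : G Q (fun v => (v : ℝ) - θ) (v₀ :: l) (false :: x₁) =
        G Q (fun v => (v : ℝ) - θ) (v₀ :: l) (true :: x₂) := by
      rw [G_sub, G_sub]
      show Y₁ - θ * X₁ = Y₂ - θ * X₂
      linarith
    have hnear : |(v₀ : ℝ) - θ| < 1 / 2 := by
      by_contra hcon
      push Not at hcon
      have h3 := lower_lt hQ (θ := θ) (v := v₀) (l := l)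
        (fun v' hv' => hl v₀ (by simp) v' (by simp [hv'])) hcon (hlen false _ hx₁)
        (hlen true _ hx₂)
      have hQp : 0 < Q ^ (l.length + 1) := by
        have hN : (0 : ℝ) ≤ N := Nat.cast_nonneg N
        have : 0 < Q := by linarith
        positivity
      have h4 : |Q ^ (l.length + 1) * ((v₀ : ℝ) - θ)| = Q ^ (l.length + 1) * |(v₀ : ℝ) - θ| := by
        rw [abs_mul, abs_of_pos hQp]
      rw [← h4] at h3
      rw [G_cons, G_cons] at heq
      simp only [Bool.false_eq_true, if_false, if_true, add_zero] at heq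
      rw [heq] at h3
      simp at h3
    refine ⟨θ, hnear, false :: x₁, hx₁, Z₁.map (List.cons false) ++ Z₂.map (List.cons true),
      ?_, ?_, ?_⟩
    · intro z hz
      rw [List.mem_append, List.mem_map, List.mem_map] at hz
      rcases hz with ⟨z', hz', rfl⟩ | ⟨z', hz', rfl⟩
      · exact hZ₁ z' hz'
      · exact hZ₂ z' hz'
    · rw [List.pairwise_append, List.pairwise_map, List.pairwise_map]
      refine ⟨hZs₁.imp (fun h => (xlt_cons Q v₀ l false _ _).mpr h),
        hZs₂.imp (fun h => (xlt_cons Q v₀ l true _ _).mpr h), ?_⟩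
      intro a ha b hb
      obtain ⟨a', ha', rfl⟩ := List.mem_map.mp ha
      obtain ⟨b', hb', rfl⟩ := List.mem_map.mp hb
      exact xlt_head hQ (hlen false _ (hZ₁ a' ha')) (hlen true _ (hZ₂ b' hb'))
    · rw [List.map_append, List.map_map, List.map_map, ← hZw₁ θ hnear, ← hZw₂ θ hnear]
      congr 1
      · exact List.map_congr_left (fun z _ => hw_cons Q θ v₀ l false x₁ z)
      · apply List.map_congr_left
        intro z _
        simp only [Function.comp_apply]
        rw [← hw_cons Q θ v₀ l true x₂ z]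
        unfold hw
        rw [heq]
  | @skip v l A w c h ih =>
    intro hn hl hA
    obtain ⟨θ, hθ, x, hx, Z, hZ, hZs, hZw⟩ := ih hn.of_cons
      (fun u hu u' hu' => hl u (by simp [hu]) u' (by simp [hu']))
      (fun b hb => by have := hA _ hb; simpa using this)
    refine ⟨θ, hθ, c :: x, hx, Z.map (List.cons c), ?_, ?_, ?_⟩
    · intro z hz
      obtain ⟨y, hy, rfl⟩ := List.mem_map.mp hz
      exact hZ y hy
    · rw [List.pairwise_map]
      exact hZs.imp (fun h => (xlt_cons Q v l c _ _).mpr h)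
    · rw [List.map_map, ← hZw]
      exact List.map_congr_left (fun z _ => hw_cons Q θ v l c x z)
  | @left v l A w h hne ih =>
    intro hn hl hA
    have hv : v ≠ v₀ := by
      intro hv
      rw [hv] at hn
      exact (List.nodup_cons.mp hn).1 h.mem
    have hlen : ∀ c, ∀ b ∈ st c A, b.length = l.length :=
      fun c b hb => by have := hA _ hb; simpa using this
    obtain ⟨θ, hθ, x, hx, Z, hZ, hZs, hZw⟩ := ih hn.of_cons
      (fun u hu u' hu' => hl u (by simp [hu]) u' (by simp [hu'])) (hlen false)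
    obtain ⟨y, hy⟩ := hne
    refine ⟨θ, hθ, false :: x, hx, Z.map (List.cons false) ++ [true :: y], ?_, ?_, ?_⟩
    · intro z hz
      rw [List.mem_append, List.mem_map, List.mem_singleton] at hz
      rcases hz with ⟨z', hz', rfl⟩ | rfl
      · exact hZ z' hz'
      · exact hy
    · rw [List.pairwise_append, List.pairwise_map]
      refine ⟨hZs.imp (fun h => (xlt_cons Q v l false _ _).mpr h), List.pairwise_singleton _ _, ?_⟩
      intro a ha b hb
      obtain ⟨a', ha', rfl⟩ := List.mem_map.mp ha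
      rw [List.mem_singleton] at hb
      subst hb
      exact xlt_head hQ (hlen false _ (hZ a' ha')) (hlen true _ hy)
    · rw [List.map_append, List.map_map, List.map_cons, List.map_nil, ← hZw]
      congr 1
      · exact List.map_congr_left (fun z _ => hw_cons Q θ v l false x z)
      · rw [hw_left hQ (v₀ := v₀) hv hθ
          (fun v' hv' => hl v (by simp) v' (by simp [hv'])) (hlen false _ hx) (hlen true _ hy)]
  | @right v l A w h hne ih =>
    intro hn hl hA
    have hv : v ≠ v₀ := by
      intro hv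
      rw [hv] at hn
      exact (List.nodup_cons.mp hn).1 h.mem
    have hlen : ∀ c, ∀ b ∈ st c A, b.length = l.length :=
      fun c b hb => by have := hA _ hb; simpa using this
    obtain ⟨θ, hθ, x, hx, Z, hZ, hZs, hZw⟩ := ih hn.of_cons
      (fun u hu u' hu' => hl u (by simp [hu]) u' (by simp [hu'])) (hlen true)
    obtain ⟨y, hy⟩ := hne
    refine ⟨θ, hθ, true :: x, hx, (false :: y) :: Z.map (List.cons true), ?_, ?_, ?_⟩
    · intro z hz
      rw [List.mem_cons, List.mem_map] at hz
      rcases hz with rfl | ⟨z', hz', rfl⟩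
      · exact hy
      · exact hZ z' hz'
    · rw [List.pairwise_cons, List.pairwise_map]
      refine ⟨?_, hZs.imp (fun h => (xlt_cons Q v l true _ _).mpr h)⟩
      intro a ha
      obtain ⟨a', ha', rfl⟩ := List.mem_map.mp ha
      exact xlt_head hQ (hlen false _ hy) (hlen true _ (hZ a' ha'))
    · rw [List.map_cons, List.map_map, ← hZw]
      congr 1
      · rw [hw_right hQ (v₀ := v₀) hv hθ
          (fun v' hv' => hl v (by simp) v' (by simp [hv'])) (hlen true _ hx) (hlen false _ hy)]
      · exact List.map_congr_left (fun z _ => hw_cons Q θ v l true x z)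

end

end Pool.Agent.H41.Kc
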