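import Mathlib
import Pool.Agent.H41.Kc.Word
import Pool.Agent.H41.Kc.Planar
import Pool.Agent.H41.Kc.Cross2

set_option autoImplicit false
set_option linter.unusedSectionVars false

/-!
The point sets of the upper bound.
-/

namespace Pool.Agent.H41.Kc

open Set

lemma G_nonneg {Q : ℝ} (hQ : 0 ≤ Q) (w : ℤ → ℝ) : ∀ (l : List ℤ), (∀ v ∈ l, 0 ≤ w v) →
    ∀ b : List Bool, 0 ≤ G Q w l b := by
  intro l
  induction l with
  | nil => intro _ b; rw [G_nil]
  | cons v l ih =>
    intro hl b
    cases b with
    | nil => simp [G]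
    | cons c b =>
      rw [G_cons]
      have h1 := ih (fun v' hv' => hl v' (by simp [hv'])) b
      have h2 := hl v (by simp)
      split_ifs
      · positivity
      · linarith

section

variable {Q : ℝ} {N : ℕ} (hQ : 2 * (N : ℝ) + 3 ≤ Q)

include hQ

lemma bits_sorted : ∀ (l : List ℤ), (bits l.length).Pairwise
    (fun b b' => G Q (fun _ => 1) l b < G Q (fun _ => 1) l b') := by
  intro l
  induction l with
  | nil => simp [bits]
  | cons v l ih =>
    rw [List.length_cons, bits, List.pairwise_append]
    refine ⟨?_, ?_, ?_⟩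
    · rw [List.pairwise_map]
      refine ih.imp ?_
      intro b b' h
      rw [G_cons, G_cons]
      linarith
    · rw [List.pairwise_map]
      refine ih.imp ?_
      intro b b' h
      rw [G_cons, G_cons]
      linarith
    · intro b hb b' hb'
      obtain ⟨c, hc, rfl⟩ := List.mem_map.mp hb
      obtain ⟨c', hc', rfl⟩ := List.mem_map.mp hb'
      have h1 := lower_x hQ (l := l) (length_of_mem_bits hc) (length_of_mem_bits hc')
      rw [abs_lt] at h1
      rw [G_cons, G_cons]
      simp only [Bool.false_eq_true, if_false, if_true, mul_one]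
      linarith [h1.2]

end

/-- the raised point coded by a bit string -/
noncomputable def pu (Q : ℝ) (l : List ℤ) (b : List Bool) : ℝ × ℝ :=
  ((pt Q l b).1, (pt Q l b).2 + 1)

lemma pu_height (Q θ : ℝ) (l : List ℤ) (b : List Bool) :
    (pu Q l b).2 - θ * (pu Q l b).1 = G Q (fun v => (v : ℝ) - θ) l b + 1 := by
  rw [G_sub]
  simp only [pu]
  ring

lemma pairwise_ne {α : Type*} {L : List α} {f : α → ℝ}
    (h : L.Pairwise (fun a b => f a < f b)) {a b : α} (ha : a ∈ L) (hb : b ∈ L) (hne : a ≠ b) :
    f a ≠ f b := by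
  have h1 : L.Pairwise (fun a b => f a ≠ f b) := h.imp (fun h => ne_of_lt h)
  have : Std.Symm (fun a b => f a ≠ f b) := ⟨fun _ _ h => Ne.symm h⟩
  exact h1.forall ha hb hne

section

variable {Q : ℝ} {m d : ℕ} (hm : 1 ≤ m) (hQ : 2 * ((m ^ (d + 1) : ℕ) : ℝ) + 3 ≤ Q)

include hm

lemma Phi_diff {k : ℕ} : ∀ v ∈ Phi m k, ∀ v' ∈ Phi m k, |((v' : ℤ) : ℝ) - v| ≤ ((m ^ k : ℕ) : ℝ) := by
  intro v hv v' hv'
  have h1 := mem_Phi hm hv
  have h2 := mem_Phi hm hv'
  have h3 : |v' - v| ≤ (m : ℤ) ^ k := by
    rw [abs_le]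
    constructor <;> linarith [h1.1, h1.2, h2.1, h2.2]
  have h4 : ((|v' - v| : ℤ) : ℝ) ≤ (((m : ℤ) ^ k : ℤ) : ℝ) := by exact_mod_cast h3
  push_cast at h4 ⊢
  exact h4

include hQ

lemma pu_gp (BL : List (List Bool)) (hBL : BL.Sublist (bits (Phi m (d + 1)).length)) :
    GeneralPosition {z | z ∈ BL.map (pu Q (Phi m (d + 1)))} := by
  set l := Phi m (d + 1) with hl
  apply gp_of_mf
  intro x hx y hy z hz hxy hyz hxz h0
  simp only [mem_ofPred_eq, List.mem_map] at hx hy hz
  obtain ⟨bx, hbx, rfl⟩ := hx
  obtain ⟨bY, hbY, rfl⟩ := hy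
  obtain ⟨bz, hbz, rfl⟩ := hz
  have hlen : ∀ b ∈ BL, b.length = l.length := fun b hb => length_of_mem_bits (hBL.subset hb)
  have hsort : BL.Pairwise (fun b b' => G Q (fun _ => 1) l b < G Q (fun _ => 1) l b') :=
    (bits_sorted hQ l).sublist hBL
  have hnexy : bx ≠ bY := fun h => hxy (by rw [h])
  have hneyz : bY ≠ bz := fun h => hyz (by rw [h])
  have hnexz : bx ≠ bz := fun h => hxz (by rw [h])
  have hx1 : (pu Q l bx).1 ≠ (pu Q l bY).1 := by
    have := pairwise_ne hsort hbx hbY hnexy
    simpa [pu, pt] using this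
  set θ := ((pu Q l bY).2 - (pu Q l bx).2) / ((pu Q l bY).1 - (pu Q l bx).1) with hθ
  have hd : (pu Q l bY).1 - (pu Q l bx).1 ≠ 0 := sub_ne_zero.mpr (Ne.symm hx1)
  have h1 : (pu Q l bY).2 - (pu Q l bx).2 = θ * ((pu Q l bY).1 - (pu Q l bx).1) := by
    rw [hθ, div_mul_cancel₀ _ hd]
  have h2 : (pu Q l bz).2 - (pu Q l bx).2 = θ * ((pu Q l bz).1 - (pu Q l bx).1) := by
    unfold mf at h0
    have : ((pu Q l bY).1 - (pu Q l bx).1) * ((pu Q l bz).2 - (pu Q l bx).2) =
        ((pu Q l bY).1 - (pu Q l bx).1) * (θ * ((pu Q l bz).1 - (pu Q l bx).1)) := by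
      rw [h1] at h0
      linarith
    exact mul_left_cancel₀ hd this
  have hx2 := pu_height Q θ l bx
  have hy2 := pu_height Q θ l bY
  have hz2 := pu_height Q θ l bz
  exact no_three hQ (θ := θ) l (nodup_Phi hm (d + 1)) (Phi_diff hm) bx bY bz (hlen bx hbx)
    (hlen bY hbY) (hlen bz hbz) hnexy hneyz hnexz (by linarith) (by linarith)

lemma pu_pos (b : List Bool) : 0 < (pu Q (Phi m (d + 1)) b).2 := by
  have h1 : (0 : ℝ) ≤ Q := by
    have : (0 : ℝ) ≤ ((m ^ (d + 1) : ℕ) : ℝ) := Nat.cast_nonneg _
    linarith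
  have h2 : 0 ≤ G Q (fun v => (v : ℝ)) (Phi m (d + 1)) b := by
    apply G_nonneg h1
    intro v hv
    have := (mem_Phi hm hv).1
    exact_mod_cast this
  simp only [pu, pt]
  linarith

lemma pu_sorted (BL : List (List Bool)) (hBL : BL.Sublist (bits (Phi m (d + 1)).length)) :
    (BL.map (pu Q (Phi m (d + 1)))).Pairwise (fun a b => a.1 < b.1) := by
  rw [List.pairwise_map]
  exact (bits_sorted hQ _).sublist hBL

lemma pu_word (BL : List (List Bool)) (hBL : BL.Sublist (bits (Phi m (d + 1)).length))
    (s t α β : ℝ) :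
    alt false (((s, 0) :: (BL.map (pu Q (Phi m (d + 1))) ++ [(t, 0)])).map
      (fun z : ℝ × ℝ => decide (α * z.1 + β ≤ z.2)) ++ [false]) ≤ 8 * d + 10 := by
  set l := Phi m (d + 1) with hl
  set σ : ℝ × ℝ → Bool := fun z => decide (α * z.1 + β ≤ z.2) with hσ
  have hW : ((BL.map (pu Q l)).map σ).Sublist (word Q α (β - 1) l) := by
    rw [List.map_map]
    have h1 : BL.map (σ ∘ pu Q l) =
        BL.map (fun b => decide (β - 1 ≤ G Q (fun v => (v : ℝ) - α) l b)) := by
      apply List.map_congr_left
      intro b _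
      simp only [hσ, Function.comp_apply]
      have := pu_height Q α l b
      congr 1
      apply propext
      constructor <;> intro h <;> linarith
    rw [h1]
    exact hBL.map _
  have hw := word_bound hm hQ α (β - 1)
  rw [← hl] at hw
  rw [List.map_cons, List.map_append, List.map_cons, List.map_nil, List.cons_append, alt_cons,
    List.append_assoc]
  have hsub : ((BL.map (pu Q l)).map σ ++ ([σ (t, 0)] ++ [false])).Sublist
      (word Q α (β - 1) l ++ [false] ++ [true, false]) := by
    rw [List.append_assoc]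
    refine hW.append ?_
    cases σ (t, 0)
    · exact List.Sublist.cons_cons _ (List.Sublist.cons _ (List.Sublist.refl _))
    · exact List.Sublist.cons _ (List.Sublist.refl _)
  have h2 := alt_le_alt (σ (s, 0)) true ((BL.map (pu Q l)).map σ ++ ([σ (t, 0)] ++ [false]))
  have h3 := alt_sublist hsub true
  have h4 : alt true (word Q α (β - 1) l ++ [false] ++ [true, false]) =
      alt true (word Q α (β - 1) l ++ [false]) + 2 := by
    rw [alt_append]
    simp [alt_cons]
  have h6 : (if false = σ (s, 0) then 0 else 1) +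
      alt (σ (s, 0)) ((BL.map (pu Q l)).map σ ++ ([σ (t, 0)] ++ [false])) ≤
      1 + alt true ((BL.map (pu Q l)).map σ ++ ([σ (t, 0)] ++ [false])) := by
    revert h2
    cases σ (s, 0)
    · intro h2
      simp only [if_true, Bool.false_eq_true, if_false] at h2 ⊢
      omega
    · intro h2
      simp
  have h7 : alt true ((BL.map (pu Q l)).map σ ++ ([σ (t, 0)] ++ [false])) ≤ 8 * d + 9 := by
    refine h3.trans ?_
    rw [h4]
    omega
  exact h6.trans (by omega)

end

/-- a small positive number separating finitely many values from below -/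
lemma exists_eps {A : Set ℝ} (hA : A.Finite) (y : ℝ) :
    ∃ ε : ℝ, 0 < ε ∧ ∀ z ∈ A, y < z → y + ε < z := by
  induction A, hA using Set.Finite.induction_on with
  | empty => exact ⟨1, one_pos, by simp⟩
  | @insert a A _ _ ih =>
    obtain ⟨ε, hε, h⟩ := ih
    by_cases hay : y < a
    · refine ⟨min ε ((a - y) / 2), lt_min hε (by linarith), ?_⟩
      intro z hz hyz
      rcases hz with rfl | hz
      · have := min_le_right ε ((z - y) / 2)
        linarith
      · have := min_le_left ε ((a - y) / 2)
        linarith [h z hz hyz]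
    · refine ⟨ε, hε, ?_⟩
      intro z hz hyz
      rcases hz with rfl | hz
      · exact absurd hyz hay
      · exact h z hz hyz

lemma sd_self (τ : ℤ → Bool) : ∀ (l : List ℤ) (x : List Bool), sd τ l x x = false := by
  intro l
  induction l with
  | nil => intro x; simp [sd]
  | cons v l ih =>
    intro x
    cases x with
    | nil => simp [sd]
    | cons c x => simp [sd, ih]

/-- For every `n` there is a set of `n` points that is `(4 d + 5)`-convex and has only small
`j`-convex subsets. -/
theorem upper_core {u d n : ℕ} (hu : 1 ≤ u) (hn : 3 ≤ n) (hS : n ≤ 2 ^ ((u ^ 2) ^ (d + 1))) :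
    ∃ P : Set (ℝ × ℝ), P.Finite ∧ P.ncard = n ∧ KConvexSet (4 * (d + 1) + 1) P ∧
      ∀ (j : ℕ) (Q : Set (ℝ × ℝ)), Q ⊆ P → KConvexSet j Q →
        Q.ncard ≤ ((u ^ 2) ^ (d + 1) + 1) ^
          ((2 * j + 1) * (3 ^ (d + 1) * u ^ (d + 1 + j + 1))) + 2 := by
  classical
  set m := u ^ 2 with hmdef
  have hm : 1 ≤ m := Nat.one_le_pow _ _ hu
  set Q₀ : ℝ := 2 * ((m ^ (d + 1) : ℕ) : ℝ) + 3 with hQ₀
  have hQ : 2 * ((m ^ (d + 1) : ℕ) : ℝ) + 3 ≤ Q₀ := le_rfl
  set l := Phi m (d + 1) with hl
  have hlen : l.length = m ^ (d + 1) := length_Phi m (d + 1)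
  set BL := (bits l.length).take (n - 2) with hBL
  have hBLs : BL.Sublist (bits l.length) := List.take_sublist _ _
  have hBLlen : BL.length = n - 2 := by
    rw [hBL, List.length_take, length_bits, hlen]
    omega
  have hBne : BL ≠ [] := by
    intro h
    rw [h] at hBLlen
    simp at hBLlen
    omega
  set ML := BL.map (pu Q₀ l) with hML
  have hMLsort : ML.Pairwise (fun a b => a.1 < b.1) := pu_sorted hm hQ BL hBLs
  have hMLpos : ∀ z ∈ ML, 0 < z.2 := by
    intro z hz
    obtain ⟨b, _, rfl⟩ := List.mem_map.mp hz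
    exact pu_pos hm hQ b
  have hMLfin : {z | z ∈ ML}.Finite := List.finite_toSet ML
  obtain ⟨X, hX⟩ : ∃ X : ℝ, ∀ z ∈ ML, |z.1| ≤ X := by
    obtain ⟨X, hX⟩ := (hMLfin.image (fun z : ℝ × ℝ => |z.1|)).bddAbove
    exact ⟨X, fun z hz => hX ⟨z, hz, rfl⟩⟩
  obtain ⟨s, t, hs, ht, hst, hg⟩ := gp_add hMLfin (fun z hz => hMLpos z hz) (pu_gp hm hQ BL hBLs) X
  set W := (s, (0 : ℝ)) :: (ML ++ [(t, 0)]) with hW
  have hWset : {z | z ∈ W} = {(s, 0), (t, 0)} ∪ {z | z ∈ ML} := by
    ext z
    simp only [hW, List.mem_cons, List.mem_append, mem_ofPred_eq, mem_union,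
      mem_insert_iff, mem_singleton_iff]
    tauto
  have hWsort : W.Pairwise (fun a b => a.1 < b.1) := by
    rw [hW, List.pairwise_cons, List.pairwise_append]
    refine ⟨?_, hMLsort, List.pairwise_singleton _ _, ?_⟩
    · intro z hz
      rcases List.mem_append.mp hz with hz | hz
      · have := hX z hz
        rw [abs_le] at this
        show s < z.1
        linarith [this.1]
      · rw [List.mem_singleton] at hz
        subst hz
        exact hst
    · intro z hz z' hz'
      rw [List.mem_singleton] at hz'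
      subst hz'
      have := hX z hz
      rw [abs_le] at this
      show z.1 < t
      linarith [this.2]
  have hWnodup : W.Nodup := hWsort.imp (fun {a b} h heq => by rw [heq] at h; exact lt_irrefl _ h)
  have hWlen : W.length = n := by
    simp only [hW, List.length_cons, List.length_append, List.length_nil, hML, List.length_map,
      hBLlen]
    omega
  have hcoe : {z | z ∈ W} = (W.toFinset : Set (ℝ × ℝ)) := by
    ext z; simp
  refine ⟨{z | z ∈ W}, List.finite_toSet W, ?_, ?_, ?_⟩
  · rw [hcoe, Set.ncard_coe_finset, List.toFinset_card_of_nodup hWnodup, hWlen]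
  · refine kconvex_of_list ?_ hWsort hMLpos ?_ (by omega) ?_
    · rw [hML]
      intro h
      exact hBne (List.map_eq_nil_iff.mp h)
    · show GeneralPosition {z | z ∈ W}
      rw [hWset]; exact hg
    · intro α β
      exact (pu_word hm hQ BL hBLs s t α β).trans (by omega)
  · intro j Qs hQs hconv
    obtain ⟨L, hLn, hLm, hLalt⟩ := exists_order hconv
    -- decoding
    have hdec : ∀ z ∈ ML, ∃ b ∈ BL, pu Q₀ l b = z := by
      intro z hz
      obtain ⟨b, hb, rfl⟩ := List.mem_map.mp hz
      exact ⟨b, hb, rfl⟩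
    choose! g hg1 hg2 using hdec
    set L' := L.filter (fun z => decide (z ∈ ML)) with hL'
    have hL'M : ∀ z ∈ L', z ∈ ML := by
      intro z hz
      have := (List.mem_filter.mp hz).2
      simpa using this
    have hL'n : L'.Nodup := hLn.filter _
    set L'' := L'.map g with hL''
    have hL''n : L''.Nodup := by
      refine List.Nodup.map_on ?_ hL'n
      intro x hx y hy hxy
      rw [← hg2 x (hL'M x hx), ← hg2 y (hL'M y hy), hxy]
    have hL''len : ∀ b ∈ L'', b.length = l.length := by
      intro b hb
      obtain ⟨z, hz, rfl⟩ := List.mem_map.mp hb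
      exact length_of_mem_bits (hBLs.subset (hg1 z (hL'M z hz)))
    have hcore : L''.length ≤ (m ^ (d + 1) + 1) ^
        ((2 * j + 1) * (3 ^ (d + 1) * u ^ (d + 1 + j + 1))) := by
      refine core_bound hu L'' hL''n hL''len ?_
      intro x hx t₀
      set θ : ℝ := (t₀ : ℝ) - 1 / 2 with hθ
      -- heights
      set hh : ℝ × ℝ → ℝ := fun z => z.2 - θ * z.1 with hhh
      obtain ⟨zx, hzx, rfl⟩ := List.mem_map.mp hx
      obtain ⟨ε, hε, hsep⟩ := exists_eps ((List.finite_toSet L).image hh) (hh zx)
      -- the line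
      have hfh : ∀ z, hf (-θ) 1 (hh zx + ε) z = hh z - (hh zx + ε) := by
        intro z; simp only [hf, hhh]; ring
      have hne : ∀ z ∈ L, hf (-θ) 1 (hh zx + ε) z ≠ 0 := by
        intro z hz h0
        rw [hfh] at h0
        have h1 : hh zx < hh z := by linarith
        have := hsep (hh z) ⟨z, hz, rfl⟩ h1
        linarith
      have hab : ((-θ, (1 : ℝ)) : ℝ × ℝ) ≠ (0, 0) := by
        intro h
        rw [Prod.mk.injEq] at h
        exact one_ne_zero h.2
      have halt := hLalt (-θ) 1 (hh zx + ε) hab hne
      have hmap : L''.map (sd (thr t₀) (Phi (u ^ 2) (d + 1)) (g zx)) =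
          L'.map (fun p => decide (0 < hf (-θ) 1 (hh zx + ε) p)) := by
        rw [hL'', List.map_map]
        apply List.map_congr_left
        intro z hz
        simp only [Function.comp_apply]
        have hzL : z ∈ L := (List.mem_filter.mp hz).1
        have hzM := hL'M z hz
        have hzxM := hL'M zx hzx
        rw [hfh]
        have e1 : hh z = G Q₀ (fun v => (v : ℝ) - θ) l (g z) + 1 := by
          have := pu_height Q₀ θ l (g z)
          rw [hg2 z hzM] at this
          exact this
        have e2 : hh zx = G Q₀ (fun v => (v : ℝ) - θ) l (g zx) + 1 := by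
          have := pu_height Q₀ θ l (g zx)
          rw [hg2 zx hzxM] at this
          exact this
        by_cases hzz : g z = g zx
        · rw [hzz, sd_self]
          symm
          rw [decide_eq_false_iff_not, not_lt]
          rw [e1, e2, hzz]
          linarith
        · have hside := side_sd hQ (t := t₀) l (Phi_diff hm) (g zx) (g z)
            (hL''len _ (List.mem_map_of_mem hzx)) (hL''len _ (List.mem_map_of_mem hz)) hzz
          cases hsdv : sd (thr t₀) (Phi (u ^ 2) (d + 1)) (g zx) (g z)
          · have h1 := hside.2 hsdv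
            symm
            rw [decide_eq_false_iff_not, not_lt, e1, e2]
            linarith
          · have h1 := hside.1 hsdv
            symm
            rw [decide_eq_true_iff]
            have h2 : hh zx < hh z := by rw [e1, e2]; linarith
            have := hsep (hh z) ⟨z, hzL, rfl⟩ h2
            linarith
      rw [hmap]
      exact (altL_sublist (List.filter_sublist.map _)).trans halt
    -- counting
    have hQcoe : Qs = (L.toFinset : Set (ℝ × ℝ)) := by
      ext z; simp [hLm]
    have hQcard : Qs.ncard = L.length := by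
      rw [hQcoe, Set.ncard_coe_finset, List.toFinset_card_of_nodup hLn]
    have hLL' : L.length ≤ L'.length + 2 := by
      have h1 : L.length = L'.length + (L.filter (fun z => ! decide (z ∈ ML))).length := by
        rw [hL']
        exact List.length_eq_length_filter_add _
      have h2 : (L.filter (fun z => ! decide (z ∈ ML))).length ≤ 2 := by
        have h3 : (L.filter (fun z => ! decide (z ∈ ML))).toFinset ⊆ {(s, 0), (t, 0)} := by
          intro z hz
          rw [List.mem_toFinset, List.mem_filter] at hz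
          have h4 : z ∈ {z | z ∈ W} := hQs ((hLm z).mp hz.1)
          rw [hWset] at h4
          rcases h4 with h4 | h4
          · simpa using h4
          · have := hz.2
            simp only [mem_ofPred_eq] at h4
            simp [h4] at this
        have h5 := Finset.card_le_card h3
        rw [List.toFinset_card_of_nodup (hLn.filter _)] at h5
        exact h5.trans Finset.card_le_two
      omega
    have hL''L' : L''.length = L'.length := by rw [hL'', List.length_map]
    rw [hQcard]
    omega

end Pool.Agent.H41.Kc
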