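import Mathlib
import Pool.Agent.H41.Kc.Word

set_option autoImplicit false

/-!
Sharper bound for the words that lines cut out of the whole point list.
-/

namespace Pool.Agent.H41.Kc

/-- bound at a near level -/
def EE (e : Bool) : List Bool → ℕ
  | [] => 3
  | t :: s => (if t = e then 3 else 1) + 4 * alt e (t :: s)

/-- bound with far levels in front -/
def HH : Bool → List Bool → List Bool → ℕ
  | e, [], s₂ => EE e s₂
  | e, t :: s₁, s₂ => 2 * (if e = t then 0 else 1) + HH t s₁ s₂

lemma HH_cons (e t : Bool) (s₁ s₂ : List Bool) :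
    HH e (t :: s₁) s₂ = 2 * (if e = t then 0 else 1) + HH t s₁ s₂ := rfl

lemma EE_not (e : Bool) (s : List Bool) : EE (!e) (s.map (!·)) = EE e s := by
  cases s with
  | nil => rfl
  | cons t s =>
    rw [List.map_cons]
    simp only [EE]
    have := alt_not e (t :: s)
    rw [List.map_cons] at this
    rw [this]
    cases e <;> cases t <;> rfl

lemma HH_not (s₂ : List Bool) : ∀ (s₁ : List Bool) (e : Bool),
    HH (!e) (s₁.map (!·)) (s₂.map (!·)) = HH e s₁ s₂ := by
  intro s₁
  induction s₁ with
  | nil => intro e; exact EE_not e s₂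
  | cons t s₁ ih =>
    intro e
    rw [List.map_cons, HH_cons, HH_cons, ih]
    cases e <;> cases t <;> rfl

lemma EE_start (e e' : Bool) (s : List Bool) : EE e s ≤ 2 + EE e' s := by
  cases s with
  | nil => simp [EE]
  | cons t s =>
    simp only [EE, alt_cons]
    cases e <;> cases e' <;> cases t <;> simp <;> omega

lemma HH_start (e e' : Bool) (s₁ s₂ : List Bool) : HH e s₁ s₂ ≤ 2 + HH e' s₁ s₂ := by
  cases s₁ with
  | nil => exact EE_start e e' s₂
  | cons t s₁ =>
    rw [HH_cons, HH_cons]
    cases e <;> cases e' <;> cases t <;> simp <;> omega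

lemma HH_mono {s₂ s₂' : List Bool} {c : ℕ} (h : ∀ e, EE e s₂ ≤ c + EE e s₂') :
    ∀ (s₁ : List Bool) (e : Bool), HH e s₁ s₂ ≤ c + HH e s₁ s₂' := by
  intro s₁
  induction s₁ with
  | nil => exact h
  | cons t s₁ ih =>
    intro e
    rw [HH_cons, HH_cons]
    have := ih t
    omega

lemma HH_const {e : Bool} {s₁ : List Bool} (h : ∀ b ∈ s₁, b = e) (t₁ s₂ : List Bool) :
    HH e (s₁ ++ t₁) s₂ = HH e t₁ s₂ := by
  induction s₁ with
  | nil => rfl
  | cons b s₁ ih =>
    have hb : b = e := h b (by simp)
    subst hb
    rw [List.cons_append, HH_cons, ih (fun c hc => h c (by simp [hc]))]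
    simp

/-- a constant initial stretch in front costs at most two -/
lemma HH_const_le {c : Bool} {s₁ : List Bool} (h : ∀ b ∈ s₁, b = c) (e : Bool)
    (t₁ s₂ : List Bool) : HH e (s₁ ++ t₁) s₂ ≤ 2 + HH c t₁ s₂ := by
  cases s₁ with
  | nil => exact HH_start e c t₁ s₂
  | cons b s₁ =>
    have hb : b = c := h b (by simp)
    subst hb
    rw [List.cons_append, HH_cons, HH_const (fun c hc => h c (by simp [hc]))]
    split_ifs <;> omega

lemma EE_concat (e x : Bool) (s : List Bool) : EE e (s ++ [x]) ≤ 4 + EE e s := by
  cases s with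
  | nil =>
    cases e <;> cases x <;> simp [EE, alt_cons]
  | cons t s =>
    simp only [List.cons_append, EE]
    have h1 : alt e (t :: (s ++ [x])) ≤ alt e (t :: s) + 1 := by
      rw [← List.cons_append, alt_append, alt_cons _ x, alt_nil]
      split_ifs <;> omega
    omega

/-- a constant final stretch -/
lemma EE_tail {c : Bool} {T : List Bool} (hT : ∀ b ∈ T, b = c) (e : Bool) (hec : c = !e)
    (s : List Bool) : EE e (s ++ T) ≤ EE e (s ++ [c]) := by
  rcases T with _ | ⟨b, T⟩
  · rw [List.append_nil]
    cases s with
    | nil =>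
      subst hec
      cases e <;> simp [EE, alt_cons]
    | cons t s =>
      simp only [List.cons_append, EE]
      have h1 : alt e (t :: s) ≤ alt e (t :: (s ++ [c])) := by
        rw [← List.cons_append]
        exact alt_sublist (List.sublist_append_left _ _) e
      omega
  · have hb : b = c := hT b (by simp)
    subst hb
    have h1 : ∀ a, alt a (s ++ b :: T) = alt a (s ++ [b]) := by
      intro a
      rw [alt_append, alt_append, alt_cons, alt_cons, alt_const (fun c hc => hT c (by simp [hc])),
        alt_nil]
    cases s with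
    | nil =>
      have h2 := h1 e
      simp only [List.nil_append] at h2 ⊢
      simp only [EE]
      rw [h2]
    | cons t s =>
      have h2 := h1 e
      simp only [List.cons_append] at h2 ⊢
      simp only [EE]
      rw [h2]

section

variable {Q : ℝ} {N : ℕ} (hQ : 2 * (N : ℝ) + 3 ≤ Q)

include hQ

/-- two words of the same list of far levels -/
lemma word_pair {θ : ℝ} (l : List ℤ) (hl : ∀ v ∈ l, ∀ v' ∈ l, |(v' : ℝ) - v| ≤ N)
    (hf : ∀ v ∈ l, far θ v = true) (η η' : ℝ) (e : Bool) :
    alt (!e) (word Q θ η l ++ word Q θ η' l ++ [e]) ≤ EE e (l.map (tau θ)) := by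
  have h1 := word_far hQ l hl hf η e
  have h2 := word_far hQ l hl hf η' e
  have h3 := alt_two_words e (word Q θ η l) (word Q θ η' l)
  cases l with
  | nil =>
    simp only [List.map_nil, alt_nil] at h1 h2
    simp only [List.map_nil, EE]
    omega
  | cons v l =>
    simp only [List.map_cons, EE]
    rw [List.map_cons] at h1 h2
    by_cases hte : tau θ v = e
    · rw [if_pos hte]
      omega
    · rw [if_neg hte]
      have hte' : tau θ v = !e := by cases e <;> cases h : tau θ v <;> simp_all
      have hs : (word Q θ η (v :: l) ++ word Q θ η' (v :: l) ++ [e]).Sublist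
          (word Q θ η (v :: l) ++ [e] ++ (word Q θ η' (v :: l) ++ [e])) := by
        rw [List.append_assoc, List.append_assoc]
        refine List.Sublist.append_left ?_ _
        exact List.sublist_append_right _ _
      refine (alt_sublist hs (!e)).trans ?_
      rw [alt_append]
      have h4 : (word Q θ η (v :: l) ++ [e]).getLastD (!e) = e := List.getLastD_concat
      rw [h4]
      have h5 : alt e (word Q θ η' (v :: l) ++ [e]) ≤ 2 * alt e (tau θ v :: l.map (tau θ)) := by
        rw [word_cons, alt_cons, if_neg (Ne.symm hte), hte']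
        have hK : ∀ η, alt e (word Q θ η l ++ [!e]) ≤ 1 + 2 * alt (!e) (l.map (tau θ)) := by
          intro η
          have := word_far hQ l (fun v hv v' hv' => hl v (by simp [hv]) v' (by simp [hv']))
            (fun v hv => hf v (by simp [hv])) η (!e)
          rwa [Bool.not_not] at this
        rcases word_dichotomy hQ (θ := θ) (v := v) (l := l)
          (fun v' hv' => hl v (by simp) v' (by simp [hv'])) (hf v (by simp)) η' with h | h
        · rw [hte'] at h
          have h6 : alt e (word Q θ η' l ++ word Q θ (η' - Q ^ (l.length + 1) * ((v : ℝ) - θ)) l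
              ++ [e]) ≤ alt e (word Q θ η' l ++ [!e]) + 1 := by
            have h7 : (word Q θ η' l ++ word Q θ (η' - Q ^ (l.length + 1) * ((v : ℝ) - θ)) l
              ++ [e]).Sublist (word Q θ η' l ++ word Q θ (η' - Q ^ (l.length + 1) *
                ((v : ℝ) - θ)) l ++ (!e) :: [e]) :=
              List.Sublist.append_left (List.sublist_cons_self _ _) _
            refine (alt_sublist h7 e).trans ?_
            rw [alt_append_const _ _ h]
            rw [show (!e) :: [e] = [!e] ++ [e] from rfl, ← List.append_assoc, alt_append]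
            refine Nat.add_le_add_left ?_ _
            rw [alt_cons, alt_nil]
            split_ifs <;> omega
          have := hK η'
          omega
        · rw [hte', Bool.not_not] at h
          rw [List.append_assoc, alt_const_append _ h]
          have h6 := alt_change_end e e (!e)
            (word Q θ (η' - Q ^ (l.length + 1) * ((v : ℝ) - θ)) l)
          have := hK (η' - Q ^ (l.length + 1) * ((v : ℝ) - θ))
          omega
      omega

/-- words with one near level -/
lemma word_near {θ : ℝ} {v : ℤ} {l₂ : List ℤ} (hv : far θ v = false) :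
    ∀ (l₁ : List ℤ), (∀ u ∈ l₁ ++ v :: l₂, ∀ u' ∈ l₁ ++ v :: l₂, |(u' : ℝ) - u| ≤ N) →
    (∀ u ∈ l₁, far θ u = true) → (∀ u ∈ l₂, far θ u = true) → ∀ (η : ℝ) (e : Bool),
    alt (!e) (word Q θ η (l₁ ++ v :: l₂) ++ [e]) ≤ HH e (l₁.map (tau θ)) (l₂.map (tau θ)) := by
  intro l₁
  induction l₁ with
  | nil =>
    intro hl _ hf2 η e
    rw [List.nil_append, word_cons]
    exact word_pair hQ l₂ (fun u hu u' hu' => hl u (by simp [hu]) u' (by simp [hu'])) hf2 _ _ e
  | cons u l₁ ih =>
    intro hl hf1 hf2 η e
    have h1 := word_step hQ (θ := θ) (v := u) (l := l₁ ++ v :: l₂)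
      (fun u' hu' => hl u (by simp) u' (List.mem_cons_of_mem _ hu')) (hf1 u (by simp))
      (K := HH (tau θ u) (l₁.map (tau θ)) (l₂.map (tau θ)))
      (fun η => ih (fun w hw w' hw' => hl w (List.mem_cons_of_mem _ hw) w'
        (List.mem_cons_of_mem _ hw')) (fun w hw => hf1 w (by simp [hw])) hf2 η _) η e
    rw [List.cons_append]
    refine h1.trans ?_
    rw [List.map_cons, HH_cons]
    omega

end

/-- the signs seen from the slope `v` -/
def sg (v u : ℤ) : Bool := decide (v < u)

/-- splitting of the permutation at a slope -/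
lemma Phi_split {m : ℕ} (hm : 1 ≤ m) {D : ℕ} {l₁ l₂ : List ℤ} {v : ℤ}
    (h : Phi m (D + 1) = l₁ ++ v :: l₂) : ∃ (a₁ a₂ : List ℤ) (w : ℤ) (F T : List Bool),
    Phi m D = a₁ ++ w :: a₂ ∧ (∀ b ∈ F, b = false) ∧ (∀ b ∈ T, b = true) ∧
      l₁.map (sg v) = F ++ (a₁.map (sg w)).map (!·) ∧
      l₂.map (sg v) = (a₂.map (sg w)).map (!·) ++ T := by
  have hnd := nodup_Phi hm (D + 1)
  have hv : v ∈ Phi m (D + 1) := by rw [h]; simp
  rw [Phi_succ, List.mem_flatMap] at hv
  obtain ⟨i, hi, hv⟩ := hv
  rw [List.mem_range] at hi
  rw [List.mem_map] at hv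
  obtain ⟨w, hw, hwv⟩ := hv
  obtain ⟨a₁, a₂, ha⟩ := List.append_of_mem hw
  have hpow : (0 : ℤ) < (m : ℤ) ^ D := by positivity
  -- the split of the big list
  have hsp := flatMap_range_split (fun i : ℕ => (Phi m D).map (blk m D i)) hi
  rw [← Phi_succ] at hsp
  set P := (List.range i).flatMap (fun i : ℕ => (Phi m D).map (blk m D i)) with hP
  set R := (List.range' (i + 1) (m - (i + 1))).flatMap (fun i : ℕ => (Phi m D).map (blk m D i))
    with hR
  have hsp2 : Phi m (D + 1) = (P ++ a₁.map (blk m D i)) ++ v :: (a₂.map (blk m D i) ++ R) := by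
    rw [hsp]
    simp only [ha, List.map_append, List.map_cons, hwv, List.append_assoc, List.cons_append]
  have hnd' := hnd
  rw [hsp2] at hnd'
  have heq : l₁ ++ v :: l₂ = (P ++ a₁.map (blk m D i)) ++ v :: (a₂.map (blk m D i) ++ R) := by
    rw [← h, hsp2]
  have hnd1 : v ∉ l₁ := by
    rw [h, List.nodup_append] at hnd
    intro hc
    exact hnd.2.2 v hc v (by simp) rfl
  have hnd2 : v ∉ P ++ a₁.map (blk m D i) := by
    rw [List.nodup_append] at hnd'
    intro hc
    exact hnd'.2.2 v hc v (by simp) rfl
  have huniq : l₁ = P ++ a₁.map (blk m D i) ∧ l₂ = a₂.map (blk m D i) ++ R := by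
    rw [List.append_eq_append_iff] at heq
    rcases heq with ⟨c, h1, h2⟩ | ⟨c, h1, h2⟩
    · rcases c with _ | ⟨c₀, c⟩
      · simp only [List.nil_append, List.append_nil, List.cons.injEq, true_and] at h1 h2
        exact ⟨h1.symm, h2⟩
      · exfalso
        rw [List.cons_append, List.cons.injEq] at h2
        apply hnd2
        rw [h1, h2.1]
        simp
    · rcases c with _ | ⟨c₀, c⟩
      · simp only [List.nil_append, List.append_nil, List.cons.injEq, true_and] at h1 h2
        exact ⟨h1, h2.symm⟩
      · exfalso
        rw [List.cons_append, List.cons.injEq] at h2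
        apply hnd1
        rw [h1, h2.1]
        simp
  have hin : ∀ u : ℤ, sg v (blk m D i u) = !(sg w u) ∨ u = w := by
    intro u
    by_cases huw : u = w
    · exact Or.inr huw
    · left
      rw [← hwv]
      unfold sg blk
      by_cases h1 : w < u
      · simp only [h1, decide_true, Bool.not_true, decide_eq_false_iff_not]; omega
      · simp only [h1, decide_false, Bool.not_false, decide_eq_true_eq]; omega
  have hnda := nodup_Phi hm D
  rw [ha, List.nodup_append] at hnda
  have hwb := mem_Phi hm hw
  refine ⟨a₁, a₂, w, P.map (sg v), R.map (sg v), ha, ?_, ?_, ?_, ?_⟩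
  · intro b hb
    simp only [hP, List.mem_map, List.mem_flatMap, List.mem_range] at hb
    obtain ⟨u, ⟨i', hi', u', hu', rfl⟩, rfl⟩ := hb
    obtain ⟨h3, h4⟩ := mem_Phi hm hu'
    have h5 : ((i' : ℤ) + 1) * (m : ℤ) ^ D ≤ i * (m : ℤ) ^ D :=
      mul_le_mul_of_nonneg_right (by exact_mod_cast hi') hpow.le
    rw [← hwv]
    unfold sg blk
    simp only [decide_eq_false_iff_not, not_lt]
    nlinarith
  · intro b hb
    simp only [hR, List.mem_map, List.mem_flatMap, List.mem_range'_1] at hb
    obtain ⟨u, ⟨i', hi', u', hu', rfl⟩, rfl⟩ := hb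
    obtain ⟨h3, h4⟩ := mem_Phi hm hu'
    have h5 : ((i : ℤ) + 1) * (m : ℤ) ^ D ≤ i' * (m : ℤ) ^ D :=
      mul_le_mul_of_nonneg_right (by exact_mod_cast hi'.1) hpow.le
    rw [← hwv]
    unfold sg blk
    simp only [decide_eq_true_eq]
    nlinarith
  · rw [huniq.1, List.map_append, List.map_map, List.map_map]
    congr 1
    apply List.map_congr_left
    intro u hu
    rcases hin u with h1 | h1
    · exact h1
    · exfalso
      exact hnda.2.2 u hu w (by simp) h1
  · rw [huniq.2, List.map_append, List.map_map, List.map_map]
    congr 1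
    apply List.map_congr_left
    intro u hu
    rcases hin u with h1 | h1
    · exact h1
    · exfalso
      have := (List.nodup_cons.mp hnda.2.1).1
      rw [h1] at hu
      exact this hu

lemma not_not_map (s : List Bool) : (s.map (!·)).map (!·) = s := by
  rw [List.map_map]
  conv_rhs => rw [← List.map_id s]
  apply List.map_congr_left
  intro b _
  simp

lemma HH_Phi {m : ℕ} (hm : 1 ≤ m) : ∀ (D : ℕ) (l₁ l₂ : List ℤ) (v : ℤ),
    Phi m D = l₁ ++ v :: l₂ →
    (1 ≤ D → HH false (l₁.map (sg v)) (l₂.map (sg v)) ≤ 6 * D - 1) ∧
      HH true (l₁.map (sg v)) (l₂.map (sg v) ++ [false]) ≤ 5 + 6 * D := by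
  intro D
  induction D with
  | zero =>
    intro l₁ l₂ v h
    refine ⟨fun h => absurd h (by omega), ?_⟩
    have hlen : (Phi m 0).length = l₁.length + (l₂.length + 1) := by rw [h]; simp
    have hlen' : (Phi m 0).length = 1 := by simp [Phi]
    have h1 : l₁ = [] := List.length_eq_zero_iff.mp (by omega)
    have h2 : l₂ = [] := List.length_eq_zero_iff.mp (by omega)
    subst h1 h2
    simp [HH, EE, alt_cons]
  | succ D ih =>
    intro l₁ l₂ v h
    obtain ⟨a₁, a₂, w, F, T, h1, hF, hT, h2, h3⟩ := Phi_split hm h
    have h4 := (ih a₁ a₂ w h1).2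
    have key : HH false ((a₁.map (sg w)).map (!·)) ((a₂.map (sg w)).map (!·) ++ T) ≤ 5 + 6 * D := by
      refine (HH_mono (c := 0) (s₂' := (a₂.map (sg w)).map (!·) ++ [true]) ?_ _ _).trans ?_
      · intro e
        rw [zero_add]
        cases e
        · exact EE_tail hT false rfl _
        · -- a final stretch of `true` after the starting symbol `true`
          rcases T with _ | ⟨b, T⟩
          · rw [List.append_nil]
            cases (a₂.map (sg w)).map (!·) with
            | nil => simp [EE, alt_cons]
            | cons t s =>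
              simp only [List.cons_append, EE]
              have h1 : alt true (t :: s) ≤ alt true (t :: (s ++ [true])) := by
                rw [← List.cons_append]
                exact alt_sublist (List.sublist_append_left _ _) _
              omega
          · have hb : b = true := hT b (by simp)
            subst hb
            have h1 : ∀ (s : List Bool) a, alt a (s ++ true :: T) = alt a (s ++ [true]) := by
              intro s a
              rw [alt_append, alt_append, alt_cons, alt_cons,
                alt_const (fun c hc => hT c (by simp [hc])), alt_nil]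
            cases (a₂.map (sg w)).map (!·) with
            | nil =>
              have h2 := h1 [] true
              simp only [List.nil_append] at h2 ⊢
              simp only [EE]
              rw [h2]
            | cons t s =>
              have h2 := h1 (t :: s) true
              simp only [List.cons_append] at h2 ⊢
              simp only [EE]
              rw [h2]
      · rw [zero_add]
        have h5 := HH_not (a₂.map (sg w) ++ [false]) (a₁.map (sg w)) true
        rw [List.map_append] at h5
        simp only [Bool.not_true, List.map_cons, Bool.not_false, List.map_nil] at h5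
        rw [h5]
        exact h4
    constructor
    · intro _
      rw [h2, h3, HH_const hF]
      omega
    · rw [h2, h3]
      refine (HH_const_le hF true _ _).trans ?_
      have h5 := HH_mono (c := 4) (fun e => EE_concat e false ((a₂.map (sg w)).map (!·) ++ T))
        ((a₁.map (sg w)).map (!·)) false
      omega

/-- Words of lines of any slope, read between `true` and `false`. -/
theorem word_bound3 {Q : ℝ} {m d : ℕ} (hm : 1 ≤ m) (hQ : 2 * ((m ^ (d + 1) : ℕ) : ℝ) + 3 ≤ Q)
    (θ η : ℝ) : alt true (word Q θ η (Phi m (d + 1)) ++ [false]) ≤ 6 * d + 5 ∧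
      (θ < 0 → alt false (word Q θ η (Phi m (d + 1)) ++ [true]) ≤ 3) := by
  have hN : ∀ v ∈ Phi m (d + 1), ∀ v' ∈ Phi m (d + 1), |(v' : ℝ) - v| ≤ ((m ^ (d + 1) : ℕ) : ℝ) := by
    intro v hv v' hv'
    have h1 := mem_Phi hm hv
    have h2 := mem_Phi hm hv'
    have h3 : |v' - v| ≤ ((m ^ (d + 1) : ℕ) : ℤ) := by
      rw [abs_le]
      push_cast
      constructor <;> omega
    have h4 : ((|v' - v| : ℤ) : ℝ) ≤ (((m ^ (d + 1) : ℕ) : ℤ) : ℝ) := by exact_mod_cast h3
    simpa using h4
  by_cases hnear : ∃ v ∈ Phi m (d + 1), far θ v = false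
  · obtain ⟨v, hv, hvn⟩ := hnear
    obtain ⟨l₁, l₂, hl⟩ := List.append_of_mem hv
    have hnd := nodup_Phi hm (d + 1)
    rw [hl] at hnd hN ⊢
    have hvn' : |(v : ℝ) - θ| < 1 / 2 := by simpa [far] using hvn
    have hne : ∀ u : ℤ, u ≠ v → far θ u = true ∧ tau θ u = sg v u := by
      intro u hu
      rw [abs_lt] at hvn'
      rcases lt_or_gt_of_ne hu with h | h
      · have h6 : (u : ℝ) + 1 ≤ v := by exact_mod_cast h
        constructor
        · simp only [far, decide_eq_true_eq]
          rw [abs_of_neg (by linarith)]
          linarith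
        · unfold tau sg
          rw [decide_eq_false (by linarith : ¬ θ < (u : ℝ)),
            decide_eq_false (by omega : ¬ v < u)]
      · have h6 : (v : ℝ) + 1 ≤ u := by exact_mod_cast h
        constructor
        · simp only [far, decide_eq_true_eq]
          rw [abs_of_pos (by linarith)]
          linarith
        · unfold tau sg
          rw [decide_eq_true (by linarith : θ < (u : ℝ)), decide_eq_true h]
    have hnd' := List.nodup_append.mp hnd
    have h1 : ∀ u ∈ l₁, u ≠ v := fun u hu => hnd'.2.2 u hu v (by simp)
    have h2 : ∀ u ∈ l₂, u ≠ v := by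
      intro u hu huv
      rw [huv] at hu
      exact (List.nodup_cons.mp hnd'.2.1).1 hu
    have hs1 : l₁.map (tau θ) = l₁.map (sg v) :=
      List.map_congr_left (fun u hu => (hne u (h1 u hu)).2)
    have hs2 : l₂.map (tau θ) = l₂.map (sg v) :=
      List.map_congr_left (fun u hu => (hne u (h2 u hu)).2)
    have hw := word_near hQ hvn l₁ hN (fun u hu => (hne u (h1 u hu)).1)
      (fun u hu => (hne u (h2 u hu)).1) η
    rw [hs1, hs2] at hw
    constructor
    · have h3 := hw false
      have h4 := (HH_Phi hm (d + 1) l₁ l₂ v hl).1 (by omega)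
      rw [Bool.not_false] at h3
      omega
    · intro hθ
      have h3 := hw true
      rw [Bool.not_true] at h3
      refine h3.trans ?_
      have hv0 : ∀ u ∈ Phi m (d + 1), (0 : ℝ) ≤ u := by
        intro u hu
        exact_mod_cast (mem_Phi hm hu).1
      have ha1 : ∀ b ∈ l₁.map (sg v), b = true := by
        intro b hb
        rw [← hs1, List.mem_map] at hb
        obtain ⟨u, hu, rfl⟩ := hb
        have := hv0 u (by rw [hl]; simp [hu])
        simp only [tau, decide_eq_true_eq]
        linarith
      have ha2 : ∀ b ∈ l₂.map (sg v), b = true := by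
        intro b hb
        rw [← hs2, List.mem_map] at hb
        obtain ⟨u, hu, rfl⟩ := hb
        have := hv0 u (by rw [hl]; simp [hu])
        simp only [tau, decide_eq_true_eq]
        linarith
      have h5 := HH_const ha1 [] (l₂.map (sg v))
      rw [List.append_nil] at h5
      rw [h5]
      show EE true (l₂.map (sg v)) ≤ 3
      cases hc : l₂.map (sg v) with
      | nil => simp [EE]
      | cons t s =>
        rw [hc] at ha2
        have h6 : alt true (t :: s) = 0 := alt_const ha2
        simp only [EE, h6, mul_zero, add_zero]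
        split_ifs <;> omega
  · push Not at hnear
    have hfar : ∀ v ∈ Phi m (d + 1), far θ v = true := by
      intro v hv
      have := hnear v hv
      simpa using this
    have hw := word_far hQ (Phi m (d + 1)) hN hfar η
    have h3 : (Phi m (d + 1)).map (tau θ) = (Phi m (d + 1)).map (thr (⌊θ⌋ + 1)) := by
      apply List.map_congr_left
      intro v _
      unfold tau thr
      congr 1
      apply propext
      rw [← Int.floor_lt]
      exact Iff.rfl
    constructor
    · have h1 := hw false
      rw [Bool.not_false] at h1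
      have h2 : alt false ((Phi m (d + 1)).map (tau θ)) ≤ 2 * d + 1 := by
        rw [h3]
        exact (alt_sublist (List.sublist_append_left _ [true]) false).trans
          (crossing_Phi_up hm d _)
      omega
    · intro hθ
      have h1 := hw true
      rw [Bool.not_true] at h1
      have h2 : alt true ((Phi m (d + 1)).map (tau θ)) = 0 := by
        apply alt_const
        intro b hb
        rw [List.mem_map] at hb
        obtain ⟨u, hu, rfl⟩ := hb
        have : (0 : ℝ) ≤ u := by exact_mod_cast (mem_Phi hm hu).1
        simp only [tau, decide_eq_true_eq]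
        linarith
      omega

end Pool.Agent.H41.Kc
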