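import Mathlib
import Pool.Agent.H41.Kc.UpperSet
import Pool.Agent.H41.Kc.Word3
import Pool.Agent.H41.Kc.Force
import Pool.Agent.H41.Kc.Sem
import Pool.Agent.H41.Kc.Lower

set_option autoImplicit false
set_option linter.unusedSectionVars false

/-!
The point sets of the sharp upper bound.
-/

namespace Pool.Agent.H41.Kc

open Set

/-- monotone subsets -/
lemma es_finset (f : ℕ → ℝ) : ∀ (a b : ℕ) (S : Finset ℕ), Set.InjOn f S → a * b < S.card →
    (∃ T ⊆ S, T.card = a + 1 ∧ ∀ i ∈ T, ∀ j ∈ T, i < j → f i < f j) ∨
      ∃ T ⊆ S, T.card = b + 1 ∧ ∀ i ∈ T, ∀ j ∈ T, i < j → f j < f i := by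
  classical
  intro a
  induction a with
  | zero =>
    intro b S _ hc
    left
    have hne : S.Nonempty := Finset.card_pos.mp (by omega)
    obtain ⟨i, hi⟩ := hne
    refine ⟨{i}, by simpa using hi, by simp, ?_⟩
    intro x hx y hy hxy
    rw [Finset.mem_singleton] at hx hy
    omega
  | succ a ih =>
    intro b S hinj hc
    set M := S.filter (fun i => ∀ j ∈ S, j < i → f i < f j) with hM
    have hMS : M ⊆ S := Finset.filter_subset _ _
    by_cases hMb : b + 1 ≤ M.card
    · right
      obtain ⟨T, hT, hTc⟩ := Finset.exists_subset_card_eq hMb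
      refine ⟨T, hT.trans hMS, hTc, ?_⟩
      intro i hi j hj hij
      exact (Finset.mem_filter.mp (hT hj)).2 i (hMS (hT hi)) hij
    · have h1 : (S \ M).card = S.card - M.card := Finset.card_sdiff_of_subset hMS
      have h2 : a * b < (S \ M).card := by
        rw [h1]
        have : (a + 1) * b = a * b + b := by ring
        omega
      rcases ih b (S \ M) (hinj.mono (by simp)) h2 with
        ⟨T, hT, hTc, hTm⟩ | ⟨T, hT, hTc, hTm⟩
      · left
        have hTne : T.Nonempty := Finset.card_pos.mp (by omega)
        set t := T.min' hTne with ht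
        have htT : t ∈ T := T.min'_mem hTne
        have htS : t ∈ S := (Finset.mem_sdiff.mp (hT htT)).1
        have htM : t ∉ M := (Finset.mem_sdiff.mp (hT htT)).2
        rw [hM, Finset.mem_filter] at htM
        push Not at htM
        obtain ⟨j, hjS, hjt, hfj⟩ := htM htS
        have hfj' : f j < f t := by
          rcases lt_or_eq_of_le hfj with h | h
          · exact h
          · exact absurd (hinj hjS htS h) (by omega)
        have hjT : j ∉ T := by
          intro h
          have := T.min'_le j h
          omega
        have hmin : ∀ x ∈ T, f j < f x ∧ j < x := by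
          intro x hx
          have h3 := T.min'_le x hx
          rw [← ht] at h3
          rcases lt_or_eq_of_le h3 with h4 | h4
          · exact ⟨hfj'.trans (hTm t htT x hx h4), by omega⟩
          · rw [← h4]
            exact ⟨hfj', hjt⟩
        refine ⟨insert j T, ?_, by rw [Finset.card_insert_of_notMem hjT, hTc], ?_⟩
        · intro x hx
          rw [Finset.mem_insert] at hx
          rcases hx with rfl | hx
          · exact hjS
          · exact (Finset.mem_sdiff.mp (hT hx)).1
        · intro x hx y hy hxy
          rw [Finset.mem_insert] at hx hy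
          rcases hx with rfl | hx
          · rcases hy with rfl | hy
            · omega
            · exact (hmin y hy).1
          · rcases hy with rfl | hy
            · have := (hmin x hx).2
              omega
            · exact hTm x hx y hy hxy
      · right
        exact ⟨T, hT.trans (by simp), hTc, hTm⟩

/-- monotone sublists -/
lemma es_list {α : Type*} [DecidableEq α] (x₀ : α) (f : α → ℝ) (L : List α) (hn : L.Nodup)
    (hf : ∀ x ∈ L, ∀ y ∈ L, f x = f y → x = y) {a : ℕ} (ha : a * a < L.length) :
    ∃ L' : List α, L'.Sublist L ∧ L'.length = a + 1 ∧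
      (L'.Pairwise (fun x y => f x < f y) ∨ L'.Pairwise (fun x y => f y < f x)) := by
  classical
  set g : ℕ → ℝ := fun i => f (L.getD i x₀) with hg
  have hget : ∀ i (hi : i < L.length), L.getD i x₀ = L[i] := fun i hi =>
    List.getD_eq_getElem _ _ hi
  have hinj : Set.InjOn g (Finset.range L.length) := by
    intro i hi j hj hij
    rw [Finset.coe_range, Set.mem_Iio] at hi hj
    have h1 := hf _ (List.getElem_mem hi) _ (List.getElem_mem hj) (by
      simp only [hg] at hij
      rw [hget i hi, hget j hj] at hij
      exact hij)
    exact (hn.getElem_inj_iff).mp h1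
  have key : ∀ T ⊆ Finset.range L.length, ∀ R : α → α → Prop,
      (∀ i ∈ T, ∀ j ∈ T, i < j → R (L.getD i x₀) (L.getD j x₀)) →
      ∃ L' : List α, L'.Sublist L ∧ L'.length = T.card ∧ L'.Pairwise R := by
    intro T hT R hR
    refine ⟨((List.range L.length).filter (fun i => decide (i ∈ T))).map (fun i => L.getD i x₀),
      ?_, ?_, ?_⟩
    · have h1 : (List.range L.length).map (fun i => L.getD i x₀) = L := by
        apply List.ext_getElem
        · simp
        · intro i h1 h2
          rw [List.getElem_map, List.getElem_range, hget i h2]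
      conv_rhs => rw [← h1]
      exact List.filter_sublist.map _
    · rw [List.length_map]
      have h2 : ((List.range L.length).filter (fun i => decide (i ∈ T))).toFinset = T := by
        ext i
        simp only [List.mem_toFinset, List.mem_filter, List.mem_range, decide_eq_true_eq]
        constructor
        · exact fun h => h.2
        · intro h
          exact ⟨Finset.mem_range.mp (hT h), h⟩
      rw [← List.toFinset_card_of_nodup (List.nodup_range.filter _), h2]
    · rw [List.pairwise_map]
      have h3 : ((List.range L.length).filter (fun i => decide (i ∈ T))).Pairwise (· < ·) :=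
        List.pairwise_lt_range.sublist List.filter_sublist
      refine h3.imp_of_mem ?_
      intro i j hi hj hij
      rw [List.mem_filter] at hi hj
      exact hR i (by simpa using hi.2) j (by simpa using hj.2) hij
  rcases es_finset g a a (Finset.range L.length) hinj (by rw [Finset.card_range]; exact ha) with
    ⟨T, hT, hTc, hTm⟩ | ⟨T, hT, hTc, hTm⟩
  · obtain ⟨L', h1, h2, h3⟩ := key T hT (fun x y => f x < f y) hTm
    exact ⟨L', h1, by rw [h2, hTc], Or.inl h3⟩
  · obtain ⟨L', h1, h2, h3⟩ := key T hT (fun x y => f y < f x) hTm
    exact ⟨L', h1, by rw [h2, hTc], Or.inr h3⟩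

lemma sublist_of_sorted {α : Type*} {R : α → α → Prop} (hirr : ∀ x, ¬ R x x)
    (hasym : ∀ x y, R x y → ¬ R y x) {Z L : List α} (hZ : Z.Pairwise R) (hL : L.Pairwise R)
    (h : ∀ z ∈ Z, z ∈ L) : Z.Sublist L := by
  induction L generalizing Z with
  | nil =>
    have : Z = [] := by
      rcases Z with _ | ⟨z, Z⟩
      · rfl
      · have := h z (by simp)
        simp at this
    rw [this]
  | cons x L ih =>
    rw [List.pairwise_cons] at hL
    rcases Z with _ | ⟨z, Z⟩
    · simp
    · rw [List.pairwise_cons] at hZ
      have hz := h z (by simp)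
      rw [List.mem_cons] at hz
      rcases hz with hz | hz
      · subst hz
        refine List.Sublist.cons_cons _ (ih hZ.2 hL.2 ?_)
        intro y hy
        have h1 := h y (by simp [hy])
        rw [List.mem_cons] at h1
        rcases h1 with h1 | h1
        · subst h1
          exact absurd (hZ.1 y hy) (hirr y)
        · exact h1
      · refine List.Sublist.cons _ (ih (List.pairwise_cons.mpr hZ) hL.2 ?_)
        intro y hy
        have h1 := h y hy
        rw [List.mem_cons] at h1
        rcases h1 with h1 | h1
        · subst h1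
          rw [List.mem_cons] at hy
          rcases hy with hy | hy
          · subst hy; exact hz
          · exact absurd (hZ.1 y hy) (hasym _ _ (hL.1 z hz))
        · exact h1

lemma altL_reverse (l : List Bool) : altL l.reverse = altL l := by
  induction l with
  | nil => rfl
  | cons a l ih =>
    rw [List.reverse_cons]
    cases l with
    | nil => rfl
    | cons b l =>
      rw [List.reverse_cons] at ih ⊢
      have h1 : altL (l.reverse ++ [b] ++ [a]) = altL (l.reverse ++ [b]) + (if a = b then 0 else 1) := by
        cases h : l.reverse with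
        | nil =>
          simp only [List.nil_append, List.singleton_append, altL_cons, alt_cons, alt_nil]
          cases a <;> cases b <;> simp
        | cons c s =>
          simp only [List.cons_append, altL_cons]
          rw [alt_append]
          have h2 : (s ++ [b]).getLastD c = b := List.getLastD_concat
          rw [h2, alt_cons, alt_nil]
          cases a <;> cases b <;> simp
      rw [h1, ih, altL_cons, altL_cons, alt_cons]
      split_ifs <;> omega

section

variable {Q : ℝ} {m d : ℕ} (hm : 1 ≤ m) (hQ : 2 * ((m ^ (d + 1) : ℕ) : ℝ) + 3 ≤ Q)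

include hm hQ

lemma pu_word3 (BL : List (List Bool)) (hBL : BL.Sublist (bits (Phi m (d + 1)).length))
    {s t : ℝ} (hst : s < t) (hs : ∀ z ∈ BL.map (pu Q (Phi m (d + 1))), s < z.1 ∧ z.1 < t)
    (α β : ℝ) :
    alt false (((s, 0) :: (BL.map (pu Q (Phi m (d + 1))) ++ [(t, 0)])).map
      (fun z : ℝ × ℝ => decide (α * z.1 + β ≤ z.2)) ++ [false]) ≤ 6 * d + 6 := by
  set l := Phi m (d + 1) with hl
  set σ : ℝ × ℝ → Bool := fun z => decide (α * z.1 + β ≤ z.2) with hσ
  have hW : ((BL.map (pu Q l)).map σ).Sublist (word Q α (β - 1) l) := by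
    rw [List.map_map]
    have h1 : BL.map (σ ∘ pu Q l) =
        BL.map (fun b => decide (β - 1 ≤ G Q (fun v => (v : ℝ) - α) l b)) := by
      apply List.map_congr_left
      intro b _
      simp only [hσ, Function.comp_apply]
      have := pu_height Q α l b
      congr 1
      apply propext
      constructor <;> intro h <;> linarith
    rw [h1]
    exact hBL.map _
  obtain ⟨hw, hw'⟩ := word_bound3 hm hQ α (β - 1)
  rw [← hl] at hw hw'
  have hM : alt true ((BL.map (pu Q l)).map σ ++ [false]) ≤ 6 * d + 5 :=
    (alt_sublist (hW.append (List.Sublist.refl _)) true).trans hw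
  rw [List.map_cons, List.map_append, List.map_cons, List.map_nil, List.cons_append, alt_cons,
    List.append_assoc]
  cases h1 : σ (s, 0) <;> cases h2 : σ (t, 0)
  · have h3 : ((BL.map (pu Q l)).map σ ++ ([false] ++ [false])) =
        ((BL.map (pu Q l)).map σ ++ [false]) ++ [false] := by simp
    rw [h3, alt_append]
    have h4 : ((BL.map (pu Q l)).map σ ++ [false]).getLastD false = false := List.getLastD_concat
    rw [h4]
    have h5 := alt_le_alt false true ((BL.map (pu Q l)).map σ ++ [false])
    simp only [if_true, alt_cons, alt_nil]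
    simp only [Bool.false_eq_true, if_false] at h5
    omega
  · have h3 : ((BL.map (pu Q l)).map σ ++ ([true] ++ [false])) =
        ((BL.map (pu Q l)).map σ ++ [true]) ++ [false] := by simp
    have h5 : 0 < α * s + β := by
      simp only [hσ, decide_eq_false_iff_not, not_le] at h1
      exact h1
    have h6 : α * t + β ≤ 0 := by
      simp only [hσ, decide_eq_true_eq] at h2
      exact h2
    have h7 : α < 0 := by
      by_contra hcon
      push Not at hcon
      nlinarith
    have h8 : alt false ((BL.map (pu Q l)).map σ ++ [true]) ≤ 3 :=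
      (alt_sublist (hW.append (List.Sublist.refl _)) false).trans (hw' h7)
    rw [h3, alt_append]
    have h4 : ((BL.map (pu Q l)).map σ ++ [true]).getLastD false = true := List.getLastD_concat
    rw [h4]
    simp only [if_true, alt_cons, alt_nil, Bool.true_eq_false, if_false]
    omega
  · have h3 : ((BL.map (pu Q l)).map σ ++ ([false] ++ [false])) =
        ((BL.map (pu Q l)).map σ ++ [false]) ++ [false] := by simp
    rw [h3, alt_append]
    have h4 : ((BL.map (pu Q l)).map σ ++ [false]).getLastD true = false := List.getLastD_concat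
    rw [h4]
    simp only [if_true, alt_cons, alt_nil, Bool.false_eq_true, if_false]
    omega
  · have h5 : α * s + β ≤ 0 := by
      simp only [hσ, decide_eq_true_eq] at h1
      exact h1
    have h6 : α * t + β ≤ 0 := by
      simp only [hσ, decide_eq_true_eq] at h2
      exact h2
    have h7 : ∀ b ∈ (BL.map (pu Q l)).map σ ++ [true], b = true := by
      intro b hb
      rw [List.mem_append, List.mem_singleton] at hb
      rcases hb with hb | rfl
      · obtain ⟨z, hz, rfl⟩ := List.mem_map.mp hb
        obtain ⟨h8, h9⟩ := hs z hz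
        obtain ⟨b', hb', rfl⟩ := List.mem_map.mp hz
        have h10 : 0 < (pu Q l b').2 := pu_pos hm hQ b'
        simp only [hσ, decide_eq_true_eq]
        have h11 : (t - s) * (α * (pu Q l b').1 + β) ≤ 0 := by nlinarith
        have h12 : α * (pu Q l b').1 + β ≤ 0 := by
          by_contra hcon
          push Not at hcon
          have : 0 < (t - s) * (α * (pu Q l b').1 + β) := mul_pos (by linarith) hcon
          linarith
        linarith
      · rfl
    have h3 : ((BL.map (pu Q l)).map σ ++ ([true] ++ [false])) =
        ((BL.map (pu Q l)).map σ ++ [true]) ++ [false] := by simp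
    rw [h3, alt_const_append _ h7]
    simp only [alt_cons, alt_nil, Bool.false_eq_true, Bool.true_eq_false, if_false]
    omega

end

/-- For every `n` there is a set of `n` points that is `3 (d + 1)`-convex and has only small
`(3 q + 2)`-convex subsets. -/
theorem upper_core3 {m d n : ℕ} (hm : 1 ≤ m) (hn : 3 ≤ n) (hS : n ≤ 2 ^ (m ^ (d + 1))) :
    ∃ P : Set (ℝ × ℝ), P.Finite ∧ P.ncard = n ∧ KConvexSet (3 * (d + 1)) P ∧
      ∀ (q : ℕ) (Q : Set (ℝ × ℝ)), Q ⊆ P → KConvexSet (3 * q + 2) Q →
        Q.ncard ≤ (m ^ (d + 1) + 1) ^
          (2 * (8 ^ (d + 1) * m ^ ((d + 1 + q) / 2) + 1)) + 2 := by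
  classical
  set Q₀ : ℝ := 2 * ((m ^ (d + 1) : ℕ) : ℝ) + 3 with hQ₀
  have hQ : 2 * ((m ^ (d + 1) : ℕ) : ℝ) + 3 ≤ Q₀ := le_rfl
  set l := Phi m (d + 1) with hl
  have hlen : l.length = m ^ (d + 1) := length_Phi m (d + 1)
  set BL := (bits l.length).take (n - 2) with hBL
  have hBLs : BL.Sublist (bits l.length) := List.take_sublist _ _
  have hBLlen : BL.length = n - 2 := by
    rw [hBL, List.length_take, length_bits, hlen]
    omega
  have hBne : BL ≠ [] := by
    intro h
    rw [h] at hBLlen
    simp at hBLlen
    omega
  set ML := BL.map (pu Q₀ l) with hML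
  have hMLsort : ML.Pairwise (fun a b => a.1 < b.1) := pu_sorted hm hQ BL hBLs
  have hMLpos : ∀ z ∈ ML, 0 < z.2 := by
    intro z hz
    obtain ⟨b, _, rfl⟩ := List.mem_map.mp hz
    exact pu_pos hm hQ b
  have hMLfin : {z | z ∈ ML}.Finite := List.finite_toSet ML
  obtain ⟨X, hX⟩ : ∃ X : ℝ, ∀ z ∈ ML, |z.1| ≤ X := by
    obtain ⟨X, hX⟩ := (hMLfin.image (fun z : ℝ × ℝ => |z.1|)).bddAbove
    exact ⟨X, fun z hz => hX ⟨z, hz, rfl⟩⟩
  obtain ⟨s, t, hs, ht, hst, hg⟩ := gp_add hMLfin (fun z hz => hMLpos z hz) (pu_gp hm hQ BL hBLs) X
  set W := (s, (0 : ℝ)) :: (ML ++ [(t, 0)]) with hW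
  have hWset : {z | z ∈ W} = {(s, 0), (t, 0)} ∪ {z | z ∈ ML} := by
    ext z
    simp only [hW, List.mem_cons, List.mem_append, mem_ofPred_eq, mem_union,
      mem_insert_iff, mem_singleton_iff]
    tauto
  have hsz : ∀ z ∈ ML, s < z.1 ∧ z.1 < t := by
    intro z hz
    have := hX z hz
    rw [abs_le] at this
    constructor <;> linarith [this.1, this.2]
  have hWsort : W.Pairwise (fun a b => a.1 < b.1) := by
    rw [hW, List.pairwise_cons, List.pairwise_append]
    refine ⟨?_, hMLsort, List.pairwise_singleton _ _, ?_⟩
    · intro z hz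
      rcases List.mem_append.mp hz with hz | hz
      · exact (hsz z hz).1
      · rw [List.mem_singleton] at hz
        subst hz
        exact hst
    · intro z hz z' hz'
      rw [List.mem_singleton] at hz'
      subst hz'
      exact (hsz z hz).2
  have hWnodup : W.Nodup := hWsort.imp (fun {a b} h heq => by rw [heq] at h; exact lt_irrefl _ h)
  have hWlen : W.length = n := by
    simp only [hW, List.length_cons, List.length_append, List.length_nil, hML, List.length_map,
      hBLlen]
    omega
  have hcoe : {z | z ∈ W} = (W.toFinset : Set (ℝ × ℝ)) := by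
    ext z; simp
  refine ⟨{z | z ∈ W}, List.finite_toSet W, ?_, ?_, ?_⟩
  · rw [hcoe, Set.ncard_coe_finset, List.toFinset_card_of_nodup hWnodup, hWlen]
  · refine kconvex_of_list ?_ hWsort hMLpos ?_ (by omega) ?_
    · rw [hML]
      intro h
      exact hBne (List.map_eq_nil_iff.mp h)
    · show GeneralPosition {z | z ∈ W}
      rw [hWset]; exact hg
    · intro α β
      exact (pu_word3 hm hQ BL hBLs hst hsz α β).trans (by omega)
  · intro q Qs hQs hconv
    obtain ⟨L, hLn, hLm, hLalt⟩ := exists_order hconv
    -- decoding
    have hdec : ∀ z ∈ ML, ∃ b ∈ BL, pu Q₀ l b = z := by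
      intro z hz
      obtain ⟨b, hb, rfl⟩ := List.mem_map.mp hz
      exact ⟨b, hb, rfl⟩
    choose! g hg1 hg2 using hdec
    set L' := L.filter (fun z => decide (z ∈ ML)) with hL'
    have hL'M : ∀ z ∈ L', z ∈ ML := by
      intro z hz
      have := (List.mem_filter.mp hz).2
      simpa using this
    have hL'n : L'.Nodup := hLn.filter _
    set L'' := L'.map g with hL''
    have hL''n : L''.Nodup := by
      refine List.Nodup.map_on ?_ hL'n
      intro x hx y hy hxy
      rw [← hg2 x (hL'M x hx), ← hg2 y (hL'M y hy), hxy]
    have hL''BL : ∀ b ∈ L'', b ∈ BL := by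
      intro b hb
      obtain ⟨z, hz, rfl⟩ := List.mem_map.mp hb
      exact hg1 z (hL'M z hz)
    have hL''len : ∀ b ∈ L'', b.length = l.length := by
      intro b hb
      exact length_of_mem_bits (hBLs.subset (hL''BL b hb))
    set κ := 8 ^ (d + 1) * m ^ ((d + 1 + q) / 2) with hκ
    have hcore : L''.length ≤ (m ^ (d + 1) + 1) ^ (2 * (κ + 1)) := by
      by_contra hcon
      push Not at hcon
      have hpw : (m ^ (d + 1) + 1) ^ (2 * (κ + 1)) =
          (m ^ (d + 1) + 1) ^ (κ + 1) * (m ^ (d + 1) + 1) ^ (κ + 1) := by
        rw [two_mul, pow_add]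
      rw [hpw] at hcon
      have hsort : BL.Pairwise (fun b b' => G Q₀ (fun _ => 1) l b < G Q₀ (fun _ => 1) l b') :=
        (bits_sorted hQ l).sublist hBLs
      obtain ⟨L₁, hL₁, hL₁len, hL₁m⟩ := es_list ([] : List Bool) (G Q₀ (fun _ => 1) l) L'' hL''n (by
        intro x hx y hy hxy
        by_contra hne
        exact pairwise_ne hsort (hL''BL x hx) (hL''BL y hy) hne hxy) hcon
      have hL₁n : L₁.Nodup := hL''n.sublist hL₁
      set A : Set (List Bool) := {b | b ∈ L₁} with hA
      have hAlen : ∀ b ∈ A, b.length = l.length := fun b hb => hL''len b (hL₁.subset hb)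
      have hAcard : A.ncard = (m ^ (d + 1) + 1) ^ (κ + 1) + 1 := by
        have : A = (L₁.toFinset : Set (List Bool)) := by
          ext z; simp [hA]
        rw [this, Set.ncard_coe_finset, List.toFinset_card_of_nodup hL₁n, hL₁len]
      have hfull : Full l (κ + 1) A := by
        by_contra hnf
        have h1 := (card_of_not_full l (κ + 1) A hAlen hnf).2
        rw [hAcard, hlen] at h1
        omega
      obtain ⟨v, hv, hE⟩ := forced hm (d + 1) q A hfull
      obtain ⟨θ, _, x, hx, Z, hZ, hZs, hZw⟩ := EWp.sem hQ hE (nodup_Phi hm (d + 1)) (Phi_diff hm)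
        hAlen
      have hxL'' : x ∈ L'' := hL₁.subset hx
      obtain ⟨zx, hzx, rfl⟩ := List.mem_map.mp hxL''
      -- the line
      set c := zx.2 - θ * zx.1 with hc
      have hab : ((-θ, (1 : ℝ)) : ℝ × ℝ) ≠ (0, 0) := by
        intro h
        rw [Prod.mk.injEq] at h
        exact one_ne_zero h.2
      have halt := altL_all hLalt (c := c) hab
      have hmap : L''.map (hw Q₀ θ l (g zx)) =
          L'.map (fun p => decide (0 < hf (-θ) 1 c p)) := by
        rw [hL'', List.map_map]
        apply List.map_congr_left
        intro z hz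
        simp only [Function.comp_apply]
        have e1 := pu_height Q₀ θ l (g z)
        rw [hg2 z (hL'M z hz)] at e1
        have e2 := pu_height Q₀ θ l (g zx)
        rw [hg2 zx (hL'M zx hzx)] at e2
        unfold hw
        congr 1
        apply propext
        have e3 : hf (-θ) 1 c z = (z.2 - θ * z.1) - (zx.2 - θ * zx.1) := by
          simp only [hf, hc]
          ring
        rw [e3, e1, e2]
        constructor <;> intro h <;> linarith
      have h1 : altL (L''.map (hw Q₀ θ l (g zx))) ≤ 2 * (3 * q + 2) := by
        rw [hmap]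
        exact (altL_sublist (List.filter_sublist.map _)).trans halt
      have h2 : altL (Z.map (hw Q₀ θ l (g zx))) ≤ altL (L''.map (hw Q₀ θ l (g zx))) := by
        rcases hL₁m with h3 | h3
        · have h4 : Z.Sublist L₁ := sublist_of_sorted (R := xlt Q₀ l) (fun _ => lt_irrefl _)
            (fun _ _ h => lt_asymm h) hZs h3 hZ
          exact altL_sublist ((h4.trans hL₁).map _)
        · have h5 : L₁.reverse.Pairwise (xlt Q₀ l) := List.pairwise_reverse.mpr h3
          have h4 : Z.Sublist L₁.reverse := sublist_of_sorted (R := xlt Q₀ l)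
            (fun _ => lt_irrefl _) (fun _ _ h => lt_asymm h) hZs h5
            (fun z hz => List.mem_reverse.mpr (hZ z hz))
          have h6 := altL_sublist (h4.map (hw Q₀ θ l (g zx)))
          rw [List.map_reverse, altL_reverse] at h6
          exact h6.trans (altL_sublist (hL₁.map _))
      rw [hZw, show 6 * q + 6 = 6 * q + 5 + 1 by ring, altL_alts] at h2
      omega
    -- counting
    have hQcoe : Qs = (L.toFinset : Set (ℝ × ℝ)) := by
      ext z; simp [hLm]
    have hQcard : Qs.ncard = L.length := by
      rw [hQcoe, Set.ncard_coe_finset, List.toFinset_card_of_nodup hLn]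
    have hLL' : L.length ≤ L'.length + 2 := by
      have h1 : L.length = L'.length + (L.filter (fun z => ! decide (z ∈ ML))).length := by
        rw [hL']
        exact List.length_eq_length_filter_add _
      have h2 : (L.filter (fun z => ! decide (z ∈ ML))).length ≤ 2 := by
        have h3 : (L.filter (fun z => ! decide (z ∈ ML))).toFinset ⊆ {(s, 0), (t, 0)} := by
          intro z hz
          rw [List.mem_toFinset, List.mem_filter] at hz
          have h4 : z ∈ {z | z ∈ W} := hQs ((hLm z).mp hz.1)
          rw [hWset] at h4
          rcases h4 with h4 | h4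
          · simpa using h4
          · have := hz.2
            simp only [mem_ofPred_eq] at h4
            simp [h4] at this
        have h5 := Finset.card_le_card h3
        rw [List.toFinset_card_of_nodup (hLn.filter _)] at h5
        exact h5.trans Finset.card_le_two
      omega
    have hL''L' : L''.length = L'.length := by rw [hL'', List.length_map]
    rw [hQcard]
    omega

end Pool.Agent.H41.Kc
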