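import Mathlib
import Pool.Agent.H41.Kc.Cross

set_option autoImplicit false

/-!
Three parts of a finite planar set no line meets all of which.
-/

namespace Pool.Agent.H41.Kc

open Finset

/-- height above the line of slope `θ` through the origin -/
noncomputable def lv (θ : ℝ) (z : ℝ × ℝ) : ℝ := z.2 - θ * z.1

/-- the middle height as a continuous function of the slope -/
lemma exists_middle (A : Finset (ℝ × ℝ)) (m : ℕ) (hA : A.card = 2 * m + 1) :
    ∃ g : ℝ → ℝ, Continuous g ∧ ∀ θ, (∃ z ∈ A, lv θ z = g θ) ∧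
      m + 1 ≤ (A.filter (fun z => lv θ z ≤ g θ)).card ∧
      m + 1 ≤ (A.filter (fun z => g θ ≤ lv θ z)).card := by
  classical
  set F := A.powersetCard (m + 1) with hF
  have hFne : F.Nonempty := by
    rw [hF, powersetCard_nonempty]
    omega
  have hTne : ∀ T : F, (T : Finset (ℝ × ℝ)).Nonempty := by
    intro T
    have := (mem_powersetCard.mp T.2).2
    exact card_pos.mp (by omega)
  have hFa : (univ : Finset F).Nonempty := by
    obtain ⟨T, hT⟩ := hFne
    exact ⟨⟨T, hT⟩, mem_univ _⟩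
  refine ⟨fun θ => univ.inf' hFa (fun T : F => (T : Finset (ℝ × ℝ)).sup' (hTne T) (lv θ)), ?_, ?_⟩
  · apply Continuous.finset_inf'_apply
    intro T _
    apply Continuous.finset_sup'_apply
    intro z _
    unfold lv
    fun_prop
  · intro θ
    obtain ⟨T₀, _, hT₀⟩ := exists_mem_eq_inf' hFa
      (fun T : F => (T : Finset (ℝ × ℝ)).sup' (hTne T) (lv θ))
    set gθ := univ.inf' hFa (fun T : F => (T : Finset (ℝ × ℝ)).sup' (hTne T) (lv θ)) with hg
    have hT₀m := mem_powersetCard.mp T₀.2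
    obtain ⟨z₀, hz₀, hz₀'⟩ := exists_mem_eq_sup' (hTne T₀) (lv θ)
    show (∃ z ∈ A, lv θ z = gθ) ∧ m + 1 ≤ (A.filter (fun z => lv θ z ≤ gθ)).card ∧
      m + 1 ≤ (A.filter (fun z => gθ ≤ lv θ z)).card
    refine ⟨⟨z₀, hT₀m.1 hz₀, by rw [hT₀, hz₀']⟩, ?_, ?_⟩
    · rw [← hT₀m.2]
      apply card_le_card
      intro z hz
      rw [mem_filter]
      refine ⟨hT₀m.1 hz, ?_⟩
      rw [hT₀]
      exact le_sup' (lv θ) hz
    · by_contra hcon
      push Not at hcon
      have h1 : (A.filter (fun z => gθ ≤ lv θ z)).card +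
          (A.filter (fun z => ¬ gθ ≤ lv θ z)).card = A.card :=
        card_filter_add_card_filter_not _
      have h2 : m + 1 ≤ (A.filter (fun z => ¬ gθ ≤ lv θ z)).card := by omega
      obtain ⟨T, hT, hTc⟩ := exists_subset_card_eq h2
      have hTF : T ∈ F := by
        rw [hF, mem_powersetCard]
        exact ⟨hT.trans (filter_subset _ _), hTc⟩
      have h3 : gθ ≤ T.sup' (hTne ⟨T, hTF⟩) (lv θ) :=
        inf'_le (fun T : F => (T : Finset (ℝ × ℝ)).sup' (hTne T) (lv θ)) (mem_univ ⟨T, hTF⟩)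
      obtain ⟨z, hz, hz'⟩ := exists_mem_eq_sup' (hTne ⟨T, hTF⟩) (lv θ)
      rw [hz'] at h3
      exact (mem_filter.mp (hT hz)).2 h3

/-- a line that halves two sets one of which lies to the left of the other -/
lemma exists_halving (A C : Finset (ℝ × ℝ)) (m : ℕ) (hA : A.card = 2 * m + 1)
    (hC : C.card = 2 * m + 1) (hAC : ∀ a ∈ A, ∀ c ∈ C, a.1 < c.1) :
    ∃ θ η : ℝ, (∃ z ∈ A, lv θ z = η) ∧ (∃ z ∈ C, lv θ z = η) ∧
      m + 1 ≤ (A.filter (fun z => lv θ z ≤ η)).card ∧
      m + 1 ≤ (A.filter (fun z => η ≤ lv θ z)).card ∧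
      m + 1 ≤ (C.filter (fun z => lv θ z ≤ η)).card ∧
      m + 1 ≤ (C.filter (fun z => η ≤ lv θ z)).card := by
  classical
  obtain ⟨g, hg, hg'⟩ := exists_middle A m hA
  obtain ⟨h, hh, hh'⟩ := exists_middle C m hC
  have hne : (A ×ˢ C).Nonempty := by
    rw [nonempty_product]
    exact ⟨card_pos.mp (by omega), card_pos.mp (by omega)⟩
  set B : Finset ℝ := (A ×ˢ C).image (fun q => (q.2.2 - q.1.2) / (q.2.1 - q.1.1)) with hB
  have hBne : B.Nonempty := hne.image _
  set M := B.max' hBne with hM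
  set μ := B.min' hBne with hμ
  have hlv : ∀ a ∈ A, ∀ c ∈ C, ∀ θ, (M < θ → lv θ c < lv θ a) ∧ (θ < μ → lv θ a < lv θ c) := by
    intro a ha c hc θ
    have hx := hAC a ha c hc
    have hmem : (c.2 - a.2) / (c.1 - a.1) ∈ B :=
      mem_image.mpr ⟨(a, c), mem_product.mpr ⟨ha, hc⟩, rfl⟩
    have h1 := B.le_max' _ hmem
    have h2 := B.min'_le _ hmem
    have hpos : 0 < c.1 - a.1 := by linarith
    unfold lv
    constructor
    · intro hθ
      have h3 : (c.2 - a.2) / (c.1 - a.1) < θ := lt_of_le_of_lt h1 hθ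
      rw [div_lt_iff₀ hpos] at h3
      linarith
    · intro hθ
      have h3 : θ < (c.2 - a.2) / (c.1 - a.1) := lt_of_lt_of_le hθ h2
      rw [lt_div_iff₀ hpos] at h3
      linarith
  have hμM : μ ≤ M := B.min'_le _ (B.max'_mem hBne)
  have hcont : Continuous (fun θ => g θ - h θ) := hg.sub hh
  have hpos : 0 ≤ g (M + 1) - h (M + 1) := by
    obtain ⟨a, ha, ha'⟩ := (hg' (M + 1)).1
    obtain ⟨c, hc, hc'⟩ := (hh' (M + 1)).1
    have := (hlv a ha c hc (M + 1)).1 (by linarith)
    linarith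
  have hneg : g (μ - 1) - h (μ - 1) ≤ 0 := by
    obtain ⟨a, ha, ha'⟩ := (hg' (μ - 1)).1
    obtain ⟨c, hc, hc'⟩ := (hh' (μ - 1)).1
    have := (hlv a ha c hc (μ - 1)).2 (by linarith)
    linarith
  obtain ⟨θ, _, hθ⟩ := intermediate_value_Icc (by linarith : μ - 1 ≤ M + 1)
    hcont.continuousOn (⟨hneg, hpos⟩ : (0 : ℝ) ∈ Set.Icc _ _)
  have hgh : g θ = h θ := by
    have : g θ - h θ = 0 := hθ
    linarith
  refine ⟨θ, g θ, (hg' θ).1, ?_, (hg' θ).2.1, (hg' θ).2.2, ?_, ?_⟩
  · rw [hgh]; exact (hh' θ).1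
  · rw [hgh]; exact (hh' θ).2.1
  · rw [hgh]; exact (hh' θ).2.2

/-- the leftmost points -/
lemma exists_left (X : Finset (ℝ × ℝ)) (hx : ∀ u ∈ X, ∀ v ∈ X, u ≠ v → u.1 ≠ v.1) : ∀ r ≤ X.card,
    ∃ L ⊆ X, L.card = r ∧ ∀ u ∈ L, ∀ v ∈ X \ L, u.1 < v.1 := by
  classical
  intro r
  induction r with
  | zero => intro _; exact ⟨∅, by simp, by simp, by simp⟩
  | succ r ih =>
    intro hr
    obtain ⟨L, hL, hLc, hLx⟩ := ih (by omega)
    have hne : (X \ L).Nonempty := by
      rw [← card_pos, card_sdiff_of_subset hL]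
      omega
    obtain ⟨z, hz, hz'⟩ := exists_min_image (X \ L) (fun z => z.1) hne
    have hzX := (mem_sdiff.mp hz).1
    have hzL := (mem_sdiff.mp hz).2
    refine ⟨insert z L, ?_, by rw [card_insert_of_notMem hzL, hLc], ?_⟩
    · intro u hu
      rw [mem_insert] at hu
      rcases hu with rfl | hu
      · exact hzX
      · exact hL hu
    · intro u hu v hv
      rw [mem_insert] at hu
      rw [mem_sdiff, mem_insert, not_or] at hv
      have hvL : v ∈ X \ L := mem_sdiff.mpr ⟨hv.1, hv.2.2⟩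
      rcases hu with rfl | hu
      · exact lt_of_le_of_ne (hz' v hvL) (hx u hzX v hv.1 (Ne.symm hv.2.1))
      · exact hLx u hu v hvL

/-- the line `a x + b y = c` crosses the set `Y` -/
def Crs (a b c : ℝ) (Y : Finset (ℝ × ℝ)) : Prop :=
  (∃ z ∈ Y, 0 < hf a b c z) ∧ ∃ z ∈ Y, ¬ 0 < hf a b c z

/-- a crossing point in the strip below (`σ = 1`) or above (`σ = -1`) a line -/
lemma crossing_point {a b c θ η σ : ℝ} {Y : Finset (ℝ × ℝ)} (h : Crs a b c Y)
    (hY : ∀ z ∈ Y, σ * (lv θ z - η) < 0) {l r : ℝ} (hl : ∀ z ∈ Y, l < z.1) (hr : ∀ z ∈ Y, z.1 < r) :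
    ∃ z : ℝ × ℝ, hf a b c z = 0 ∧ σ * (lv θ z - η) < 0 ∧ l < z.1 ∧ z.1 < r := by
  obtain ⟨⟨u, hu, hu'⟩, v, hv, hv'⟩ := h
  rw [not_lt] at hv'
  set d := hf a b c u - hf a b c v with hd
  have hdpos : 0 < d := by linarith
  set t := -hf a b c v / d with ht
  have ht0 : 0 ≤ t := div_nonneg (by linarith) hdpos.le
  have ht1 : t ≤ 1 := by
    rw [ht, div_le_one hdpos]
    linarith
  have htd : t * d = -hf a b c v := by rw [ht, div_mul_cancel₀ _ hdpos.ne']
  have h1 := hY u hu
  have h2 := hY v hv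
  have key : ∀ p q : ℝ, p < 0 → q < 0 → (1 - t) * p + t * q < 0 := by
    intro p q hp hq
    rcases lt_or_eq_of_le ht1 with h3 | h3
    · nlinarith [mul_nonpos_of_nonneg_of_nonpos ht0 hq.le]
    · rw [h3]; linarith
  refine ⟨((1 - t) * v.1 + t * u.1, (1 - t) * v.2 + t * u.2), ?_, ?_, ?_, ?_⟩
  · have : hf a b c ((1 - t) * v.1 + t * u.1, (1 - t) * v.2 + t * u.2) =
        hf a b c v + t * d := by
      rw [hd]; unfold hf; ring
    rw [this, htd]
    ring
  · have : σ * (lv θ ((1 - t) * v.1 + t * u.1, (1 - t) * v.2 + t * u.2) - η) =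
        (1 - t) * (σ * (lv θ v - η)) + t * (σ * (lv θ u - η)) := by
      unfold lv; ring
    rw [this]
    exact key _ _ h2 h1
  · have h3 := key (l - v.1) (l - u.1) (by linarith [hl v hv]) (by linarith [hl u hu])
    show l < (1 - t) * v.1 + t * u.1
    nlinarith
  · have h3 := key (v.1 - r) (u.1 - r) (by linarith [hr v hv]) (by linarith [hr u hu])
    show (1 - t) * v.1 + t * u.1 < r
    nlinarith

/-- no line meets three points of a strip pattern -/
lemma no_line {a b c θ η σ : ℝ} (hab : (a, b) ≠ (0, 0)) {u v w : ℝ × ℝ} (hu : hf a b c u = 0)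
    (hv : hf a b c v = 0) (hw : hf a b c w = 0) (huv : u.1 < v.1) (hvw : v.1 < w.1)
    (hu' : σ * (lv θ u - η) < 0) (hv' : 0 < σ * (lv θ v - η)) (hw' : σ * (lv θ w - η) < 0) :
    False := by
  have hb : b ≠ 0 := by
    intro hb
    have ha : a ≠ 0 := by
      intro ha
      exact hab (by rw [ha, hb])
    unfold hf at hu hv
    rw [hb] at hu hv
    have : a * (u.1 - v.1) = 0 := by linarith
    rcases mul_eq_zero.mp this with h | h
    · exact ha h
    · linarith
  -- the affine combination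
  have h1 : (w.1 - u.1) * lv θ v = (w.1 - v.1) * lv θ u + (v.1 - u.1) * lv θ w := by
    have e : b * ((w.1 - u.1) * lv θ v) =
        b * ((w.1 - v.1) * lv θ u + (v.1 - u.1) * lv θ w) := by
      unfold hf at hu hv hw
      unfold lv
      have eu : b * u.2 = c - a * u.1 := by linarith
      have ev : b * v.2 = c - a * v.1 := by linarith
      have ew : b * w.2 = c - a * w.1 := by linarith
      calc b * ((w.1 - u.1) * (v.2 - θ * v.1))
          = (w.1 - u.1) * (b * v.2 - b * θ * v.1) := by ring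
        _ = (w.1 - u.1) * ((c - a * v.1) - b * θ * v.1) := by rw [ev]
        _ = (w.1 - v.1) * ((c - a * u.1) - b * θ * u.1) +
            (v.1 - u.1) * ((c - a * w.1) - b * θ * w.1) := by ring
        _ = (w.1 - v.1) * (b * u.2 - b * θ * u.1) +
            (v.1 - u.1) * (b * w.2 - b * θ * w.1) := by rw [eu, ew]
        _ = b * ((w.1 - v.1) * (u.2 - θ * u.1) + (v.1 - u.1) * (w.2 - θ * w.1)) := by ring
    exact mul_left_cancel₀ hb e
  have h2 : (w.1 - u.1) * (σ * (lv θ v - η)) =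
      (w.1 - v.1) * (σ * (lv θ u - η)) + (v.1 - u.1) * (σ * (lv θ w - η)) := by
    linear_combination σ * h1
  have h3 : 0 < (w.1 - u.1) * (σ * (lv θ v - η)) := mul_pos (by linarith) hv'
  have h4 : (w.1 - v.1) * (σ * (lv θ u - η)) < 0 := mul_neg_of_pos_of_neg (by linarith) hu'
  have h5 : (v.1 - u.1) * (σ * (lv θ w - η)) < 0 := mul_neg_of_pos_of_neg (by linarith) hw'
  linarith

/-- Three parts, no line crosses all of them. -/
theorem three_parts (X : Finset (ℝ × ℝ)) (m : ℕ)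
    (hx : ∀ u ∈ X, ∀ v ∈ X, u ≠ v → u.1 ≠ v.1)
    (hg : ∀ u ∈ X, ∀ v ∈ X, ∀ w ∈ X, u ≠ v → v ≠ w → u ≠ w → mf u v w ≠ 0)
    (hm : 6 * m + 3 ≤ X.card) :
    ∃ Y : Fin 3 → Finset (ℝ × ℝ), (∀ i, Y i ⊆ X) ∧ (∀ i, m ≤ (Y i).card) ∧
      (∀ i j, i ≠ j → Disjoint (Y i) (Y j)) ∧
      ∀ a b c : ℝ, (a, b) ≠ (0, 0) → ∃ i, ¬ Crs a b c (Y i) := by
  classical
  obtain ⟨A, hA, hAc, hAx⟩ := exists_left X hx (2 * m + 1) (by omega)
  obtain ⟨B, hB, hBc, hBx⟩ := exists_left (X \ A)
    (fun u hu v hv => hx u (mem_sdiff.mp hu).1 v (mem_sdiff.mp hv).1) (2 * m + 1) (by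
      rw [card_sdiff_of_subset hA]; omega)
  have hC0 : 2 * m + 1 ≤ ((X \ A) \ B).card := by
    rw [card_sdiff_of_subset hB, card_sdiff_of_subset hA]; omega
  obtain ⟨C, hC, hCc⟩ := exists_subset_card_eq hC0
  have hBX : B ⊆ X := hB.trans sdiff_subset
  have hCX : C ⊆ X := hC.trans (sdiff_subset.trans sdiff_subset)
  have hAB : ∀ u ∈ A, ∀ v ∈ B, u.1 < v.1 := fun u hu v hv => hAx u hu v (hB hv)
  have hBC : ∀ u ∈ B, ∀ v ∈ C, u.1 < v.1 := fun u hu v hv => hBx u hu v (hC hv)
  have hAC : ∀ u ∈ A, ∀ v ∈ C, u.1 < v.1 := fun u hu v hv => hAx u hu v (sdiff_subset (hC hv))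
  obtain ⟨θ, η, ⟨zA, hzA, hzA'⟩, ⟨zC, hzC, hzC'⟩, h1, h2, h3, h4⟩ :=
    exists_halving A C m hAc hCc hAC
  -- no other point on the line
  have honly : ∀ z ∈ X, lv θ z = η → z = zA ∨ z = zC := by
    intro z hz hz'
    by_contra hcon
    rw [not_or] at hcon
    have hne : zA ≠ zC := by
      intro h
      have := hAC zA hzA zC hzC
      rw [h] at this
      exact lt_irrefl _ this
    apply hg zA (hA hzA) zC (hCX hzC) z hz hne (Ne.symm hcon.2) (Ne.symm hcon.1)
    unfold lv at hz' hzA' hzC'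
    unfold mf
    have e1 : zC.2 - zA.2 = θ * (zC.1 - zA.1) := by linarith
    have e2 : z.2 - zA.2 = θ * (z.1 - zA.1) := by linarith
    rw [e1, e2]
    ring
  have hcard : ∀ Z : Finset (ℝ × ℝ), ∀ z₀, (∀ z ∈ Z, lv θ z = η → z = z₀) →
      (m + 1 ≤ (Z.filter (fun z => lv θ z ≤ η)).card → m ≤ (Z.filter (fun z => lv θ z < η)).card) ∧
      (m + 1 ≤ (Z.filter (fun z => η ≤ lv θ z)).card → m ≤ (Z.filter (fun z => η < lv θ z)).card) := by
    intro Z z₀ hZ
    constructor
    · intro h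
      have hsub : Z.filter (fun z => lv θ z ≤ η) ⊆ insert z₀ (Z.filter (fun z => lv θ z < η)) := by
        intro z hz
        rw [mem_filter] at hz
        rw [mem_insert, mem_filter]
        rcases lt_or_eq_of_le hz.2 with h5 | h5
        · exact Or.inr ⟨hz.1, h5⟩
        · exact Or.inl (hZ z hz.1 h5)
      have := (card_le_card hsub).trans (card_insert_le _ _)
      omega
    · intro h
      have hsub : Z.filter (fun z => η ≤ lv θ z) ⊆ insert z₀ (Z.filter (fun z => η < lv θ z)) := by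
        intro z hz
        rw [mem_filter] at hz
        rw [mem_insert, mem_filter]
        rcases lt_or_eq_of_le hz.2 with h5 | h5
        · exact Or.inr ⟨hz.1, h5⟩
        · exact Or.inl (hZ z hz.1 h5.symm)
      have := (card_le_card hsub).trans (card_insert_le _ _)
      omega
  have hAonly : ∀ z ∈ A, lv θ z = η → z = zA := by
    intro z hz hz'
    rcases honly z (hA hz) hz' with h | h
    · exact h
    · exfalso
      have := hAC z hz zC hzC
      rw [h] at this
      exact lt_irrefl _ this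
  have hConly : ∀ z ∈ C, lv θ z = η → z = zC := by
    intro z hz hz'
    rcases honly z (hCX hz) hz' with h | h
    · exfalso
      have := hAC zA hzA z hz
      rw [h] at this
      exact lt_irrefl _ this
    · exact h
  have hBnone : ∀ z ∈ B, lv θ z ≠ η := by
    intro z hz hz'
    rcases honly z (hBX hz) hz' with h | h
    · have := hAB zA hzA z hz
      rw [h] at this
      exact lt_irrefl _ this
    · have := hBC z hz zC hzC
      rw [h] at this
      exact lt_irrefl _ this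
  obtain ⟨a1, a2⟩ := hcard A zA hAonly
  obtain ⟨c1, c2⟩ := hcard C zC hConly
  have hBsplit : m ≤ (B.filter (fun z => η < lv θ z)).card ∨
      m ≤ (B.filter (fun z => lv θ z < η)).card := by
    by_contra hcon
    rw [not_or] at hcon
    have h5 : (B.filter (fun z => η < lv θ z)).card + (B.filter (fun z => ¬ η < lv θ z)).card =
        B.card := card_filter_add_card_filter_not _
    have h6 : B.filter (fun z => ¬ η < lv θ z) ⊆ B.filter (fun z => lv θ z < η) := by
      intro z hz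
      rw [mem_filter] at hz ⊢
      exact ⟨hz.1, lt_of_le_of_ne (not_lt.mp hz.2) (hBnone z hz.1)⟩
    have h7 := card_le_card h6
    omega
  -- bounds in `x`
  have hAne : A.Nonempty := card_pos.mp (by omega)
  have hBne : B.Nonempty := card_pos.mp (by omega)
  have hCne : C.Nonempty := card_pos.mp (by omega)
  obtain ⟨bl, hbl, hbl'⟩ := exists_min_image B (fun z => z.1) hBne
  obtain ⟨br, hbr, hbr'⟩ := exists_max_image B (fun z => z.1) hBne
  obtain ⟨al, hal, hal'⟩ := exists_max_image A (fun z => z.1) hAne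
  obtain ⟨cl, hcl, hcl'⟩ := exists_min_image C (fun z => z.1) hCne
  obtain ⟨x0, hx0⟩ : ∃ x0 : ℝ, ∀ z ∈ A, x0 < z.1 := by
    obtain ⟨w, hw, hw'⟩ := exists_min_image A (fun z => z.1) hAne
    exact ⟨w.1 - 1, fun z hz => by linarith [hw' z hz]⟩
  obtain ⟨x1, hx1⟩ : ∃ x1 : ℝ, ∀ z ∈ C, z.1 < x1 := by
    obtain ⟨w, hw, hw'⟩ := exists_max_image C (fun z => z.1) hCne
    exact ⟨w.1 + 1, fun z hz => by linarith [hw' z hz]⟩
  set xl := (al.1 + bl.1) / 2 with hxl
  set xr := (br.1 + cl.1) / 2 with hxr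
  have hab1 := hAB al hal bl hbl
  have hbc1 := hBC br hbr cl hcl
  have key : ∀ σ : ℝ, (σ = 1 ∨ σ = -1) → ∀ A' ⊆ A, ∀ B' ⊆ B, ∀ C' ⊆ C,
      (∀ z ∈ A', σ * (lv θ z - η) < 0) → (∀ z ∈ B', (-σ) * (lv θ z - η) < 0) →
      (∀ z ∈ C', σ * (lv θ z - η) < 0) → ∀ a b c : ℝ, (a, b) ≠ (0, 0) →
      Crs a b c A' → Crs a b c B' → Crs a b c C' → False := by
    intro σ _ A' hA' B' hB' C' hC' sA sB sC a b c hab kA kB kC
    obtain ⟨u, hu1, hu2, _, hu4⟩ := crossing_point kA sA (l := x0) (r := xl)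
      (fun z hz => hx0 z (hA' hz)) (fun z hz => by
        have := hal' z (hA' hz)
        linarith)
    obtain ⟨v, hv1, hv2, hv3, hv4⟩ := crossing_point kB sB (l := xl) (r := xr)
      (fun z hz => by
        have := hbl' z (hB' hz)
        linarith) (fun z hz => by
        have := hbr' z (hB' hz)
        linarith)
    obtain ⟨w, hw1, hw2, hw3, _⟩ := crossing_point kC sC (l := xr) (r := x1)
      (fun z hz => by
        have := hcl' z (hC' hz)
        linarith) (fun z hz => hx1 z (hC' hz))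
    exact no_line hab hu1 hv1 hw1 (by linarith) (by linarith) hu2 (by linarith) hw2
  have fin : ∀ σ : ℝ, (σ = 1 ∨ σ = -1) → ∀ A' ⊆ A, ∀ B' ⊆ B, ∀ C' ⊆ C,
      (∀ z ∈ A', σ * (lv θ z - η) < 0) → (∀ z ∈ B', (-σ) * (lv θ z - η) < 0) →
      (∀ z ∈ C', σ * (lv θ z - η) < 0) → m ≤ A'.card → m ≤ B'.card → m ≤ C'.card →
      ∃ Y : Fin 3 → Finset (ℝ × ℝ), (∀ i, Y i ⊆ X) ∧ (∀ i, m ≤ (Y i).card) ∧
      (∀ i j, i ≠ j → Disjoint (Y i) (Y j)) ∧
      ∀ a b c : ℝ, (a, b) ≠ (0, 0) → ∃ i, ¬ Crs a b c (Y i) := by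
    intro σ hσ A' hA' B' hB' C' hC' sA sB sC nA nB nC
    have dAB : Disjoint A' B' := by
      rw [disjoint_left]
      intro z hz hz'
      exact lt_irrefl _ (hAB z (hA' hz) z (hB' hz'))
    have dBC : Disjoint B' C' := by
      rw [disjoint_left]
      intro z hz hz'
      exact lt_irrefl _ (hBC z (hB' hz) z (hC' hz'))
    have dAC : Disjoint A' C' := by
      rw [disjoint_left]
      intro z hz hz'
      exact lt_irrefl _ (hAC z (hA' hz) z (hC' hz'))
    refine ⟨![A', B', C'], ?_, ?_, ?_, ?_⟩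
    · intro i
      fin_cases i
      · exact hA'.trans hA
      · exact hB'.trans hBX
      · exact hC'.trans hCX
    · intro i
      fin_cases i
      · exact nA
      · exact nB
      · exact nC
    · intro i j hij
      fin_cases i <;> fin_cases j <;> first
        | exact absurd rfl hij
        | exact dAB
        | exact dBC
        | exact dAC
        | exact dAB.symm
        | exact dBC.symm
        | exact dAC.symm
    · intro a b c hab
      by_contra hcon
      push Not at hcon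
      exact key σ hσ A' hA' B' hB' C' hC' sA sB sC a b c hab (hcon 0) (hcon 1) (hcon 2)
  rcases hBsplit with hB1 | hB1
  · exact fin 1 (Or.inl rfl) (A.filter (fun z => lv θ z < η)) (filter_subset _ _)
      (B.filter (fun z => η < lv θ z)) (filter_subset _ _)
      (C.filter (fun z => lv θ z < η)) (filter_subset _ _)
      (fun z hz => by have := (mem_filter.mp hz).2; linarith)
      (fun z hz => by have := (mem_filter.mp hz).2; linarith)
      (fun z hz => by have := (mem_filter.mp hz).2; linarith) (a1 h1) hB1 (c1 h3)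
  · exact fin (-1) (Or.inr rfl) (A.filter (fun z => η < lv θ z)) (filter_subset _ _)
      (B.filter (fun z => lv θ z < η)) (filter_subset _ _)
      (C.filter (fun z => η < lv θ z)) (filter_subset _ _)
      (fun z hz => by have := (mem_filter.mp hz).2; linarith)
      (fun z hz => by have := (mem_filter.mp hz).2; linarith)
      (fun z hz => by have := (mem_filter.mp hz).2; linarith) (a2 h2) hB1 (c2 h4)

end Pool.Agent.H41.Kc
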