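import Mathlib
import Pool.Agent.H41.Kc.Cut
import Pool.Agent.H41.Kc.Extract

set_option autoImplicit false

/-!
Trees of parts of a finite planar set; a line crosses few children of every node.
-/

namespace Pool.Agent.H41.Kc

open Finset BTr

lemma crs_two {a b c : ℝ} {Y : Fin 3 → Finset (ℝ × ℝ)} (h : ∃ i, ¬ Crs a b c (Y i))
    [DecidablePred fun i => Crs a b c (Y i)] :
    (univ.filter (fun i => Crs a b c (Y i))).card ≤ 2 := by
  obtain ⟨i, hi⟩ := h
  have h1 : univ.filter (fun i => Crs a b c (Y i)) ⊆ univ.erase i := by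
    intro j hj
    rw [mem_filter] at hj
    rw [mem_erase]
    exact ⟨fun h => hi (h ▸ hj.2), mem_univ _⟩
  have h2 := card_le_card h1
  rw [card_erase_of_mem (mem_univ _)] at h2
  simpa using h2

lemma Crs.mono {a b c : ℝ} {Y Z : Finset (ℝ × ℝ)} (h : Y ⊆ Z) (hY : Crs a b c Y) : Crs a b c Z := by
  obtain ⟨⟨u, hu, hu'⟩, v, hv, hv'⟩ := hY
  exact ⟨⟨u, h hu, hu'⟩, v, h hv, hv'⟩

open Classical in
/-- many parts -/
theorem many_parts : ∀ (t : ℕ) (X : Finset (ℝ × ℝ)) (m : ℕ),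
    (∀ u ∈ X, ∀ v ∈ X, u ≠ v → u.1 ≠ v.1) →
    (∀ u ∈ X, ∀ v ∈ X, ∀ w ∈ X, u ≠ v → v ≠ w → u ≠ w → mf u v w ≠ 0) →
    6 ^ t * (m + 1) ≤ X.card + 1 →
    ∃ Y : (Fin t → Fin 3) → Finset (ℝ × ℝ), (∀ i, Y i ⊆ X) ∧ (∀ i, m ≤ (Y i).card) ∧
      (∀ i j, i ≠ j → Disjoint (Y i) (Y j)) ∧
      ∀ a b c : ℝ, (a, b) ≠ (0, 0) →
        (univ.filter (fun i => Crs a b c (Y i))).card ≤ 2 ^ t := by
  intro t
  induction t with
  | zero =>
    intro X m _ _ hm
    have hm' : m ≤ X.card := by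
      rw [pow_zero] at hm
      omega
    refine ⟨fun _ => X, fun _ => Subset.refl _, fun _ => hm', ?_, ?_⟩
    · intro i j hij
      exact absurd (Subsingleton.elim i j) hij
    · intro a b c _
      refine (card_filter_le _ _).trans ?_
      simp
  | succ t ih =>
    intro X m hx hg hm
    have h6 : 1 ≤ 6 ^ t * (m + 1) := Nat.mul_pos (by positivity) (by omega)
    have hpw : 6 ^ (t + 1) * (m + 1) = 6 * (6 ^ t * (m + 1)) := by ring
    obtain ⟨Z, hZ1, hZ2, hZ3, hZ4⟩ := three_parts X (6 ^ t * (m + 1) - 1) hx hg (by omega)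
    have hex : ∀ β : Fin 3, ∃ Y : (Fin t → Fin 3) → Finset (ℝ × ℝ), (∀ i, Y i ⊆ Z β) ∧
        (∀ i, m ≤ (Y i).card) ∧ (∀ i j, i ≠ j → Disjoint (Y i) (Y j)) ∧
        ∀ a b c : ℝ, (a, b) ≠ (0, 0) →
          (univ.filter (fun i => Crs a b c (Y i))).card ≤ 2 ^ t := by
      intro β
      refine ih (Z β) m (fun u hu v hv => hx u (hZ1 β hu) v (hZ1 β hv))
        (fun u hu v hv w hw => hg u (hZ1 β hu) v (hZ1 β hv) w (hZ1 β hw)) ?_
      have := hZ2 β
      omega
    choose Y hY1 hY2 hY3 hY4 using hex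
    refine ⟨fun i => Y (i 0) (Fin.tail i), fun i => (hY1 _ _).trans (hZ1 _), fun i => hY2 _ _,
      ?_, ?_⟩
    · intro i j hij
      by_cases h0 : i 0 = j 0
      · have h1 : Fin.tail i ≠ Fin.tail j := by
          intro h
          apply hij
          rw [← Fin.cons_self_tail i, ← Fin.cons_self_tail j, h0, h]
        show Disjoint (Y (i 0) (Fin.tail i)) (Y (j 0) (Fin.tail j))
        rw [h0]
        exact hY3 _ _ _ h1
      · exact (hZ3 _ _ h0).mono (hY1 _ _) (hY1 _ _)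
    · intro a b c hab
      have h1 : univ.filter (fun i : Fin (t + 1) → Fin 3 => Crs a b c (Y (i 0) (Fin.tail i))) ⊆
          (univ.filter (fun β => Crs a b c (Z β))).biUnion (fun β =>
            (univ.filter (fun j => Crs a b c (Y β j))).image (fun j => Fin.cons β j)) := by
        intro i hi
        rw [mem_filter] at hi
        rw [mem_biUnion]
        refine ⟨i 0, mem_filter.mpr ⟨mem_univ _, hi.2.mono (hY1 _ _)⟩, ?_⟩
        rw [mem_image]
        exact ⟨Fin.tail i, mem_filter.mpr ⟨mem_univ _, hi.2⟩, Fin.cons_self_tail i⟩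
      refine (card_le_card h1).trans (card_biUnion_le.trans ?_)
      have h2 := crs_two (hZ4 a b c hab)
      calc ∑ β ∈ univ.filter (fun β => Crs a b c (Z β)),
            ((univ.filter (fun j => Crs a b c (Y β j))).image
              (fun j => (Fin.cons β j : Fin (t + 1) → Fin 3))).card
          ≤ ∑ β ∈ univ.filter (fun β => Crs a b c (Z β)), 2 ^ t :=
            sum_le_sum (fun β _ => card_image_le.trans (hY4 β a b c hab))
        _ = (univ.filter (fun β => Crs a b c (Z β))).card * 2 ^ t := by simp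
        _ ≤ 2 * 2 ^ t := Nat.mul_le_mul_right _ h2
        _ = 2 ^ (t + 1) := by ring

/-- a block is crossed -/
def BCrs {R S : ℕ} (P : (Fin S → Fin R) → ℝ × ℝ) (a b c : ℝ) (x : Fin S → Fin R) (s : Fin S)
    (β : Fin R) : Prop :=
  (∃ d ∈ cyl x s β, 0 < hf a b c (P d)) ∧ ∃ d ∈ cyl x s β, ¬ 0 < hf a b c (P d)

open Classical in
/-- a tree of parts -/
theorem tree_parts (t : ℕ) : ∀ (S : ℕ) (X : Finset (ℝ × ℝ)),
    (∀ u ∈ X, ∀ v ∈ X, u ≠ v → u.1 ≠ v.1) →
    (∀ u ∈ X, ∀ v ∈ X, ∀ w ∈ X, u ≠ v → v ≠ w → u ≠ w → mf u v w ≠ 0) →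
    (6 ^ t) ^ S * 2 ≤ X.card + 1 →
    ∃ P : (Fin S → Fin (3 ^ t)) → ℝ × ℝ, (∀ c, P c ∈ X) ∧ Function.Injective P ∧
      ∀ a b c : ℝ, (a, b) ≠ (0, 0) → ∀ x s,
        (univ.filter (fun β => BCrs P a b c x s β)).card ≤ 2 ^ t := by
  intro S
  induction S with
  | zero =>
    intro X _ _ hX
    have hne : X.Nonempty := card_pos.mp (by
      rw [pow_zero] at hX
      omega)
    obtain ⟨z, hz⟩ := hne
    refine ⟨fun _ => z, fun _ => hz, ?_, ?_⟩
    · intro c d _
      exact Subsingleton.elim _ _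
    · intro a b c _ x s
      exact s.elim0
  | succ S ih =>
    intro X hx hg hX
    have h6 : 1 ≤ (6 ^ t) ^ S := Nat.one_le_pow _ _ (by positivity)
    have hpw : (6 ^ t) ^ (S + 1) * 2 = 6 ^ t * ((6 ^ t) ^ S * 2) := by ring
    obtain ⟨Z, hZ1, hZ2, hZ3, hZ4⟩ := many_parts t X ((6 ^ t) ^ S * 2 - 1) hx hg (by
      have : (6 ^ t) ^ S * 2 - 1 + 1 = (6 ^ t) ^ S * 2 := by omega
      rw [this, ← hpw]
      exact hX)
    set e := finFunctionFinEquiv (m := 3) (n := t) with he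
    have hex : ∀ β : Fin (3 ^ t), ∃ P : (Fin S → Fin (3 ^ t)) → ℝ × ℝ,
        (∀ c, P c ∈ Z (e.symm β)) ∧ Function.Injective P ∧
        ∀ a b c : ℝ, (a, b) ≠ (0, 0) → ∀ x s,
          (univ.filter (fun β => BCrs P a b c x s β)).card ≤ 2 ^ t := by
      intro β
      refine ih (Z (e.symm β)) (fun u hu v hv => hx u (hZ1 _ hu) v (hZ1 _ hv))
        (fun u hu v hv w hw => hg u (hZ1 _ hu) v (hZ1 _ hv) w (hZ1 _ hw)) ?_
      have := hZ2 (e.symm β)
      omega
    choose P hP1 hP2 hP3 using hex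
    refine ⟨fun c => P (c 0) (Fin.tail c), fun c => hZ1 _ (hP1 _ _), ?_, ?_⟩
    · intro c d hcd
      have hcd' : P (c 0) (Fin.tail c) = P (d 0) (Fin.tail d) := hcd
      by_cases h0 : c 0 = d 0
      · rw [h0] at hcd'
        have h1 := hP2 _ hcd'
        rw [← Fin.cons_self_tail c, ← Fin.cons_self_tail d, h0, h1]
      · exfalso
        have h1 : e.symm (c 0) ≠ e.symm (d 0) := fun h => h0 (e.symm.injective h)
        have h2 := hZ3 _ _ h1
        rw [disjoint_left] at h2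
        apply h2 (hP1 (c 0) (Fin.tail c))
        rw [hcd']
        exact hP1 _ _
    · intro a b c hab x s
      refine Fin.cases ?_ (fun s => ?_) s
      · have h1 : (univ.filter (fun β => BCrs (fun c => P (c 0) (Fin.tail c)) a b c x 0 β)) ⊆
            (univ.filter (fun i => Crs a b c (Z i))).image e := by
          intro β hβ
          rw [mem_filter] at hβ
          obtain ⟨⟨d, hd, hd'⟩, d', hd2, hd2'⟩ := hβ.2
          rw [mem_image]
          refine ⟨e.symm β, mem_filter.mpr ⟨mem_univ _, ?_⟩, by simp⟩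
          have h2 : d 0 = β := hd.2
          have h3 : d' 0 = β := hd2.2
          refine ⟨⟨P (d 0) (Fin.tail d), ?_, hd'⟩, P (d' 0) (Fin.tail d'), ?_, hd2'⟩
          · rw [← h2]; exact hP1 _ _
          · rw [← h3]; exact hP1 _ _
        refine (card_le_card h1).trans (card_image_le.trans ?_)
        exact hZ4 a b c hab
      · have h1 : (univ.filter (fun β =>
            BCrs (fun c => P (c 0) (Fin.tail c)) a b c x s.succ β)) ⊆
            univ.filter (fun β => BCrs (P (x 0)) a b c (Fin.tail x) s β) := by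
          intro β hβ
          rw [mem_filter] at hβ ⊢
          refine ⟨mem_univ _, ?_⟩
          have key : ∀ d ∈ cyl x s.succ β, d 0 = x 0 ∧ Fin.tail d ∈ cyl (Fin.tail x) s β := by
            intro d hd
            refine ⟨hd.1 0 (Fin.succ_pos s), ?_, hd.2⟩
            intro i hi
            exact hd.1 i.succ (Fin.succ_lt_succ_iff.mpr hi)
          obtain ⟨⟨d, hd, hd'⟩, d', hd2, hd2'⟩ := hβ.2
          obtain ⟨k1, k2⟩ := key d hd
          obtain ⟨k3, k4⟩ := key d' hd2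
          refine ⟨⟨Fin.tail d, k2, ?_⟩, Fin.tail d', k4, ?_⟩
          · rw [← k1]; exact hd'
          · rw [← k3]; exact hd2'
        exact (card_le_card h1).trans (hP3 (x 0) a b c hab (Fin.tail x) s)

section

variable {R S : ℕ} {p : ℕ → ℝ × ℝ} {K : ℕ}

lemma wr_le2 (hx : ∀ c d : Fin S → Fin R, c ≠ d → (p (idx R S c)).1 ≠ (p (idx R S d)).1)
    (hK : ∀ a b c : ℝ, (a, b) ≠ (0, 0) → ∀ (x : Fin S → Fin R) (s : Fin S) (T : Finset (Fin R)),
      (∀ β ∈ T, BCrs (fun d => p (idx R S d)) a b c x s β) → T.card ≤ K)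
    (x : Fin S → Fin R) (s : Fin S) : (Wr p x s).card ≤ K := by
  classical
  refine hK 1 0 (p (idx R S x)).1 (by simp) x s _ ?_
  intro β hβ
  unfold Wr at hβ
  rw [mem_filter] at hβ
  obtain ⟨_, h1, h2⟩ := hβ
  unfold NW at h2
  push Not at h2
  obtain ⟨⟨_, ⟨c, hc, rfl⟩, h3⟩, _, ⟨d, hd, rfl⟩, h4⟩ := h2
  have h5 := hx d x (cyl_ne h1 hd)
  refine ⟨⟨d, hd, ?_⟩, c, hc, ?_⟩
  · have := lt_of_le_of_ne h4 (Ne.symm h5)
    unfold hf
    linarith
  · unfold hf
    linarith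

lemma co_le2 (hx : ∀ c d : Fin S → Fin R, c ≠ d → (p (idx R S c)).1 ≠ (p (idx R S d)).1)
    (hK : ∀ a b c : ℝ, (a, b) ≠ (0, 0) → ∀ (x : Fin S → Fin R) (s : Fin S) (T : Finset (Fin R)),
      (∀ β ∈ T, BCrs (fun d => p (idx R S d)) a b c x s β) → T.card ≤ K)
    (x : Fin S → Fin R) (s' : Fin S) (β' : Fin R) (s : Fin S) : (Co p x s' β' s).card ≤ K := by
  classical
  set μ := msl p x s' β' with hμ
  set q := p (idx R S x) with hq
  refine hK (-μ) 1 (-μ * q.1 + q.2) (by simp) x s _ ?_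
  intro β hβ
  unfold Co at hβ
  rw [mem_filter] at hβ
  obtain ⟨_, h1, hnw, ⟨c, hc, hc'⟩, d, hd, hd'⟩ := hβ
  have hcx := hx c x (cyl_ne h1 hc)
  have hdx := hx d x (cyl_ne h1 hd)
  rw [← hq] at hcx hdx
  have hval : ∀ e : Fin S → Fin R, (p (idx R S e)).1 - q.1 ≠ 0 →
      hf (-μ) 1 (-μ * q.1 + q.2) (p (idx R S e)) =
      (sl q (p (idx R S e)) - μ) * ((p (idx R S e)).1 - q.1) := by
    intro e he
    have h2 := sl_mul (a := q) (b := p (idx R S e)) he
    rw [sub_mul, h2, hf]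
    ring
  have hc1 := hval c (sub_ne_zero.mpr hcx)
  have hd1 := hval d (sub_ne_zero.mpr hdx)
  rw [← hq, ← hμ] at hc' hd'
  rcases hnw with h | h
  · have e1 := h _ ⟨c, hc, rfl⟩
    have e2 := h _ ⟨d, hd, rfl⟩
    rw [← hq] at e1 e2
    refine ⟨⟨d, hd, ?_⟩, c, hc, ?_⟩
    · show 0 < hf (-μ) 1 (-μ * q.1 + q.2) (p (idx R S d))
      rw [hd1]
      exact mul_pos (by linarith) (by linarith)
    · show ¬ 0 < hf (-μ) 1 (-μ * q.1 + q.2) (p (idx R S c))
      rw [hc1, not_lt]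
      exact mul_nonpos_of_nonpos_of_nonneg (by linarith) (by linarith)
  · have e1 := h _ ⟨c, hc, rfl⟩
    have e2 := h _ ⟨d, hd, rfl⟩
    rw [← hq] at e1 e2
    refine ⟨⟨c, hc, ?_⟩, d, hd, ?_⟩
    · show 0 < hf (-μ) 1 (-μ * q.1 + q.2) (p (idx R S c))
      rw [hc1]
      exact mul_pos_of_neg_of_neg (by linarith) (by linarith)
    · show ¬ 0 < hf (-μ) 1 (-μ * q.1 + q.2) (p (idx R S d))
      rw [hd1, not_lt]
      exact mul_nonpos_of_nonneg_of_nonpos (by linarith) (by linarith)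

end

/-- Extraction of a labelled tree from a tree of parts. -/
theorem extract2 {R K m : ℕ} (hR : 2 * ((2 * m + 1 + 1) * ((2 * m + 1) * K + 1)) ≤ R)
    {p : ℕ → ℝ × ℝ}
    (hx' : ∀ c d : Fin (2 * m + 1) → Fin R, c ≠ d →
      (p (idx R (2 * m + 1) c)).1 ≠ (p (idx R (2 * m + 1) d)).1)
    (hmf : ∀ c d e : Fin (2 * m + 1) → Fin R, c ≠ d → d ≠ e → c ≠ e →
      mf (p (idx R (2 * m + 1) c)) (p (idx R (2 * m + 1) d)) (p (idx R (2 * m + 1) e)) ≠ 0)
    (hK : ∀ a b c : ℝ, (a, b) ≠ (0, 0) → ∀ (x : Fin (2 * m + 1) → Fin R) (s : Fin (2 * m + 1))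
      (T : Finset (Fin R)),
      (∀ β ∈ T, BCrs (fun d => p (idx R (2 * m + 1) d)) a b c x s β) → T.card ≤ K) :
    ∃ w : BTr ℕ (m + 1), Geo p w ∧ ∀ a ∈ w.lf, ∃ c, idx R (2 * m + 1) c = a := by
  classical
  set S := 2 * m + 1 with hS
  have hR0 : 0 < R := lt_of_lt_of_le (by positivity) hR
  have hgp' : ∀ c d e : Fin S → Fin R, c ≠ d → d ≠ e → c ≠ e →
      sl (p (idx R S c)) (p (idx R S d)) ≠ sl (p (idx R S c)) (p (idx R S e)) := by
    intro c d e hcd hde hce hsl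
    apply hmf c d e hcd hde hce
    have h2 := hx' c d hcd
    have h3 := hx' c e hce
    rw [mf_sl (sub_ne_zero.mpr h2.symm) (sub_ne_zero.mpr h3.symm), hsl]
    ring
  obtain ⟨x, y, hxy⟩ := exists_pair hR0
    (fun x y : Fin S → Fin R => ¬ IsBad x (Wr p x) (Co p x) y) (by
      intro x
      have h1 := bad_le hR x (Wr p x) (Co p x) (by
        refine (sum_le_sum (fun s _ => wr_le2 hx' hK x s)).trans ?_
        simp) (by
        intro s' β'
        refine (sum_le_sum (fun s _ => co_le2 hx' hK x s' β' s)).trans ?_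
        simp)
      have h2 := card_compl' (fun y => IsBad x (Wr p x) (Co p x) y)
        (fun y => ¬ IsBad x (Wr p x) (Co p x) y) (fun _ => Iff.rfl)
      rw [Fintype.card_fun, Fintype.card_fin, Fintype.card_fin] at h2
      have h3 : ∀ N₁ N₂ T : ℕ, N₁ + N₂ = T → 2 * N₁ < T → T < 2 * N₂ := by omega
      exact h3 _ _ _ (by convert h2) (by convert h1))
  set A := univ.filter (fun b : Fin S → Bool =>
    ¬ IsBad (mix b x y) (Wr p (mix b x y)) (Co p (mix b x y)) (mix b y x)) with hA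
  have hxy' : 2 ^ S < 2 * A.card := by convert hxy
  have hcard : gr S (m + 1) < A.card := by
    have h0 : gr S (m + 1) = 4 ^ m := by rw [hS, gr_half]
    rw [h0]
    have h1 : 2 ^ S = 2 * 4 ^ m := by
      rw [hS, pow_succ, pow_mul]
      norm_num
      ring
    omega
  obtain ⟨T, hT1, hT2⟩ := rank_tree (φ := p) S (m + 1) (fun b => idx R S (mix b x y)) [] A (by
    intro b hb
    rw [hA, mem_filter] at hb
    have hb' := hb.2
    refine ⟨⟨by simp, by simp⟩, ?_, by simp, ?_⟩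
    · intro s
      exact (good_nw hb' s).2.mono (sib_sub b s)
    · intro s s' hss
      exact (good_sep hgp' hb' hss).mono (sib_sub b s) (sib_sub b s')) hcard
  obtain ⟨w, hw1, hw2⟩ := build_top (hT2 [] Emb.nil)
  refine ⟨w, hw2, ?_⟩
  intro a ha
  obtain ⟨b, rfl⟩ := hT1 a ((hw1 a).mp ha)
  exact ⟨_, rfl⟩

end Pool.Agent.H41.Kc
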