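import Mathlib
import Pool.Agent.H41.Kc.Part
import Pool.Agent.H41.Kc.Lower

set_option autoImplicit false

/-!
Every set of points in general position contains a large `3`-convex subset: finite version.
-/

namespace Pool.Agent.H41.Kc

open BTr

/-- Finite form of the lower bound for arbitrary point sets. -/
theorem lower_finite2 {D t : ℕ} (hD : 1 ≤ D)
    (ht : 2 * ((2 * (13 * D ^ 2) + 1 + 1) * ((2 * (13 * D ^ 2) + 1) * 2 ^ t + 1)) ≤ 3 ^ t)
    {P : Set (ℝ × ℝ)} (hP : GeneralPosition P) (hfin : P.Finite)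
    (hn : (6 ^ t) ^ (2 * (13 * D ^ 2) + 1) * 2 ≤ P.ncard + 1) :
    ∃ Q : Set (ℝ × ℝ), Q ⊆ P ∧ KConvexSet 3 Q ∧ 2 ^ D < Q.ncard := by
  classical
  obtain ⟨ε, hε⟩ := exists_shear hfin
  have hdet : (1 : ℝ) * 1 - ε * 0 ≠ 0 := by norm_num
  have hdet' : (1 : ℝ) * 1 - (-ε) * 0 ≠ 0 := by norm_num
  set F : ℝ × ℝ → ℝ × ℝ := af 1 ε 0 0 1 0 with hF
  set F' : ℝ × ℝ → ℝ × ℝ := af 1 (-ε) 0 0 1 0 with hF'
  have hFv : ∀ z, F z = (z.1 + ε * z.2, z.2) := by
    intro z
    simp only [hF, af]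
    apply Prod.ext <;> simp
  have hFF : ∀ z, F' (F z) = z := by
    intro z
    rw [hFv]
    simp only [hF', af]
    apply Prod.ext <;> simp
  have hPF : GeneralPosition (F '' P) := gp_image (c := 0) (f := 0) hdet hP
  have hFfin : (F '' P).Finite := hfin.image _
  have hcard : (F '' P).ncard = P.ncard :=
    Set.ncard_image_of_injective _ (af_injective (c := 0) (f := 0) hdet)
  set X := hFfin.toFinset with hX
  have hXmem : ∀ z, z ∈ X ↔ z ∈ F '' P := by
    intro z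
    rw [hX, Set.Finite.mem_toFinset]
  have hXcard : X.card = P.ncard := by
    rw [← hcard, Set.ncard_eq_toFinset_card _ hFfin]
  have hx1 : ∀ u ∈ X, ∀ v ∈ X, u ≠ v → u.1 ≠ v.1 := by
    intro u hu v hv huv
    obtain ⟨u', hu', rfl⟩ := (hXmem u).mp hu
    obtain ⟨v', hv', rfl⟩ := (hXmem v).mp hv
    have hne : u' ≠ v' := fun h => huv (by rw [h])
    have := hε u' hu' v' hv' hne
    rw [hFv, hFv]
    exact this
  have hx2 : ∀ u ∈ X, ∀ v ∈ X, ∀ w ∈ X, u ≠ v → v ≠ w → u ≠ w → mf u v w ≠ 0 := by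
    intro u hu v hv w hw h1 h2 h3
    exact mf_of_gp hPF ((hXmem u).mp hu) ((hXmem v).mp hv) ((hXmem w).mp hw) h1 h2 h3
  set m := 13 * D ^ 2 with hm
  obtain ⟨p0, hp1, hp2, hp3⟩ := tree_parts t (2 * m + 1) X hx1 hx2 (by rw [hXcard]; exact hn)
  set p : ℕ → ℝ × ℝ := Function.extend (idx (3 ^ t) (2 * m + 1)) p0 (fun _ => (0, 0)) with hp
  have hpi : ∀ c, p (idx (3 ^ t) (2 * m + 1) c) = p0 c := by
    intro c
    rw [hp]
    exact (idx_injective (3 ^ t) (2 * m + 1)).extend_apply _ _ _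
  obtain ⟨w, hw1, hw2⟩ := extract2 (R := 3 ^ t) (K := 2 ^ t) (m := m) (p := p) ht (by
      intro c d hcd
      rw [hpi, hpi]
      exact hx1 _ (hp1 c) _ (hp1 d) (fun h => hcd (hp2 h))) (by
      intro c d e hcd hde hce
      rw [hpi, hpi, hpi]
      exact hx2 _ (hp1 c) _ (hp1 d) _ (hp1 e) (fun h => hcd (hp2 h)) (fun h => hde (hp2 h))
        (fun h => hce (hp2 h))) (by
      intro a b c hab x s T hT
      refine le_trans (Finset.card_le_card ?_) (hp3 a b c hab x s)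
      intro β hβ
      rw [Finset.mem_filter]
      refine ⟨Finset.mem_univ _, ?_⟩
      have := hT β hβ
      have he : (fun d => p (idx (3 ^ t) (2 * m + 1) d)) = p0 := funext hpi
      rw [he] at this
      exact this)
  obtain ⟨Q, hQ1, hQ2, hQ3⟩ := tree_convex hD (n := m + 1) (by rw [hm]; omega) hw1 hPF (by
    intro a ha
    obtain ⟨c, rfl⟩ := hw2 a ha
    rw [hpi]
    exact (hXmem _).mp (hp1 c))
  refine ⟨F' '' Q, ?_, kconvex_image (c := 0) (f := 0) hdet' hQ2, ?_⟩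
  · rintro _ ⟨z, hz, rfl⟩
    obtain ⟨y, hy, hyz⟩ := hQ1 hz
    rw [← hyz, hFF]
    exact hy
  · rw [Set.ncard_image_of_injective _ (af_injective (c := 0) (f := 0) hdet')]
    exact hQ3

end Pool.Agent.H41.Kc
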