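import Mathlib
import Pool.Agent.H41.Kc.Lower2

set_option autoImplicit false

/-!
Every set of `n` points in general position contains a `3`-convex subset with
`exp (Ω (sqrt (log n / log log n)))` points.
-/

namespace Pool.Agent.H41.Kc

lemma kconvex_mono' {k k' : ℕ} (h : k ≤ k') {P : Set (ℝ × ℝ)} (hP : KConvexSet k P) :
    KConvexSet k' P := by
  obtain ⟨hg, n, v, S, hv, hr, hS, hk⟩ := hP
  refine ⟨hg, n, v, S, hv, hr, hS, fun l hl => (hk l hl).trans ?_⟩
  exact_mod_cast h

lemma log_le_two_sqrt' {t : ℝ} (ht : 0 < t) : Real.log t ≤ 2 * Real.sqrt t := by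
  have h1 : Real.log (Real.sqrt t) ≤ Real.sqrt t - 1 :=
    Real.log_le_sub_one_of_pos (Real.sqrt_pos.mpr ht)
  have h2 : Real.log (Real.sqrt t) = Real.log t / 2 := Real.log_sqrt ht.le
  linarith

lemma log_six_le : Real.log 6 ≤ 1.8 := by
  rw [Real.log_le_iff_le_exp (by norm_num)]
  have h1 : (2.7182818283 : ℝ) < Real.exp 1 := Real.exp_one_gt_d9
  have h2 : Real.exp 1.8 = Real.exp 1 * Real.exp 0.8 := by
    rw [← Real.exp_add]; norm_num
  have h3 : (2.21 : ℝ) ≤ Real.exp 0.8 := by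
    have h5 := Real.sum_le_exp_of_nonneg (x := 0.8) (by norm_num) 5
    simp [Finset.sum_range_succ, Nat.factorial] at h5
    refine le_trans ?_ h5
    norm_num
  rw [h2]
  nlinarith

/-- Every large set of points in general position contains a large `3`-convex subset. -/
theorem every_lower : ∃ n₀ : ℕ, ∀ n ≥ n₀, ∀ P : Set (ℝ × ℝ), P.ncard = n → GeneralPosition P →
    ∃ Q ⊆ P, (∀ j ≥ 3, KConvexSet j Q) ∧
      Real.exp (Real.sqrt (Real.log n / Real.log (Real.log n)) / 30) ≤ (Q.ncard : ℝ) := by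
  set T : ℝ := 10 ^ 20 with hT
  refine ⟨⌈Real.exp T⌉₊, fun n hn P hPn hP => ?_⟩
  have hTpos : 0 < T := by positivity
  have hnT : Real.exp T ≤ n := (Nat.le_ceil _).trans (by exact_mod_cast hn)
  have hn0 : (0 : ℝ) < n := lt_of_lt_of_le (Real.exp_pos _) hnT
  have hfin : P.Finite := by
    apply Set.finite_of_ncard_pos
    rw [hPn]
    exact_mod_cast hn0
  set τ := Real.log n with hτ
  have hτT : T ≤ τ := by
    rw [hτ, ← Real.log_exp T]
    exact Real.log_le_log (Real.exp_pos _) hnT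
  have ht1 : (10 : ℝ) ^ 20 ≤ τ := hτT
  have ht0 : 0 < τ := by linarith
  -- the double logarithm
  have hsq : Real.sqrt τ * Real.sqrt τ = τ := Real.mul_self_sqrt ht0.le
  have hst : (10 : ℝ) ^ 10 ≤ Real.sqrt τ := by
    rw [show (10 : ℝ) ^ 10 = Real.sqrt (10 ^ 10 * 10 ^ 10) from
      (Real.sqrt_mul_self (by norm_num)).symm]
    exact Real.sqrt_le_sqrt (by norm_num; linarith)
  set l := Real.log τ with hl
  have hl1 : l ≤ 2 * Real.sqrt τ := log_le_two_sqrt' ht0
  have hl3 : 3 ≤ l := by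
    rw [hl, Real.le_log_iff_exp_le ht0]
    have h1 : Real.exp 1 < 2.7182818286 := Real.exp_one_lt_d9
    have h2 : Real.exp 3 = Real.exp 1 ^ 3 := by rw [← Real.exp_nat_mul]; norm_num
    have h3 : Real.exp 1 ^ 3 ≤ 3 ^ 3 := by
      apply pow_le_pow_left₀ (Real.exp_pos _).le
      linarith
    rw [h2]
    refine h3.trans ?_
    linarith
  have hl0 : 0 < l := by linarith
  set X := τ / l with hX
  have hXl : X * l = τ := by rw [hX, div_mul_cancel₀ _ hl0.ne']
  have hX0 : 0 < X := by positivity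
  have hXbig : (40000 : ℝ) ≤ X := by
    rw [hX, le_div_iff₀ hl0]
    nlinarith
  have hsX : 200 ≤ Real.sqrt X := by
    rw [show (200 : ℝ) = Real.sqrt (200 * 200) from (Real.sqrt_mul_self (by norm_num)).symm]
    exact Real.sqrt_le_sqrt (by norm_num; exact hXbig)
  have hsqX : Real.sqrt X * Real.sqrt X = X := Real.mul_self_sqrt hX0.le
  set D := ⌊Real.sqrt X / 18⌋₊ with hD
  have hD1 : (D : ℝ) ≤ Real.sqrt X / 18 := Nat.floor_le (by positivity)
  have hD2 : Real.sqrt X / 18 < D + 1 := Nat.lt_floor_add_one _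
  have hD3 : Real.sqrt X / 20 ≤ D := by linarith
  have hD4 : (1 : ℝ) ≤ D := by linarith
  have hD5 : 1 ≤ D := by exact_mod_cast hD4
  have hDX : (D : ℝ) ^ 2 ≤ X / 324 := by
    have : (D : ℝ) * D ≤ (Real.sqrt X / 18) * (Real.sqrt X / 18) :=
      mul_le_mul hD1 hD1 (by linarith) (by positivity)
    nlinarith
  set t := ⌊6 * l⌋₊ with ht
  have ht2 : (t : ℝ) ≤ 6 * l := Nat.floor_le (by positivity)
  have ht3 : 6 * l < t + 1 := Nat.lt_floor_add_one _
  set S : ℕ := 2 * (13 * D ^ 2) + 1 with hS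
  have hSr : (S : ℝ) = 26 * (D : ℝ) ^ 2 + 1 := by
    rw [hS]; push_cast; ring
  have hS1 : (S : ℝ) ≤ X / 12 := by
    rw [hSr]; linarith
  have hS2 : (S : ℝ) + 1 ≤ τ := by
    have : X ≤ τ := by
      rw [← hXl]
      nlinarith
    linarith
  -- the extraction inequality
  have hcond : 2 * ((S + 1) * (S * 2 ^ t + 1)) ≤ 3 ^ t := by
    have h15 : (0.405 : ℝ) ≤ Real.log 1.5 := by
      rw [Real.le_log_iff_exp_le (by norm_num)]
      have h5 := Real.exp_bound' (x := 0.405) (by norm_num) (by norm_num) (n := 6) (by norm_num)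
      refine h5.trans ?_
      norm_num [Finset.sum_range_succ, Nat.factorial]
    have h2 : Real.log 2 < 0.6931471808 := Real.log_two_lt_d9
    have hp : (0 : ℝ) < 2 * (τ * τ) := by positivity
    have h3 : 2 * (τ * τ) ≤ (1.5 : ℝ) ^ t := by
      rw [← Real.log_le_log_iff hp (by positivity), Real.log_pow,
        Real.log_mul (by norm_num) (by positivity), Real.log_mul ht0.ne' ht0.ne', ← hl]
      have h4 : (6 * l - 1) * 0.405 ≤ t * Real.log 1.5 :=
        mul_le_mul (by linarith) h15 (by norm_num) (by positivity)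
      linarith
    have h5 : (2 : ℝ) ^ t * 1.5 ^ t = 3 ^ t := by
      rw [← mul_pow]; norm_num
    have h6 : (1 : ℝ) ≤ 2 ^ t := one_le_pow₀ (by norm_num)
    have h7 : (0 : ℝ) ≤ S := Nat.cast_nonneg S
    have h8 : (2 * ((S + 1) * (S * 2 ^ t + 1)) : ℝ) ≤ 3 ^ t := by
      calc (2 * ((S + 1) * (S * 2 ^ t + 1)) : ℝ)
          ≤ 2 * ((S + 1) * (S * 2 ^ t + 2 ^ t)) := by
            apply mul_le_mul_of_nonneg_left _ (by norm_num)
            apply mul_le_mul_of_nonneg_left _ (by positivity)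
            linarith
        _ = 2 ^ t * (2 * ((S + 1) * (S + 1))) := by ring
        _ ≤ 2 ^ t * (2 * (τ * τ)) := by
            apply mul_le_mul_of_nonneg_left _ (by positivity)
            apply mul_le_mul_of_nonneg_left _ (by norm_num)
            exact mul_le_mul hS2 hS2 (by positivity) ht0.le
        _ ≤ 2 ^ t * 1.5 ^ t := mul_le_mul_of_nonneg_left h3 (by positivity)
        _ = 3 ^ t := h5
    exact_mod_cast h8
  -- the number of points needed
  have hbig : (6 ^ t) ^ S * 2 ≤ P.ncard + 1 := by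
    rw [hPn]
    have h1 : (((6 ^ t) ^ S * 2 : ℕ) : ℝ) ≤ (n : ℝ) := by
      push_cast
      rw [← Real.log_le_log_iff (by positivity) hn0, Real.log_mul (by positivity) (by norm_num),
        Real.log_pow, Real.log_pow, ← hτ]
      have h2 : Real.log 2 < 0.6931471808 := Real.log_two_lt_d9
      have h3 := log_six_le
      have h4 : 0 ≤ Real.log 6 := Real.log_nonneg (by norm_num)
      have h5 : (t : ℝ) * Real.log 6 ≤ 6 * l * 1.8 :=
        mul_le_mul ht2 h3 h4 (by positivity)
      have h6 : (S : ℝ) * (t * Real.log 6) ≤ X / 12 * (6 * l * 1.8) :=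
        mul_le_mul hS1 h5 (by positivity) (by positivity)
      have h7 : X / 12 * (6 * l * 1.8) = 0.9 * τ := by
        rw [← hXl]; ring
      linarith
    have h2 : (6 ^ t) ^ S * 2 ≤ n := by exact_mod_cast h1
    omega
  obtain ⟨Q, hQ1, hQ2, hQ3⟩ := lower_finite2 hD5 hcond hP hfin hbig
  refine ⟨Q, hQ1, fun j hj => kconvex_mono' hj hQ2, ?_⟩
  have h4 : ((2 ^ D : ℕ) : ℝ) ≤ (Q.ncard : ℝ) := by exact_mod_cast hQ3.le
  refine le_trans ?_ h4
  push_cast
  rw [← Real.exp_log (by positivity : (0 : ℝ) < 2 ^ D), Real.log_pow]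
  apply Real.exp_le_exp.mpr
  have h5 : (0.6931471803 : ℝ) < Real.log 2 := Real.log_two_gt_d9
  have h6 : Real.sqrt X / 20 * 0.6931471803 ≤ D * Real.log 2 :=
    mul_le_mul hD3 h5.le (by norm_num) (by linarith)
  have h7 : Real.sqrt X / 30 ≤ Real.sqrt X / 20 * 0.6931471803 := by
    have : 0 ≤ Real.sqrt X := Real.sqrt_nonneg _
    linarith
  linarith

end Pool.Agent.H41.Kc
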